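import Pool.Agent.Lib.MP_b525bf_ag_S.Cur
import Pool.Agent.Lib.MP_b525bf_ag_TS.Drop

/-!
# S7a: the object of a curve satisfies the axiom on blowing up
-/

set_option autoImplicit false

namespace Pool.Agent.MP_b525bf_ag_S

open Pool.Agent.MP_b525bf_ag_TS

variable {k K G : Type} [Field k] [Field K] [Algebra k K] [Group G]
  {φ : G →* (K ≃ₐ[k] K)} {R : Subalgebra k K} {x y : K} {Dx Dy : Derivation k K K}

namespace CurD

open Drop

open scoped Classical

variable {θ : Obj k K} {s t : Bool} {γ : K}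

/-- The clean case, for one chart. -/
theorem half_clean (h : Reg R x y Dx Dy) (hA : Ad θ R x y Dx Dy s t γ) {μ : ℕ}
    (h1 : JP R x y s t ⟨_, hA.ah⟩ ⟨_, hA.ax⟩ ⟨_, hA.ay⟩ ≤ mId R x y ^ μ)
    (h2 : (⟨x, h.hx⟩ : R) ^ μ ∈ JP R x y s t ⟨_, hA.ah⟩ ⟨_, hA.ax⟩ ⟨_, hA.ay⟩)
    {R' : Subalgebra k K} {c : k} (hQ : QT R R' x y c) :
    Ad θ R' x (y / x - algebraMap k K c) (Dx + (y / x) • Dy) (x • Dy) true
          (t && decide (c = 0)) (γ * x ^ μ) ∧
        Jw θ R' x (y / x - algebraMap k K c) (Dx + (y / x) • Dy) (x • Dy) true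
          (t && decide (c = 0)) (γ * x ^ μ) = ⊤ := by
  have hx0 := h.x_ne
  have hy0 := h.symm.x_ne
  have hγ := hA.ne
  have hle : R ≤ R' := hQ.le
  have hyx : y / x ∈ R' := hQ.div_mem
  have hxpow : x ^ μ ≠ 0 := pow_ne_zero _ hx0
  obtain ⟨χ, hχ, hinv⟩ := exists_char h hQ
  set wx : K := θ.ω Dx / γ with hwx
  set wy : K := θ.ω Dy / γ with hwy
  set H : R := ⟨_, hA.ah⟩ with hH
  set A : R := ⟨_, hA.ax⟩ with hAA
  set B : R := ⟨_, hA.ay⟩ with hBB
  have hAv : (A : K) = if s = true then x * wx else wx := by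
    change θ.ω (lD s x Dx) / γ = _
    cases s
    · rfl
    · change θ.ω (x • Dx) / γ = x * wx
      rw [map_smul, smul_eq_mul, hwx, mul_div_assoc]
  have hBv : (B : K) = if t = true then y * wy else wy := by
    change θ.ω (lD t y Dy) / γ = _
    cases t
    · rfl
    · change θ.ω (y • Dy) / γ = y * wy
      rw [map_smul, smul_eq_mul, hwy, mul_div_assoc]
  -- x / y
  have hxy : c ≠ 0 → x / y ∈ R' := by
    intro hc
    have h3 := (hinv 0 1 (by rw [map_zero, map_one]; simpa using hc)).2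
    have e : (((0 : R) : K) + y / x * ((1 : R) : K))⁻¹ = x / y := by
      rw [ZeroMemClass.coe_zero, OneMemClass.coe_one, zero_add, mul_one, inv_div]
    rwa [e] at h3
  -- memberships
  have mem : ∀ z : R, z ∈ JP R x y s t H A B → (z : K) / x ^ μ ∈ R' :=
    fun z hz => hQ.div_pow_mem h (h1 hz)
  have q1 : (H : K) / x ^ μ ∈ R' := mem H (H_mem x y s t H A B)
  have q2 : x * wx / x ^ μ ∈ R' := by
    cases s
    · have h3 := mem _ (mA_mem false t H A B (x_mem h))
      have e : (((⟨x, h.hx⟩ : R) * A : R) : K) = x * wx := by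
        push_cast
        rw [hAv]
        rfl
      rwa [e] at h3
    · have h3 := mem _ (A_mem x y t H A B)
      rwa [hAv, if_pos rfl] at h3
  have q3 : y * wy / x ^ μ ∈ R' := by
    cases t
    · have h3 := mem _ (mB_mem s false H A B (y_mem h))
      have e : (((⟨y, h.hy⟩ : R) * B : R) : K) = y * wy := by
        push_cast
        rw [hBv]
        rfl
      rwa [e] at h3
    · have h3 := mem _ (B_mem x y s H A B)
      rwa [hBv, if_pos rfl] at h3
  have q4 : (x * wx + y * wy) / x ^ μ ∈ R' := by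
    rw [add_div]
    exact R'.add_mem q2 q3
  set t' : Bool := t && decide (c = 0) with ht'
  have q5 : (if t' = true then y * wy else x * wy) / x ^ μ ∈ R' := by
    split_ifs with h3
    · exact q3
    · rw [ht'] at h3
      cases t
      · have h4 := mem _ (mB_mem s false H A B (x_mem h))
        have e : (((⟨x, h.hx⟩ : R) * B : R) : K) = x * wy := by
          push_cast
          rw [hBv]
          rfl
        rwa [e] at h4
      · have hc : c ≠ 0 := by simpa using h3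
        have h4 := R'.mul_mem (hxy hc) q3
        convert h4 using 1
        field_simp
  -- the new coefficients
  have eah : θ.h / (γ * x ^ μ) = (H : K) / x ^ μ := by
    change θ.h / (γ * x ^ μ) = θ.h / γ / x ^ μ
    rw [div_div]
  have eax : θ.ω (lD true x (Dx + (y / x) • Dy)) / (γ * x ^ μ) =
      (x * wx + y * wy) / x ^ μ := by
    have e : lD true x (Dx + (y / x) • Dy) = x • (Dx + (y / x) • Dy) := rfl
    rw [e, map_smul, map_add, map_smul, smul_eq_mul, smul_eq_mul, hwx, hwy]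
    field_simp
  have eay : θ.ω (lD t' (y / x - algebraMap k K c) (x • Dy)) / (γ * x ^ μ) =
      (if t' = true then y * wy else x * wy) / x ^ μ := by
    by_cases h3 : t' = true
    · rw [if_pos h3, h3]
      have hc : c = 0 := by
        rw [ht', Bool.and_eq_true] at h3
        simpa using h3.2
      have e : lD true (y / x - algebraMap k K c) (x • Dy) =
        (y / x - algebraMap k K c) • (x • Dy) := rfl
      rw [e, hc, map_zero, sub_zero, map_smul, map_smul, smul_eq_mul, smul_eq_mul, hwy]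
      field_simp
    · rw [if_neg h3]
      have h4 : t' = false := by simpa using h3
      rw [h4]
      have e : lD false (y / x - algebraMap k K c) (x • Dy) = x • Dy := rfl
      rw [e, map_smul, smul_eq_mul, hwy]
      field_simp
  set J' := Jw θ R' x (y / x - algebraMap k K c) (Dx + (y / x) • Dy) (x • Dy) true t'
    (γ * x ^ μ) with hJ'
  have p1 : PJ J' ((H : K) / x ^ μ) := ⟨q1, Ideal.subset_span (Or.inl eah.symm)⟩
  have p2 : PJ J' ((x * wx + y * wy) / x ^ μ) :=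
    ⟨q4, Ideal.subset_span (Or.inr (Or.inl eax.symm))⟩
  have p3 : PJ J' ((if t' = true then y * wy else x * wy) / x ^ μ) :=
    ⟨q5, Ideal.subset_span (Or.inr (Or.inr eay.symm))⟩
  have htt : t' = true → t = true := by
    intro h3
    rw [ht', Bool.and_eq_true] at h3
    exact h3.1
  have hJQ : JP R x y s t H A B ≤ JQ hle x μ J' := incl_JP h hle hyx htt hAv hBv p1 p2 p3
  -- the new ideal is the unit ideal
  have htop : J' = ⊤ := by
    have h3 : PJ J' ((((⟨x, h.hx⟩ : R) ^ μ : R) : K) / x ^ μ) := hJQ h2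
    have e : (((⟨x, h.hx⟩ : R) ^ μ : R) : K) / x ^ μ = 1 := by
      rw [SubmonoidClass.coe_pow]
      exact div_self hxpow
    rw [e] at h3
    exact PJ.top one_ne_zero h3 (by rw [inv_one]; exact R'.one_mem)
  have hfd3 : FiniteDimensional k (R' ⧸ J') := by
    rw [htop]
    have : Subsingleton (R' ⧸ (⊤ : Ideal R')) := Ideal.Quotient.subsingleton_iff.2 rfl
    infer_instance
  refine ⟨⟨mul_ne_zero hγ hxpow, ?_, ?_, ?_, ?_, ?_, hfd3⟩, htop⟩
  · -- gx
    have e : lD true x (Dx + (y / x) • Dy) = x • (Dx + (y / x) • Dy) := rfl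
    have h3 : x * Dx γ / γ ∈ R' := by
      cases s
      · have h4 := R'.mul_mem (hle h.hx) (hle hA.gx)
        have e2 : lD false x Dx = Dx := rfl
        rwa [e2, ← mul_div_assoc] at h4
      · exact hle hA.gx
    have h4 : y * Dy γ / γ ∈ R' := by
      cases t
      · have h5 := R'.mul_mem (hle h.hy) (hle hA.gy)
        have e2 : lD false y Dy = Dy := rfl
        rwa [e2, ← mul_div_assoc] at h5
      · exact hle hA.gy
    have h5 := R'.add_mem (R'.add_mem h3 h4) (natCast_mem R' μ)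
    convert h5 using 1
    rw [e, Derivation.smul_apply, Derivation.add_apply, Derivation.smul_apply,
      Derivation.leibniz, Derivation.leibniz, deriv_pow h.yx]
    simp only [smul_eq_mul, mul_zero, zero_add]
    have h6 := mul_deriv_pow h.xx μ
    field_simp
    linear_combination γ * h6
  · -- gy
    have h0 : (x • Dy) (γ * x ^ μ) = x ^ μ * (x * Dy γ) := by
      rw [Derivation.smul_apply, Derivation.leibniz, deriv_pow h.yx]
      simp only [smul_eq_mul, mul_zero, zero_add]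
      ring
    by_cases h3 : t' = true
    · have hc : c = 0 := by
        rw [ht', Bool.and_eq_true] at h3
        simpa using h3.2
      have ht := htt h3
      rw [h3]
      have e : lD true (y / x - algebraMap k K c) (x • Dy) =
        (y / x - algebraMap k K c) • (x • Dy) := rfl
      rw [e, hc, map_zero, sub_zero, Derivation.smul_apply, h0, smul_eq_mul]
      have h4 := hle hA.gy
      rw [ht] at h4
      have e2 : lD true y Dy γ = y * Dy γ := rfl
      rw [e2] at h4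
      convert h4 using 1
      field_simp
    · have h4 : t' = false := by simpa using h3
      rw [h4]
      have e : lD false (y / x - algebraMap k K c) (x • Dy) = x • Dy := rfl
      rw [e, h0]
      rw [ht'] at h3
      cases t
      · have h5 := R'.mul_mem (hle h.hx) (hle hA.gy)
        have e2 : lD false y Dy = Dy := rfl
        rw [e2] at h5
        convert h5 using 1
        field_simp
      · have hc : c ≠ 0 := by simpa using h3
        have h5 := R'.mul_mem (hxy hc) (hle hA.gy)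
        have e2 : lD true y Dy γ = y * Dy γ := rfl
        rw [e2] at h5
        convert h5 using 1
        field_simp
  · rw [eah]; exact q1
  · rw [eax]; exact q4
  · rw [eay]; exact q5

/-- In the clean case `J⁺` is the unit ideal or the maximal ideal. -/
theorem clean_order (h : Reg R x y Dx Dy) (hA : Ad θ R x y Dx Dy s t γ)
    (hc : Jw θ R x y Dx Dy s t γ = ⊤) : ∃ μ : ℕ,
    JP R x y s t ⟨_, hA.ah⟩ ⟨_, hA.ax⟩ ⟨_, hA.ay⟩ ≤ mId R x y ^ μ ∧
    (⟨x, h.hx⟩ : R) ^ μ ∈ JP R x y s t ⟨_, hA.ah⟩ ⟨_, hA.ax⟩ ⟨_, hA.ay⟩ ∧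
    (⟨y, h.hy⟩ : R) ^ μ ∈ JP R x y s t ⟨_, hA.ah⟩ ⟨_, hA.ax⟩ ⟨_, hA.ay⟩ := by
  set H : R := ⟨_, hA.ah⟩ with hH
  set A : R := ⟨_, hA.ax⟩ with hAA
  set B : R := ⟨_, hA.ay⟩ with hBB
  have hunit : ∀ z : R, z ∉ mId R x y → IsUnit z := by
    intro z hz
    obtain ⟨h3, -, h4⟩ := h.unitIn.1 hz
    exact IsUnit.of_mul_eq_one ⟨_, h4⟩ (Subtype.ext (mul_inv_cancel₀ h3))
  by_cases hJP : JP R x y s t H A B = ⊤
  · refine ⟨0, ?_, ?_, ?_⟩
    · rw [pow_zero, Ideal.one_eq_top]
      exact le_top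
    · rw [hJP]; trivial
    · rw [hJP]; trivial
  · have hle : JP R x y s t H A B ≤ mId R x y := by
      intro z hz
      by_contra hcon
      exact hJP (Ideal.eq_top_of_isUnit_mem _ hz (hunit z hcon))
    have key : (s = false ∧ A ∉ mId R x y) ∨ (t = false ∧ B ∉ mId R x y) := by
      by_contra hcon
      push Not at hcon
      have hA' : A ∈ mId R x y := by
        cases s
        · exact hcon.1 rfl
        · exact hle (A_mem x y t H A B)
      have hB' : B ∈ mId R x y := by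
        cases t
        · exact hcon.2 rfl
        · exact hle (B_mem x y s H A B)
      have h1 : JW H A B ≤ mId R x y := by
        unfold JW
        refine sup_le (sup_le ?_ ?_) ?_
        · rw [Ideal.span_singleton_le_iff_mem]; exact hle (H_mem x y s t H A B)
        · rw [Ideal.span_singleton_le_iff_mem]; exact hA'
        · rw [Ideal.span_singleton_le_iff_mem]; exact hB'
      rw [← Jw_eq hA, hc] at h1
      have h2 : (1 : R) ∈ mId R x y := h1 trivial
      obtain ⟨u, v, e⟩ := (mem_mId_iff h).1 h2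
      exact h.one u u.2 v v.2 e
    have hmem : ∀ r : R, r ∈ mId R x y → r ∈ JP R x y s t H A B := by
      intro r hr
      rcases key with ⟨hs, hu⟩ | ⟨ht, hu⟩
      · obtain ⟨v, hv⟩ := hunit A hu
        have h1 : r * A ∈ JP R x y s t H A B := mA_mem s t H A B hr
        have h2 := Ideal.mul_mem_left _ ((v⁻¹ : Rˣ) : R) h1
        have e : ((v⁻¹ : Rˣ) : R) * (r * A) = r := by
          rw [← hv, mul_comm, mul_assoc, Units.mul_inv, mul_one]
        rwa [e] at h2
      · obtain ⟨v, hv⟩ := hunit B hu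
        have h1 : r * B ∈ JP R x y s t H A B := mB_mem s t H A B hr
        have h2 := Ideal.mul_mem_left _ ((v⁻¹ : Rˣ) : R) h1
        have e : ((v⁻¹ : Rˣ) : R) * (r * B) = r := by
          rw [← hv, mul_comm, mul_assoc, Units.mul_inv, mul_one]
        rwa [e] at h2
    refine ⟨1, ?_, ?_, ?_⟩
    · rw [pow_one]; exact hle
    · rw [pow_one]; exact hmem _ (x_mem h)
    · rw [pow_one]; exact hmem _ (y_mem h)

/-- A clean object remains clean. -/
theorem drop_clean (h : Reg R x y Dx Dy) (hA : Ad θ R x y Dx Dy s t γ)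
    (hc : Jw θ R x y Dx Dy s t γ = ⊤) :
    ∃ μ : ℕ,
      (∀ (R' : Subalgebra k K) (c : k), QT R R' x y c →
        Ad θ R' x (y / x - algebraMap k K c) (Dx + (y / x) • Dy) (x • Dy) true
          (t && decide (c = 0)) (γ * x ^ μ) ∧
        Jw θ R' x (y / x - algebraMap k K c) (Dx + (y / x) • Dy) (x • Dy) true
          (t && decide (c = 0)) (γ * x ^ μ) = ⊤) ∧
      ∀ R' : Subalgebra k K, QT R R' y x 0 →
        Ad θ R' (x / y) y (y • Dx) (Dy + (x / y) • Dx) s true (γ * y ^ μ) ∧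
        Jw θ R' (x / y) y (y • Dx) (Dy + (x / y) • Dx) s true (γ * y ^ μ) = ⊤ := by
  obtain ⟨μ, h1, h2, h3⟩ := clean_order h hA hc
  refine ⟨μ, fun R' c hQ => half_clean h hA h1 h2 hQ, fun R' hQ => ?_⟩
  have h1' : JP R y x t s ⟨_, (Drop.Ad.symm hA).ah⟩ ⟨_, (Drop.Ad.symm hA).ax⟩
      ⟨_, (Drop.Ad.symm hA).ay⟩ ≤ mId R y x ^ μ := by
    rw [JP_symm, mId_symm]
    exact h1
  have h2' : (⟨y, h.symm.hx⟩ : R) ^ μ ∈ JP R y x t s ⟨_, (Drop.Ad.symm hA).ah⟩
      ⟨_, (Drop.Ad.symm hA).ax⟩ ⟨_, (Drop.Ad.symm hA).ay⟩ := by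
    rw [JP_symm]
    exact h3
  have key := half_clean h.symm (Drop.Ad.symm hA) h1' h2' hQ
  simp only [map_zero, sub_zero, decide_true, Bool.and_true] at key
  obtain ⟨k1, k2⟩ := key
  refine ⟨Drop.Ad.symm k1, ?_⟩
  rw [Jw_symm] at k2
  exact k2

end CurD

/-- The object `(π, dπ)`. -/
def curO (π : K) : Obj k K := ⟨π, lform 1 π⟩

theorem curO_closed (π : K) : (curO (k := k) π).Closed := by
  refine ⟨fun D D' => ?_, Or.inr fun D => one_mul _⟩
  change D (1 * D' π) - D' (1 * D π) = 1 * ⁅D, D'⁆ π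
  rw [one_mul, one_mul, one_mul, Derivation.commutator_apply]

theorem curO_apply (π : K) (D : Derivation k K K) : (curO (k := k) π).ω D = D π := one_mul _

namespace CurD

theorem lD_mul (s : Bool) (x : K) (D : Derivation k K K) (π u : K) :
    lD s x D (π * u) = u * lD s x D π + π * lD s x D u := by
  rw [Derivation.leibniz, smul_eq_mul, smul_eq_mul]
  ring

/-- The logarithmic derivative of a monomial. -/
theorem mon_ld (h : Reg R x y Dx Dy) {s t : Bool} {γ : K} (hMon : Mon R x y s t γ) :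
    lD s x Dx γ / γ ∈ R := by
  obtain ⟨m, n, ⟨hu0, hu, hui⟩, hs, -⟩ := hMon
  have hx0 := h.x_ne
  have hy0 := h.symm.x_ne
  set u := γ / (x ^ m * y ^ n) with hudef
  have hγ : γ = x ^ m * y ^ n * u := by
    rw [hudef]
    have := zpow_ne_zero m hx0
    have := zpow_ne_zero n hy0
    field_simp
  have hz : ∀ (D : Derivation k K K) (z : K) (a : ℤ), z ≠ 0 → D (z ^ a) = a * z ^ a * (D z / z) := by
    intro D z a hz0
    have h1 := Derivation.leibniz_zpow D z a
    rw [h1, smul_eq_mul, zsmul_eq_mul, zpow_sub_one₀ hz0]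
    field_simp
  have hyn : lD s x Dx (y ^ n) = 0 := by
    rw [hz _ _ _ hy0]
    have h1 : lD s x Dx y = 0 := by
      cases s
      · exact h.xy
      · change x * Dx y = 0
        rw [h.xy, mul_zero]
    rw [h1, zero_div, mul_zero]
  have hxm : lD s x Dx (x ^ m) = m * x ^ m := by
    cases s
    · rw [hs rfl]
      simp
    · rw [hz _ _ _ hx0]
      have h1 : lD true x Dx x = x := by
        change x * Dx x = x
        rw [h.xx, mul_one]
      rw [h1, div_self hx0, mul_one]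
  have hDu : lD s x Dx u ∈ R := by
    cases s
    · exact h.Dx_mem u hu
    · exact R.mul_mem h.hx (h.Dx_mem u hu)
  have e : lD s x Dx γ / γ = m + lD s x Dx u * u⁻¹ := by
    rw [hγ, Derivation.leibniz, Derivation.leibniz, hyn, hxm]
    simp only [smul_eq_mul]
    have := zpow_ne_zero m hx0
    have := zpow_ne_zero n hy0
    field_simp
    ring
  rw [e]
  exact R.add_mem (intCast_mem R m) (R.mul_mem hDu hui)

theorem mon_symm {s t : Bool} {γ : K} (hMon : Mon R x y s t γ) : Mon R y x t s γ := by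
  obtain ⟨m, n, hu, hs, ht⟩ := hMon
  refine ⟨n, m, ?_, ht, hs⟩
  rw [mul_comm]
  exact hu

theorem lD_mem' (h : Reg R x y Dx Dy) (s : Bool) {z : K} (hz : z ∈ R) : lD s x Dx z ∈ R := by
  cases s
  · exact h.Dx_mem z hz
  · exact R.mul_mem h.hx (h.Dx_mem z hz)

end CurD

/-- The ideal of the object of a curve if `J₀ R = (π)` and `(π, dπ)` is divisible by `γ`. -/
theorem JL_eq {B : Subalgebra k K} {J₀ : Ideal B} (h : Reg R x y Dx Dy) {s t : Bool} {γ : K}
    {π : B} (hπ : π ∈ J₀) (hπ0 : (π : K) ≠ 0)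
    (hπJ : ∀ w : B, w ∈ J₀ → (w : K) / π ∈ R) (ah : (π : K) / γ ∈ R)
    (ax : lD s x Dx (π : K) / γ ∈ R) (ay : lD t y Dy (π : K) / γ ∈ R) :
    (∀ l ∈ curL B J₀ R x y Dx Dy s t, l / γ ∈ R) ∧
    JL (curL B J₀) R x y Dx Dy s t γ = Jw (curO (k := k) (π : K)) R x y Dx Dy s t γ := by
  have hw : ∀ w : B, w ∈ J₀ → (w : K) = π * ((w : K) / π) := fun w _ => by
    field_simp
  set I := Jw (curO (k := k) (π : K)) R x y Dx Dy s t γ with hI
  have i1 : (⟨_, ah⟩ : R) ∈ I := Ideal.subset_span (Or.inl rfl)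
  have i2 : (⟨_, ax⟩ : R) ∈ I := Ideal.subset_span (Or.inr (Or.inl (by
    change _ = (curO (k := k) (π : K)).ω _ / γ
    rw [curO_apply])))
  have i3 : (⟨_, ay⟩ : R) ∈ I := Ideal.subset_span (Or.inr (Or.inr (by
    change _ = (curO (k := k) (π : K)).ω _ / γ
    rw [curO_apply])))
  have key : ∀ l ∈ curL B J₀ R x y Dx Dy s t, ∃ z ∈ I, (z : K) = l / γ := by
    rintro l ⟨w, hwJ, rfl | rfl | rfl⟩
    · refine ⟨⟨_, hπJ w hwJ⟩ * ⟨_, ah⟩, Ideal.mul_mem_left _ _ i1, ?_⟩
      push_cast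
      field_simp
    · refine ⟨⟨_, hπJ w hwJ⟩ * ⟨_, ax⟩ + ⟨_, CurD.lD_mem' h s (hπJ w hwJ)⟩ * ⟨_, ah⟩,
        Ideal.add_mem _ (Ideal.mul_mem_left _ _ i2) (Ideal.mul_mem_left _ _ i1), ?_⟩
      push_cast
      conv_rhs => rw [hw w hwJ, CurD.lD_mul]
      rw [add_div, mul_div_assoc, mul_comm (π : K), mul_div_assoc]
    · refine ⟨⟨_, hπJ w hwJ⟩ * ⟨_, ay⟩ + ⟨_, CurD.lD_mem' h.symm t (hπJ w hwJ)⟩ * ⟨_, ah⟩,
        Ideal.add_mem _ (Ideal.mul_mem_left _ _ i3) (Ideal.mul_mem_left _ _ i1), ?_⟩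
      push_cast
      conv_rhs => rw [hw w hwJ, CurD.lD_mul]
      rw [add_div, mul_div_assoc, mul_comm (π : K), mul_div_assoc]
  refine ⟨fun l hl => ?_, le_antisymm ?_ ?_⟩
  · obtain ⟨z, -, e⟩ := key l hl
    rw [← e]
    exact z.2
  · unfold JL
    rw [Ideal.span_le]
    rintro z ⟨l, hl, e⟩
    obtain ⟨z', hz', e'⟩ := key l hl
    have : z = z' := Subtype.ext (e.trans e'.symm)
    rw [this]
    exact hz'
  · rw [hI]
    unfold Jw
    rw [Ideal.span_le]
    rintro z (e | e | e)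
    · exact Ideal.subset_span ⟨π, ⟨π, hπ, Or.inl rfl⟩, e⟩
    · exact Ideal.subset_span ⟨_, ⟨π, hπ, Or.inr (Or.inl rfl)⟩, by rw [e, curO_apply]⟩
    · exact Ideal.subset_span ⟨_, ⟨π, hπ, Or.inr (Or.inr rfl)⟩, by rw [e, curO_apply]⟩

/-- Comparison with the object `(π, dπ)`. -/
theorem JL_of_ad {B : Subalgebra k K} {J₀ : Ideal B} (h : Reg R x y Dx Dy) {s t : Bool} {γ : K}
    {π : B} (hπ : π ∈ J₀) (hπ0 : (π : K) ≠ 0)
    (hπJ : ∀ w : B, w ∈ J₀ → (w : K) / π ∈ R)
    (hA : Ad (curO (k := k) (π : K)) R x y Dx Dy s t γ) :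
    AdL (curL B J₀) R x y Dx Dy s t γ ∧
    JL (curL B J₀) R x y Dx Dy s t γ = Jw (curO (k := k) (π : K)) R x y Dx Dy s t γ := by
  have h1 := JL_eq h (γ := γ) hπ hπ0 hπJ hA.ah (by
    have := hA.ax
    rwa [curO_apply] at this) (by
    have := hA.ay
    rwa [curO_apply] at this)
  refine ⟨⟨hA.ne, h1.1, ?_⟩, h1.2⟩
  rw [h1.2]
  exact hA.fin

/-- Comparison with the object `(π, dπ)`. -/
theorem JL_curL {B : Subalgebra k K} {J₀ : Ideal B} (h : Reg R x y Dx Dy) {s t : Bool} {γ : K}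
    (hMon : Mon R x y s t γ) {π : B} (hπ : π ∈ J₀) (hπ0 : (π : K) ≠ 0)
    (hπJ : ∀ w : B, w ∈ J₀ → (w : K) / π ∈ R) :
    (AdL (curL B J₀) R x y Dx Dy s t γ →
      JL (curL B J₀) R x y Dx Dy s t γ = Jw (curO (k := k) (π : K)) R x y Dx Dy s t γ) ∧
      (AdL (curL B J₀) R x y Dx Dy s t γ ↔ Ad (curO (k := k) (π : K)) R x y Dx Dy s t γ) := by
  have h1 : AdL (curL B J₀) R x y Dx Dy s t γ →
      JL (curL B J₀) R x y Dx Dy s t γ = Jw (curO (k := k) (π : K)) R x y Dx Dy s t γ := by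
    intro hA
    exact (JL_eq h hπ hπ0 hπJ (hA.mem _ ⟨π, hπ, Or.inl rfl⟩)
      (hA.mem _ ⟨π, hπ, Or.inr (Or.inl rfl)⟩) (hA.mem _ ⟨π, hπ, Or.inr (Or.inr rfl)⟩)).2
  refine ⟨h1, fun hA => ?_, fun hA => (JL_of_ad h hπ hπ0 hπJ hA).1⟩
  refine ⟨hA.ne, CurD.mon_ld h hMon, CurD.mon_ld h.symm (CurD.mon_symm hMon),
    hA.mem _ ⟨π, hπ, Or.inl rfl⟩, ?_, ?_, ?_⟩
  · rw [curO_apply]
    exact hA.mem _ ⟨π, hπ, Or.inr (Or.inl rfl)⟩
  · rw [curO_apply]
    exact hA.mem _ ⟨π, hπ, Or.inr (Or.inr rfl)⟩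
  · rw [← h1 hA]
    exact hA.fin

theorem cur_drop (B : Subalgebra k K) (J₀ : Ideal B) :
    LDrop φ (curL B J₀) ∅ (curA B J₀) := by
  classical
  intro R x y Dx Dy s t γ h _ hadm hMon hAd
  obtain ⟨hBR, π, hπ, hπ0, hπJ⟩ := hadm
  obtain ⟨hJ, hiff⟩ := JL_curL h hMon hπ hπ0 hπJ
  have hA := hiff.1 hAd
  have hJL := hJ hAd
  have einv : invL (curL B J₀) R x y Dx Dy s t γ =
      inv2 (curO (k := k) (π : K)) R x y Dx Dy s t γ := by
    unfold invL inv2
    rw [hJL]
  -- the charts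
  have r1 : ∀ (R' : Subalgebra k K) (c : k), QT R R' x y c →
      Reg R' x (y / x - algebraMap k K c) (Dx + (y / x) • Dy) (x • Dy) := fun R' c hQ => h.qt hQ
  have r2 : ∀ (R' : Subalgebra k K), QT R R' y x 0 →
      Reg R' (x / y) y (y • Dx) (Dy + (x / y) • Dx) := by
    intro R' hQ
    have h1 := (h.symm.qt hQ).symm
    rwa [map_zero, sub_zero] at h1
  have step : ∀ (R' : Subalgebra k K) (x' y' : K) (Dx' Dy' : Derivation k K K) (s' t' : Bool)
      (γ' : K), R ≤ R' → Reg R' x' y' Dx' Dy' →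
      Ad (curO (k := k) (π : K)) R' x' y' Dx' Dy' s' t' γ' →
      (Jw (curO (k := k) (π : K)) R' x' y' Dx' Dy' s' t' γ' = ⊤ ∨
        (¬ JL (curL B J₀) R x y Dx Dy s t γ = ⊤ ∧
          inv2 (curO (k := k) (π : K)) R' x' y' Dx' Dy' s' t' γ' <
            inv2 (curO (k := k) (π : K)) R x y Dx Dy s t γ)) →
      Stp (curL B J₀) (curA B J₀) R' x' y' Dx' Dy' s' t' γ'
        (JL (curL B J₀) R x y Dx Dy s t γ = ⊤) (invL (curL B J₀) R x y Dx Dy s t γ) := by
    intro R' x' y' Dx' Dy' s' t' γ' hle hR' hA' hor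
    have hπJ' : ∀ w : B, w ∈ J₀ → (w : K) / π ∈ R' := fun w hw => hle (hπJ w hw)
    obtain ⟨k1, k2⟩ := JL_of_ad hR' hπ hπ0 hπJ' hA'
    refine ⟨⟨hBR.trans hle, π, hπ, hπ0, hπJ'⟩, k1, ?_⟩
    rcases hor with h1 | ⟨h1, h2⟩
    · left
      rw [k2]
      exact h1
    · right
      refine ⟨h1, ?_⟩
      rw [einv]
      unfold invL
      rw [k2]
      exact h2
  by_cases hclean : JL (curL B J₀) R x y Dx Dy s t γ = ⊤
  · have hc : Jw (curO (k := k) (π : K)) R x y Dx Dy s t γ = ⊤ := by rw [← hJL]; exact hclean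
    obtain ⟨μ, m1, m2⟩ := CurD.drop_clean h hA hc
    refine ⟨μ, fun R' c hQ _ => ?_, fun R' hQ _ => ?_⟩
    · rw [zpow_natCast]
      obtain ⟨n1, n2⟩ := m1 R' c hQ
      exact step R' _ _ _ _ _ _ _ hQ.le (r1 R' c hQ) n1 (Or.inl n2)
    · rw [zpow_natCast]
      obtain ⟨n1, n2⟩ := m2 R' hQ
      exact step R' _ _ _ _ _ _ _ hQ.le (r2 R' hQ) n1 (Or.inl n2)
  · have hc : Jw (curO (k := k) (π : K)) R x y Dx Dy s t γ ≠ ⊤ := by rw [← hJL]; exact hclean
    obtain ⟨μ, m1, m2⟩ := Ad.drop (curO_closed (k := k) (π : K)) h hA hc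
    refine ⟨μ, fun R' c hQ _ => ?_, fun R' hQ _ => ?_⟩
    · rw [zpow_natCast]
      obtain ⟨n1, n2⟩ := m1 R' c hQ
      exact step R' _ _ _ _ _ _ _ hQ.le (r1 R' c hQ) n1 (n2.imp_right fun h3 => ⟨hclean, h3⟩)
    · rw [zpow_natCast]
      obtain ⟨n1, n2⟩ := m2 R' hQ
      exact step R' _ _ _ _ _ _ _ hQ.le (r2 R' hQ) n1 (n2.imp_right fun h3 => ⟨hclean, h3⟩)

end Pool.Agent.MP_b525bf_ag_S
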