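import Pool.Agent.Lib.MP_b525bf_ag_S.Defs
import Pool.Agent.Lib.MP_b525bf_ag_TS.Blow
import Pool.Agent.Lib.MP_b525bf_ag_TS.Prime

/-!
# S0: boundary data without names of the curves
-/

set_option autoImplicit false

namespace Pool.Agent.MP_b525bf_ag_S

open Pool.Agent.MP_b525bf_ag_TS

variable {k K : Type} [Field k] [Field K] [Algebra k K] {B : Subalgebra k K}
  {E : Type} [Fintype E] {J : E → Ideal B} {e : E → E → ℤ}
  {R : Subalgebra k K} {h : E → K} {x y : K} {Dx Dy : Derivation k K K}
  {s t : Bool} {b : E → Option Bool}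

/-- The localisation at the prime `(x)`. -/
theorem exists_val (h : Reg R x y Dx Dy) : ∃ V, Val R x V := by
  have hpr : ∀ b ∈ R, ∀ b' ∈ R, (∀ u ∈ R, b ≠ x * u) → (∀ u ∈ R, b' ≠ x * u) →
      ∀ u ∈ R, b * b' ≠ x * u := by
    intro b hb b' hb' h1 h2 u hu h3
    rcases h.prime_x hb hb' ⟨u, hu, h3⟩ with ⟨v, hv, h4⟩ | ⟨v, hv, h4⟩
    · exact h1 v hv h4
    · exact h2 v hv h4
  have hone : ∀ u ∈ R, (1 : K) ≠ x * u := fun u hu h1 => h.one_notMem_x ⟨u, hu, h1⟩
  let V : Subalgebra k K :=
    { carrier := {z | ∃ a ∈ R, ∃ b ∈ R, (∀ u ∈ R, b ≠ x * u) ∧ z * b = a}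
      mul_mem' := by
        rintro z w ⟨a, ha, b, hb, h1, h2⟩ ⟨a', ha', b', hb', h1', h2'⟩
        refine ⟨a * a', R.mul_mem ha ha', b * b', R.mul_mem hb hb', hpr b hb b' hb' h1 h1', ?_⟩
        rw [← h2, ← h2']
        ring
      add_mem' := by
        rintro z w ⟨a, ha, b, hb, h1, h2⟩ ⟨a', ha', b', hb', h1', h2'⟩
        refine ⟨a * b' + a' * b, R.add_mem (R.mul_mem ha hb') (R.mul_mem ha' hb), b * b',
          R.mul_mem hb hb', hpr b hb b' hb' h1 h1', ?_⟩
        rw [← h2, ← h2']
        ring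
      algebraMap_mem' := fun r => ⟨algebraMap k K r, R.algebraMap_mem r, 1, R.one_mem, hone,
        mul_one _⟩ }
  refine ⟨V, h.hx, ?_, ?_, ?_⟩
  · intro z hz
    exact ⟨z, hz, 1, R.one_mem, hone, mul_one _⟩
  · rintro ⟨a, ha, b, hb, h1, h2⟩
    refine h1 a ha ?_
    rw [← h2, ← mul_assoc, mul_inv_cancel₀ h.x_ne, one_mul]
  · intro z hz h1
    have hz0 : z ≠ 0 := by
      rintro rfl
      exact h1 0 R.zero_mem (mul_zero x).symm
    exact ⟨1, R.one_mem, z, hz, h1, inv_mul_cancel₀ hz0⟩

theorem ptN_intro (gen : GenAt B J R h) (reg : Reg R x y Dx Dy)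
    (b0 : ∀ j, b j = none → UnitIn R (xi h e j))
    (bx : ∀ j, b j = some false → UnitIn R (xi h e j / x))
    (by' : ∀ j, b j = some true → UnitIn R (xi h e j / y))
    (s_iff : s = true ↔ ∃ j, b j = some false) (t_iff : t = true ↔ ∃ j, b j = some true)
    (inj : ∀ j j', b j ≠ none → b j = b j' → j = j') : PtN B J e R h x y Dx Dy s t b := by
  have hx0 : x ≠ 0 := reg.x_ne
  have hy0 : y ≠ 0 := reg.symm.x_ne
  obtain ⟨Vx, hVx⟩ := exists_val reg
  obtain ⟨Vy, hVy⟩ := exists_val reg.symm
  have hV : ∀ j, ∃ V, b j ≠ none → Val R (xi h e j) V := by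
    intro j
    rcases hb : b j with _ | c
    · exact ⟨⊥, fun h => absurd rfl h⟩
    · cases c
      · refine ⟨Vx, fun _ => ?_⟩
        have h1 := hVx.mul_unit (bx j hb)
        rwa [mul_div_cancel₀ _ hx0] at h1
      · refine ⟨Vy, fun _ => ?_⟩
        have h1 := hVy.mul_unit (by' j hb)
        rwa [mul_div_cancel₀ _ hy0] at h1
  choose V hV using hV
  exact ⟨V, gen, reg, b0, bx, by', s_iff, t_iff, inj, hV⟩

private theorem key (hp : PtN B J e R h x y Dx Dy s t b) (w : E → ℤ) :
    UnitIn R ((∏ j, xi h e j ^ w j) / (x ^ (∑ j, if b j = some false then w j else 0) *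
      y ^ (∑ j, if b j = some true then w j else 0))) := by
  obtain ⟨V, hV⟩ := hp
  have hx0 : x ≠ 0 := hV.reg.x_ne
  have hy0 : y ≠ 0 := hV.reg.symm.x_ne
  rw [← prod_zpow_sum _ hx0, ← prod_zpow_sum _ hy0, ← Finset.prod_mul_distrib,
    ← Finset.prod_div_distrib]
  refine UnitIn.prod _ fun j _ => ?_
  rcases hb : b j with _ | c
  · simp only [reduceCtorEq, if_false, zpow_zero, mul_one, div_one]
    exact (hV.b0 j hb).zpow _
  · cases c
    · simp only [Option.some.injEq, reduceCtorEq, if_true, if_false, zpow_zero, mul_one]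
      rw [← div_zpow]
      exact (hV.bx j hb).zpow _
    · simp only [Option.some.injEq, Bool.true_eq_false, if_true, if_false, zpow_zero, one_mul]
      rw [← div_zpow]
      exact (hV.by' j hb).zpow _

/-- The product of the boundary coordinates is a monomial. -/
theorem ptN_mon (hp : PtN B J e R h x y Dx Dy s t b) (w : E → ℤ) :
    Mon R x y s t (∏ j, xi h e j ^ w j) := by
  refine ⟨_, _, key hp w, ?_, ?_⟩
  · intro hs
    obtain ⟨V, hV⟩ := hp
    refine Finset.sum_eq_zero fun j _ => if_neg fun hj => ?_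
    rw [hV.s_iff.mpr ⟨j, hj⟩] at hs
    exact absurd hs (by decide)
  · intro ht
    obtain ⟨V, hV⟩ := hp
    refine Finset.sum_eq_zero fun j _ => if_neg fun hj => ?_
    rw [hV.t_iff.mpr ⟨j, hj⟩] at ht
    exact absurd ht (by decide)

/-- The coordinates `x`, `y` of the boundary are products of the local equations and units. -/
theorem ptN_x (hp : PtN B J e R h x y Dx Dy s t b) (hs : s = true) :
    ∃ j, b j = some false ∧ UnitIn R (xi h e j / x) ∧ UnitIn R (x / xi h e j) := by
  obtain ⟨V, hV⟩ := hp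
  obtain ⟨j, hj⟩ := hV.s_iff.mp hs
  have h1 := (hV.bx j hj).inv
  rw [inv_div] at h1
  exact ⟨j, hj, hV.bx j hj, h1⟩

theorem ptN_y (hp : PtN B J e R h x y Dx Dy s t b) (ht : t = true) :
    ∃ j, b j = some true ∧ UnitIn R (xi h e j / y) ∧ UnitIn R (y / xi h e j) := by
  obtain ⟨V, hV⟩ := hp
  obtain ⟨j, hj⟩ := hV.t_iff.mp ht
  have h1 := (hV.by' j hj).inv
  rw [inv_div] at h1
  exact ⟨j, hj, hV.by' j hj, h1⟩

private theorem sum_one {c : Option Bool} (hc : c ≠ none)
    (inj : ∀ j j', b j ≠ none → b j = b j' → j = j') {m : ℤ}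
    (hm : (¬ ∃ j, b j = c) → m = 0) : (∑ j, if b j = c then m else 0) = m := by
  by_cases hex : ∃ j, b j = c
  · obtain ⟨j, hj⟩ := hex
    rw [Finset.sum_eq_single j, if_pos hj]
    · intro j' _ hj'
      refine if_neg fun h1 => hj' ?_
      exact inj j' j (by rw [h1]; exact hc) (by rw [h1, hj])
    · intro h1
      exact absurd (Finset.mem_univ j) h1
  · rw [hm hex]
    exact Finset.sum_eq_zero fun j _ => by rw [ite_self]

/-- A monomial in the coordinates with the right flags is a product of local equations. -/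
theorem ptN_exists_w (hp : PtN B J e R h x y Dx Dy s t b) {γ : K} {m n : ℤ}
    (hγ : UnitIn R (γ / (x ^ m * y ^ n))) (hm : s = false → m = 0) (hn : t = false → n = 0) :
    ∃ w : E → ℤ, (∀ j, b j = some false → w j = m) ∧ (∀ j, b j = some true → w j = n) ∧
      (∀ j, b j = none → w j = 0) ∧ UnitIn R (γ / ∏ j, xi h e j ^ w j) := by
  let w : E → ℤ := fun j => if b j = some false then m else if b j = some true then n else 0
  have hw1 : ∀ j, b j = some false → w j = m := fun j hj => if_pos hj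
  have hw2 : ∀ j, b j = some true → w j = n := fun j hj => by
    change (if b j = some false then m else if b j = some true then n else 0) = n
    rw [hj]
    simp
  have hw3 : ∀ j, b j = none → w j = 0 := fun j hj => by
    change (if b j = some false then m else if b j = some true then n else 0) = 0
    rw [hj]
    simp
  refine ⟨w, hw1, hw2, hw3, ?_⟩
  have h1 := key hp w
  obtain ⟨V, hV⟩ := hp
  have h2 : (∑ j, if b j = some false then w j else 0) = m := by
    rw [← sum_one (c := some false) (m := m) (by simp) hV.inj]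
    · refine Finset.sum_congr rfl fun j _ => ?_
      by_cases hj : b j = some false
      · rw [if_pos hj, if_pos hj, hw1 j hj]
      · rw [if_neg hj, if_neg hj]
    · intro hex
      apply hm
      by_contra hs
      rw [Bool.not_eq_false] at hs
      exact hex (hV.s_iff.mp hs)
  have h3 : (∑ j, if b j = some true then w j else 0) = n := by
    rw [← sum_one (c := some true) (m := n) (by simp) hV.inj]
    · refine Finset.sum_congr rfl fun j _ => ?_
      by_cases hj : b j = some true
      · rw [if_pos hj, if_pos hj, hw2 j hj]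
      · rw [if_neg hj, if_neg hj]
    · intro hex
      apply hn
      by_contra ht
      rw [Bool.not_eq_false] at ht
      exact hex (hV.t_iff.mp ht)
  rw [h2, h3] at h1
  have h4 := hγ.mul h1.inv
  have hxy : x ^ m * y ^ n ≠ 0 :=
    mul_ne_zero (zpow_ne_zero _ hV.reg.x_ne) (zpow_ne_zero _ hV.reg.symm.x_ne)
  rw [inv_div, div_mul_div_cancel₀ hxy] at h4
  exact h4

end Pool.Agent.MP_b525bf_ag_S
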