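import Pool.Agent.Lib.MP_b525bf_ag_S.PtsS
import Pool.Agent.Lib.MP_b525bf_ag_S.CurDrop
import Pool.Agent.Lib.MP_b525bf_ag_S.PtN
import Pool.Agent.Lib.MP_b525bf_ag_TS.Add

/-!
# S12a: adding a resolved curve to the boundary
-/

set_option autoImplicit false

namespace Pool.Agent.MP_b525bf_ag_S

open Pool.Agent.MP_b525bf_ag_TS H41F

variable {k K G : Type} [Field k] [Field K] [Algebra k K] [Group G] {B : Subalgebra k K}
  {E : Type} [Fintype E] {J : E → Ideal B} {e : E → E → ℤ} {φ : G →* (K ≃ₐ[k] K)}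

open H86 in
/-- Blowing up of a locally principal ideal does not change the points. -/
theorem pt_opt {J₀ : Ideal B}
    (hpr : ∀ R, Pt B J R → ∃ π : B, π ∈ J₀ ∧ (π : K) ≠ 0 ∧ ∀ w : B, w ∈ J₀ → (w : K) / π ∈ R)
    {R' : Subalgebra k K} (hR' : Pt B (optJ J J₀) R') : Pt B J R' := by
  obtain ⟨h₁, hT₁, χ', hR'χ⟩ := id hR'
  obtain ⟨ev', hev'⟩ := Pt.exists_ev hR'
  have hfrac : ∀ z ∈ R', ∃ a ∈ chartF B (optJ J J₀) h₁, ∃ b ∈ chartF B (optJ J J₀) h₁,
      UnitIn R' b ∧ z * b = a := by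
    intro z hz
    have hz' : z ∈ ptLoc (chartF B (optJ J J₀) h₁) χ' := by rw [← hR'χ]; exact hz
    have h1 := ptLoc_frac hz'
    rw [← hR'χ] at h1
    exact h1
  have hC'R : chartF B (optJ J J₀) h₁ ≤ R' := by
    rw [hR'χ]
    exact H86.le_ptLoc _ _
  have hTh : TupIn B J (fun i => h₁ (some i)) := fun i => hT₁ (some i)
  have hCC' : chartF B J (fun i => h₁ (some i)) ≤ chartF B (optJ J J₀) h₁ := by
    apply Algebra.adjoin_mono
    rintro z (hz | ⟨i, w, hw, rfl⟩)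
    · exact Or.inl hz
    · exact Or.inr ⟨some i, w, hw, rfl⟩
  have hCR' : chartF B J (fun i => h₁ (some i)) ≤ R' := hCC'.trans hC'R
  obtain ⟨R'', hR''⟩ : ∃ R'', R'' = ptLoc (chartF B J (fun i => h₁ (some i))) (res ev' hCR') :=
    ⟨_, rfl⟩
  have hPt : Pt B J R'' := ⟨_, hTh, _, hR''⟩
  obtain ⟨ev'', hev''⟩ := Pt.exists_ev hPt
  have hCR'' : chartF B J (fun i => h₁ (some i)) ≤ R'' := by
    rw [hR'']; exact H86.le_ptLoc _ _
  have hGen : GenAt B J R'' (fun i => h₁ (some i)) :=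
    ⟨hTh, fun i w hw => hCR'' (Algebra.subset_adjoin (Or.inr ⟨i, w, hw, rfl⟩))⟩
  have hR''R' : R'' ≤ R' := by
    rw [hR'']; exact ptLoc_le hev' hCR'
  obtain ⟨π, hπ, hπ0, hπR⟩ := hpr R'' hPt
  obtain ⟨hne0, w0, hw0, hw0'⟩ := hT₁ none
  have hu : UnitIn R'' (h₁ none / π) := by
    have h1 : h₁ none / π ∈ R'' := by
      rw [← hw0']
      exact hπR w0 hw0
    refine unit_down hev'' hev' hR''R' h1 ⟨div_ne_zero hne0 hπ0, hR''R' h1, ?_⟩
    rw [inv_div]
    exact hC'R (Algebra.subset_adjoin (Or.inr ⟨none, π, hπ, rfl⟩))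
  have hCR2 : chartF B (optJ J J₀) h₁ ≤ R'' := by
    unfold chartF
    rw [Algebra.adjoin_le_iff]
    rintro z (hz | ⟨i, w, hw, rfl⟩)
    · exact Pt.le_R hPt hz
    · cases i with
      | some i => exact hGen.2 i w hw
      | none =>
        have h1 : (w : K) / h₁ none = (w : K) / π * (h₁ none / π)⁻¹ := by field_simp
        rw [h1]
        exact R''.mul_mem (hπR w hw) hu.2.2
  have hEq : R' = R'' := by
    apply le_antisymm _ hR''R'
    intro z hz
    obtain ⟨a, ha, b, hb, hbu, hzb⟩ := hfrac z hz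
    have h1 := unit_down hev'' hev' hR''R' (hCR2 hb) hbu
    have h2 : z = a * b⁻¹ := by
      rw [← hzb]
      have := hbu.1
      field_simp
    rw [h2]
    exact R''.mul_mem (hCR2 ha) h1.2.2
  rw [hEq]
  exact hPt

/-- The generators of the new ideals. -/
theorem gen_opt {J₀ : Ideal B} {R : Subalgebra k K} {h : E → K} (hh : GenAt B J R h) {π : B}
    (hπ : π ∈ J₀) (hπ0 : (π : K) ≠ 0) (hπJ : ∀ w : B, w ∈ J₀ → (w : K) / π ∈ R) :
    GenAt B (optJ J J₀) R (optH h (π : K)) := by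
  refine ⟨?_, ?_⟩
  · rintro (_ | i)
    · exact ⟨hπ0, π, hπ, rfl⟩
    · exact hh.1 i
  · rintro (_ | i) w hw
    · exact hπJ w hw
    · exact hh.2 i w hw

/-- The equations of the other components. -/
theorem xi_nd {V : E → Subalgebra k K} {R : Subalgebra k K} {h : E → K} {x y : K}
    {Dx Dy : Derivation k K K} {s t : Bool} {b : E → Option Bool}
    (hp : PtNc B J e V R h x y Dx Dy s t b) {j : E} (hj : b j ≠ some false) :
    xi h e j ∈ R ∧ ¬ ∃ u ∈ R, xi h e j = x * u := by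
  rcases hb : b j with _ | (_ | _)
  · exact ⟨(hp.b0 j hb).2.1, nd_unit hp.reg (hp.b0 j hb)⟩
  · exact absurd hb hj
  · have h1 := hp.by' j hb
    have h2 : xi h e j = y * (xi h e j / y) := by
      rw [mul_div_cancel₀ _ hp.reg.symm.x_ne]
    rw [h2]
    exact ⟨R.mul_mem hp.reg.hy h1.2.1,
      nd_mul hp.reg hp.reg.hy h1.2.1 (nd_y hp.reg) (nd_unit hp.reg h1)⟩

/-- The exponents are not negative. -/
theorem exp_nonneg {V : E → Subalgebra k K} {R : Subalgebra k K} {h : E → K} {x y : K}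
    {Dx Dy : Derivation k K K}
    {s t : Bool} {b : E → Option Bool} (hp : PtNc B J e V R h x y Dx Dy s t b) {α : E → ℤ}
    {π : K} (hπR : π ∈ R) (hA : Ad (curO (k := k) π) R x y Dx Dy s t (∏ j, xi h e j ^ α j))
    (hcl : UnitIn R (π / ∏ j, xi h e j ^ α j) ∨
      UnitIn R (lD s x Dx π / ∏ j, xi h e j ^ α j) ∨
      UnitIn R (lD t y Dy π / ∏ j, xi h e j ^ α j)) {j : E} (hj : b j = some false) :
    0 ≤ α j := by
  classical
  by_contra hneg
  push Not at hneg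
  have hreg := hp.reg
  have hs : s = true := hp.s_iff.2 ⟨j, hj⟩
  subst hs
  have hx0 := hreg.x_ne
  have h0 : ∀ i, h i ≠ 0 := fun i => (hp.gen.1 i).1
  have hxi0 : ∀ j, xi h e j ≠ 0 := fun j =>
    Finset.prod_ne_zero_iff.2 fun i _ => zpow_ne_zero _ (h0 i)
  have hoth : ∀ j' ∈ Finset.univ.erase j, b j' ≠ some false := by
    intro j' hj' hb
    exact Finset.ne_of_mem_erase hj' (hp.inj j' j (by rw [hb]; simp) (by rw [hb, hj]))
  set P := ∏ j' ∈ Finset.univ.erase j, xi h e j' ^ (α j').toNat with hP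
  set Q := ∏ j' ∈ Finset.univ.erase j, xi h e j' ^ (-α j').toNat with hQ
  set γ := ∏ j, xi h e j ^ α j with hγ
  have hγ0 : γ ≠ 0 := hA.ne
  have hPR : P ∈ R := R.prod_mem fun j' hj' => R.pow_mem (xi_nd hp (hoth j' hj')).1 _
  have hQR : Q ∈ R := R.prod_mem fun j' hj' => R.pow_mem (xi_nd hp (hoth j' hj')).1 _
  have hPnd : ¬ ∃ u ∈ R, P = x * u := nd_prod hreg _ _
    (fun j' hj' => R.pow_mem (xi_nd hp (hoth j' hj')).1 _)
    fun j' hj' => nd_pow hreg (xi_nd hp (hoth j' hj')).1 (xi_nd hp (hoth j' hj')).2 _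
  have hγPQ : γ * Q = xi h e j ^ α j * P := by
    rw [hγ, ← Finset.mul_prod_erase Finset.univ _ (Finset.mem_univ j), hP, hQ, mul_assoc,
      ← Finset.prod_mul_distrib]
    congr 1
    refine Finset.prod_congr rfl fun j' _ => ?_
    rw [← zpow_natCast, ← zpow_natCast, ← zpow_add₀ (hxi0 j')]
    congr 1
    omega
  obtain ⟨m, hm⟩ : ∃ m : ℕ, -α j = m + 1 := ⟨(-α j - 1).toNat, by omega⟩
  have hxj := hp.bx j hj
  have hH : π / γ ∈ R := hA.ah
  -- `H` is divisible by `x`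
  have h1 : ∃ u ∈ R, π / γ * P = x * u := by
    refine ⟨π * Q * (xi h e j / x) ^ (m + 1) * x ^ m, R.mul_mem (R.mul_mem (R.mul_mem hπR hQR)
      (R.pow_mem hxj.2.1 _)) (R.pow_mem hreg.hx _), ?_⟩
    have h2 : P = γ * Q * xi h e j ^ (m + 1) := by
      rw [hγPQ]
      have h3 : xi h e j ^ α j * xi h e j ^ (m + 1) = 1 := by
        rw [← zpow_natCast, ← zpow_add₀ (hxi0 j)]
        have h4 : α j + ((m + 1 : ℕ) : ℤ) = 0 := by push_cast; omega
        rw [h4, zpow_zero]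
      calc P = (xi h e j ^ α j * xi h e j ^ (m + 1)) * P := by rw [h3, one_mul]
        _ = _ := by ring
    have h5 : π / γ * P = π * Q * xi h e j ^ (m + 1) := by
      rw [h2]
      field_simp
    rw [h5, div_pow]
    field_simp
    ring
  obtain ⟨H₁, hH₁, hHx⟩ : ∃ u ∈ R, π / γ = x * u :=
    (hreg.prime_x hH hPR h1).resolve_right hPnd
  have hπH : π = π / γ * γ := by rw [div_mul_cancel₀ _ hγ0]
  have hlog : ∀ D : Derivation k K K, D π / γ = π / γ * (D γ / γ) + D (π / γ) := by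
    intro D
    have h2 : D π = π / γ * D γ + γ * D (π / γ) := by
      conv_lhs => rw [hπH]
      rw [Derivation.leibniz, smul_eq_mul, smul_eq_mul]
    rw [h2, add_div, mul_div_assoc, mul_div_cancel_left₀ _ hγ0]
  rcases hcl with hu | hu | hu
  · exact nd_unit hreg hu ⟨H₁, hH₁, hHx⟩
  · refine nd_unit hreg hu ⟨H₁ * (lD true x Dx γ / γ) + Dx (π / γ),
      R.add_mem (R.mul_mem hH₁ hA.gx) (hreg.Dx_mem _ hH), ?_⟩
    rw [hlog]
    have h3 : lD true x Dx (π / γ) = x * Dx (π / γ) := rfl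
    rw [h3, hHx]
    ring
  · have h3 : lD t y Dy (π / γ) = x * lD t y Dy H₁ := by
      rw [hHx]
      have h4 : ∀ D : Derivation k K K, D x = 0 → D (x * H₁) = x * D H₁ := by
        intro D hD
        rw [Derivation.leibniz, hD, smul_zero, add_zero, smul_eq_mul]
      refine h4 _ ?_
      cases t
      · exact hreg.yx
      · change y * Dy x = 0
        rw [hreg.yx, mul_zero]
    have h5 : lD t y Dy H₁ ∈ R := by
      cases t
      · exact hreg.Dy_mem _ hH₁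
      · exact R.mul_mem hreg.hy (hreg.Dy_mem _ hH₁)
    refine nd_unit hreg hu ⟨H₁ * (lD t y Dy γ / γ) + lD t y Dy H₁,
      R.add_mem (R.mul_mem hH₁ hA.gy) h5, ?_⟩
    rw [hlog, h3]
    conv_lhs => rw [hHx]
    ring

/-- The exponents are not negative. -/
theorem exp_nonneg' {R : Subalgebra k K} {h : E → K} {x y : K} {Dx Dy : Derivation k K K}
    {s t : Bool} {b : E → Option Bool} (hp : PtN B J e R h x y Dx Dy s t b) {α : E → ℤ}
    {π : K} (hπR : π ∈ R) (hA : Ad (curO (k := k) π) R x y Dx Dy s t (∏ j, xi h e j ^ α j))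
    (hcl : UnitIn R (π / ∏ j, xi h e j ^ α j) ∨
      UnitIn R (lD s x Dx π / ∏ j, xi h e j ^ α j) ∨
      UnitIn R (lD t y Dy π / ∏ j, xi h e j ^ α j)) {j : E} (hj : b j ≠ none) :
    0 ≤ α j := by
  obtain ⟨V, hV⟩ := hp
  rcases hb : b j with _ | (_ | _)
  · exact absurd hb hj
  · exact exp_nonneg hV hπR hA hcl hb
  · exact exp_nonneg hV.symm hπR (Drop.Ad.symm hA) (hcl.imp_right Or.symm) (j := j)
      (by simp [hb])

/-- The new component passes through the point. -/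
theorem core_x {J₀ : Ideal B} {R : Subalgebra k K} {h : E → K} {x y : K}
    {Dx Dy : Derivation k K K} {t : Bool} {b : E → Option Bool}
    (hp : PtN B J e R h x y Dx Dy false t b) {α : E → ℤ} {π : B} (hπ : π ∈ J₀)
    (hπ0 : (π : K) ≠ 0) (hπJ : ∀ w : B, w ∈ J₀ → (w : K) / π ∈ R)
    (hHm : (π : K) / ∏ j, xi h e j ^ α j ∈ mx R)
    (hD : UnitIn R (Dx ((π : K) / ∏ j, xi h e j ^ α j))) :
    ∃ D1 D2, PtN B (optJ J J₀) (addE e α) R (optH h (π : K)) ((π : K) / ∏ j, xi h e j ^ α j) y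
      D1 D2 true t (addb b (some false)) := by
  classical
  obtain ⟨V, hp⟩ := hp
  set H := (π : K) / ∏ j, xi h e j ^ α j with hH
  have h0 : ∀ i, h i ≠ 0 := fun i => (hp.gen.1 i).1
  have hym : y ∈ mx R := (hp.reg.mem_mId (z := ⟨y, hp.reg.hy⟩)).1 (Loc2.y_mem hp.reg)
  have hdet : UnitIn R (Dx H * Dy y - Dx y * Dy H) := by
    rw [hp.reg.yy, hp.reg.xy, mul_one, zero_mul, sub_zero]
    exact hD
  have hreg := hp.reg.change hHm hym hdet
  have hnf : ∀ j, b j ≠ some false := fun j hj =>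
    absurd (hp.s_iff.2 ⟨j, hj⟩) (by decide)
  have hxn : xi (optH h (π : K)) (addE e α) none = H := xi_none h (π : K) e α h0
  have hxs : ∀ j, xi (optH h (π : K)) (addE e α) (some j) = xi h e j := fun j =>
    xi_some h (π : K) e α j
  refine ⟨_, _, ptN_intro (gen_opt hp.gen hπ hπ0 hπJ) hreg ?_ ?_ ?_ ?_ ?_ ?_⟩
  · rintro (_ | j) hj
    · exact absurd hj (by simp [addb])
    · rw [hxs]; exact hp.b0 j hj
  · rintro (_ | j) hj
    · rw [hxn, div_self hreg.x_ne]; exact UnitIn.one'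
    · exact absurd hj (hnf j)
  · rintro (_ | j) hj
    · exact absurd hj (by simp [addb])
    · rw [hxs]; exact hp.by' j hj
  · exact ⟨fun _ => ⟨none, rfl⟩, fun _ => rfl⟩
  · rw [hp.t_iff]
    constructor
    · rintro ⟨j, hj⟩
      exact ⟨some j, hj⟩
    · rintro ⟨_ | j, hj⟩
      · exact absurd hj (by simp [addb])
      · exact ⟨j, hj⟩
  · rintro (_ | j) (_ | j') hj hjj'
    · rfl
    · exact absurd (show b j' = some false from hjj'.symm) (hnf j')
    · exact absurd (show b j = some false from hjj') (hnf j)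
    · rw [hp.inj j j' hj hjj']

/-- The new component does not pass through the point. -/
theorem core_u {J₀ : Ideal B} {R : Subalgebra k K} {h : E → K} {x y : K}
    {Dx Dy : Derivation k K K} {s t : Bool} {b : E → Option Bool}
    (hp : PtN B J e R h x y Dx Dy s t b) {α : E → ℤ} {π : B} (hπ : π ∈ J₀)
    (hπ0 : (π : K) ≠ 0) (hπJ : ∀ w : B, w ∈ J₀ → (w : K) / π ∈ R)
    (hH : UnitIn R ((π : K) / ∏ j, xi h e j ^ α j)) :
    PtN B (optJ J J₀) (addE e α) R (optH h (π : K)) x y Dx Dy s t (addb b none) := by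
  obtain ⟨V, hp⟩ := hp
  have h0 : ∀ i, h i ≠ 0 := fun i => (hp.gen.1 i).1
  have hxn : xi (optH h (π : K)) (addE e α) none = (π : K) / ∏ j, xi h e j ^ α j :=
    xi_none h (π : K) e α h0
  have hxs : ∀ j, xi (optH h (π : K)) (addE e α) (some j) = xi h e j := fun j =>
    xi_some h (π : K) e α j
  refine ptN_intro (gen_opt hp.gen hπ hπ0 hπJ) hp.reg ?_ ?_ ?_ ?_ ?_ ?_
  · rintro (_ | j) hj
    · rw [hxn]; exact hH
    · rw [hxs]; exact hp.b0 j hj
  · rintro (_ | j) hj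
    · exact absurd hj (by simp [addb])
    · rw [hxs]; exact hp.bx j hj
  · rintro (_ | j) hj
    · exact absurd hj (by simp [addb])
    · rw [hxs]; exact hp.by' j hj
  · rw [hp.s_iff]
    constructor
    · rintro ⟨j, hj⟩
      exact ⟨some j, hj⟩
    · rintro ⟨_ | j, hj⟩
      · exact absurd hj (by simp [addb])
      · exact ⟨j, hj⟩
  · rw [hp.t_iff]
    constructor
    · rintro ⟨j, hj⟩
      exact ⟨some j, hj⟩
    · rintro ⟨_ | j, hj⟩
      · exact absurd hj (by simp [addb])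
      · exact ⟨j, hj⟩
  · rintro (_ | j) (_ | j') hj hjj'
    · rfl
    · exact absurd rfl hj
    · exact absurd hjj' hj
    · rw [hp.inj j j' hj hjj']

/-- The situation at a point. -/
theorem add_point {J₀ : Ideal B} {R : Subalgebra k K} {h : E → K} {x y : K}
    {Dx Dy : Derivation k K K} {s t : Bool} {b : E → Option Bool}
    (hp : PtN B J e R h x y Dx Dy s t b) {α : E → ℤ} {π : B} (hπ : π ∈ J₀)
    (hπ0 : (π : K) ≠ 0) (hπJ : ∀ w : B, w ∈ J₀ → (w : K) / π ∈ R)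
    (hA : Ad (curO (k := k) (π : K)) R x y Dx Dy s t (∏ j, xi h e j ^ α j))
    (hcl : UnitIn R ((π : K) / ∏ j, xi h e j ^ α j) ∨
      UnitIn R (lD s x Dx (π : K) / ∏ j, xi h e j ^ α j) ∨
      UnitIn R (lD t y Dy (π : K) / ∏ j, xi h e j ^ α j)) :
    ∃ x' y' Dx' Dy' s' t' b', PtN B (optJ J J₀) (addE e α) R (optH h (π : K)) x' y' Dx' Dy'
      s' t' b' := by
  by_cases hH : UnitIn R ((π : K) / ∏ j, xi h e j ^ α j)
  · exact ⟨_, _, _, _, _, _, _, core_u hp hπ hπ0 hπJ hH⟩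
  · have hHm : (π : K) / ∏ j, xi h e j ^ α j ∈ mx R := by
      refine ⟨hA.ah, ?_⟩
      by_contra h1
      push Not at h1
      exact hH ⟨h1.1, hA.ah, h1.2⟩
    have hreg : Reg R x y Dx Dy := by
      obtain ⟨V, hV⟩ := hp
      exact hV.reg
    rcases hcl with h1 | h1 | h1
    · exact absurd h1 hH
    · obtain ⟨rfl, h3⟩ := deriv_unit hreg hA.ne hA.gx hA.ah hH h1
      obtain ⟨D1, D2, h4⟩ := core_x hp hπ hπ0 hπJ hHm h3
      exact ⟨_, _, _, _, _, _, _, h4⟩
    · have hps : PtN B J e R h y x Dy Dx t s (fun j => (b j).map not) := by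
        obtain ⟨V, hV⟩ := hp
        exact ⟨V, hV.symm⟩
      obtain ⟨rfl, h3⟩ := deriv_unit hreg.symm hA.ne hA.gy hA.ah hH h1
      obtain ⟨D1, D2, h4⟩ := core_x hps hπ hπ0 hπJ hHm h3
      exact ⟨_, _, _, _, _, _, _, h4⟩

/-- Adding a clean locally principal curve to the boundary. -/
theorem stage_add' {J₀ : Ideal B} (hJ₀ : J₀ ≠ ⊥)
    (hφJ : ∀ g, ∀ w : B, w ∈ J₀ → ∃ w' : B, w' ∈ J₀ ∧ (w' : K) = φ g w)
    {HH : Unit → Set (E → ℤ)} (hHH : (HH ()).Subsingleton)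
    (h : Stage B φ (curS G B J₀) J e HH)
    (hcl : ∀ R, Pt B J R → LvS B φ (curS G B J₀) J e HH 0 R) :
    ∃ (J' : Option E → Ideal B) (e' : Option E → Option E → ℤ) (w : Option E → ℤ),
      Mdl B φ J' e' ∧ (∀ j, 0 ≤ w j) ∧ ∀ R, Pt B J' R → B ≤ R ∧
        ∃ h x y Dx Dy s t b, PtN B J' e' R h x y Dx Dy s t b ∧
        ∃ π : B, π ∈ J₀ ∧ (∀ w : B, w ∈ J₀ → (w : K) / π ∈ R) ∧
          UnitIn R ((π : K) / ∏ j, xi h e' j ^ w j) := by
  -- the exponents
  obtain ⟨α, hα⟩ : ∃ α : E → ℤ, ∀ w ∈ HH (), w = α := by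
    by_cases hne : (HH ()).Nonempty
    · obtain ⟨α, hα⟩ := hne
      exact ⟨α, fun w hw => hHH hw hα⟩
    · exact ⟨0, fun w hw => absurd ⟨w, hw⟩ hne⟩
  have hok : ∀ R, (curS G B J₀).Ok φ () R := fun R g hg => absurd hg (Set.notMem_empty g)
  -- the situation at the points
  have key : ∀ R, Pt B J R → ∃ (h : E → K) (x y : K) (Dx Dy : Derivation k K K) (s t : Bool)
      (b : E → Option Bool) (π : B), PtN B J e R h x y Dx Dy s t b ∧ π ∈ J₀ ∧ (π : K) ≠ 0 ∧
      (∀ w : B, w ∈ J₀ → (w : K) / π ∈ R) ∧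
      Ad (curO (k := k) (π : K)) R x y Dx Dy s t (∏ j, xi h e j ^ α j) ∧
      (UnitIn R ((π : K) / ∏ j, xi h e j ^ α j) ∨
      UnitIn R (lD s x Dx (π : K) / ∏ j, xi h e j ^ α j) ∨
      UnitIn R (lD t y Dy (π : K) / ∏ j, xi h e j ^ α j)) := by
    intro R hR
    obtain ⟨g, x, y, Dx, Dy, s, t, b, hp, hc⟩ := hcl R hR
    obtain ⟨⟨hBR, π, hπ, hπ0, hπJ⟩, w, hw, hA, hJ⟩ := hc () (hok R)
    obtain rfl := hα w hw
    have hreg : Reg R x y Dx Dy := by
      obtain ⟨V, hV⟩ := hp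
      exact hV.reg
    obtain ⟨h1, h2⟩ := JL_curL hreg (ptN_mon hp w) hπ hπ0 hπJ
    replace h1 := h1 hA
    have hA' := h2.1 hA
    refine ⟨g, x, y, Dx, Dy, s, t, b, π, hp, hπ, hπ0, hπJ, hA', ?_⟩
    have h3 := exists_unit_of_clean hreg hA' (by
      rcases hJ with hJ | hJ
      · exact Or.inl (h1.symm.trans hJ)
      · right
        unfold inv2
        unfold invL at hJ
        rw [← h1]
        exact hJ)
    have h4 : ∀ D : Derivation k K K, (curO (k := k) (π : K)).ω D = D π := fun D => one_mul _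
    rw [h4, h4] at h3
    exact h3
  have hpr : ∀ R, Pt B J R → ∃ π : B, π ∈ J₀ ∧ (π : K) ≠ 0 ∧
      ∀ w : B, w ∈ J₀ → (w : K) / π ∈ R := by
    intro R hR
    obtain ⟨g, x, y, Dx, Dy, s, t, b, π, hp, hπ, hπ0, hπJ, -⟩ := key R hR
    exact ⟨π, hπ, hπ0, hπJ⟩
  refine ⟨optJ J J₀, addE e α, fun j => match j with
    | none => 1
    | some j => max (α j) 0, ⟨?_, span_add h.mdl.span, ?_, ?_⟩, ?_, ?_⟩
  · rintro (_ | i)
    · exact hJ₀
    · exact h.mdl.ne i
  · rintro g (_ | i) w hw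
    · exact hφJ g w hw
    · exact h.mdl.stab g i w hw
  · intro R hR
    have hR0 := pt_opt hpr hR
    obtain ⟨g, x, y, Dx, Dy, s, t, b, π, hp, hπ, hπ0, hπJ, hA, hcl'⟩ := key R hR0
    obtain ⟨x', y', Dx', Dy', s', t', b', hp'⟩ := add_point hp hπ hπ0 hπJ hA hcl'
    exact ⟨_, _, _, _, _, _, _, _, hp'⟩
  · rintro (_ | j)
    · exact zero_le_one
    · exact le_max_right _ _
  · intro R hR
    have hR0 := pt_opt hpr hR
    obtain ⟨g, x, y, Dx, Dy, s, t, b, π, hp, hπ, hπ0, hπJ, hA, hcl'⟩ := key R hR0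
    obtain ⟨x', y', Dx', Dy', s', t', b', hp'⟩ := add_point hp hπ hπ0 hπJ hA hcl'
    refine ⟨hR0.le, _, _, _, _, _, _, _, _, hp', π, hπ, hπJ, ?_⟩
    have hg : GenAt B J R g := by
      obtain ⟨V, hV⟩ := hp
      exact hV.gen
    have h0 : ∀ i, g i ≠ 0 := fun i => (hg.1 i).1
    have hxi0 : ∀ j, xi g e j ≠ 0 := fun j =>
      Finset.prod_ne_zero_iff.2 fun i _ => zpow_ne_zero _ (h0 i)
    rw [Fintype.prod_option, xi_none g (π : K) e α h0]
    simp only [xi_some]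
    have h1 : (π : K) / (((π : K) / ∏ j, xi g e j ^ α j) ^ (1 : ℤ) *
        ∏ j, xi g e j ^ max (α j) 0) = ∏ j, xi g e j ^ (α j - max (α j) 0) := by
      have h2 : ∏ j, xi g e j ^ α j ≠ 0 :=
        Finset.prod_ne_zero_iff.2 fun j _ => zpow_ne_zero _ (hxi0 j)
      have h3 : ∏ j, xi g e j ^ max (α j) 0 ≠ 0 :=
        Finset.prod_ne_zero_iff.2 fun j _ => zpow_ne_zero _ (hxi0 j)
      have h4 : ∏ j, xi g e j ^ (α j - max (α j) 0) =
          (∏ j, xi g e j ^ α j) / ∏ j, xi g e j ^ max (α j) 0 := by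
        rw [← Finset.prod_div_distrib]
        exact Finset.prod_congr rfl fun j _ => zpow_sub₀ (hxi0 j) _ _
      rw [h4, zpow_one]
      field_simp
    change UnitIn R ((π : K) / (((π : K) / ∏ j, xi g e j ^ α j) ^ (1 : ℤ) *
        ∏ j, xi g e j ^ max (α j) 0))
    rw [h1]
    refine UnitIn.prod _ fun j _ => ?_
    by_cases hj : b j = none
    · obtain ⟨V, hV⟩ := hp
      exact (hV.b0 j hj).zpow _
    · have h5 := exp_nonneg' hp (hR0.le π.2) hA hcl' hj
      rw [max_eq_left h5, sub_self, zpow_zero]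
      exact UnitIn.one'

end Pool.Agent.MP_b525bf_ag_S
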