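import Pool.Agent.Lib.MP_b525bf_ag_S.Defs
import Pool.Agent.Lib.MP_b525bf_ag_TS.Prime

/-!
# S9a: the local rings of a smooth surface are factorial
-/

set_option autoImplicit false

namespace Pool.Agent.MP_b525bf_ag_S

open Pool.Agent.MP_b525bf_ag_TS

variable {k K : Type} [Field k] [Field K] [Algebra k K]
  {R : Subalgebra k K} {x y : K} {Dx Dy : Derivation k K K}

namespace Ufd

theorem isUnit_of (h : Reg R x y Dx Dy) {z : R} (hz : z ∉ mId R x y) : IsUnit z := by
  obtain ⟨h3, _, h4⟩ := h.unitIn.1 hz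
  exact IsUnit.of_mul_eq_one ⟨_, h4⟩ (Subtype.ext (by
    push_cast
    exact mul_inv_cancel₀ h3))

theorem mem_of_ne_top (h : Reg R x y Dx Dy) {P : Ideal R} (hP : P ≠ ⊤) : P ≤ mId R x y := by
  intro z hz
  by_contra hne
  exact hP (Ideal.eq_top_of_isUnit_mem _ hz (isUnit_of h hne))

theorem dvd_iff {a z : R} : a ∣ z ↔ ∃ u ∈ R, (z : K) = a * u := by
  constructor
  · rintro ⟨u, rfl⟩
    exact ⟨u, u.2, by push_cast; ring⟩
  · rintro ⟨u, hu, e⟩
    exact ⟨⟨u, hu⟩, Subtype.ext e⟩

theorem prime_x (h : Reg R x y Dx Dy) : Prime (⟨x, h.hx⟩ : R) := by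
  refine ⟨fun h0 => h.x_ne (congrArg Subtype.val h0), fun hu => ?_, fun a b hab => ?_⟩
  · have h1 := Ideal.eq_top_of_isUnit_mem _ (Loc2.x_mem h) hu
    exact Loc2.one_notMem h (by rw [h1]; trivial)
  · rw [dvd_iff, dvd_iff]
    rw [dvd_iff] at hab
    obtain ⟨u, hu, e⟩ := hab
    exact h.prime_x a.2 b.2 ⟨u, hu, by push_cast at e; exact e⟩

theorem not_assoc (h : Reg R x y Dx Dy) :
    ¬ Associated (⟨x, h.hx⟩ : R) ⟨y, h.hy⟩ := by
  rintro ⟨u, hu⟩
  have h1 : x * (u : R) = y := congrArg Subtype.val hu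
  have h2 := congrArg Dy h1
  rw [Derivation.leibniz, h.yx, h.yy, smul_zero, add_zero, smul_eq_mul] at h2
  exact h.one_notMem_x ⟨_, h.Dy_mem _ (u : R).2, h2.symm⟩

end Ufd

/-- A nonzero prime ideal is the maximal ideal or principal. -/
theorem reg_prime_cases (h : Reg R x y Dx Dy) (P : Ideal R) (hP : P.IsPrime) (h0 : P ≠ ⊥) :
    P = mId R x y ∨ ∃ f : R, Prime f ∧ P = Ideal.span {f} := by
  classical
  have hN := h.isNoetherianRing
  have hle : P ≤ mId R x y := Ufd.mem_of_ne_top h hP.ne_top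
  set X : R := ⟨x, h.hx⟩ with hX
  set Y : R := ⟨y, h.hy⟩ with hY
  have hPx : Prime X := Ufd.prime_x h
  have hdec : ∀ z : R, ¬ X ∣ z → ∃ (n : ℕ) (u v : R), IsUnit v ∧ z = X * u + Y ^ n * v := by
    intro z hz
    rw [Ufd.dvd_iff] at hz
    obtain ⟨n, u, v, hu, hv, e⟩ := h.exists_dec z.2 hz
    refine ⟨n, ⟨u, hu⟩, ⟨v, hv.2.1⟩, ?_, Subtype.ext e⟩
    exact IsUnit.of_mul_eq_one ⟨_, hv.2.2⟩ (Subtype.ext (by
      push_cast
      exact mul_inv_cancel₀ hv.1))
  by_cases hxP : X ∈ P
  · by_cases hPX : P ≤ Ideal.span {X}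
    · right
      refine ⟨X, hPx, le_antisymm hPX ?_⟩
      rw [Ideal.span_le, Set.singleton_subset_iff]
      exact hxP
    · left
      obtain ⟨z, hz, hzX⟩ := Set.not_subset.1 hPX
      obtain ⟨n, u, v, hv, e⟩ := hdec z (fun hd => hzX (Ideal.mem_span_singleton.2 hd))
      have h1 : Y ^ n * v ∈ P := by
        have := P.sub_mem hz (P.mul_mem_right u hxP)
        rwa [e, add_sub_cancel_left] at this
      have h2 : Y ^ n ∈ P := by
        rcases hP.mem_or_mem h1 with h2 | h2
        · exact h2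
        · exact absurd (Ideal.eq_top_of_isUnit_mem _ h2 hv) hP.ne_top
      have h3 : Y ∈ P := hP.mem_of_pow_mem n h2
      apply le_antisymm hle
      rw [Loc2.mId_eq h.hx h.hy, Ideal.span_le]
      rintro w (rfl | rfl)
      · exact hxP
      · exact h3
  · right
    have hfg : P.FG := (isNoetherianRing_iff_ideal_fg R).mp hN P
    have hex : ∃ n : ℕ, ∃ z ∈ P, ∃ u v : R, IsUnit v ∧ z = X * u + Y ^ n * v := by
      by_contra hcon
      apply h0
      rw [← le_bot_iff]
      refine Submodule.le_of_le_smul_of_le_jacobson_bot hfg (Loc2.le_jacobson h) ?_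
      intro z hz
      have h1 : X ∣ z := by
        by_contra h1
        obtain ⟨n, u, v, hv, e⟩ := hdec z h1
        exact hcon ⟨n, z, hz, u, v, hv, e⟩
      obtain ⟨w, rfl⟩ := h1
      have hw : w ∈ P := by
        rcases hP.mem_or_mem hz with h2 | h2
        · exact absurd h2 hxP
        · exact h2
      rw [bot_sup_eq, smul_eq_mul]
      exact Ideal.mul_mem_mul (Loc2.x_mem h) hw
    obtain ⟨f, hf, u, v, hv, e⟩ := Nat.find_spec hex
    set n := Nat.find hex with hn
    have hmin : ∀ m < n, ¬ ∃ z ∈ P, ∃ u v : R, IsUnit v ∧ z = X * u + Y ^ m * v :=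
      fun m hm => Nat.find_min hex hm
    have hspan : P ≤ Ideal.span {f} := by
      refine Submodule.le_of_le_smul_of_le_jacobson_bot hfg (Loc2.le_jacobson h) ?_
      intro z hz
      by_cases hXz : X ∣ z
      · obtain ⟨w, rfl⟩ := hXz
        have hw : w ∈ P := by
          rcases hP.mem_or_mem hz with h2 | h2
          · exact absurd h2 hxP
          · exact h2
        refine Ideal.mem_sup_right ?_
        rw [smul_eq_mul]
        exact Ideal.mul_mem_mul (Loc2.x_mem h) hw
      · obtain ⟨m, u', v', hv', e'⟩ := hdec z hXz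
        have hnm : n ≤ m := by
          by_contra hlt
          push Not at hlt
          exact hmin m hlt ⟨z, hz, u', v', hv', e'⟩
        obtain ⟨vi, hvi⟩ := hv.exists_right_inv
        obtain ⟨d, rfl⟩ := Nat.exists_eq_add_of_le hnm
        have h1 : z - f * (Y ^ d * v' * vi) = X * (u' - u * (Y ^ d * v' * vi)) := by
          rw [e', e, pow_add]
          linear_combination (-(Y ^ n * Y ^ d * v')) * hvi
        have h2 : X * (u' - u * (Y ^ d * v' * vi)) ∈ P := by
          rw [← h1]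
          exact P.sub_mem hz (P.mul_mem_right _ hf)
        have h3 : u' - u * (Y ^ d * v' * vi) ∈ P := by
          rcases hP.mem_or_mem h2 with h3 | h3
          · exact absurd h3 hxP
          · exact h3
        have h4 : z = f * (Y ^ d * v' * vi) + X * (u' - u * (Y ^ d * v' * vi)) := by
          rw [← h1]; ring
        rw [h4]
        refine Ideal.add_mem _ (Ideal.mem_sup_left ?_) (Ideal.mem_sup_right ?_)
        · exact Ideal.mul_mem_right _ _ (Ideal.mem_span_singleton_self f)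
        · rw [smul_eq_mul]
          exact Ideal.mul_mem_mul (Loc2.x_mem h) h3
    have hPf : P = Ideal.span {f} := by
      apply le_antisymm hspan
      rw [Ideal.span_le, Set.singleton_subset_iff]
      exact hf
    refine ⟨f, ?_, hPf⟩
    have hf0 : f ≠ 0 := by
      rintro rfl
      apply h0
      rw [hPf]
      simp
    rw [← Ideal.span_singleton_prime hf0, ← hPf]
    exact hP

theorem reg_ufd (h : Reg R x y Dx Dy) : UniqueFactorizationMonoid R := by
  rw [UniqueFactorizationMonoid.iff_exists_prime_mem_of_isPrime]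
  intro P h0 hP
  rcases reg_prime_cases h P hP h0 with h1 | ⟨f, hf, h1⟩
  · exact ⟨_, by rw [h1]; exact Loc2.x_mem h, Ufd.prime_x h⟩
  · exact ⟨f, by rw [h1]; exact Ideal.mem_span_singleton_self f, hf⟩

theorem reg_prime_coord (h : Reg R x y Dx Dy) :
    Prime (⟨x, h.hx⟩ : R) ∧ Prime (⟨y, h.hy⟩ : R) ∧
      ¬ Associated (⟨x, h.hx⟩ : R) ⟨y, h.hy⟩ :=
  ⟨Ufd.prime_x h, Ufd.prime_x h.symm, Ufd.not_assoc h⟩

/-- An ideal which is not contained in a principal prime ideal has finite colength. -/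
theorem reg_fin_of (h : Reg R x y Dx Dy) (I : Ideal R)
    (hI : ∀ f : R, Prime f → ¬ I ≤ Ideal.span {f}) : FiniteDimensional k (R ⧸ I) := by
  have h1 : mId R x y ≤ I.radical := by
    rw [Ideal.radical_eq_sInf]
    refine le_sInf ?_
    rintro P ⟨hIP, hP⟩
    have h0 : P ≠ ⊥ := by
      rintro rfl
      exact hI _ (Ufd.prime_x h) (hIP.trans bot_le)
    rcases reg_prime_cases h P hP h0 with h2 | ⟨f, hf, h2⟩
    · exact h2.ge
    · exact absurd (h2 ▸ hIP) (hI f hf)
  obtain ⟨n, hn⟩ := Ideal.exists_pow_le_of_le_radical_of_fg h1 (Loc2.fg_mId h)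
  have := h.finite_pow n
  exact Module.Finite.of_surjective (Ideal.Quotient.factorₐ k hn).toLinearMap
    (Ideal.Quotient.factor_surjective hn)

/-- An ideal of finite colength is not contained in a principal prime ideal. -/
theorem reg_not_le_of_fin (h : Reg R x y Dx Dy) (I : Ideal R) [FiniteDimensional k (R ⧸ I)]
    {f : R} (hf : Prime f) : ¬ I ≤ Ideal.span {f} := by
  intro hle
  obtain ⟨N, _, hN⟩ := Loc2.exists_pow_le h I 0
  have h1 : f ∣ (⟨x, h.hx⟩ : R) ^ N :=
    Ideal.mem_span_singleton.1 (hle (hN (Ideal.pow_mem_pow (Loc2.x_mem h) N)))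
  have h2 : f ∣ (⟨y, h.hy⟩ : R) ^ N :=
    Ideal.mem_span_singleton.1 (hle (hN (Ideal.pow_mem_pow (Loc2.y_mem h) N)))
  have h3 := (hf.dvd_prime_iff_associated (Ufd.prime_x h)).1 (hf.dvd_of_dvd_pow h1)
  have h4 := (hf.dvd_prime_iff_associated (Ufd.prime_x h.symm)).1 (hf.dvd_of_dvd_pow h2)
  exact Ufd.not_assoc h (h3.symm.trans h4)

end Pool.Agent.MP_b525bf_ag_S
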