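import Pool.Agent.Lib.MP_b525bf_ag_S.PtN
import Pool.Agent.Lib.MP_b525bf_ag_S.Ufd
import Pool.Agent.Lib.MP_b525bf_ag_TS.PtsA

/-!
# S12b, S13: divisors of monomials in the boundary coordinates
-/

set_option autoImplicit false

namespace Pool.Agent.MP_b525bf_ag_S

open Pool.Agent.MP_b525bf_ag_TS

namespace MonAux

variable {k K : Type} [Field k] [Field K] [Algebra k K] {B : Subalgebra k K}
  {E : Type} [Fintype E] {J : E → Ideal B} {e : E → E → ℤ}
  {R : Subalgebra k K} {h : E → K} {x y : K} {Dx Dy : Derivation k K K}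
  {s t : Bool} {b : E → Option Bool}

theorem reg (hp : PtN B J e R h x y Dx Dy s t b) : Reg R x y Dx Dy := by
  obtain ⟨V, hV⟩ := hp
  exact hV.reg

theorem UnitIn.div {z w : K} (hz : UnitIn R z) (hw : UnitIn R w) : UnitIn R (z / w) := by
  rw [div_eq_mul_inv]
  exact hz.mul hw.inv

/-- Transitivity of association. -/
theorem UnitIn.trans {a b c : K} (h1 : UnitIn R (a / b)) (h2 : UnitIn R (b / c)) :
    UnitIn R (a / c) := by
  have hb : b ≠ 0 := by
    intro hb
    apply h1.1
    rw [hb, div_zero]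
  rw [show a / c = a / b * (b / c) by rw [div_mul_div_cancel₀ hb]]
  exact h1.mul h2

theorem UnitIn.symm {a b : K} (h1 : UnitIn R (a / b)) : UnitIn R (b / a) := by
  rw [← inv_div]
  exact h1.inv

/-- The product of the boundary coordinates as a monomial. -/
theorem prod_xi_unit (hp : PtN B J e R h x y Dx Dy s t b) (w : E → ℕ) :
    UnitIn R ((∏ j, xi h e j ^ (w j : ℤ)) /
      (x ^ (∑ j, if b j = some false then w j else 0) *
        y ^ (∑ j, if b j = some true then w j else 0))) := by
  obtain ⟨V, hV⟩ := hp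
  rw [← Finset.prod_pow_eq_pow_sum, ← Finset.prod_pow_eq_pow_sum, ← Finset.prod_mul_distrib,
    ← Finset.prod_div_distrib]
  refine UnitIn.prod _ fun j _ => ?_
  rcases hb : b j with _ | c
  · simp only [reduceCtorEq, if_false, pow_zero, mul_one, div_one]
    exact (hV.b0 j hb).zpow _
  · cases c
    · simp only [Option.some.injEq, reduceCtorEq, if_true, if_false, pow_zero, mul_one,
        zpow_natCast, ← div_pow, Bool.false_eq_true]
      exact (hV.bx j hb).pow _
    · simp only [Option.some.injEq, reduceCtorEq, if_true, if_false, pow_zero, one_mul,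
        zpow_natCast, ← div_pow, Bool.true_eq_false]
      exact (hV.by' j hb).pow _

theorem sum_eq (hp : PtN B J e R h x y Dx Dy s t b) (w : E → ℕ) {c : Bool} {j : E}
    (hj : b j = some c) : (∑ j, if b j = some c then w j else 0) = w j := by
  obtain ⟨V, hV⟩ := hp
  rw [Finset.sum_eq_single j]
  · rw [if_pos hj]
  · intro i _ hi
    rw [if_neg]
    intro hi'
    exact hi (hV.inj i j (by rw [hi']; exact Option.some_ne_none c) (hi'.trans hj.symm))
  · intro h
    exact absurd (Finset.mem_univ j) h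

/-- Divisors of `x ^ A * y ^ C`. -/
theorem dvd_mon (hr : Reg R x y Dx Dy) {z c : K} (hz : z ∈ R) (hc : c ∈ R) {A C : ℕ}
    (hzc : UnitIn R (z * c / (x ^ A * y ^ C))) :
    ∃ a c : ℕ, a ≤ A ∧ c ≤ C ∧ UnitIn R (z / (x ^ a * y ^ c)) := by
  obtain ⟨hx, hy, -⟩ := reg_prime_coord hr
  have hx0 := hr.x_ne
  have hy0 := hr.symm.x_ne
  have hxy : x ^ A * y ^ C ≠ 0 := mul_ne_zero (pow_ne_zero _ hx0) (pow_ne_zero _ hy0)
  obtain ⟨h0, h1, h2⟩ := hzc
  have e1 : (⟨z, hz⟩ : R) * ⟨c, hc⟩ =
      (⟨_, h1⟩ * (⟨x, hr.hx⟩ : R) ^ A) * (⟨y, hr.hy⟩ : R) ^ C := by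
    apply Subtype.ext
    push_cast
    rw [mul_assoc, div_mul_cancel₀ _ hxy]
  obtain ⟨i, j, b1, c1, hij, hb1, hz1, hc1⟩ := mul_eq_mul_prime_pow hy e1
  obtain ⟨i', j', b2, c2, hij', hb2, hz2, hc2⟩ := mul_eq_mul_prime_pow hx hb1.symm
  refine ⟨i', i, by omega, by omega, ?_⟩
  have hz3 : z = b2 * x ^ i' * y ^ i := by
    have := congrArg (fun z : R => (z : K)) hz1
    rw [hz2] at this
    simpa using this
  have hz4 : z / (x ^ i' * y ^ i) = b2 := by
    rw [hz3, mul_assoc, mul_div_cancel_right₀]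
    exact mul_ne_zero (pow_ne_zero _ hx0) (pow_ne_zero _ hy0)
  rw [hz4]
  have hu : (b2 : K) * c2 = z * c / (x ^ A * y ^ C) := by
    have := congrArg (fun z : R => (z : K)) hb2
    simpa using this.symm
  have hb20 : (b2 : K) ≠ 0 := by
    intro hb
    apply h0
    rw [← hu, hb, zero_mul]
  refine ⟨hb20, b2.2, ?_⟩
  have : (b2 : K)⁻¹ = c2 * (z * c / (x ^ A * y ^ C))⁻¹ := by
    rw [← hu]
    have hc20 : (c2 : K) ≠ 0 := by
      intro hb
      apply h0
      rw [← hu, hb, mul_zero]
    field_simp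
  rw [this]
  exact R.mul_mem c2.2 h2

/-- Divisors of monomials in the boundary coordinates. -/
theorem ptN_dvd (hp : PtN B J e R h x y Dx Dy s t b) (w : E → ℕ) {z c : K} (hz : z ∈ R)
    (hc : c ∈ R) (hzc : UnitIn R (z * c / ∏ j, xi h e j ^ (w j : ℤ))) :
    ∃ w' : E → ℕ, (∀ j, w' j ≤ w j) ∧ UnitIn R (z / ∏ j, xi h e j ^ (w' j : ℤ)) := by
  obtain ⟨a, c', ha, hc', hu⟩ := dvd_mon (reg hp) hz hc (UnitIn.trans hzc (prod_xi_unit hp w))
  let w' : E → ℕ := fun j => if b j = some false then a else if b j = some true then c' else 0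
  have hw1 : (∑ j, if b j = some false then w' j else 0) = a := by
    by_cases hex : ∃ j, b j = some false
    · obtain ⟨j, hj⟩ := hex
      rw [sum_eq hp w' hj]
      simp [w', hj]
    · push Not at hex
      have e1 : (∑ j, if b j = some false then w j else 0) = 0 :=
        Finset.sum_eq_zero fun j _ => if_neg (hex j)
      have e2 : (∑ j, if b j = some false then w' j else 0) = 0 :=
        Finset.sum_eq_zero fun j _ => if_neg (hex j)
      omega
  have hw2 : (∑ j, if b j = some true then w' j else 0) = c' := by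
    by_cases hex : ∃ j, b j = some true
    · obtain ⟨j, hj⟩ := hex
      rw [sum_eq hp w' hj]
      simp [w', hj]
    · push Not at hex
      have e1 : (∑ j, if b j = some true then w j else 0) = 0 :=
        Finset.sum_eq_zero fun j _ => if_neg (hex j)
      have e2 : (∑ j, if b j = some true then w' j else 0) = 0 :=
        Finset.sum_eq_zero fun j _ => if_neg (hex j)
      omega
  have h3 := prod_xi_unit hp w'
  rw [hw1, hw2] at h3
  refine ⟨w', fun j => ?_, UnitIn.trans hu (UnitIn.symm h3)⟩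
  rcases hb : b j with _ | q
  · simp [w', hb]
  · cases q
    · rw [sum_eq hp w hb] at ha
      simpa [w', hb] using ha
    · rw [sum_eq hp w hb] at hc'
      simpa [w', hb] using hc'

end MonAux

end Pool.Agent.MP_b525bf_ag_S
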