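import Pool.Agent.Lib.MP_b525bf_ag_S.Init1
import Pool.Agent.Lib.MP_b525bf_ag_S.PtN
import Pool.Agent.Lib.MP_b525bf_ag_TS.Add
import Pool.Agent.Lib.MP_b525bf_ag_S.Add_auxB
import Pool.Agent.Lib.MP_b525bf_ag_S.AddS

/-!
# S12: adding a resolved curve to the boundary
-/

set_option autoImplicit false

namespace Pool.Agent.MP_b525bf_ag_S

open Pool.Agent.MP_b525bf_ag_TS

variable {k K G : Type} [Field k] [Field K] [Algebra k K] [Group G] {B : Subalgebra k K}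
  {E : Type} [Fintype E] {J : E → Ideal B} {e : E → E → ℤ} {φ : G →* (K ≃ₐ[k] K)}

/-- The function `z` is a monomial times a unit at all points, with exponents at most `N`. -/
def MonAt (B : Subalgebra k K) (J : E → Ideal B) (e : E → E → ℤ) (z : K) (N : ℕ) : Prop :=
  ∀ R, Pt B J R → ∃ h x y Dx Dy s t b, PtN B J e R h x y Dx Dy s t b ∧
    ∃ w : E → ℤ, (∀ j, 0 ≤ w j ∧ w j ≤ N) ∧ UnitIn R (z / ∏ j, xi h e j ^ w j)

/-- Adding a clean locally principal curve to the boundary. -/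
theorem stage_add {J₀ : Ideal B} (hJ₀ : J₀ ≠ ⊥)
    (hφJ : ∀ g, ∀ w : B, w ∈ J₀ → ∃ w' : B, w' ∈ J₀ ∧ (w' : K) = φ g w)
    {HH : Unit → Set (E → ℤ)} (hHH : (HH ()).Subsingleton)
    (h : Stage B φ (curS G B J₀) J e HH)
    (hcl : ∀ R, Pt B J R → LvS B φ (curS G B J₀) J e HH 0 R) :
    ∃ (J' : Option E → Ideal B) (e' : Option E → Option E → ℤ) (w : Option E → ℤ),
      Mdl B φ J' e' ∧ (∀ j, 0 ≤ w j) ∧ ∀ R, Pt B J' R → B ≤ R ∧
        ∃ h x y Dx Dy s t b, PtN B J' e' R h x y Dx Dy s t b ∧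
        ∃ π : B, π ∈ J₀ ∧ (∀ w : B, w ∈ J₀ → (w : K) / π ∈ R) ∧
          UnitIn R ((π : K) / ∏ j, xi h e' j ^ w j) :=
  stage_add' hJ₀ hφJ hHH h hcl

/-- The function `z₀` is a monomial if its radical ideal is. -/
theorem monAt_of_rad (hB : B.FG) {z₀ : B} (hz₀ : z₀ ≠ 0) {w : E → ℤ} (hw : ∀ j, 0 ≤ w j)
    (h : ∀ R, Pt B J R → ∃ h x y Dx Dy s t b, PtN B J e R h x y Dx Dy s t b ∧
      ∃ π : B, π ∈ (Ideal.span {z₀}).radical ∧
        (∀ w : B, w ∈ (Ideal.span {z₀}).radical → (w : K) / π ∈ R) ∧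
        UnitIn R ((π : K) / ∏ j, xi h e j ^ w j)) :
    ∃ N : ℕ, MonAt B J e (z₀ : K) N := by
  haveI : Algebra.FiniteType k B := (Subalgebra.fg_iff_finiteType B).1 hB
  haveI : IsNoetherianRing B := Algebra.FiniteType.isNoetherianRing k B
  obtain ⟨n, hn⟩ := Ideal.exists_radical_pow_le_of_fg (Ideal.span {z₀})
    (IsNoetherian.noetherian _)
  refine ⟨n * ∑ j, (w j).toNat, fun R hR => ?_⟩
  obtain ⟨h, x, y, Dx, Dy, s, t, b, hp, π, hπ, hJ, hu⟩ := h R hR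
  refine ⟨h, x, y, Dx, Dy, s, t, b, hp, ?_⟩
  obtain ⟨c, hc⟩ := Ideal.mem_span_singleton.1 (hn (Ideal.pow_mem_pow hπ n))
  have hBR : B ≤ R := hR.le
  obtain ⟨w', hw', hu'⟩ := MonAux.ptN_dvd hp (fun j => n * (w j).toNat) (z := (z₀ : K))
    (c := (c : K)) (hBR z₀.2) (hBR c.2) (by
      have e1 : (z₀ : K) * c / ∏ j, xi h e j ^ ((n * (w j).toNat : ℕ) : ℤ) =
          ((π : K) / ∏ j, xi h e j ^ w j) ^ n := by
        rw [div_pow, ← Finset.prod_pow]
        congr 1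
        · have := congrArg (fun z : B => (z : K)) hc
          simpa using this.symm
        · refine Finset.prod_congr rfl fun j _ => ?_
          rw [← zpow_natCast (xi h e j ^ w j) n, ← zpow_mul]
          congr 1
          push_cast
          rw [Int.toNat_of_nonneg (hw j), mul_comm]
      rw [e1]
      exact hu.pow n)
  refine ⟨fun j => (w' j : ℤ), fun j => ⟨Int.natCast_nonneg _, ?_⟩, hu'⟩
  have h1 : (w j).toNat ≤ ∑ j, (w j).toNat :=
    Finset.single_le_sum (f := fun j => (w j).toNat) (fun _ _ => Nat.zero_le _)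
      (Finset.mem_univ j)
  exact Int.ofNat_le.2 ((hw' j).trans (Nat.mul_le_mul_left n h1))

end Pool.Agent.MP_b525bf_ag_S
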