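import Pool.Agent.Lib.MP_b525bf_ag_X.Linear

/-!
# The conditions on the actions on the factors
-/

set_option autoImplicit false

namespace Pool.Agent.MP_b525bf_ag_S

open Pool.Agent.MP_b525bf_ag Pool.Agent.MP_b525bf_ag_X

/-- The conditions on the group `G` of automorphisms of a factor `B`: for every maximal ideal `P`
of `B`, the order of the inertia group `I` of `P` in `G` is not divisible by `p ^ 2`, and `k` is
algebraically closed and `B` of dimension at most two, or `I` acts linearly in suitable étale
coordinates near `P` if it is nontrivial (if `k` is algebraically closed, this is only assumed if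
`p` divides the order of `I`). -/
def Admissible2 {k : Type} [Field k] (p : ℕ) {B : Type} [CommRing B] [Algebra k B]
    (G : Subgroup (B ≃ₐ[k] B)) : Prop :=
  ∀ P : Ideal B, P.IsMaximal → ¬ p ^ 2 ∣ Nat.card (inertiaGroup G P) ∧
    ((IsAlgClosed k ∧ Algebra.trdeg k B ≤ 2) ∨ (inertiaGroup G P ≠ ⊥ →
      (IsAlgClosed k → p ∣ Nat.card (inertiaGroup G P)) → LinearAt G P))

end Pool.Agent.MP_b525bf_ag_S
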