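import Pool.Agent.Lib.MP_b525bf_ag_S.Sigma
import Pool.Agent.Lib.MP_b525bf_ag_TS.Prime

/-!
# S6a: the augmentation ideal of an automorphism of a local ring
-/

set_option autoImplicit false

namespace Pool.Agent.MP_b525bf_ag_S

open Pool.Agent.MP_b525bf_ag_TS

variable {k K G : Type} [Field k] [Field K] [Algebra k K] [Group G]
  {φ : G →* (K ≃ₐ[k] K)} {R : Subalgebra k K} {x y : K} {Dx Dy : Derivation k K K}

theorem fix_mem {g : G} (hg : tr φ g R = R) {z : K} (hz : z ∈ R) : φ g z ∈ R := by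
  have h : (φ g : K →ₐ[k] K) z ∈ tr φ g R := Subalgebra.mem_map.mpr ⟨z, hz, rfl⟩
  rw [hg] at h
  exact h

private theorem fix_mem_inv {g : G} (hg : tr φ g R = R) {z : K} (hz : φ g z ∈ R) : z ∈ R := by
  rw [← hg] at hz
  obtain ⟨w, hw, e⟩ := Subalgebra.mem_map.mp hz
  have e' : φ g w = φ g z := e
  rw [← (φ g).injective e']
  exact hw

/-- `g` acts trivially on the residue field. -/
theorem reg_fix_sub (h : Reg R x y Dx Dy) {g : G} (hg : tr φ g R = R) {z : K} (hz : z ∈ R) :
    ∃ u ∈ R, ∃ v ∈ R, φ g z - z = x * u + y * v := by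
  obtain ⟨c, u, hu, v, hv, e⟩ := h.dec z hz
  have hm : x * u + y * v ∈ R := R.add_mem (R.mul_mem h.hx hu) (R.mul_mem h.hy hv)
  have hgm := fix_mem hg hm
  have key : ∃ u' ∈ R, ∃ v' ∈ R, φ g (x * u + y * v) = x * u' + y * v' := by
    by_contra hcon
    push Not at hcon
    have h1 := h.inv _ hgm hcon
    rw [← map_inv₀] at h1
    have h2 := fix_mem_inv hg h1
    have h0 : x * u + y * v ≠ 0 := by
      intro h0
      refine hcon 0 R.zero_mem 0 R.zero_mem ?_
      rw [h0, map_zero, mul_zero, mul_zero, add_zero]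
    refine h.one (u * (x * u + y * v)⁻¹) (R.mul_mem hu h2) (v * (x * u + y * v)⁻¹)
      (R.mul_mem hv h2) ?_
    rw [← mul_assoc, ← mul_assoc, ← add_mul, mul_inv_cancel₀ h0]
  obtain ⟨u', hu', v', hv', e'⟩ := key
  refine ⟨u' - u, R.sub_mem hu' hu, v' - v, R.sub_mem hv' hv, ?_⟩
  have e1 : φ g z = algebraMap k K c + (x * u' + y * v') := by
    rw [e, add_assoc, map_add, AlgEquiv.commutes, e']
  rw [e1, e]
  ring

/-- The automorphism of `R`. -/
private def fixHom {g : G} (hg : tr φ g R = R) : R →ₐ[k] R where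
  toFun z := ⟨φ g z, fix_mem hg z.2⟩
  map_one' := Subtype.ext (map_one _)
  map_mul' _ _ := Subtype.ext (map_mul _ _ _)
  map_zero' := Subtype.ext (map_zero _)
  map_add' _ _ := Subtype.ext (map_add _ _ _)
  commutes' _ := Subtype.ext (AlgEquiv.commutes _ _)

/-- Two homomorphisms from an unramified algebra to a local ring are equal if they have the same
reduction. -/
private theorem unram_aux {A C S k' : Type} [CommRing A] [CommRing C] [CommRing S] [CommRing k']
    [Algebra A C] [Algebra A S] [Algebra.FormallyUnramified A C] [Algebra.EssFiniteType A C]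
    (f₁ f₂ : C →ₐ[A] S) (π : S →+* k')
    (hu : ∀ s : S, π s = 1 → IsUnit s) (h12 : ∀ c, π (f₁ c) = π (f₂ c)) (c : C) :
    f₁ c = f₂ c := by
  obtain ⟨t, ht, ht1⟩ := (Algebra.FormallyUnramified.iff_exists_tensorProduct (R := A) (S := C)).mp
    inferInstance
  let F : TensorProduct A C C →ₐ[A] S := Algebra.TensorProduct.productMap f₁ f₂
  have hF : ∀ a b : C, F (a ⊗ₜ[A] b) = f₁ a * f₂ b := fun a b =>
    Algebra.TensorProduct.productMap_apply_tmul f₁ f₂ a b
  have h1 : ∀ s : TensorProduct A C C, π (F s) = π (f₁ (Algebra.TensorProduct.lmul' A s)) := by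
    intro s
    induction s using TensorProduct.induction_on with
    | zero => simp only [map_zero]
    | tmul a b =>
      rw [hF, Algebra.TensorProduct.lmul'_apply_tmul, map_mul, map_mul, map_mul, h12 b]
    | add a b ha hb => rw [map_add, map_add, map_add, map_add, map_add, ha, hb]
  have h2 : IsUnit (F t) := hu _ (by rw [h1, ht1, map_one, map_one])
  have h3 : (f₂ c - f₁ c) * F t = 0 := by
    have h4 := congrArg F (ht c)
    rw [map_mul, map_sub, hF, hF, map_one, map_one, one_mul, mul_one, map_zero] at h4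
    exact h4
  have h5 := (h2.mul_left_eq_zero).mp h3
  exact (sub_eq_zero.mp h5).symm

/-- The augmentation ideal is generated by `g x - x` and `g y - y`. -/
theorem reg_aug (h : Reg R x y Dx Dy) {g : G} (hg : tr φ g R = R) {z : K} (hz : z ∈ R) :
    ∃ u ∈ R, ∃ v ∈ R, φ g z - z = (φ g x - x) * u + (φ g y - y) * v := by
  obtain ⟨C, χ, hx, hy, hR, -, -, het⟩ := h.et
  have hCR : C ≤ R := by rw [hR]; exact le_ptLoc
  let gx : R := fixHom hg ⟨x, h.hx⟩ - ⟨x, h.hx⟩
  let gy : R := fixHom hg ⟨y, h.hy⟩ - ⟨y, h.hy⟩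
  let I : Ideal R := Ideal.span {gx, gy}
  let m : Ideal R := Ideal.span {(⟨x, h.hx⟩ : R), ⟨y, h.hy⟩}
  have hmem_m : ∀ w : R, w ∈ m ↔ ∃ u ∈ R, ∃ v ∈ R, (w : K) = x * u + y * v := by
    intro w
    rw [Ideal.mem_span_pair]
    constructor
    · rintro ⟨a, b, e⟩
      refine ⟨a, a.2, b, b.2, ?_⟩
      rw [← e]; push_cast; ring
    · rintro ⟨u, hu, v, hv, e⟩
      refine ⟨⟨u, hu⟩, ⟨v, hv⟩, Subtype.ext ?_⟩
      push_cast; rw [e]; ring
  have hIm : I ≤ m := by
    refine Ideal.span_le.mpr ?_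
    rintro w (rfl | rfl)
    · exact (hmem_m _).mpr (reg_fix_sub h hg h.hx)
    · exact (hmem_m _).mpr (reg_fix_sub h hg h.hy)
  have hI1 : ∀ w : R, w ∈ I → ∃ u ∈ R, ∃ v ∈ R, (w : K) = (φ g x - x) * u + (φ g y - y) * v := by
    intro w hw
    obtain ⟨a, b, e⟩ := Ideal.mem_span_pair.mp hw
    refine ⟨a, a.2, b, b.2, ?_⟩
    rw [← e]
    change (a : K) * (φ g x - x) + b * (φ g y - y) = _
    ring
  -- the two homomorphisms
  let θ : MvPolynomial (Fin 2) k →ₐ[k] C := MvPolynomial.aeval ![(⟨x, hx⟩ : C), ⟨y, hy⟩]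
  let _ : Algebra (MvPolynomial (Fin 2) k) C := θ.toRingHom.toAlgebra
  have het' : Algebra.Etale (MvPolynomial (Fin 2) k) C := het
  let inc : C →ₐ[k] R := Subalgebra.inclusion hCR
  let q : R →ₐ[k] R ⧸ I := Ideal.Quotient.mkₐ k I
  let θ' : MvPolynomial (Fin 2) k →ₐ[k] R ⧸ I := q.comp (inc.comp θ)
  let _ : Algebra (MvPolynomial (Fin 2) k) (R ⧸ I) := θ'.toRingHom.toAlgebra
  let f₁ : C →ₐ[MvPolynomial (Fin 2) k] R ⧸ I :=
    { (q.comp inc).toRingHom with commutes' := fun _ => rfl }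
  have hθ : q.comp ((fixHom hg).comp (inc.comp θ)) = θ' := by
    refine MvPolynomial.algHom_ext fun i => ?_
    fin_cases i
    · change q (fixHom hg (inc (θ (MvPolynomial.X 0)))) = q (inc (θ (MvPolynomial.X 0)))
      have e0 : θ (MvPolynomial.X 0) = ⟨x, hx⟩ := MvPolynomial.aeval_X _ _
      rw [e0]
      exact (Ideal.Quotient.eq.mpr (Ideal.subset_span (Or.inl rfl)))
    · change q (fixHom hg (inc (θ (MvPolynomial.X 1)))) = q (inc (θ (MvPolynomial.X 1)))
      have e0 : θ (MvPolynomial.X 1) = ⟨y, hy⟩ := MvPolynomial.aeval_X _ _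
      rw [e0]
      exact (Ideal.Quotient.eq.mpr (Ideal.subset_span (Or.inr rfl)))
  let f₂ : C →ₐ[MvPolynomial (Fin 2) k] R ⧸ I :=
    { (q.comp ((fixHom hg).comp inc)).toRingHom with
      commutes' := fun p => DFunLike.congr_fun hθ p }
  have hf₁ : ∀ c : C, f₁ c = q (inc c) := fun _ => rfl
  have hf₂ : ∀ c : C, f₂ c = q (fixHom hg (inc c)) := fun _ => rfl
  have key : ∀ c : C, f₁ c = f₂ c := by
    refine unram_aux f₁ f₂ (Ideal.Quotient.factor hIm) ?_ ?_
    · intro s hs
      obtain ⟨r, rfl⟩ := Ideal.Quotient.mk_surjective s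
      rw [Ideal.Quotient.factor_mk, ← map_one (Ideal.Quotient.mk m), Ideal.Quotient.eq] at hs
      obtain ⟨u, hu, v, hv, e⟩ := (hmem_m _).mp hs
      have h1 : (r : K)⁻¹ ∈ R := by
        refine h.inv r r.2 fun u' hu' v' hv' e' => ?_
        refine h.one (u' - u) (R.sub_mem hu' hu) (v' - v) (R.sub_mem hv' hv) ?_
        have e'' : (r : K) - 1 = x * u + y * v := e
        linear_combination e' - e''
      have h0 : (r : K) ≠ 0 := by
        intro h0
        refine h.one (-u) (R.neg_mem hu) (-v) (R.neg_mem hv) ?_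
        have e'' : (r : K) - 1 = x * u + y * v := e
        rw [h0] at e''
        linear_combination -e''
      have h2 : IsUnit r := IsUnit.of_mul_eq_one ⟨(r : K)⁻¹, h1⟩ (Subtype.ext (mul_inv_cancel₀ h0))
      exact h2.map (Ideal.Quotient.mk I)
    · intro c
      rw [hf₁, hf₂]
      change Ideal.Quotient.factor hIm (Ideal.Quotient.mk I (inc c)) =
        Ideal.Quotient.factor hIm (Ideal.Quotient.mk I (fixHom hg (inc c)))
      rw [Ideal.Quotient.factor_mk, Ideal.Quotient.factor_mk, eq_comm, Ideal.Quotient.eq]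
      exact (hmem_m _).mpr (reg_fix_sub h hg (inc c).2)
  have keyC : ∀ c : C, fixHom hg (inc c) - inc c ∈ I := by
    intro c
    have e1 := key c
    rw [hf₁, hf₂] at e1
    exact Ideal.Quotient.eq.mp e1.symm
  -- localisation
  have hz' := hz
  rw [hR] at hz'
  obtain ⟨a, b, hb, hab⟩ := hz'
  have hbu : UnitIn R (b : K) := by
    rw [hR]; exact ptLoc_mem b hb
  have hgb : φ g (b : K)⁻¹ ∈ R := fix_mem hg hbu.2.2
  have hgb0 : φ g (b : K) ≠ 0 := (map_ne_zero (φ g)).mpr hbu.1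
  have hmem : (⟨φ g z - z, R.sub_mem (fix_mem hg hz) hz⟩ : R) ∈ I := by
    have e : (⟨φ g z - z, R.sub_mem (fix_mem hg hz) hz⟩ : R) =
        ⟨φ g (b : K)⁻¹, hgb⟩ * ((fixHom hg (inc a) - inc a) -
          ⟨z, hz⟩ * (fixHom hg (inc b) - inc b)) := by
      refine Subtype.ext ?_
      change φ g z - z = φ g (b : K)⁻¹ * ((φ g a - a) - z * (φ g b - b))
      rw [← hab, map_mul, map_inv₀]
      field_simp
      ring
    rw [e]
    exact I.mul_mem_left _ (I.sub_mem (keyC a) (I.mul_mem_left _ (keyC b)))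
  exact hI1 _ hmem

/-- `g x / x` is a unit of every fixed local ring which contains it. -/
theorem unit_of_fix [Finite G] {g : G} (hg : tr φ g R = R) {z : K} (hz0 : z ≠ 0)
    (hz : φ g z / z ∈ R) : UnitIn R (φ g z / z) := by
  have h0 : ∀ i : ℕ, φ (g ^ i) z ≠ 0 := fun i => (map_ne_zero (φ (g ^ i))).mpr hz0
  have h1 : φ g z / z ≠ 0 := div_ne_zero ((map_ne_zero (φ g)).mpr hz0) hz0
  have hi : ∀ i : ℕ, φ (g ^ (i + 1)) z / φ (g ^ i) z ∈ R := by
    intro i
    induction i with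
    | zero => rw [zero_add, pow_one, pow_zero, map_one]; exact hz
    | succ i ih =>
      have h2 := fix_mem hg ih
      rw [map_div₀, ← AlgEquiv.mul_apply, ← AlgEquiv.mul_apply, ← map_mul, ← map_mul,
        ← pow_succ', ← pow_succ'] at h2
      exact h2
  obtain ⟨m, hm⟩ : ∃ m, orderOf g = m + 1 :=
    ⟨orderOf g - 1, by have := orderOf_pos g; omega⟩
  have htel : ∀ n : ℕ, ∏ i ∈ Finset.range n, φ (g ^ (i + 1)) z / φ (g ^ i) z =
      φ (g ^ n) z / z := by
    intro n
    induction n with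
    | zero => rw [Finset.prod_range_zero, pow_zero, map_one, AlgEquiv.one_apply, div_self hz0]
    | succ n ih =>
      rw [Finset.prod_range_succ, ih]
      have := h0 n
      field_simp
  have h3 : ∏ i ∈ Finset.range (m + 1), φ (g ^ (i + 1)) z / φ (g ^ i) z = 1 := by
    rw [htel, ← hm, pow_orderOf_eq_one, map_one, AlgEquiv.one_apply, div_self hz0]
  rw [Finset.prod_range_succ', zero_add, pow_one, pow_zero, map_one, AlgEquiv.one_apply] at h3
  refine ⟨h1, hz, ?_⟩
  rw [← eq_inv_of_mul_eq_one_left h3]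
  exact R.prod_mem fun i _ => hi (i + 1)

end Pool.Agent.MP_b525bf_ag_S
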