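import Pool.Agent.Lib.MP_b525bf_ag_S.Defs

/-!
# S2: transport by the elements of the group
-/

set_option autoImplicit false

namespace Pool.Agent.MP_b525bf_ag_S

open Pool.Agent.MP_b525bf_ag_TS

variable {k K G C : Type} [Field k] [Field K] [Algebra k K] [Group G] {B : Subalgebra k K}
  {E : Type} [Fintype E] {J : E → Ideal B} {e : E → E → ℤ} {HH : C → Set (E → ℤ)}
  {φ : G →* (K ≃ₐ[k] K)} {S : Sys k K G C} {R : Subalgebra k K} {x y : K}
  {Dx Dy : Derivation k K K}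

private theorem app_inv (φ : G →* (K ≃ₐ[k] K)) (g : G) (z : K) : φ g (φ g⁻¹ z) = z := by
  rw [← AlgEquiv.mul_apply, ← map_mul, mul_inv_cancel, map_one, AlgEquiv.one_apply]

private theorem inv_app (φ : G →* (K ≃ₐ[k] K)) (g : G) (z : K) : φ g⁻¹ (φ g z) = z := by
  rw [← AlgEquiv.mul_apply, ← map_mul, inv_mul_cancel, map_one, AlgEquiv.one_apply]

theorem mem_tr {g : G} {z : K} : z ∈ tr φ g R ↔ φ g⁻¹ z ∈ R := by
  constructor
  · rintro ⟨w, hw, rfl⟩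
    have h : φ g⁻¹ (φ g w) = w := inv_app φ g w
    change φ g⁻¹ (φ g w) ∈ R
    rw [h]
    exact hw
  · intro h
    exact ⟨φ g⁻¹ z, h, app_inv φ g z⟩

private theorem mem_tr_of {g : G} {z : K} (h : z ∈ R) : φ g z ∈ tr φ g R := by
  rw [mem_tr, inv_app]
  exact h

theorem tr_mul (g h : G) : tr φ (g * h) R = tr φ g (tr φ h R) := by
  ext z
  rw [mem_tr, mem_tr, mem_tr, mul_inv_rev, map_mul, AlgEquiv.mul_apply]

theorem tr_one : tr φ 1 R = R := by
  ext z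
  rw [mem_tr, inv_one, map_one, AlgEquiv.one_apply]

theorem tr_mono {R' : Subalgebra k K} (g : G) (h : R ≤ R') : tr φ g R ≤ tr φ g R' := by
  intro z hz
  rw [mem_tr] at hz ⊢
  exact h hz

theorem unitIn_tr {z : K} (g : G) (h : UnitIn R z) : UnitIn (tr φ g R) (φ g z) := by
  obtain ⟨h1, h2, h3⟩ := h
  refine ⟨?_, mem_tr_of h2, ?_⟩
  · intro h0
    exact h1 ((map_eq_zero_iff (φ g) (φ g).injective).mp h0)
  · rw [← map_inv₀]
    exact mem_tr_of h3

/-- Transport of the local ring of a point. -/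
private theorem ptLoc_tr (C' : Subalgebra k K) (χ : C' →ₐ[k] k) (g : G) :
    ∃ χ' : tr φ g C' →ₐ[k] k,
      (∀ (z : K) (hz : z ∈ C') (hz' : φ g z ∈ tr φ g C'), χ' ⟨φ g z, hz'⟩ = χ ⟨z, hz⟩) ∧
      tr φ g (ptLoc C' χ) = ptLoc (tr φ g C') χ' := by
  let ε : C' ≃ₐ[k] tr φ g C' := AlgEquiv.subalgebraMap (φ g) C'
  have hε : ∀ z : C', ((ε z : tr φ g C') : K) = φ g z := fun z => rfl
  have key : ∀ (z : K) (hz : z ∈ C') (hz' : φ g z ∈ tr φ g C'),
      ε.symm ⟨φ g z, hz'⟩ = ⟨z, hz⟩ := by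
    intro z hz hz'
    rw [AlgEquiv.symm_apply_eq]
    exact Subtype.ext (hε ⟨z, hz⟩).symm
  refine ⟨χ.comp (ε.symm : tr φ g C' →ₐ[k] C'), ?_, ?_⟩
  · intro z hz hz'
    change χ (ε.symm ⟨φ g z, hz'⟩) = χ ⟨z, hz⟩
    rw [key z hz hz']
  · ext z
    rw [mem_tr]
    constructor
    · rintro ⟨a, b, hb, h⟩
      refine ⟨ε a, ε b, ?_, ?_⟩
      · change χ (ε.symm (ε b)) ≠ 0
        rw [AlgEquiv.symm_apply_apply]
        exact hb
      · rw [hε, hε, ← h, map_mul, app_inv]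
    · rintro ⟨a, b, hb, h⟩
      refine ⟨ε.symm a, ε.symm b, hb, ?_⟩
      have ha : φ g ((ε.symm a : C') : K) = a := by
        rw [← hε, AlgEquiv.apply_symm_apply]
      have hb' : φ g ((ε.symm b : C') : K) = b := by
        rw [← hε, AlgEquiv.apply_symm_apply]
      have : φ g (φ g⁻¹ z * ((ε.symm b : C') : K)) = φ g ((ε.symm a : C') : K) := by
        rw [map_mul, app_inv, ha, hb', h]
      exact (φ g).injective this

/-- The étale algebra at the point `g R`. -/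
private theorem et_tr {C' : Subalgebra k K} {χ : C' →ₐ[k] k} (hx : x ∈ C') (hy : y ∈ C')
    (h1 : χ ⟨x, hx⟩ = 0) (h2 : χ ⟨y, hy⟩ = 0)
    (h3 : (MvPolynomial.aeval ![(⟨x, hx⟩ : C'), ⟨y, hy⟩] :
      MvPolynomial (Fin 2) k →ₐ[k] C').toRingHom.Etale) (g : G) :
    ∃ (C'' : Subalgebra k K) (χ' : C'' →ₐ[k] k) (hx : φ g x ∈ C'') (hy : φ g y ∈ C''),
    tr φ g (ptLoc C' χ) = ptLoc C'' χ' ∧ χ' ⟨φ g x, hx⟩ = 0 ∧ χ' ⟨φ g y, hy⟩ = 0 ∧
    (MvPolynomial.aeval ![(⟨φ g x, hx⟩ : C''), ⟨φ g y, hy⟩] :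
      MvPolynomial (Fin 2) k →ₐ[k] C'').toRingHom.Etale := by
  obtain ⟨χ', hχ1, hχ2⟩ := ptLoc_tr (φ := φ) C' χ g
  refine ⟨tr φ g C', χ', mem_tr_of hx, mem_tr_of hy, hχ2, ?_, ?_, ?_⟩
  · rw [hχ1 x hx, h1]
  · rw [hχ1 y hy, h2]
  · let ε : C' ≃ₐ[k] tr φ g C' := AlgEquiv.subalgebraMap (φ g) C'
    have hε : ∀ z : C', ((ε z : tr φ g C') : K) = φ g z := fun z => rfl
    have h4 : (MvPolynomial.aeval ![(⟨φ g x, mem_tr_of hx⟩ : tr φ g C'),
        ⟨φ g y, mem_tr_of hy⟩] : MvPolynomial (Fin 2) k →ₐ[k] tr φ g C') =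
        (ε : C' →ₐ[k] tr φ g C').comp (MvPolynomial.aeval ![(⟨x, hx⟩ : C'), ⟨y, hy⟩]) := by
      apply MvPolynomial.algHom_ext
      intro i
      rw [AlgHom.comp_apply, MvPolynomial.aeval_X, MvPolynomial.aeval_X]
      fin_cases i
      · exact Subtype.ext rfl
      · exact Subtype.ext rfl
    rw [h4]
    have h5 : ((ε : C' →ₐ[k] tr φ g C').toRingHom).Etale :=
      RingHom.Etale.of_bijective ε.bijective
    exact RingHom.Etale.stableUnderComposition _ _ h3 h5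

private theorem trD_app (g : G) (D : Derivation k K K) (z : K) :
    trD φ g D z = φ g (D (φ g⁻¹ z)) := rfl

private theorem trD_app' (g : G) (D : Derivation k K K) (z : K) :
    trD φ g D (φ g z) = φ g (D z) := by
  rw [trD_app, inv_app]

theorem reg_tr (h : Reg R x y Dx Dy) (g : G) :
    Reg (tr φ g R) (φ g x) (φ g y) (trD φ g Dx) (trD φ g Dy) where
  hx := mem_tr_of h.hx
  hy := mem_tr_of h.hy
  xx := by rw [trD_app', h.xx, map_one]
  xy := by rw [trD_app', h.xy, map_zero]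
  yx := by rw [trD_app', h.yx, map_zero]
  yy := by rw [trD_app', h.yy, map_one]
  Dx_mem z hz := by
    rw [trD_app]
    rw [mem_tr] at hz
    exact mem_tr_of (h.Dx_mem _ hz)
  Dy_mem z hz := by
    rw [trD_app]
    rw [mem_tr] at hz
    exact mem_tr_of (h.Dy_mem _ hz)
  comm z := by
    rw [trD_app g Dy, trD_app', trD_app g Dx, trD_app', h.comm]
  basis D := by
    have h1 := h.basis (trD φ g⁻¹ D)
    have h2 : ∀ z, trD φ g⁻¹ D z = φ g⁻¹ (D (φ g z)) := by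
      intro z
      rw [trD_app, inv_inv]
    ext z
    have h3 := congrArg (fun D' : Derivation k K K => φ g (D' (φ g⁻¹ z))) h1
    simp only [Derivation.coe_add, Derivation.coe_smul, Pi.add_apply, Pi.smul_apply, smul_eq_mul,
      h2, map_add, map_mul, app_inv] at h3
    rw [h3]
    simp only [Derivation.coe_add, Derivation.coe_smul, Pi.add_apply, Pi.smul_apply, smul_eq_mul,
      trD_app]
  dec z hz := by
    rw [mem_tr] at hz
    obtain ⟨c, u, hu, v, hv, h1⟩ := h.dec _ hz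
    refine ⟨c, φ g u, mem_tr_of hu, φ g v, mem_tr_of hv, ?_⟩
    have h2 := congrArg (φ g) h1
    rw [app_inv, map_add, map_add, map_mul, map_mul, AlgEquiv.commutes] at h2
    exact h2
  inv z hz h0 := by
    rw [mem_tr] at hz ⊢
    rw [map_inv₀]
    refine h.inv _ hz ?_
    intro u hu v hv h1
    refine h0 (φ g u) (mem_tr_of hu) (φ g v) (mem_tr_of hv) ?_
    have h2 := congrArg (φ g) h1
    rw [app_inv, map_add, map_mul, map_mul] at h2
    exact h2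
  one u hu v hv h1 := by
    rw [mem_tr] at hu hv
    refine h.one _ hu _ hv ?_
    have h2 := congrArg (φ g⁻¹) h1
    rw [map_one, map_add, map_mul, map_mul, inv_app, inv_app] at h2
    exact h2
  et := by
    obtain ⟨C', χ, hx, hy, h1, h2, h3, h4⟩ := h.et
    rw [h1]
    exact et_tr hx hy h2 h3 h4 g

private theorem tupIn_tr
    (hst : ∀ g i, ∀ w : B, w ∈ J i → ∃ w' : B, w' ∈ J i ∧ (w' : K) = φ g w) (g : G)
    {h : E → K} (hh : TupIn B J h) : TupIn B J fun i => φ g (h i) := by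
  intro i
  obtain ⟨h0, w, hw, hwi⟩ := hh i
  refine ⟨fun h1 => h0 ((map_eq_zero_iff (φ g) (φ g).injective).mp h1), ?_⟩
  obtain ⟨w', hw', hw'2⟩ := hst g i w hw
  exact ⟨w', hw', by rw [hw'2, hwi]⟩

private theorem chartF_tr_le (hφB : ∀ g, ∀ b ∈ B, φ g b ∈ B)
    (hst : ∀ g i, ∀ w : B, w ∈ J i → ∃ w' : B, w' ∈ J i ∧ (w' : K) = φ g w) (g : G)
    (h : E → K) : tr φ g (chartF B J h) ≤ chartF B J fun i => φ g (h i) := by
  unfold tr
  rw [chartF, AlgHom.map_adjoin, Algebra.adjoin_le_iff]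
  rintro z ⟨w, hw, rfl⟩
  rcases hw with hw | ⟨i, w', hw', rfl⟩
  · exact Algebra.subset_adjoin (Or.inl (hφB g w hw))
  · obtain ⟨w'', hw'', h2⟩ := hst g i w' hw'
    refine Algebra.subset_adjoin (Or.inr ⟨i, w'', hw'', ?_⟩)
    change φ g ((w' : K) / h i) = _
    rw [map_div₀, h2]

private theorem chartF_tr (hφB : ∀ g, ∀ b ∈ B, φ g b ∈ B)
    (hst : ∀ g i, ∀ w : B, w ∈ J i → ∃ w' : B, w' ∈ J i ∧ (w' : K) = φ g w) (g : G)
    (h : E → K) : tr φ g (chartF B J h) = chartF B J fun i => φ g (h i) := by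
  apply le_antisymm (chartF_tr_le hφB hst g h)
  have h1 := tr_mono (φ := φ) g (chartF_tr_le hφB hst g⁻¹ fun i => φ g (h i))
  rw [← tr_mul, mul_inv_cancel, tr_one] at h1
  simp only [inv_app] at h1
  exact h1

theorem pt_tr (hφB : ∀ g, ∀ b ∈ B, φ g b ∈ B)
    (hst : ∀ g i, ∀ w : B, w ∈ J i → ∃ w' : B, w' ∈ J i ∧ (w' : K) = φ g w) (g : G)
    (h : Pt B J R) : Pt B J (tr φ g R) := by
  obtain ⟨h, hh, χ, rfl⟩ := h
  obtain ⟨χ', -, h2⟩ := ptLoc_tr (φ := φ) _ χ g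
  refine ⟨fun i => φ g (h i), tupIn_tr hst g hh, ?_⟩
  rw [← chartF_tr hφB hst g h]
  exact ⟨χ', h2⟩

theorem genAt_tr (hφB : ∀ g, ∀ b ∈ B, φ g b ∈ B)
    (hst : ∀ g i, ∀ w : B, w ∈ J i → ∃ w' : B, w' ∈ J i ∧ (w' : K) = φ g w) (g : G)
    {h : E → K} (hh : GenAt B J R h) : GenAt B J (tr φ g R) fun i => φ g (h i) := by
  have _ := hφB
  refine ⟨tupIn_tr hst g hh.1, fun i w hw => ?_⟩
  obtain ⟨w', hw', h2⟩ := hst g⁻¹ i w hw
  rw [mem_tr, map_div₀, inv_app, ← h2]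
  exact hh.2 i w' hw'

theorem xi_tr (g : G) (h : E → K) (j : E) : xi (fun i => φ g (h i)) e j = φ g (xi h e j) := by
  unfold xi
  rw [map_prod]
  exact Finset.prod_congr rfl fun i _ => (map_zpow₀ (φ g) _ _).symm

private theorem val_tr {V : Subalgebra k K} (g : G) (h : Val R x V) :
    Val (tr φ g R) (φ g x) (tr φ g V) := by
  obtain ⟨h1, h2, h3, h4⟩ := h
  refine ⟨mem_tr_of h1, tr_mono g h2, ?_, ?_⟩
  · rw [mem_tr, map_inv₀, inv_app]
    exact h3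
  · intro z hz h0
    rw [mem_tr] at hz ⊢
    rw [map_inv₀]
    refine h4 _ hz fun u hu h5 => h0 (φ g u) (mem_tr_of hu) ?_
    have h6 := congrArg (φ g) h5
    rw [app_inv, map_mul] at h6
    exact h6

theorem ptN_tr (hφB : ∀ g, ∀ b ∈ B, φ g b ∈ B)
    (hst : ∀ g i, ∀ w : B, w ∈ J i → ∃ w' : B, w' ∈ J i ∧ (w' : K) = φ g w) (g : G)
    {h : E → K} {s t : Bool} {b : E → Option Bool} (hp : PtN B J e R h x y Dx Dy s t b) :
    PtN B J e (tr φ g R) (fun i => φ g (h i)) (φ g x) (φ g y) (trD φ g Dx) (trD φ g Dy) s t b := by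
  obtain ⟨V, hV⟩ := hp
  refine ⟨fun j => tr φ g (V j), ?_⟩
  exact
    { gen := genAt_tr hφB hst g hV.gen
      reg := reg_tr hV.reg g
      b0 := fun j hj => by
        rw [xi_tr]
        exact unitIn_tr g (hV.b0 j hj)
      bx := fun j hj => by
        rw [xi_tr, ← map_div₀]
        exact unitIn_tr g (hV.bx j hj)
      by' := fun j hj => by
        rw [xi_tr, ← map_div₀]
        exact unitIn_tr g (hV.by' j hj)
      s_iff := hV.s_iff
      t_iff := hV.t_iff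
      inj := hV.inj
      val := fun j hj => by
        rw [xi_tr]
        exact val_tr g (hV.val j hj) }

private theorem tr_inj {R' : Subalgebra k K} (g : G) (h : tr φ g R = tr φ g R') : R = R' := by
  have h1 := congrArg (tr φ g⁻¹) h
  rw [← tr_mul, ← tr_mul, inv_mul_cancel, tr_one, tr_one] at h1
  exact h1

theorem ok_tr [MulAction G C] (hE : S.Equi φ) (g : G) (c : C) :
    S.Ok φ c R ↔ S.Ok φ (g • c) (tr φ g R) := by
  constructor
  · intro h h' hh'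
    have h1 : g⁻¹ * h' * g ∈ S.H c := by
      rw [hE.H g c]
      have : g * (g⁻¹ * h' * g) * g⁻¹ = h' := by group
      rw [this]
      exact hh'
    have h2 := h _ h1
    rw [← tr_mul]
    have h3 : h' * g = g * (g⁻¹ * h' * g) := by group
    rw [h3, tr_mul, h2]
  · intro h h' hh'
    have h1 := h _ ((hE.H g c h').mp hh')
    rw [← tr_mul] at h1
    have h2 : g * h' * g⁻¹ * g = g * h' := by group
    rw [h2, tr_mul] at h1
    exact tr_inj g h1

theorem adL_tr [MulAction G C] (hE : S.Equi φ) (g : G) (c : C) {s t : Bool} {γ : K}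
    (h : AdL (S.Λ c) R x y Dx Dy s t γ) :
    AdL (S.Λ (g • c)) (tr φ g R) (φ g x) (φ g y) (trD φ g Dx) (trD φ g Dy) s t (φ g γ) ∧
    (JL (S.Λ c) R x y Dx Dy s t γ = ⊤ →
      JL (S.Λ (g • c)) (tr φ g R) (φ g x) (φ g y) (trD φ g Dx) (trD φ g Dy) s t (φ g γ) = ⊤) ∧
    invL (S.Λ (g • c)) (tr φ g R) (φ g x) (φ g y) (trD φ g Dx) (trD φ g Dy) s t (φ g γ) =
      invL (S.Λ c) R x y Dx Dy s t γ := by
  let ε : R ≃ₐ[k] tr φ g R := AlgEquiv.subalgebraMap (φ g) R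
  have hε : ∀ z : R, ((ε z : tr φ g R) : K) = φ g z := fun z => rfl
  have hJ : JL (S.Λ (g • c)) (tr φ g R) (φ g x) (φ g y) (trD φ g Dx) (trD φ g Dy) s t (φ g γ) =
      (JL (S.Λ c) R x y Dx Dy s t γ).map (ε : R →+* tr φ g R) := by
    unfold JL
    rw [Ideal.map_span]
    congr 1
    ext z
    constructor
    · rintro ⟨l, hl, hz⟩
      rw [hE.Λ] at hl
      obtain ⟨l', hl', rfl⟩ := hl
      refine ⟨ε.symm z, ⟨l', hl', ?_⟩, AlgEquiv.apply_symm_apply ε z⟩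
      apply (φ g).injective
      rw [← hε, AlgEquiv.apply_symm_apply, hz, map_div₀]
    · rintro ⟨w, ⟨l, hl, hw⟩, rfl⟩
      refine ⟨φ g l, ?_, ?_⟩
      · rw [hE.Λ]
        exact ⟨l, hl, rfl⟩
      · change ((ε w : tr φ g R) : K) = _
        rw [hε, hw, map_div₀]
  let Q := Ideal.quotientEquivAlg (JL (S.Λ c) R x y Dx Dy s t γ) _ ε hJ
  have hfin := h.fin
  refine ⟨⟨fun h0 => h.ne ((map_eq_zero_iff (φ g) (φ g).injective).mp h0), ?_, ?_⟩, ?_, ?_⟩
  · intro l hl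
    rw [hE.Λ] at hl
    obtain ⟨l', hl', rfl⟩ := hl
    rw [← map_div₀]
    exact mem_tr_of (h.mem l' hl')
  · exact Module.Finite.equiv Q.toLinearEquiv
  · intro h1
    rw [hJ, h1, Ideal.map_top]
  · unfold invL
    rw [Q.toLinearEquiv.finrank_eq]

theorem presS_tr [MulAction G C] (hφB : ∀ g, ∀ b ∈ B, φ g b ∈ B)
    (hst : ∀ g i, ∀ w : B, w ∈ J i → ∃ w' : B, w' ∈ J i ∧ (w' : K) = φ g w)
    (hE : S.Equi φ) (hHH : ∀ (g : G) (c : C), HH (g • c) = HH c) (g : G)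
    {P P' : C → K → K → Derivation k K K → Derivation k K K → Bool → Bool → K → Prop}
    (hP : ∀ c x y Dx Dy s t γ, AdL (S.Λ c) R x y Dx Dy s t γ → P c x y Dx Dy s t γ →
      P' (g • c) (φ g x) (φ g y) (trD φ g Dx) (trD φ g Dy) s t (φ g γ))
    (h : PresS B φ S J e HH R P) : PresS B φ S J e HH (tr φ g R) P' := by
  obtain ⟨h, x, y, Dx, Dy, s, t, b, hp, hc⟩ := h
  refine ⟨fun i => φ g (h i), φ g x, φ g y, trD φ g Dx, trD φ g Dy, s, t, b,
    ptN_tr hφB hst g hp, ?_⟩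
  intro c' hc'
  obtain ⟨c, rfl⟩ : ∃ c, c' = g • c := ⟨g⁻¹ • c', (smul_inv_smul g c').symm⟩
  rw [← ok_tr hE] at hc'
  obtain ⟨h1, w, hw, h2, h3⟩ := hc c hc'
  have h4 : (∏ j, xi (fun i => φ g (h i)) e j ^ w j) = φ g (∏ j, xi h e j ^ w j) := by
    rw [map_prod]
    refine Finset.prod_congr rfl fun j _ => ?_
    rw [xi_tr, map_zpow₀]
  refine ⟨hE.adm g c _ _ _ _ _ _ _ h1, w, by rw [hHH]; exact hw, ?_, ?_⟩
  · rw [h4]
    exact (adL_tr hE g c h2).1
  · rw [h4]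
    exact hP c _ _ _ _ _ _ _ h2 h3

theorem lvS_tr [MulAction G C] (hφB : ∀ g, ∀ b ∈ B, φ g b ∈ B)
    (hst : ∀ g i, ∀ w : B, w ∈ J i → ∃ w' : B, w' ∈ J i ∧ (w' : K) = φ g w)
    (hE : S.Equi φ) (hHH : ∀ (g : G) (c : C), HH (g • c) = HH c) (g : G) {m : ℕ}
    (h : LvS B φ S J e HH m R) : LvS B φ S J e HH m (tr φ g R) := by
  refine presS_tr hφB hst hE hHH g ?_ h
  intro c x y Dx Dy s t γ h1 h2
  obtain ⟨-, h3, h4⟩ := adL_tr hE g c h1
  rcases h2 with h2 | h2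
  · exact Or.inl (h3 h2)
  · exact Or.inr (by rw [h4]; exact h2)

end Pool.Agent.MP_b525bf_ag_S
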