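import Pool.Agent.Lib.MP_b525bf_ag_S.PtsS
import Pool.Agent.Lib.MP_b525bf_ag_S.Trans
import Pool.Agent.Lib.MP_b525bf_ag_S.PtN
import Pool.Agent.Lib.MP_b525bf_ag_TS.Blow

/-!
# S3: blowing up of an orbit of points
-/

set_option autoImplicit false

namespace Pool.Agent.MP_b525bf_ag_S

open Pool.Agent.MP_b525bf_ag_TS
open scoped Classical

variable {k K G C : Type} [Field k] [Field K] [Algebra k K] [Group G] {B : Subalgebra k K}
  {E : Type} [Fintype E] {J : E → Ideal B} {e : E → E → ℤ} {HH : C → Set (E → ℤ)}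
  {φ : G →* (K ≃ₐ[k] K)} {S : Sys k K G C}

/-- Change of the exponent by a unit. -/
theorem adL_congr {Λ : LObj k K} {R : Subalgebra k K} {x y : K} {Dx Dy : Derivation k K K}
    {s t : Bool} {γ γ' : K} (hA : AdL Λ R x y Dx Dy s t γ) (hu : UnitIn R (γ' / γ)) :
    AdL Λ R x y Dx Dy s t γ' ∧ JL Λ R x y Dx Dy s t γ' = JL Λ R x y Dx Dy s t γ := by
  have hγ := hA.ne
  have hγ' : γ' ≠ 0 := fun h => hu.1 (by rw [h, zero_div])
  have h1 : ∀ l : K, l / γ' = l / γ * (γ' / γ)⁻¹ := fun l => by field_simp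
  have h2 : ∀ l : K, l / γ = l / γ' * (γ' / γ) := fun l => by field_simp
  have hm : ∀ l ∈ Λ R x y Dx Dy s t, l / γ' ∈ R := fun l hl => by
    rw [h1]
    exact R.mul_mem (hA.mem l hl) hu.2.2
  have hJ : JL Λ R x y Dx Dy s t γ' = JL Λ R x y Dx Dy s t γ := by
    refine le_antisymm (Ideal.span_le.2 ?_) (Ideal.span_le.2 ?_)
    · rintro z ⟨l, hl, hz⟩
      have h3 : z = ⟨l / γ, hA.mem l hl⟩ * ⟨(γ' / γ)⁻¹, hu.2.2⟩ :=
        Subtype.ext (by rw [hz, h1]; rfl)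
      rw [h3]
      exact Ideal.mul_mem_right _ _ (Ideal.subset_span ⟨l, hl, rfl⟩)
    · rintro z ⟨l, hl, hz⟩
      have h3 : z = ⟨l / γ', hm l hl⟩ * ⟨γ' / γ, hu.2.1⟩ :=
        Subtype.ext (by rw [hz, h2]; rfl)
      rw [h3]
      exact Ideal.mul_mem_right _ _ (Ideal.subset_span ⟨l, hl, rfl⟩)
  refine ⟨⟨hγ', hm, ?_⟩, hJ⟩
  rw [hJ]
  exact hA.fin

theorem invL_congr {Λ : LObj k K} {R : Subalgebra k K} {x y : K} {Dx Dy : Derivation k K K}
    {s t : Bool} {γ γ' : K} (hJ : JL Λ R x y Dx Dy s t γ' = JL Λ R x y Dx Dy s t γ) :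
    invL Λ R x y Dx Dy s t γ' = invL Λ R x y Dx Dy s t γ := by
  unfold invL
  rw [hJ]

theorem lvS_mono {m m' : ℕ} (hm : m ≤ m') {R : Subalgebra k K} (h : LvS B φ S J e HH m R) :
    LvS B φ S J e HH m' R := by
  obtain ⟨h₁, x, y, Dx, Dy, s, t, b, hp, hc⟩ := h
  refine ⟨h₁, x, y, Dx, Dy, s, t, b, hp, fun c hok => ?_⟩
  obtain ⟨ha, w, hw, hA, hP⟩ := hc c hok
  exact ⟨ha, w, hw, hA, hP.imp_right fun h => h.trans hm⟩

/-- The boundary at the points away from the center. -/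
theorem ptN_far {R : Subalgebra k K} {h : E → K} {x y : K} {Dx Dy : Derivation k K K}
    {s t : Bool} {b : E → Option Bool} (hp : PtN B J e R h x y Dx Dy s t b) {I' : Ideal B}
    {h' : Option E → K} (hh' : GenAt B (optJ J I') R h')
    (hh : GenAt B J R (fun i => h' (some i))) {c : ℕ}
    (hu : UnitIn R (h' none / (∏ i, h' (some i)) ^ c)) (T : E → Prop) :
    PtN B (optJ J I') (blowE e T c) R h' x y Dx Dy s t (optb b) := by
  obtain ⟨V, hV⟩ := hp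
  exact ⟨optV V ⊥, hV.far hh' hh hu T ⊥⟩

/-- The boundary at the points `y / x = c'` of the exceptional curve. -/
theorem ptN_near {R₀ : Subalgebra k K} {h : E → K} {x y : K} {Dx Dy : Derivation k K K}
    {s t : Bool} {b : E → Option Bool} (hp : PtN B J e R₀ h x y Dx Dy s t b) {I' : Ideal B}
    {R' : Subalgebra k K} {c' : k} (hQ : QT R₀ R' x y c')
    {h' : Option E → K} (hh' : GenAt B (optJ J I') R' h') {c : ℕ}
    (hu : UnitIn R' (h' none / (∏ i, h' (some i)) ^ c / x))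
    (hu' : ∀ i, UnitIn R' (h' (some i) / h i)) :
    PtN B (optJ J I') (blowE e (fun j => b j ≠ none) c) R' h' x
      (y / x - algebraMap k K c') (Dx + (y / x) • Dy) (x • Dy) true (t && decide (c' = 0))
      (nearb b c') := by
  obtain ⟨V, hV⟩ := hp
  obtain ⟨V₀, hV₀⟩ := exists_val (hV.reg.qt hQ)
  exact ⟨optV V V₀, hV.near hQ hh' hu hu' hV₀⟩

/-- The boundary at the point `x / y = 0` of the exceptional curve. -/
theorem ptN_near' {R₀ : Subalgebra k K} {h : E → K} {x y : K} {Dx Dy : Derivation k K K}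
    {s t : Bool} {b : E → Option Bool} (hp : PtN B J e R₀ h x y Dx Dy s t b) {I' : Ideal B}
    {R' : Subalgebra k K} (hQ : QT R₀ R' y x 0)
    {h' : Option E → K} (hh' : GenAt B (optJ J I') R' h') {c : ℕ}
    (hu : UnitIn R' (h' none / (∏ i, h' (some i)) ^ c / y))
    (hu' : ∀ i, UnitIn R' (h' (some i) / h i)) :
    ∃ b', PtN B (optJ J I') (blowE e (fun j => b j ≠ none) c) R' h' (x / y) y
      (y • Dx) (Dy + (x / y) • Dx) s true b' := by
  obtain ⟨V, hV⟩ := hp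
  obtain ⟨V₀, hV₀⟩ := exists_val (hV.reg.symm.qt hQ)
  have hp1 := hV.symm.near hQ hh' hu hu' hV₀
  have hT : (fun j => (b j).map not ≠ none) = fun j => b j ≠ none := by
    funext j
    simp
  rw [hT] at hp1
  have hp2 := hp1.symm
  rw [map_zero, sub_zero] at hp2
  simp only [decide_true, Bool.and_true] at hp2
  exact ⟨_, optV V V₀, hp2⟩

theorem ptN_gen {R : Subalgebra k K} {h : E → K} {x y : K} {Dx Dy : Derivation k K K}
    {s t : Bool} {b : E → Option Bool} (hp : PtN B J e R h x y Dx Dy s t b) : GenAt B J R h := by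
  obtain ⟨V, hV⟩ := hp
  exact hV.gen

theorem ptN_reg {R : Subalgebra k K} {h : E → K} {x y : K} {Dx Dy : Derivation k K K}
    {s t : Bool} {b : E → Option Bool} (hp : PtN B J e R h x y Dx Dy s t b) :
    Reg R x y Dx Dy := by
  obtain ⟨V, hV⟩ := hp
  exact hV.reg

/-- The exponents of the exceptional curve. -/
def expA (φ : G →* (K ≃ₐ[k] K)) (S : Sys k K G C) [MulAction G C] (R₀ : Subalgebra k K)
    (ρ : C → ℤ) (c : C) : Set ℤ :=
  {a | (∃ g : G, S.Ok φ (g • c) R₀ ∧ a = ρ (g • c)) ∨ ((∀ g : G, ¬ S.Ok φ (g • c) R₀) ∧ a = 0)}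

theorem expA_finite [Finite G] [MulAction G C] (R₀ : Subalgebra k K) (ρ : C → ℤ) (c : C) :
    (expA φ S R₀ ρ c).Finite := by
  refine ((Set.finite_range fun g : G => ρ (g • c)).union (Set.finite_singleton (0 : ℤ))).subset ?_
  rintro a (⟨g, -, rfl⟩ | ⟨-, rfl⟩)
  · exact Or.inl ⟨g, rfl⟩
  · exact Or.inr rfl

theorem expA_nonempty [MulAction G C] (R₀ : Subalgebra k K) (ρ : C → ℤ) (c : C) :
    (expA φ S R₀ ρ c).Nonempty := by
  by_cases h : ∃ g : G, S.Ok φ (g • c) R₀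
  · obtain ⟨g, hg⟩ := h
    exact ⟨_, Or.inl ⟨g, hg, rfl⟩⟩
  · push Not at h
    exact ⟨0, Or.inr ⟨h, rfl⟩⟩

theorem expA_smul [MulAction G C] (R₀ : Subalgebra k K) (ρ : C → ℤ) (g : G) (c : C) :
    expA φ S R₀ ρ (g • c) = expA φ S R₀ ρ c := by
  ext a
  constructor
  · rintro (⟨h, h1, h2⟩ | ⟨h1, h2⟩)
    · refine Or.inl ⟨h * g, ?_, ?_⟩
      · rwa [mul_smul]
      · rwa [mul_smul]
    · refine Or.inr ⟨fun h => ?_, h2⟩
      have := h1 (h * g⁻¹)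
      rwa [mul_smul, inv_smul_smul] at this
  · rintro (⟨h, h1, h2⟩ | ⟨h1, h2⟩)
    · refine Or.inl ⟨h * g⁻¹, ?_, ?_⟩
      · rwa [mul_smul, inv_smul_smul]
      · rwa [mul_smul, inv_smul_smul]
    · refine Or.inr ⟨fun h => ?_, h2⟩
      rw [← mul_smul]
      exact h1 _

theorem expA_subsingleton [MulAction G C] (R₀ : Subalgebra k K) (ρ : C → ℤ) {c : C}
    (hc : ∀ g : G, g • c = c) : (expA φ S R₀ ρ c).Subsingleton := by
  rintro a ha b hb
  rcases ha with ⟨g, h1, rfl⟩ | ⟨h1, rfl⟩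
  · rcases hb with ⟨g', h1', rfl⟩ | ⟨h1', rfl⟩
    · rw [hc, hc]
    · exact absurd h1 (h1' g)
  · rcases hb with ⟨g', h1', rfl⟩ | ⟨h1', rfl⟩
    · exact absurd h1' (h1 g')
    · rfl

/-- The exponents on the blowing up. -/
def expH (φ : G →* (K ≃ₐ[k] K)) (S : Sys k K G C) [MulAction G C] (R₀ : Subalgebra k K)
    (ρ : C → ℤ) (HH : C → Set (E → ℤ)) (c : C) : Set (Option E → ℤ) :=
  Set.image2 optα (HH c) (expA φ S R₀ ρ c)

/-- The points of the blowing up of an orbit. -/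
theorem pt_blow_orbit {R₀ : Subalgebra k K} (hφB : ∀ g, ∀ b ∈ B, φ g b ∈ B)
    (hJ : ∀ i, J i ≠ ⊥)
    (hst : ∀ g i, ∀ w : B, w ∈ J i → ∃ w' : B, w' ∈ J i ∧ (w' : K) = φ g w)
    (hR₀ : Pt B J R₀) {c : ℕ} {I' : Ideal B}
    (hc : IsCenterS B J (Set.range fun g => tr φ g R₀) c I')
    (hI' : ∀ g, ∀ w : B, w ∈ I' → ∃ w' : B, w' ∈ I' ∧ (w' : K) = φ g w)
    {R' : Subalgebra k K} (hR' : Pt B (optJ J I') R') :
    (Pt B J R' ∧ R' ≠ R₀ ∧ ∀ h', GenAt B (optJ J I') R' h' →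
      GenAt B J R' (fun i => h' (some i)) ∧
        UnitIn R' (h' none / (∏ i, h' (some i)) ^ c)) ∨
    ∃ (g : G) (R'' : Subalgebra k K), Pt B (optJ J I') R'' ∧ R' = tr φ g R'' ∧ R₀ ≤ R'' ∧
      ∀ x y Dx Dy, Reg R₀ x y Dx Dy →
      (∃ c' : k, QT R₀ R'' x y c' ∧ ∀ h', GenAt B (optJ J I') R'' h' →
        UnitIn R'' (h' none / (∏ i, h' (some i)) ^ c / x) ∧
          ∀ h, GenAt B J R₀ h → ∀ i, UnitIn R'' (h' (some i) / h i)) ∨
      (QT R₀ R'' y x 0 ∧ ∀ h', GenAt B (optJ J I') R'' h' →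
        UnitIn R'' (h' none / (∏ i, h' (some i)) ^ c / y) ∧
          ∀ h, GenAt B J R₀ h → ∀ i, UnitIn R'' (h' (some i) / h i)) := by
  have hSP : ∀ R ∈ Set.range (fun g => tr φ g R₀), Pt B J R := by
    rintro _ ⟨g, rfl⟩
    exact pt_tr hφB hst g hR₀
  have hmem : R₀ ∈ Set.range (fun g => tr φ g R₀) := ⟨1, tr_one⟩
  have hst' : ∀ (g : G) (i : Option E), ∀ w : B, w ∈ optJ J I' i →
      ∃ w' : B, w' ∈ optJ J I' i ∧ (w' : K) = φ g w := by
    intro g i w hw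
    cases i with
    | none => exact hI' g w hw
    | some i => exact hst g i w hw
  rcases pt_blowS hJ hSP hc hR' with ⟨h1, h2, h3⟩ | ⟨R₁, ⟨g, rfl⟩, hle, -⟩
  · exact Or.inl ⟨h1, fun h => h2 (h ▸ hmem), h3⟩
  · right
    have hle' : R₀ ≤ tr φ g⁻¹ R' := by
      have h1 := tr_mono (φ := φ) g⁻¹ hle
      simp only [← tr_mul, inv_mul_cancel, tr_one] at h1
      exact h1
    have hR'' : Pt B (optJ J I') (tr φ g⁻¹ R') := pt_tr hφB hst' g⁻¹ hR'
    refine ⟨g, tr φ g⁻¹ R', hR'', ?_, hle', ?_⟩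
    · rw [← tr_mul, mul_inv_cancel, tr_one]
    · rcases pt_blowS hJ hSP hc hR'' with ⟨h1, h2, -⟩ | ⟨R₂, hR₂, hle₂, h3⟩
      · exact absurd (pt_unique hR₀ h1 hR'' hle' le_rfl ▸ hmem) h2
      · have h4 : R₀ = R₂ := pt_unique hR₀ (hSP _ hR₂) hR'' hle' hle₂
        subst h4
        exact h3

/-- Blowing up of the orbit of a point where some object is not clean. -/
theorem stage_blow [Finite G] [Finite C] [MulAction G C] (hB : B.FG)
    (hφB : ∀ g, ∀ b ∈ B, φ g b ∈ B) (hE : S.Equi φ)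
    (hD : ∀ c, LDrop φ (S.Λ c) (S.H c) (S.adm c)) (h : Stage B φ S J e HH)
    {R₀ : Subalgebra k K} (hR₀ : Pt B J R₀) (hbad : ¬ LvS B φ S J e HH 0 R₀) :
    ∃ (J' : Option E → Ideal B) (e' : Option E → Option E → ℤ) (HH' : C → Set (Option E → ℤ)),
      Stage B φ S J' e' HH' ∧
      (∀ c, (∀ g : G, g • c = c) → (HH c).Subsingleton → (HH' c).Subsingleton) ∧
      ∀ R, Pt B J' R → (Pt B J R ∧ R ≠ R₀ ∧
        ∀ m, LvS B φ S J e HH m R → LvS B φ S J' e' HH' m R) ∨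
        ∀ m, LvS B φ S J e HH (m + 1) R₀ → LvS B φ S J' e' HH' m R := by
  have hst := h.mdl.stab
  -- the presentation with the smallest invariant
  have hex : ∃ n, LvS B φ S J e HH n R₀ := by
    obtain ⟨h₁, x, y, Dx, Dy, s, t, b, hp, hc⟩ := h.pt R₀ hR₀
    have h1 : ∀ c, ∃ w : E → ℤ, S.Ok φ c R₀ → w ∈ HH c ∧
        AdL (S.Λ c) R₀ x y Dx Dy s t (∏ j, xi h₁ e j ^ w j) := by
      intro c
      by_cases hok : S.Ok φ c R₀
      · obtain ⟨-, w, hw, hA, -⟩ := hc c hok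
        exact ⟨w, fun _ => ⟨hw, hA⟩⟩
      · exact ⟨0, fun h => absurd h hok⟩
    choose w hw using h1
    obtain ⟨n, hn⟩ := (Set.finite_range fun c =>
      invL (S.Λ c) R₀ x y Dx Dy s t (∏ j, xi h₁ e j ^ w c j)).bddAbove
    refine ⟨n, h₁, x, y, Dx, Dy, s, t, b, hp, fun c hok => ⟨(hc c hok).1, w c, (hw c hok).1,
      (hw c hok).2, Or.inr (hn ⟨c, rfl⟩)⟩⟩
  obtain ⟨h₁, x, y, Dx, Dy, s, t, b, hp, hcc⟩ := Nat.find_spec hex
  have hn0 : Nat.find hex ≠ 0 := fun h0 => hbad (h0 ▸ Nat.find_spec hex)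
  have hmin : ∀ m, LvS B φ S J e HH (m + 1) R₀ → Nat.find hex ≤ m + 1 := fun m hm =>
    Nat.find_min' hex hm
  have hreg := ptN_reg hp
  have hx0 : x ≠ 0 := hreg.x_ne
  have hy0 : y ≠ 0 := hreg.symm.x_ne
  -- the exponents
  have h1 : ∀ c, ∃ (w : E → ℤ) (μ : ℤ), S.Ok φ c R₀ → w ∈ HH c ∧
      (∀ (R' : Subalgebra k K) (c' : k), QT R₀ R' x y c' → (∀ g ∈ S.H c, tr φ g R' = R') →
      Stp (S.Λ c) (S.adm c) R' x (y / x - algebraMap k K c') (Dx + (y / x) • Dy) (x • Dy) true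
        (t && decide (c' = 0)) ((∏ j, xi h₁ e j ^ w j) * x ^ μ)
        (JL (S.Λ c) R₀ x y Dx Dy s t (∏ j, xi h₁ e j ^ w j) = ⊤)
        (invL (S.Λ c) R₀ x y Dx Dy s t (∏ j, xi h₁ e j ^ w j))) ∧
      (∀ R' : Subalgebra k K, QT R₀ R' y x 0 → (∀ g ∈ S.H c, tr φ g R' = R') →
      Stp (S.Λ c) (S.adm c) R' (x / y) y (y • Dx) (Dy + (x / y) • Dx) s true
        ((∏ j, xi h₁ e j ^ w j) * y ^ μ)
        (JL (S.Λ c) R₀ x y Dx Dy s t (∏ j, xi h₁ e j ^ w j) = ⊤)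
        (invL (S.Λ c) R₀ x y Dx Dy s t (∏ j, xi h₁ e j ^ w j))) ∧
      (JL (S.Λ c) R₀ x y Dx Dy s t (∏ j, xi h₁ e j ^ w j) = ⊤ ∨
        invL (S.Λ c) R₀ x y Dx Dy s t (∏ j, xi h₁ e j ^ w j) ≤ Nat.find hex) := by
    intro c
    by_cases hok : S.Ok φ c R₀
    · obtain ⟨ha, w, hw, hA, hP⟩ := hcc c hok
      obtain ⟨μ, hμ1, hμ2⟩ := hD c R₀ x y Dx Dy s t _ hreg hok ha (ptN_mon hp w) hA
      exact ⟨w, μ, fun _ => ⟨hw, hμ1, hμ2, hP⟩⟩
    · exact ⟨0, 0, fun h => absurd h hok⟩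
  choose w μ hwμ using h1
  obtain ⟨T, hTdef⟩ : ∃ T : E → Prop, T = fun j => b j ≠ none := ⟨_, rfl⟩
  let ρ : C → ℤ := fun c => (∑ j, if T j then w c j else 0) + μ c
  -- the center
  obtain ⟨c₀, I', hc, hI'⟩ := exists_centerS φ hB hφB h.mdl.ne hst
    (S := Set.range fun g => tr φ g R₀) (Set.finite_range _)
    (by rintro _ ⟨g, rfl⟩; exact pt_tr hφB hst g hR₀)
    (by rintro _ ⟨g, rfl⟩; exact ⟨_, _, _, _, reg_tr hreg g⟩)
    (by
      rintro g _ ⟨g', rfl⟩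
      exact ⟨g * g', tr_mul g g'⟩)
  have hst' : ∀ (g : G) (i : Option E), ∀ w : B, w ∈ optJ J I' i →
      ∃ w' : B, w' ∈ optJ J I' i ∧ (w' : K) = φ g w := by
    intro g i w hw
    cases i with
    | none => exact hI' g w hw
    | some i => exact hst g i w hw
  have hHHinv : ∀ (g : G) (c : C), expH φ S R₀ ρ HH (g • c) = expH φ S R₀ ρ HH c := by
    intro g c
    unfold expH
    rw [expA_smul, h.inv]
  -- far points
  have hfar : ∀ R, Pt B (optJ J I') R → (∀ h', GenAt B (optJ J I') R h' →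
      GenAt B J R (fun i => h' (some i)) ∧
        UnitIn R (h' none / (∏ i, h' (some i)) ^ c₀)) →
      ∀ P : C → K → K → Derivation k K K → Derivation k K K → Bool → Bool → K → Prop,
      (∀ c x' y' Dx' Dy' s' t' γ γ', JL (S.Λ c) R x' y' Dx' Dy' s' t' γ' =
        JL (S.Λ c) R x' y' Dx' Dy' s' t' γ → P c x' y' Dx' Dy' s' t' γ →
          P c x' y' Dx' Dy' s' t' γ') →
      PresS B φ S J e HH R P →
      PresS B φ S (optJ J I') (blowE e T c₀) (expH φ S R₀ ρ HH) R P := by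
    intro R hR hg P hP hpres
    obtain ⟨h₂, x', y', Dx', Dy', s', t', b', hp', hc'⟩ := hpres
    obtain ⟨h', hh'⟩ := hR.exists_gen
    obtain ⟨hg1, hg2⟩ := hg h' hh'
    have hne : ∀ i, h' i ≠ 0 := fun i => (hh'.1 i).1
    refine ⟨h', x', y', Dx', Dy', s', t', optb b', ptN_far hp' hh' hg1 hg2 T, fun c hok => ?_⟩
    obtain ⟨ha, w', hw', hA, hPc⟩ := hc' c hok
    obtain ⟨a, haA⟩ := expA_nonempty (φ := φ) (S := S) R₀ ρ c
    have hv : UnitIn R ((∏ j, xi h' (blowE e T c₀) j ^ optα w' a j) /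
        ∏ j, xi h₂ e j ^ w' j) := by
      rw [prod_xi_blowE hne, mul_div_right_comm]
      exact (gam_div_unit (fun i => (ptN_gen hp').unit hg1 i) e w').mul (hg2.zpow _)
    obtain ⟨hA', hJ'⟩ := adL_congr hA hv
    exact ⟨ha, optα w' a, ⟨w', hw', a, haA, rfl⟩, hA', hP c _ _ _ _ _ _ _ _ hJ' hPc⟩
  -- near points
  have hnear : ∀ R, Pt B (optJ J I') R → R₀ ≤ R →
      (∀ x y Dx Dy, Reg R₀ x y Dx Dy →
      (∃ c' : k, QT R₀ R x y c' ∧ ∀ h', GenAt B (optJ J I') R h' →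
        UnitIn R (h' none / (∏ i, h' (some i)) ^ c₀ / x) ∧
          ∀ h, GenAt B J R₀ h → ∀ i, UnitIn R (h' (some i) / h i)) ∨
      (QT R₀ R y x 0 ∧ ∀ h', GenAt B (optJ J I') R h' →
        UnitIn R (h' none / (∏ i, h' (some i)) ^ c₀ / y) ∧
          ∀ h, GenAt B J R₀ h → ∀ i, UnitIn R (h' (some i) / h i))) →
      LvS B φ S (optJ J I') (blowE e T c₀) (expH φ S R₀ ρ HH) (Nat.find hex - 1) R := by
    intro R hR hle hg
    have hokR : ∀ c, S.Ok φ c R → S.Ok φ c R₀ := by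
      intro c hok g hgc
      refine pt_unique (pt_tr hφB hst g hR₀) hR₀ hR ?_ hle
      have h2 := tr_mono (φ := φ) g hle
      rwa [hok g hgc] at h2
    obtain ⟨h', hh'⟩ := hR.exists_gen
    have hne : ∀ i, h' i ≠ 0 := fun i => (hh'.1 i).1
    have hexp : ∀ c, S.Ok φ c R → optα (w c) (ρ c) ∈ expH φ S R₀ ρ HH c := by
      intro c hok
      refine ⟨w c, (hwμ c (hokR c hok)).1, ρ c, Or.inl ⟨1, ?_, ?_⟩, rfl⟩
      · rw [one_smul]
        exact hokR c hok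
      · rw [one_smul]
    have hρ : ∀ c, ρ c - (∑ j, if T j then w c j else 0) = μ c := fun c => by
      change (∑ j, if T j then w c j else 0) + μ c - (∑ j, if T j then w c j else 0) = μ c
      ring
    have hlast : ∀ c, S.Ok φ c R → ∀ x' y' Dx' Dy' s' t' (γ γ' : K),
        Stp (S.Λ c) (S.adm c) R x' y' Dx' Dy' s' t' γ
          (JL (S.Λ c) R₀ x y Dx Dy s t (∏ j, xi h₁ e j ^ w c j) = ⊤)
          (invL (S.Λ c) R₀ x y Dx Dy s t (∏ j, xi h₁ e j ^ w c j)) →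
        UnitIn R (γ' / γ) →
        S.adm c R x' y' Dx' Dy' s' t' ∧ AdL (S.Λ c) R x' y' Dx' Dy' s' t' γ' ∧
          (JL (S.Λ c) R x' y' Dx' Dy' s' t' γ' = ⊤ ∨
            invL (S.Λ c) R x' y' Dx' Dy' s' t' γ' ≤ Nat.find hex - 1) := by
      intro c hok x' y' Dx' Dy' s' t' γ γ' hstp hu
      obtain ⟨ha, hA, hJ⟩ := hstp
      obtain ⟨hA', hJ'⟩ := adL_congr hA hu
      refine ⟨ha, hA', ?_⟩
      rcases hJ with hJ | ⟨hJ1, hJ2⟩
      · exact Or.inl (hJ'.trans hJ)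
      · right
        rw [invL_congr hJ']
        have h3 := (hwμ c (hokR c hok)).2.2.2.resolve_left hJ1
        omega
    rcases hg x y Dx Dy hreg with ⟨c', hQ, hg⟩ | ⟨hQ, hg⟩
    · obtain ⟨hg1, hg2⟩ := hg h' hh'
      have hg3 := hg2 h₁ (ptN_gen hp)
      have hp2 := ptN_near hp hQ hh' hg1 hg3
      rw [← hTdef] at hp2
      refine ⟨h', _, _, _, _, _, _, _, hp2, fun c hok => ?_⟩
      have hv : UnitIn R ((∏ j, xi h' (blowE e T c₀) j ^ optα (w c) (ρ c) j) /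
          ((∏ j, xi h₁ e j ^ w c j) * x ^ μ c)) := by
        rw [prod_xi_blowE hne, mul_div_mul_comm, hρ, ← div_zpow]
        exact (gam_div_unit hg3 e (w c)).mul (hg1.zpow _)
      obtain ⟨ha, hA, hJ⟩ := hlast c hok _ _ _ _ _ _ _ _
        ((hwμ c (hokR c hok)).2.1 R c' hQ hok) hv
      exact ⟨ha, _, hexp c hok, hA, hJ⟩
    · obtain ⟨hg1, hg2⟩ := hg h' hh'
      have hg3 := hg2 h₁ (ptN_gen hp)
      obtain ⟨b', hp2⟩ := ptN_near' hp hQ hh' hg1 hg3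
      rw [← hTdef] at hp2
      refine ⟨h', _, _, _, _, _, _, _, hp2, fun c hok => ?_⟩
      have hv : UnitIn R ((∏ j, xi h' (blowE e T c₀) j ^ optα (w c) (ρ c) j) /
          ((∏ j, xi h₁ e j ^ w c j) * y ^ μ c)) := by
        rw [prod_xi_blowE hne, mul_div_mul_comm, hρ, ← div_zpow]
        exact (gam_div_unit hg3 e (w c)).mul (hg1.zpow _)
      obtain ⟨ha, hA, hJ⟩ := hlast c hok _ _ _ _ _ _ _ _
        ((hwμ c (hokR c hok)).2.2.1 R hQ hok) hv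
      exact ⟨ha, _, hexp c hok, hA, hJ⟩
  have hnear' : ∀ (g : G) (R'' : Subalgebra k K),
      LvS B φ S (optJ J I') (blowE e T c₀) (expH φ S R₀ ρ HH) (Nat.find hex - 1) R'' →
      LvS B φ S (optJ J I') (blowE e T c₀) (expH φ S R₀ ρ HH) (Nat.find hex - 1)
        (tr φ g R'') := fun g R'' hlv => lvS_tr hφB hst' hE hHHinv g hlv
  refine ⟨optJ J I', blowE e T c₀, expH φ S R₀ ρ HH, ⟨⟨?_, span_blowE h.mdl.span T c₀, hst', ?_⟩,
    ?_, hHHinv, ?_⟩, ?_, ?_⟩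
  · intro i
    cases i with
    | none => exact hc.ne
    | some i => exact h.mdl.ne i
  · intro R hR
    rcases pt_blow_orbit hφB h.mdl.ne hst hR₀ hc hI' hR with
      ⟨h1, -, h3⟩ | ⟨g, R'', hR'', rfl, hle, hg⟩
    · obtain ⟨h₂, x', y', Dx', Dy', s', t', b', hp'⟩ := h.mdl.pt R h1
      obtain ⟨h', hh'⟩ := hR.exists_gen
      obtain ⟨hg1, hg2⟩ := h3 h' hh'
      exact ⟨h', x', y', Dx', Dy', s', t', optb b', ptN_far hp' hh' hg1 hg2 T⟩
    · obtain ⟨h₂, x', y', Dx', Dy', s', t', b', hp', -⟩ :=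
        hnear' g R'' (hnear R'' hR'' hle hg)
      exact ⟨h₂, x', y', Dx', Dy', s', t', b', hp'⟩
  · intro c
    exact (h.fin c).image2 _ (expA_finite R₀ ρ c)
  · intro R hR
    rcases pt_blow_orbit hφB h.mdl.ne hst hR₀ hc hI' hR with
      ⟨h1, -, h3⟩ | ⟨g, R'', hR'', rfl, hle, hg⟩
    · exact hfar R hR h3 _ (fun _ _ _ _ _ _ _ _ _ _ _ => trivial) (h.pt R h1)
    · obtain ⟨h₂, x', y', Dx', Dy', s', t', b', hp', hc'⟩ :=
        hnear' g R'' (hnear R'' hR'' hle hg)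
      refine ⟨h₂, x', y', Dx', Dy', s', t', b', hp', fun c hok => ?_⟩
      obtain ⟨ha, w', hw', hA, -⟩ := hc' c hok
      exact ⟨ha, w', hw', hA, trivial⟩
  · intro c hcG hsub
    rintro _ ⟨w₁, hw₁, a₁, ha₁, rfl⟩ _ ⟨w₂, hw₂, a₂, ha₂, rfl⟩
    rw [hsub hw₁ hw₂, expA_subsingleton R₀ ρ hcG ha₁ ha₂]
  · intro R hR
    rcases pt_blow_orbit hφB h.mdl.ne hst hR₀ hc hI' hR with
      ⟨h1, h2, h3⟩ | ⟨g, R'', hR'', rfl, hle, hg⟩
    · refine Or.inl ⟨h1, h2, fun m hm => ?_⟩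
      refine hfar R hR h3 _ (fun c x' y' Dx' Dy' s' t' γ γ' hJ hP => ?_) hm
      rw [hJ, invL_congr hJ]
      exact hP
    · refine Or.inr fun m hm => lvS_mono ?_ (hnear' g R'' (hnear R'' hR'' hle hg))
      have := hmin m hm
      omega

end Pool.Agent.MP_b525bf_ag_S
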