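import Pool.Agent.Lib.MP_b525bf_ag_S.FixClosed
import Pool.Agent.Lib.MP_b525bf_ag_S.PtN
import Pool.Agent.Lib.MP_b525bf_ag_TS.FinBad

/-!
# S4: there are only finitely many points where the objects are not clean
-/

set_option autoImplicit false

namespace Pool.Agent.MP_b525bf_ag_S

open Pool.Agent.MP_b525bf_ag_TS

variable {k K G C : Type} [Field k] [Field K] [Algebra k K] [Group G] {B : Subalgebra k K}
  {E : Type} [Fintype E] {J : E → Ideal B} {e : E → E → ℤ} {HH : C → Set (E → ℤ)}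
  {φ : G →* (K ≃ₐ[k] K)} {S : Sys k K G C}

namespace FinBadS

theorem JL_le {Λ : LObj k K} {R : Subalgebra k K} {x y : K} {Dx Dy : Derivation k K K} {s t : Bool}
    {γ γ' : K} (hγ : γ' ≠ 0) (hm : ∀ l ∈ Λ R x y Dx Dy s t, l / γ' ∈ R) (hu : γ' / γ ∈ R) :
    JL Λ R x y Dx Dy s t γ ≤ JL Λ R x y Dx Dy s t γ' := by
  unfold JL
  rw [Ideal.span_le]
  rintro z ⟨l, hl, hz⟩
  have h1 : z = (⟨γ' / γ, hu⟩ : R) * ⟨l / γ', hm l hl⟩ := by
    apply Subtype.ext
    rw [hz]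
    change l / γ = γ' / γ * (l / γ')
    field_simp
  rw [h1]
  exact Ideal.mul_mem_left _ _ (Ideal.subset_span ⟨l, hl, rfl⟩)

theorem congr_unit {Λ : LObj k K} {R : Subalgebra k K} {x y : K} {Dx Dy : Derivation k K K}
    {s t : Bool} {γ γ' : K} (hA : AdL Λ R x y Dx Dy s t γ) (hu : UnitIn R (γ' / γ)) :
    AdL Λ R x y Dx Dy s t γ' ∧ JL Λ R x y Dx Dy s t γ' = JL Λ R x y Dx Dy s t γ := by
  have hne : γ' ≠ 0 := fun h => hu.1 (by rw [h, zero_div])
  have hm : ∀ l ∈ Λ R x y Dx Dy s t, l / γ' ∈ R := by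
    intro l hl
    have h1 := R.mul_mem (hA.mem l hl) hu.2.2
    have h2 : l / γ * (γ' / γ)⁻¹ = l / γ' := by
      have := hA.ne
      field_simp
    rwa [h2] at h1
  have h3 : γ / γ' ∈ R := by
    have := hu.2.2
    rwa [inv_div] at this
  have hJ : JL Λ R x y Dx Dy s t γ' = JL Λ R x y Dx Dy s t γ :=
    le_antisymm (JL_le hA.ne hA.mem h3) (JL_le hne hm hu.2.1)
  refine ⟨⟨hne, hm, ?_⟩, hJ⟩
  rw [hJ]
  exact hA.fin

theorem exists_nbhd [Finite G] [Finite C] [MulAction G C] (hB : B.FG)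
    (hφB : ∀ g, ∀ b ∈ B, φ g b ∈ B) (hN : ∀ c, LNbhd B φ (S.Λ c) (S.H c) (S.adm c))
    (h : Stage B φ S J e HH) {h₀ : E → K}
    (hh₀ : TupIn B J h₀) (χ : chartF B J h₀ →ₐ[k] k) : ∃ f : chartF B J h₀, χ f ≠ 0 ∧
      ∀ ψ : chartF B J h₀ →ₐ[k] k, ψ f ≠ 0 → ψ ≠ χ →
        LvS B φ S J e HH 0 (ptLoc (chartF B J h₀) ψ) := by
  classical
  have _ := Fintype.ofFinite C
  have hPt : ∀ ψ, Pt B J (ptLoc (chartF B J h₀) ψ) := fun ψ => ⟨h₀, hh₀, ψ, rfl⟩
  have hGen : ∀ ψ, GenAt B J (ptLoc (chartF B J h₀) ψ) h₀ := fun ψ => ⟨hh₀, fun i w hw =>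
    ptLoc_le _ _ (Algebra.subset_adjoin (Or.inr ⟨i, w, hw, rfl⟩))⟩
  have hBC : B ≤ chartF B J h₀ := fun z hz => Algebra.subset_adjoin (Or.inl hz)
  obtain ⟨h₁, x, y, Dx, Dy, s, t, b, ⟨V, hp₁⟩, hob⟩ := h.pt _ (hPt χ)
  have hp := hp₁.change (hGen χ)
  have hX0 : ∀ j, xi h₀ e j ≠ 0 := fun j => xi_ne (fun i => (hh₀ i).1) e j
  -- the objects
  have hobj : ∀ c, ∃ w : E → ℤ, ∃ f : chartF B J h₀, χ f ≠ 0 ∧
      ∀ ψ : chartF B J h₀ →ₐ[k] k, ψ f ≠ 0 → S.Ok φ c (ptLoc (chartF B J h₀) ψ) →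
      w ∈ HH c ∧ ∀ a a' : k, a ≠ 0 ∨ a' ≠ 0 →
      Reg (ptLoc (chartF B J h₀) ψ) (x - algebraMap k K a) (y - algebraMap k K a') Dx Dy →
      S.adm c (ptLoc (chartF B J h₀) ψ) (x - algebraMap k K a) (y - algebraMap k K a') Dx Dy
        (s && decide (a = 0)) (t && decide (a' = 0)) ∧
      AdL (S.Λ c) (ptLoc (chartF B J h₀) ψ) (x - algebraMap k K a) (y - algebraMap k K a') Dx Dy
        (s && decide (a = 0)) (t && decide (a' = 0)) (∏ j, xi h₀ e j ^ w j) ∧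
      JL (S.Λ c) (ptLoc (chartF B J h₀) ψ) (x - algebraMap k K a) (y - algebraMap k K a') Dx Dy
        (s && decide (a = 0)) (t && decide (a' = 0)) (∏ j, xi h₀ e j ^ w j) = ⊤ := by
    intro c
    by_cases hc : S.Ok φ c (ptLoc (chartF B J h₀) χ)
    · obtain ⟨hadm, w, hw, hA₁, -⟩ := hob c hc
      have hA := (congr_unit hA₁ (gam_div_unit (fun i => hp₁.gen.unit (hGen χ) i) e w)).1
      have hMon : Mon (ptLoc (chartF B J h₀) χ) x y s t (∏ j, xi h₀ e j ^ w j) :=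
        ptN_mon ⟨V, hp⟩ w
      obtain ⟨f, hf, hf'⟩ := hN c (chartF B J h₀) hBC (chartF_fg hB h₀) χ x y Dx Dy s t
        (∏ j, xi h₀ e j ^ w j) hp.reg hc hadm hMon hA
      refine ⟨w, f, hf, fun ψ hψ hok => ⟨hw, fun a a' haa hreg => ?_⟩⟩
      convert hf' ψ hψ hok a a' haa hreg
    · unfold Sys.Ok at hc
      push Not at hc
      obtain ⟨g, hg, hne⟩ := hc
      obtain ⟨f, hf, hf'⟩ := exists_nbhd_not_fixed hφB h.mdl.stab hh₀ χ g hne
      exact ⟨0, f, hf, fun ψ hψ hok => absurd (hok g hg) (hf' ψ hψ)⟩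
  choose w f₁ hf₁ hf₁' using hobj
  -- the units
  obtain ⟨ν, hν0, hνx, hνy⟩ : ∃ ν : E → K, (∀ j, b j = none → ν j = 1) ∧
      (∀ j, b j = some false → ν j = x) ∧ ∀ j, b j = some true → ν j = y := by
    refine ⟨fun j => if b j = none then 1 else if b j = some false then x else y, ?_, ?_, ?_⟩
    · intro j hj; simp [hj]
    · intro j hj; simp [hj]
    · intro j hj; simp [hj]
  have hu : ∀ j, UnitIn (ptLoc (chartF B J h₀) χ) (xi h₀ e j / ν j) := by
    intro j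
    cases hb : b j with
    | none => rw [hν0 j hb, div_one]; exact hp.b0 j hb
    | some v =>
      cases v with
      | false => rw [hνx j hb]; exact hp.bx j hb
      | true => rw [hνy j hb]; exact hp.by' j hb
  let T : Set K := Set.range (fun j => xi h₀ e j / ν j) ∪ Set.range (fun j => (xi h₀ e j / ν j)⁻¹)
  have hT : T.Finite := (Set.finite_range _).union (Set.finite_range _)
  have hTR : T ⊆ ptLoc (chartF B J h₀) χ := by
    rintro z (⟨j, rfl⟩ | ⟨j, rfl⟩)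
    · exact (hu j).2.1
    · exact (hu j).2.2
  obtain ⟨f, hf, hspread⟩ := hp.reg.spread (chartF_fg hB h₀) hT hTR
  refine ⟨f * ∏ c, f₁ c, ?_, fun ψ hψ hψχ => ?_⟩
  · rw [map_mul, map_prod]
    exact mul_ne_zero hf (Finset.prod_ne_zero_iff.2 fun c _ => hf₁ c)
  rw [map_mul, map_prod] at hψ
  have hψf := left_ne_zero_of_mul hψ
  have hψf₁ : ∀ c, ψ (f₁ c) ≠ 0 := fun c =>
    Finset.prod_ne_zero_iff.1 (right_ne_zero_of_mul hψ) c (Finset.mem_univ _)
  obtain ⟨hTψ, a, a', hreg, hψ0⟩ := hspread ψ hψf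
  have hob' : ∀ c, S.Ok φ c (ptLoc (chartF B J h₀) ψ) → _ := fun c => hf₁' c ψ (hψf₁ c)
  obtain ⟨R', hR'⟩ : ∃ R' : Subalgebra k K, R' = ptLoc (chartF B J h₀) ψ := ⟨_, rfl⟩
  have hGen' := hGen ψ
  rw [← hR'] at hTψ hreg hGen' hob' ⊢
  have haa : a ≠ 0 ∨ a' ≠ 0 := by
    by_contra hcon
    push Not at hcon
    exact hψχ (hψ0 hcon.1 hcon.2)
  have hu' : ∀ j, UnitIn R' (xi h₀ e j / ν j) := fun j =>
    ⟨(hu j).1, hTψ (Or.inl ⟨j, rfl⟩), hTψ (Or.inr ⟨j, rfl⟩)⟩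
  have hxu : a ≠ 0 → UnitIn R' x := fun ha => hreg.unit_of_ne ha
  have hyu : a' ≠ 0 → UnitIn R' y := fun ha => hreg.symm.unit_of_ne ha
  -- boundary
  obtain ⟨b', hb'0, hb'x, hb'y⟩ : ∃ b' : E → Option Bool,
      (∀ j, b' j = none ↔ b j = none ∨ (b j = some false ∧ a ≠ 0) ∨
        (b j = some true ∧ a' ≠ 0)) ∧
      (∀ j, b' j = some false ↔ b j = some false ∧ a = 0) ∧
      ∀ j, b' j = some true ↔ b j = some true ∧ a' = 0 := by
    refine ⟨fun j => if b j = some false ∧ a = 0 then some false else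
      if b j = some true ∧ a' = 0 then some true else none, ?_, ?_, ?_⟩ <;>
    · intro j
      dsimp only
      cases hb : b j with
      | none => simp
      | some v =>
        cases v <;> by_cases ha : a = 0 <;> by_cases ha' : a' = 0 <;> simp [ha, ha']
  have hptn : PtN B J e R' h₀ (x - algebraMap k K a) (y - algebraMap k K a') Dx Dy
      (s && decide (a = 0)) (t && decide (a' = 0)) b' := by
    refine ptN_intro hGen' hreg ?_ ?_ ?_ ?_ ?_ ?_
    · intro j hj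
      have h3 := hu' j
      rcases (hb'0 j).1 hj with h1 | ⟨h1, h2⟩ | ⟨h1, h2⟩
      · rwa [hν0 j h1, div_one] at h3
      · rw [hνx j h1] at h3
        have := h3.mul (hxu h2)
        rwa [div_mul_cancel₀ _ (hxu h2).1] at this
      · rw [hνy j h1] at h3
        have := h3.mul (hyu h2)
        rwa [div_mul_cancel₀ _ (hyu h2).1] at this
    · intro j hj
      obtain ⟨h1, h2⟩ := (hb'x j).1 hj
      have h3 := hu' j
      rw [hνx j h1] at h3
      rwa [h2, map_zero, sub_zero]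
    · intro j hj
      obtain ⟨h1, h2⟩ := (hb'y j).1 hj
      have h3 := hu' j
      rw [hνy j h1] at h3
      rwa [h2, map_zero, sub_zero]
    · rw [Bool.and_eq_true, decide_eq_true_iff, hp.s_iff]
      constructor
      · rintro ⟨⟨j, hj⟩, h2⟩
        exact ⟨j, (hb'x j).2 ⟨hj, h2⟩⟩
      · rintro ⟨j, hj⟩
        obtain ⟨h1, h2⟩ := (hb'x j).1 hj
        exact ⟨⟨j, h1⟩, h2⟩
    · rw [Bool.and_eq_true, decide_eq_true_iff, hp.t_iff]
      constructor
      · rintro ⟨⟨j, hj⟩, h2⟩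
        exact ⟨j, (hb'y j).2 ⟨hj, h2⟩⟩
      · rintro ⟨j, hj⟩
        obtain ⟨h1, h2⟩ := (hb'y j).1 hj
        exact ⟨⟨j, h1⟩, h2⟩
    · intro j j' hj hjj'
      cases hb : b' j with
      | none => exact absurd hb hj
      | some v =>
        have hb2 := hjj'.symm.trans hb
        cases v with
        | false =>
          have h1 := ((hb'x j).1 hb).1
          have h2 := ((hb'x j').1 hb2).1
          exact hp.inj j j' (by rw [h1]; simp) (by rw [h1, h2])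
        | true =>
          have h1 := ((hb'y j).1 hb).1
          have h2 := ((hb'y j').1 hb2).1
          exact hp.inj j j' (by rw [h1]; simp) (by rw [h1, h2])
  refine ⟨h₀, _, _, Dx, Dy, _, _, b', hptn, fun c hok => ?_⟩
  obtain ⟨hw, hrest⟩ := hob' c hok
  obtain ⟨hadm, hA, hJ⟩ := hrest a a' haa hreg
  exact ⟨hadm, w c, hw, hA, Or.inl hJ⟩

end FinBadS

theorem stage_finite_bad [IsAlgClosed k] [Finite G] [Finite C] [MulAction G C] (hB : B.FG)
    (hφB : ∀ g, ∀ b ∈ B, φ g b ∈ B) (hN : ∀ c, LNbhd B φ (S.Λ c) (S.H c) (S.adm c))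
    (h : Stage B φ S J e HH) : {R | Pt B J R ∧ ¬ LvS B φ S J e HH 0 R}.Finite := by
  classical
  obtain ⟨T, hTf, hTT, hTcov⟩ := exists_finite_charts hB h.mdl.ne
  have key : ∀ h₀ ∈ T, ∃ X : Set (chartF B J h₀ →ₐ[k] k), X.Finite ∧
      ∀ ψ, ψ ∉ X → LvS B φ S J e HH 0 (ptLoc (chartF B J h₀) ψ) := by
    intro h₀ hh₀
    choose f hf hf' using fun χ => FinBadS.exists_nbhd hB hφB hN h (hTT h₀ hh₀) χ
    have htop : Ideal.span (Set.range f) = ⊤ := by
      by_contra hne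
      obtain ⟨χ, hχ⟩ := exists_char_of_ne_top (chartF_fg hB h₀) hne
      exact hf χ (hχ _ (Ideal.subset_span ⟨χ, rfl⟩))
    obtain ⟨s', hs', hs'top⟩ := (Ideal.span_eq_top_iff_finite _).1 htop
    have hg0 : ∀ c : s', ∃ χ, f χ = c := fun c => hs' c.2
    choose g hg using hg0
    refine ⟨Set.range g, Set.finite_range g, fun ψ hψ => ?_⟩
    have hex : ∃ c ∈ s', ψ c ≠ 0 := by
      by_contra hcon
      push Not at hcon
      have hle : Ideal.span (s' : Set (chartF B J h₀)) ≤ RingHom.ker ψ := by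
        rw [Ideal.span_le]
        intro c hc
        exact hcon c hc
      rw [hs'top] at hle
      have h1 : (1 : chartF B J h₀) ∈ RingHom.ker ψ := hle trivial
      rw [RingHom.mem_ker, map_one] at h1
      exact one_ne_zero h1
    obtain ⟨c, hc, hψc⟩ := hex
    refine hf' (g ⟨c, hc⟩) ψ ?_ ?_
    · rw [hg ⟨c, hc⟩]; exact hψc
    · intro h1
      exact hψ ⟨⟨c, hc⟩, h1.symm⟩
  choose! X hX hX' using key
  have hfin : (⋃ h₀ ∈ T, (fun χ => ptLoc (chartF B J h₀) χ) '' X h₀).Finite :=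
    hTf.biUnion fun h₀ hh₀ => (hX h₀ hh₀).image _
  refine hfin.subset ?_
  rintro R ⟨hR, hbad⟩
  obtain ⟨h₀, hh₀, hgen⟩ := hTcov R hR
  obtain ⟨χ, rfl⟩ := hR.exists_char hgen
  refine Set.mem_biUnion hh₀ ⟨χ, ?_, rfl⟩
  by_contra hχ
  exact hbad (hX' h₀ hh₀ χ hχ)

end Pool.Agent.MP_b525bf_ag_S
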