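import Pool.Agent.Lib.MP_b525bf_ag_S.BlowS
import Pool.Agent.Lib.MP_b525bf_ag_S.FinBadS

/-!
# S5: all objects become clean
-/

set_option autoImplicit false

namespace Pool.Agent.MP_b525bf_ag_S

open Pool.Agent.MP_b525bf_ag_TS

variable {k K G C : Type} [Field k] [Field K] [Algebra k K] [Group G] {B : Subalgebra k K}
  {E : Type} [Fintype E] {J : E → Ideal B} {e : E → E → ℤ} {HH : C → Set (E → ℤ)}
  {φ : G →* (K ≃ₐ[k] K)} {S : Sys k K G C}

theorem exists_lvS [Finite C] [MulAction G C] (h : Stage B φ S J e HH) {R : Subalgebra k K}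
    (hR : Pt B J R) : ∃ m, LvS B φ S J e HH m R := by
  obtain ⟨h₁, x, y, Dx, Dy, s, t, b, hp, hc⟩ := h.pt R hR
  have h1 : ∀ c, ∃ w : E → ℤ, S.Ok φ c R → w ∈ HH c ∧
      AdL (S.Λ c) R x y Dx Dy s t (∏ j, xi h₁ e j ^ w j) := by
    intro c
    by_cases hok : S.Ok φ c R
    · obtain ⟨-, w, hw, hA, -⟩ := hc c hok
      exact ⟨w, fun _ => ⟨hw, hA⟩⟩
    · exact ⟨0, fun h => absurd h hok⟩
  choose w hw using h1
  obtain ⟨n, hn⟩ := (Set.finite_range fun c =>
    invL (S.Λ c) R x y Dx Dy s t (∏ j, xi h₁ e j ^ w c j)).bddAbove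
  exact ⟨n, h₁, x, y, Dx, Dy, s, t, b, hp, fun c hok => ⟨(hc c hok).1, w c, (hw c hok).1,
    (hw c hok).2, Or.inr (hn ⟨c, rfl⟩)⟩⟩

/-- The conclusion; the sets of exponents of the objects with the property `P` have at most one
element. -/
def HasCleanS [MulAction G C] (B : Subalgebra k K) (φ : G →* (K ≃ₐ[k] K)) (S : Sys k K G C)
    (P : C → Prop) : Prop :=
  ∃ (E' : Type) (_ : Fintype E') (J' : E' → Ideal B) (e' : E' → E' → ℤ)
    (HH' : C → Set (E' → ℤ)), Stage B φ S J' e' HH' ∧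
    (∀ c, (∀ g : G, g • c = c) → P c → (HH' c).Subsingleton) ∧
    ∀ R, Pt B J' R → LvS B φ S J' e' HH' 0 R

/-- Induction on the number of the points where the invariant is not at most `m`. -/
theorem hasCleanS_step [IsAlgClosed k] [Finite G] [Finite C] [MulAction G C] (hB : B.FG)
    (hφB : ∀ g, ∀ b ∈ B, φ g b ∈ B) (hE : S.Equi φ)
    (hD : ∀ c, LDrop φ (S.Λ c) (S.H c) (S.adm c))
    (hN : ∀ c, LNbhd B φ (S.Λ c) (S.H c) (S.adm c)) (P : C → Prop) {m : ℕ}
    (ih : ∀ (E : Type) [Fintype E] (J : E → Ideal B) (e : E → E → ℤ) (HH : C → Set (E → ℤ)),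
      Stage B φ S J e HH → (∀ c, (∀ g : G, g • c = c) → P c → (HH c).Subsingleton) →
      (∀ R, Pt B J R → LvS B φ S J e HH m R) → HasCleanS B φ S P)
    (n : ℕ) : ∀ (E : Type) [Fintype E] (J : E → Ideal B) (e : E → E → ℤ)
      (HH : C → Set (E → ℤ)), Stage B φ S J e HH →
      (∀ c, (∀ g : G, g • c = c) → P c → (HH c).Subsingleton) →
      (∀ R, Pt B J R → LvS B φ S J e HH (m + 1) R) →
      {R | Pt B J R ∧ ¬ LvS B φ S J e HH m R}.ncard ≤ n → HasCleanS B φ S P := by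
  induction n with
  | zero =>
    intro E _ J e HH h hP h1 h2
    apply ih E J e HH h hP
    intro R hR
    by_contra h3
    have hfin : {R | Pt B J R ∧ ¬ LvS B φ S J e HH m R}.Finite :=
      (stage_finite_bad hB hφB hN h).subset fun R hR =>
        ⟨hR.1, fun h0 => hR.2 (lvS_mono (Nat.zero_le m) h0)⟩
    have h4 : {R | Pt B J R ∧ ¬ LvS B φ S J e HH m R} = ∅ :=
      (Set.ncard_eq_zero hfin).mp (Nat.le_zero.mp h2)
    have h5 : R ∈ {R | Pt B J R ∧ ¬ LvS B φ S J e HH m R} := ⟨hR, h3⟩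
    rw [h4] at h5
    exact h5
  | succ n ihn =>
    intro E _ J e HH h hP h1 h2
    by_cases h3 : ∀ R, Pt B J R → LvS B φ S J e HH m R
    · exact ih E J e HH h hP h3
    push Not at h3
    obtain ⟨R₀, hR₀, hbad⟩ := h3
    have hfin : {R | Pt B J R ∧ ¬ LvS B φ S J e HH m R}.Finite :=
      (stage_finite_bad hB hφB hN h).subset fun R hR =>
        ⟨hR.1, fun h0 => hR.2 (lvS_mono (Nat.zero_le m) h0)⟩
    obtain ⟨J', e', HH', h', hin, hall⟩ := stage_blow hB hφB hE hD h hR₀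
      (fun h0 => hbad (lvS_mono (Nat.zero_le m) h0))
    apply ihn (Option E) J' e' HH' h' fun c hc hPc => hin c hc (hP c hc hPc)
    · intro R hR
      rcases hall R hR with ⟨h4, -, h5⟩ | h4
      · exact h5 _ (h1 R h4)
      · exact lvS_mono (Nat.le_succ m) (h4 m (h1 R₀ hR₀))
    · have hsub : {R | Pt B J' R ∧ ¬ LvS B φ S J' e' HH' m R} ⊆
          {R | Pt B J R ∧ ¬ LvS B φ S J e HH m R} \ {R₀} := by
        rintro R ⟨hR, hR2⟩
        rcases hall R hR with ⟨h4, h5, h6⟩ | h4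
        · exact ⟨⟨h4, fun h7 => hR2 (h6 m h7)⟩, h5⟩
        · exact absurd (h4 m (h1 R₀ hR₀)) hR2
      have h6 := Set.ncard_le_ncard hsub (hfin.subset Set.sdiff_subset)
      have h7 := Set.ncard_sdiff_singleton_lt_of_mem
        (s := {R | Pt B J R ∧ ¬ LvS B φ S J e HH m R}) (a := R₀) ⟨hR₀, hbad⟩ hfin
      omega

theorem hasCleanS_of_lv [IsAlgClosed k] [Finite G] [Finite C] [MulAction G C] (hB : B.FG)
    (hφB : ∀ g, ∀ b ∈ B, φ g b ∈ B) (hE : S.Equi φ)
    (hD : ∀ c, LDrop φ (S.Λ c) (S.H c) (S.adm c))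
    (hN : ∀ c, LNbhd B φ (S.Λ c) (S.H c) (S.adm c)) (P : C → Prop) (m : ℕ) :
    ∀ (E : Type) [Fintype E] (J : E → Ideal B) (e : E → E → ℤ)
      (HH : C → Set (E → ℤ)), Stage B φ S J e HH →
      (∀ c, (∀ g : G, g • c = c) → P c → (HH c).Subsingleton) →
      (∀ R, Pt B J R → LvS B φ S J e HH m R) → HasCleanS B φ S P := by
  induction m with
  | zero =>
    intro E _ J e HH h hP h1
    exact ⟨E, inferInstance, J, e, HH, h, hP, h1⟩
  | succ m ih =>
    intro E _ J e HH h hP h1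
    exact hasCleanS_step hB hφB hE hD hN P ih _ E J e HH h hP h1 le_rfl

theorem stage_exists_clean [IsAlgClosed k] [Finite G] [Finite C] [MulAction G C] (hB : B.FG)
    (hφB : ∀ g, ∀ b ∈ B, φ g b ∈ B) (hE : S.Equi φ)
    (hD : ∀ c, LDrop φ (S.Λ c) (S.H c) (S.adm c))
    (hN : ∀ c, LNbhd B φ (S.Λ c) (S.H c) (S.adm c)) (h : Stage B φ S J e HH) :
    ∃ (E' : Type) (_ : Fintype E') (J' : E' → Ideal B) (e' : E' → E' → ℤ)
      (HH' : C → Set (E' → ℤ)), Stage B φ S J' e' HH' ∧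
      (∀ c, (∀ g : G, g • c = c) → (HH c).Subsingleton → (HH' c).Subsingleton) ∧
      ∀ R, Pt B J' R → LvS B φ S J' e' HH' 0 R := by
  have hfin := stage_finite_bad hB hφB hN h
  choose! f hf using fun (R : Subalgebra k K) (hR : Pt B J R) => exists_lvS h hR
  obtain ⟨M, hM⟩ := (hfin.image f).bddAbove
  refine hasCleanS_of_lv hB hφB hE hD hN (fun c => (HH c).Subsingleton) M E J e HH h
    (fun c _ hc => hc) fun R hR => ?_
  by_cases h0 : LvS B φ S J e HH 0 R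
  · exact lvS_mono (Nat.zero_le M) h0
  · exact lvS_mono (hM (Set.mem_image_of_mem f ⟨hR, h0⟩)) (hf R hR)

end Pool.Agent.MP_b525bf_ag_S
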