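import Pool.Agent.Lib.MP_b525bf_ag_S.TorM
import Pool.Agent.Lib.MP_b525bf_ag_S.Aug

/-!
# S15b: closed points of the toric family of a model
-/

set_option autoImplicit false

namespace Pool.Agent.MP_b525bf_ag_S

open Pool.Agent.MP_b525bf_ag Pool.Agent.MP_b525bf_ag_W Pool.Agent.MP_b525bf_ag_P
  Pool.Agent.MP_b525bf_ag_TS

variable {k K G : Type} [Field k] [Field K] [Algebra k K] [Group G] {B : Subalgebra k K}
  {E : Type} [Fintype E] {J : E → Ideal B} {e : E → E → ℤ} {φ : G →* (K ≃ₐ[k] K)}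

/-- Residues at a closed point: two elements of the same degree, the second one a unit. -/
private theorem closed_residue [IsAlgClosed k] {ι : Type} [AddCommGroup ι] {M : Fam k K ι}
    (hM : M.alg.FG) (q : Ideal M.alg) [hq : q.IsMaximal] {c : ι} {f f' : K} (hf : f ∈ M.s c)
    (hf' : f' ∈ M.s c) (hfq : M.el hf ∉ q) :
    ∃ (r : k) (h : f' - r • f ∈ M.s c), M.el h ∈ q := by
  have hft : Algebra.FiniteType k M.alg := (Subalgebra.fg_iff_finiteType _).1 hM
  let _ : Field (M.alg ⧸ q) := Ideal.Quotient.field q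
  have h1 : Algebra.FiniteType k (M.alg ⧸ q) := inferInstance
  have h2 : Module.Finite k (M.alg ⧸ q) := finite_of_finite_type_of_isJacobsonRing k (M.alg ⧸ q)
  have h3 : Algebra.IsIntegral k (M.alg ⧸ q) := inferInstance
  have h4 : Function.Bijective (algebraMap k (M.alg ⧸ q)) :=
    IsAlgClosed.algebraMap_bijective_of_isIntegral (k := k) (K := M.alg ⧸ q)
  have h5 : Ideal.Quotient.mk q (M.el hf) ≠ 0 := by
    rwa [Ne, Ideal.Quotient.eq_zero_iff_mem]
  obtain ⟨r, hr⟩ := h4.2 (Ideal.Quotient.mk q (M.el hf') / Ideal.Quotient.mk q (M.el hf))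
  have h6 : f' - r • f ∈ M.s c := Submodule.sub_mem _ hf' (Submodule.smul_mem _ r hf)
  refine ⟨r, h6, ?_⟩
  have e1 : M.el h6 = M.el hf' - r • M.el hf := by
    refine Subtype.ext ?_
    change AddMonoidAlgebra.single c _ =
      AddMonoidAlgebra.single c _ - r • AddMonoidAlgebra.single c _
    rw [AddMonoidAlgebra.smul_single, ← AddMonoidAlgebra.single_sub]
  rw [e1, ← Ideal.Quotient.eq_zero_iff_mem, map_sub, sub_eq_zero, Algebra.smul_def, map_mul]
  have e2 : Ideal.Quotient.mk q (algebraMap k M.alg r) = algebraMap k (M.alg ⧸ q) r := rfl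
  rw [e2, hr, div_mul_cancel₀ _ h5]

/-- The structure of the homogeneous localisation at a closed semistable point, and the inertia
group. -/
theorem mdl_exists_closed [IsAlgClosed k] [Finite G] (hB : B.FG)
    (hφB : ∀ g, ∀ b ∈ B, φ g b ∈ B) (h : Mdl B φ J e) (q : Ideal (mrees B J e).alg)
    [hq' : q.IsMaximal] (hq : Semi (mrees B J e) (fun _ => 1) q) :
    ∃ (R : Subalgebra k K) (g : E → K), Pt B J R ∧ GenAt B J R g ∧
      (∀ d z, z ∈ (atP (mrees B J e) q).s d ↔ z / mon g d ∈ R) ∧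
      (∀ d z, IsU (atP (mrees B J e) q) d z ↔ UnitIn R (z / mon g d)) ∧
      ∀ a ∈ inertia φ (mrees B J e) q, tr φ a R = R ∧
        (∀ i, φ a (g i) / g i - 1 ∈ mx R) ∧
        ∀ z ∈ R, φ a z - z ∈ mx R := by
  obtain ⟨g, χ, hT, hU, hPt, hgen, hle⟩ := mdl_exists_pt hB h q hq
  have hg0 : ∀ i, g i ≠ 0 := fun i => (hT i).1
  have hmon0 : ∀ d, mon g d ≠ 0 := fun d => mon_ne hg0 d
  have hmonU : ∀ d, IsU (atP (mrees B J e) q) d (mon g d) := fun d => isU_mon hU d
  -- every element of the local ring below is a constant plus a nonunit upstairs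
  have hunit : ∀ b ∈ ptLoc (chartF B J g) χ, IsU (atP (mrees B J e) q) 0 b → UnitIn (ptLoc (chartF B J g) χ) b := by
    intro b hb hbU
    by_contra hn
    have h1 : ptEv (chartF B J g) χ ⟨b, hb⟩ = 0 := by
      by_contra h2
      exact hn ((unitIn_iff_ptEv (⟨b, hb⟩ : ptLoc (chartF B J g) χ)).2 h2)
    obtain ⟨c, f, hf, hfq, hf0, hfb⟩ := exists_frac _ q (hle b hb)
    rw [add_zero] at hfb
    obtain ⟨r, h3, h4⟩ := closed_residue (mrees_fg hB) q hf hfb hfq
    have hfU : IsU (atP (mrees B J e) q) c f := (isU_atP_iff _ q hf).2 hfq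
    have hfbU : IsU (atP (mrees B J e) q) c (f * b) := by
      have := hfU.mul hbU
      rwa [add_zero] at this
    have hr : r ≠ 0 := by
      rintro rfl
      have e1 : f * b - (0 : k) • f = f * b := by rw [zero_smul, sub_zero]
      rw [← e1] at hfbU
      exact (isU_atP_iff _ q h3).1 hfbU h4
    -- `b - r` is a unit of the local ring
    have h5 : b - algebraMap k K r ∈ ptLoc (chartF B J g) χ := sub_mem hb ((ptLoc (chartF B J g) χ).algebraMap_mem r)
    have h6 : UnitIn (ptLoc (chartF B J g) χ) (b - algebraMap k K r) := by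
      refine (unitIn_iff_ptEv (⟨_, h5⟩ : ptLoc (chartF B J g) χ)).2 ?_
      have e2 : (⟨b - algebraMap k K r, h5⟩ : ptLoc (chartF B J g) χ) =
          ⟨b, hb⟩ - algebraMap k (ptLoc (chartF B J g) χ) r := rfl
      rw [e2, map_sub, h1, AlgHom.commutes, zero_sub]
      exact neg_ne_zero.2 hr
    have h7 : IsU (atP (mrees B J e) q) 0 (b - algebraMap k K r) :=
      isU_unit_mul (fun z hz => hle z hz) h6
    have h8 := hfU.mul h7
    rw [add_zero] at h8
    have e3 : f * (b - algebraMap k K r) = f * b - r • f := by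
      rw [Algebra.smul_def]; ring
    rw [e3] at h8
    exact (isU_atP_iff _ q h3).1 h8 h4
  have hzero : ∀ z, z ∈ (atP (mrees B J e) q).s 0 ↔ z ∈ ptLoc (chartF B J g) χ := by
    intro z
    refine ⟨fun hz => ?_, fun hz => hle z hz⟩
    obtain ⟨c, f, hf, hfq, hf0, hfz⟩ := exists_frac _ q hz
    rw [add_zero] at hfz
    have h1 := mdl_mrees_mem h hPt hgen hf
    have h2 := mdl_mrees_mem h hPt hgen hfz
    have hfU : IsU (atP (mrees B J e) q) c f := (isU_atP_iff _ q hf).2 hfq
    have h3 : IsU (atP (mrees B J e) q) 0 (f / mon g c) := by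
      have := hfU.mul (hmonU c).inv
      rwa [add_neg_cancel, ← div_eq_mul_inv] at this
    have h4 := hunit _ h1 h3
    have e1 : z = (f * z / mon g c) * (f / mon g c)⁻¹ := by
      have := hmon0 c
      field_simp
    rw [e1]
    exact mul_mem h2 h4.2.2
  have hmem : ∀ d z, z ∈ (atP (mrees B J e) q).s d ↔ z / mon g d ∈ ptLoc (chartF B J g) χ := by
    intro d z
    rw [← hzero]
    constructor
    · intro hz
      have := (atP (mrees B J e) q).mul' hz (hmonU d).inv.2.1
      rwa [add_neg_cancel, ← div_eq_mul_inv] at this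
    · intro hz
      have := (atP (mrees B J e) q).mul' hz (hmonU d).2.1
      rwa [zero_add, div_mul_cancel₀ _ (hmon0 d)] at this
  have hisU : ∀ d z, IsU (atP (mrees B J e) q) d z ↔ UnitIn (ptLoc (chartF B J g) χ) (z / mon g d) := by
    intro d z
    unfold IsU UnitIn
    rw [hmem, hmem, mon_neg, div_inv_eq_mul, inv_div, div_eq_mul_inv (mon g d), mul_comm (z⁻¹)]
    constructor
    · rintro ⟨h0, h1⟩
      exact ⟨div_ne_zero h0 (hmon0 d), h1⟩
    · rintro ⟨h0, h1⟩
      exact ⟨fun h2 => h0 (by rw [h2, zero_div]), h1⟩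
  have hin : ∀ a ∈ inertia φ (mrees B J e) q, ∀ d z, z ∈ (atP (mrees B J e) q).s d →
      (φ a z - z) / mon g d ∈ mx (ptLoc (chartF B J g) χ) := by
    intro a ha d z hz
    have h1 : φ a z - z ∈ (atP (mrees B J e) q).s d :=
      Submodule.sub_mem _ (inertia_mem φ _ q ha hz) hz
    have h2 := inertia_not_isU φ _ q ha hz
    rw [hisU] at h2
    refine ⟨(hmem d _).1 h1, ?_⟩
    by_contra h3
    push Not at h3
    exact h2 ⟨h3.1, (hmem d _).1 h1, h3.2⟩
  refine ⟨ptLoc (chartF B J g) χ, g, hPt, hgen, hmem, hisU, fun a ha => ⟨?_, ?_, ?_⟩⟩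
  · have key : ∀ a ∈ inertia φ (mrees B J e) q, ∀ z ∈ ptLoc (chartF B J g) χ, φ a z ∈ ptLoc (chartF B J g) χ := by
      intro a ha z hz
      rw [← hzero] at hz ⊢
      exact inertia_mem φ _ q ha hz
    refine le_antisymm ?_ ?_
    · rintro _ ⟨z, hz, rfl⟩
      exact key a ha z hz
    · intro z hz
      refine ⟨φ a⁻¹ z, key a⁻¹ (inv_mem ha) z hz, ?_⟩
      change φ a (φ a⁻¹ z) = z
      rw [← AlgEquiv.mul_apply, ← map_mul, mul_inv_cancel, map_one, AlgEquiv.one_apply]
  · intro i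
    have h1 := hin a ha (uvec i) (g i) (hU i).2.1
    rwa [mon_uvec, sub_div, div_self (hg0 i)] at h1
  · intro z hz
    have h1 := hin a ha 0 z ((hzero z).2 hz)
    rwa [mon_zero, div_one] at h1

end Pool.Agent.MP_b525bf_ag_S
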