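import Pool.Agent.Lib.MP_b525bf_ag_S.Trans

/-!
# The logarithmic object of a curve
-/

set_option autoImplicit false

namespace Pool.Agent.MP_b525bf_ag_S

open Pool.Agent.MP_b525bf_ag_TS

variable {k K G : Type} [Field k] [Field K] [Algebra k K] [Group G]

/-- The coefficients of the pairs `(w, dw)` for `w` in the ideal `J₀`. -/
def curL (B : Subalgebra k K) (J₀ : Ideal B) : LObj k K := fun _ x y Dx Dy s t =>
  {l | ∃ w : B, w ∈ J₀ ∧ (l = w ∨ l = lD s x Dx w ∨ l = lD t y Dy w)}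

/-- The ideal `J₀ R` is principal. -/
def curA (B : Subalgebra k K) (J₀ : Ideal B) : LCond k K := fun R _ _ _ _ _ _ =>
  B ≤ R ∧ ∃ π : B, π ∈ J₀ ∧ (π : K) ≠ 0 ∧ ∀ w : B, w ∈ J₀ → (w : K) / π ∈ R

/-- The system of a curve. -/
def curS (G : Type) [Group G] (B : Subalgebra k K) (J₀ : Ideal B) : Sys k K G Unit where
  Λ _ := curL B J₀
  H _ := ∅
  adm _ := curA B J₀

private theorem app_inv (φ : G →* (K ≃ₐ[k] K)) (g : G) (z : K) : φ g (φ g⁻¹ z) = z := by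
  rw [← AlgEquiv.mul_apply, ← map_mul, mul_inv_cancel, map_one, AlgEquiv.one_apply]

private theorem inv_app (φ : G →* (K ≃ₐ[k] K)) (g : G) (z : K) : φ g⁻¹ (φ g z) = z := by
  rw [← AlgEquiv.mul_apply, ← map_mul, inv_mul_cancel, map_one, AlgEquiv.one_apply]

private theorem lD_tr (φ : G →* (K ≃ₐ[k] K)) (g : G) (s : Bool) (x : K)
    (D : Derivation k K K) (z : K) :
    lD s (φ g x) (trD φ g D) (φ g z) = φ g (lD s x D z) := by
  have h : trD φ g D (φ g z) = φ g (D z) := by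
    change φ g (D (φ g⁻¹ (φ g z))) = φ g (D z)
    rw [inv_app]
  cases s
  · exact h
  · change φ g x * trD φ g D (φ g z) = φ g (x * D z)
    rw [h, map_mul]

theorem curS_equi (φ : G →* (K ≃ₐ[k] K)) (B : Subalgebra k K) (hφB : ∀ g, ∀ b ∈ B, φ g b ∈ B)
    (J₀ : Ideal B) (hJ₀ : ∀ g, ∀ w : B, w ∈ J₀ → ∃ w' : B, w' ∈ J₀ ∧ (w' : K) = φ g w) :
    (curS G B J₀).Equi φ where
  Λ g c R x y Dx Dy s t := by
    change curL B J₀ (tr φ g R) (φ g x) (φ g y) (trD φ g Dx) (trD φ g Dy) s t =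
      φ g '' curL B J₀ R x y Dx Dy s t
    ext l
    constructor
    · rintro ⟨w, hw, hl⟩
      obtain ⟨w', hw', h2⟩ := hJ₀ g⁻¹ w hw
      have h3 : (w : K) = φ g w' := by rw [h2, app_inv]
      rw [h3, lD_tr, lD_tr] at hl
      rcases hl with hl | hl | hl
      · exact ⟨w', ⟨w', hw', Or.inl rfl⟩, hl.symm⟩
      · exact ⟨lD s x Dx w', ⟨w', hw', Or.inr (Or.inl rfl)⟩, hl.symm⟩
      · exact ⟨lD t y Dy w', ⟨w', hw', Or.inr (Or.inr rfl)⟩, hl.symm⟩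
    · rintro ⟨l', ⟨w, hw, hl⟩, rfl⟩
      obtain ⟨w', hw', h2⟩ := hJ₀ g w hw
      refine ⟨w', hw', ?_⟩
      rw [h2, lD_tr, lD_tr]
      rcases hl with hl | hl | hl
      · exact Or.inl (by rw [hl])
      · exact Or.inr (Or.inl (by rw [hl]))
      · exact Or.inr (Or.inr (by rw [hl]))
  H g c h := Iff.rfl
  adm g c R x y Dx Dy s t h := by
    change B ≤ R ∧ ∃ π : B, π ∈ J₀ ∧ (π : K) ≠ 0 ∧ ∀ w : B, w ∈ J₀ → (w : K) / π ∈ R at h
    change B ≤ tr φ g R ∧ ∃ π : B, π ∈ J₀ ∧ (π : K) ≠ 0 ∧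
      ∀ w : B, w ∈ J₀ → (w : K) / π ∈ tr φ g R
    obtain ⟨h1, π, hπ, h0, h2⟩ := h
    refine ⟨fun b hb => ?_, ?_⟩
    · rw [mem_tr]
      exact h1 (hφB g⁻¹ b hb)
    · obtain ⟨π', hπ', h3⟩ := hJ₀ g π hπ
      refine ⟨π', hπ', ?_, fun w hw => ?_⟩
      · rw [h3]
        exact fun h4 => h0 ((map_eq_zero_iff (φ g) (φ g).injective).mp h4)
      · obtain ⟨w', hw', h4⟩ := hJ₀ g⁻¹ w hw
        rw [mem_tr, map_div₀, h3, inv_app, ← h4]
        exact h2 w' hw'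

end Pool.Agent.MP_b525bf_ag_S
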