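import Pool.Agent.Lib.MP_b525bf_ag_S.Cur
import Pool.Agent.Lib.MP_b525bf_ag_TS.FinBad

/-!
# S7b: the object of a curve satisfies the axiom on neighbourhoods
-/

set_option autoImplicit false

namespace Pool.Agent.MP_b525bf_ag_S

open Pool.Agent.MP_b525bf_ag_TS

variable {k K G : Type} [Field k] [Field K] [Algebra k K] [Group G]
  {φ : G →* (K ≃ₐ[k] K)}

namespace CurNbhd

variable {R : Subalgebra k K} {x y : K} {Dx Dy : Derivation k K K}

/-- The logarithmic derivations preserve the local ring. -/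
theorem lD_mem (s : Bool) {z w : K} {D : Derivation k K K} (hz : z ∈ R) (hD : D w ∈ R) :
    lD s z D w ∈ R := by
  cases s with
  | false => exact hD
  | true =>
    change z • D w ∈ R
    rw [smul_eq_mul]
    exact R.mul_mem hz hD

/-- The derivative of `w = π u`. -/
theorem lD_gen {D : Derivation k K K} {π w γ : K} (hπ : π ≠ 0) :
    D w / γ = D π / γ * (w / π) + π / γ * D (w / π) := by
  have h1 : w = π * (w / π) := by field_simp
  have h2 : D w = π * D (w / π) + w / π * D π := by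
    conv_lhs => rw [h1]
    rw [Derivation.leibniz, smul_eq_mul, smul_eq_mul]
  rw [h2]
  ring

theorem mem_JL {B : Subalgebra k K} {J₀ : Ideal B} {s t : Bool} {γ : K} {z₁ z₂ z₃ : K} {π : K}
    (hπ : π ≠ 0) (hx : x ∈ R) (hy : y ∈ R) (hDx : ∀ z ∈ R, Dx z ∈ R) (hDy : ∀ z ∈ R, Dy z ∈ R)
    (hπJ : ∀ w : B, w ∈ J₀ → (w : K) / π ∈ R) (hz₁ : z₁ = π / γ)
    (hz₂ : z₂ = lD s x Dx π / γ) (hz₃ : z₃ = lD t y Dy π / γ) {z : R}
    (hz : z ∈ JL (curL B J₀) R x y Dx Dy s t γ) :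
    ∃ p ∈ R, ∃ q ∈ R, ∃ r ∈ R, (z : K) = z₁ * p + z₂ * q + z₃ * r := by
  unfold JL at hz
  induction hz using Submodule.span_induction with
  | mem z hz =>
    obtain ⟨l, ⟨w, hw, hl⟩, hzl⟩ := hz
    have hu := hπJ w hw
    rcases hl with rfl | rfl | rfl
    · refine ⟨(w : K) / π, hu, 0, R.zero_mem, 0, R.zero_mem, ?_⟩
      rw [hzl, hz₁]
      field_simp
      ring
    · refine ⟨lD s x Dx ((w : K) / π), lD_mem s hx (hDx _ hu), (w : K) / π, hu, 0,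
        R.zero_mem, ?_⟩
      rw [hzl, lD_gen hπ, hz₁, hz₂]
      ring
    · refine ⟨lD t y Dy ((w : K) / π), lD_mem t hy (hDy _ hu), 0, R.zero_mem, (w : K) / π, hu, ?_⟩
      rw [hzl, lD_gen hπ, hz₁, hz₃]
      ring
  | zero => exact ⟨0, R.zero_mem, 0, R.zero_mem, 0, R.zero_mem, by push_cast; ring⟩
  | add z w _ _ ihz ihw =>
    obtain ⟨p, hp, q, hq, r, hr, h⟩ := ihz
    obtain ⟨p', hp', q', hq', r', hr', h'⟩ := ihw
    refine ⟨p + p', R.add_mem hp hp', q + q', R.add_mem hq hq', r + r', R.add_mem hr hr', ?_⟩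
    push_cast
    rw [h, h']
    ring
  | smul a z _ ih =>
    obtain ⟨p, hp, q, hq, r, hr, h⟩ := ih
    refine ⟨a * p, R.mul_mem a.2 hp, a * q, R.mul_mem a.2 hq, a * r, R.mul_mem a.2 hr, ?_⟩
    rw [smul_eq_mul]
    push_cast
    rw [h]
    ring

end CurNbhd

open CurNbhd

theorem cur_nbhd (B : Subalgebra k K) (hB : B.FG) (J₀ : Ideal B) :
    LNbhd B φ (curL B J₀) ∅ (curA B J₀) := by
  classical
  intro C hBC hC χ x y Dx Dy s t γ hreg _ hadm _ hA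
  obtain ⟨hBR, π, hπ, hπ0, hπJ⟩ := hadm
  obtain ⟨W, hW⟩ := exists_finset_span hB J₀
  have hfin := hA.fin
  obtain ⟨z₁, hz₁⟩ : ∃ z₁ : K, z₁ = (π : K) / γ := ⟨_, rfl⟩
  obtain ⟨z₂, hz₂⟩ : ∃ z₂ : K, z₂ = lD s x Dx (π : K) / γ := ⟨_, rfl⟩
  obtain ⟨z₃, hz₃⟩ : ∃ z₃ : K, z₃ = lD t y Dy (π : K) / γ := ⟨_, rfl⟩
  obtain ⟨N, hN⟩ := exists_pow_mem (JL (curL B J₀) (ptLoc C χ) x y Dx Dy s t γ)
    ⟨x, hreg.hx⟩ hreg.isUnit_sub
  obtain ⟨M, hM⟩ := exists_pow_mem (JL (curL B J₀) (ptLoc C χ) x y Dx Dy s t γ)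
    ⟨y, hreg.hy⟩ hreg.symm.isUnit_sub
  obtain ⟨p, hpR, q, hqR, r, hrR, hN'⟩ := mem_JL hπ0 hreg.hx hreg.hy hreg.Dx_mem hreg.Dy_mem
    hπJ hz₁ hz₂ hz₃ hN
  obtain ⟨p', hpR', q', hqR', r', hrR', hM'⟩ := mem_JL hπ0 hreg.hx hreg.hy hreg.Dx_mem
    hreg.Dy_mem hπJ hz₁ hz₂ hz₃ hM
  have hN1 : x ^ N = z₁ * p + z₂ * q + z₃ * r := hN'
  have hM1 : y ^ M = z₁ * p' + z₂ * q' + z₃ * r' := hM'
  have hm₁ : z₁ ∈ ptLoc C χ := by rw [hz₁]; exact hA.mem _ ⟨π, hπ, Or.inl rfl⟩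
  have hm₂ : z₂ ∈ ptLoc C χ := by rw [hz₂]; exact hA.mem _ ⟨π, hπ, Or.inr (Or.inl rfl)⟩
  have hm₃ : z₃ ∈ ptLoc C χ := by rw [hz₃]; exact hA.mem _ ⟨π, hπ, Or.inr (Or.inr rfl)⟩
  let S : Set K := {z₁, z₂, z₃, p, q, r, p', q', r'} ∪ ((fun w : B => (w : K) / π) '' (W : Set B))
  have hS : S.Finite := Set.Finite.union (by simp) (W.finite_toSet.image _)
  have hSR : S ⊆ ptLoc C χ := by
    rintro z (hz | ⟨w, hw, rfl⟩)
    · simp only [Set.mem_insert_iff, Set.mem_singleton_iff] at hz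
      rcases hz with rfl | rfl | rfl | rfl | rfl | rfl | rfl | rfl | rfl
      · exact hm₁
      · exact hm₂
      · exact hm₃
      · exact hpR
      · exact hqR
      · exact hrR
      · exact hpR'
      · exact hqR'
      · exact hrR'
    · exact hπJ w (by rw [← hW]; exact Ideal.subset_span hw)
  obtain ⟨f, hf, hden⟩ := exists_den hS hSR
  refine ⟨f, hf, fun ψ hψ _ a b hab hreg' => ?_⟩
  have hSψ : ∀ z ∈ S, z ∈ ptLoc C ψ := fun z hz =>
    aw_le_ptLoc hψ ⟨1, by rw [pow_one]; exact hden z hz⟩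
  have hBψ : B ≤ ptLoc C ψ := fun z hz => ptLoc_le _ _ (hBC hz)
  obtain ⟨R', hR'⟩ : ∃ R' : Subalgebra k K, R' = ptLoc C ψ := ⟨_, rfl⟩
  rw [← hR'] at hSψ hreg' hBψ ⊢
  have mS : ∀ z, z ∈ ({z₁, z₂, z₃, p, q, r, p', q', r'} : Set K) → z ∈ R' := fun z hz =>
    hSψ z (Or.inl hz)
  have hn₁ : z₁ ∈ R' := mS _ (by simp)
  have hn₂ : z₂ ∈ R' := mS _ (by simp)
  have hn₃ : z₃ ∈ R' := mS _ (by simp)
  have hp1 : p ∈ R' := mS _ (by simp)
  have hq1 : q ∈ R' := mS _ (by simp)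
  have hr1 : r ∈ R' := mS _ (by simp)
  have hp2 : p' ∈ R' := mS _ (by simp)
  have hq2 : q' ∈ R' := mS _ (by simp)
  have hr2 : r' ∈ R' := mS _ (by simp)
  have hπJ' : ∀ w : B, w ∈ J₀ → (w : K) / π ∈ R' := by
    have h1 : J₀ ≤ H86.TI B R' hBψ (π : K) := by
      rw [← hW, Ideal.span_le]
      intro w hw
      exact hSψ _ (Or.inr ⟨w, hw, rfl⟩)
    exact fun w hw => h1 hw
  have hxR : x ∈ R' := by
    have := R'.add_mem hreg'.hx (R'.algebraMap_mem a)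
    rwa [sub_add_cancel] at this
  have hyR : y ∈ R' := by
    have := R'.add_mem hreg'.hy (R'.algebraMap_mem b)
    rwa [sub_add_cancel] at this
  have hxu : a ≠ 0 → UnitIn R' x := fun ha => hreg'.unit_of_ne ha
  have hyu : b ≠ 0 → UnitIn R' y := fun ha => hreg'.symm.unit_of_ne ha
  obtain ⟨ε, hε, hεD⟩ := lD_near (x := x) (Dx := Dx) s hxu
  obtain ⟨η, hη, hηD⟩ := lD_near (x := y) (Dx := Dy) t hyu
  have hmem : ∀ l ∈ curL B J₀ R' (x - algebraMap k K a) (y - algebraMap k K b) Dx Dy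
      (s && decide (a = 0)) (t && decide (b = 0)), l / γ ∈ R' := by
    rintro l ⟨w, hw, hl⟩
    have hu := hπJ' w hw
    rcases hl with rfl | rfl | rfl
    · have h1 : (w : K) / γ = z₁ * ((w : K) / π) := by
        rw [hz₁]
        field_simp
      rw [h1]
      exact R'.mul_mem hn₁ hu
    · rw [hεD, Derivation.smul_apply, smul_eq_mul, mul_div_assoc, lD_gen hπ0, ← hz₁, ← hz₂]
      exact R'.mul_mem hε.2.1 (R'.add_mem (R'.mul_mem hn₂ hu)
        (R'.mul_mem hn₁ (lD_mem s hxR (hreg'.Dx_mem _ hu))))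
    · rw [hηD, Derivation.smul_apply, smul_eq_mul, mul_div_assoc, lD_gen hπ0, ← hz₁, ← hz₃]
      exact R'.mul_mem hη.2.1 (R'.add_mem (R'.mul_mem hn₃ hu)
        (R'.mul_mem hn₁ (lD_mem t hyR (hreg'.Dy_mem _ hu))))
  have hJtop : JL (curL B J₀) R' (x - algebraMap k K a) (y - algebraMap k K b) Dx Dy
      (s && decide (a = 0)) (t && decide (b = 0)) γ = ⊤ := by
    have hcomb : ∀ (P Q T : K), P ∈ R' → Q ∈ R' → T ∈ R' →
        UnitIn R' (z₁ * P + z₂ * Q + z₃ * T) →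
        JL (curL B J₀) R' (x - algebraMap k K a) (y - algebraMap k K b) Dx Dy
          (s && decide (a = 0)) (t && decide (b = 0)) γ = ⊤ := by
      intro P Q T hP hQ hT hU
      let I := JL (curL B J₀) R' (x - algebraMap k K a) (y - algebraMap k K b) Dx Dy
          (s && decide (a = 0)) (t && decide (b = 0)) γ
      have g1 : (⟨z₁, hn₁⟩ : R') ∈ I :=
        Ideal.subset_span ⟨(π : K), ⟨π, hπ, Or.inl rfl⟩, hz₁⟩
      have g2 : (⟨ε * z₂, R'.mul_mem hε.2.1 hn₂⟩ : R') ∈ I := by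
        refine Ideal.subset_span ⟨_, ⟨π, hπ, Or.inr (Or.inl rfl)⟩, ?_⟩
        rw [hεD, Derivation.smul_apply, smul_eq_mul, mul_div_assoc, ← hz₂]
      have g3 : (⟨η * z₃, R'.mul_mem hη.2.1 hn₃⟩ : R') ∈ I := by
        refine Ideal.subset_span ⟨_, ⟨π, hπ, Or.inr (Or.inr rfl)⟩, ?_⟩
        rw [hηD, Derivation.smul_apply, smul_eq_mul, mul_div_assoc, ← hz₃]
      have g4 := I.add_mem (I.add_mem (I.mul_mem_right (⟨P, hP⟩ : R') g1)
        (I.mul_mem_right (⟨ε⁻¹ * Q, R'.mul_mem hε.2.2 hQ⟩ : R') g2))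
        (I.mul_mem_right (⟨η⁻¹ * T, R'.mul_mem hη.2.2 hT⟩ : R') g3)
      refine Ideal.eq_top_of_isUnit_mem _ g4 ?_
      refine IsUnit.of_mul_eq_one (⟨_, hU.2.2⟩ : R') ?_
      apply Subtype.ext
      push_cast
      have h5 : z₁ * P + ε * z₂ * (ε⁻¹ * Q) + η * z₃ * (η⁻¹ * T) = z₁ * P + z₂ * Q + z₃ * T := by
        have hε0 := hε.1
        have hη0 := hη.1
        field_simp
      rw [h5]
      exact mul_inv_cancel₀ hU.1
    rcases hab with ha | ha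
    · refine hcomb p q r hp1 hq1 hr1 ?_
      rw [← hN1]
      have := (hxu ha).zpow (N : ℤ)
      rwa [zpow_natCast] at this
    · refine hcomb p' q' r' hp2 hq2 hr2 ?_
      rw [← hM1]
      have := (hyu ha).zpow (M : ℤ)
      rwa [zpow_natCast] at this
  refine ⟨⟨hBψ, π, hπ, hπ0, hπJ'⟩, ⟨hA.ne, hmem, ?_⟩, hJtop⟩
  rw [hJtop]
  have : Subsingleton (R' ⧸ (⊤ : Ideal R')) := Ideal.Quotient.subsingleton_iff.2 rfl
  infer_instance

end Pool.Agent.MP_b525bf_ag_S
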