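import Pool.Agent.Lib.MP_b525bf_ag_TS.SDefs
import Pool.Agent.Lib.MP_b525bf_ag_TS.Loc2
import Pool.Agent.Lib.MP_b525bf_ag_TS.Pts

/-!
# Theorem P2 (surfaces as factors): definitions

Blueprint: team-store `b525bf_S_blueprint.md`.
-/

set_option autoImplicit false

namespace Pool.Agent.MP_b525bf_ag_S

open Pool.Agent.MP_b525bf_ag_TS
open scoped Classical

/-- A logarithmic object: the set of its coefficients at every local ring `R` with coordinates `x`,
`y`, derivations `Dx`, `Dy` and flags `s`, `t` (the curve `x = 0`, `y = 0` is in the boundary). -/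
abbrev LObj (k K : Type) [Field k] [Field K] [Algebra k K] : Type :=
  Subalgebra k K → K → K → Derivation k K K → Derivation k K K → Bool → Bool → Set K

/-- Side conditions on local rings with coordinates and flags. -/
abbrev LCond (k K : Type) [Field k] [Field K] [Algebra k K] : Type :=
  Subalgebra k K → K → K → Derivation k K K → Derivation k K K → Bool → Bool → Prop

section Local

variable {k K G : Type} [Field k] [Field K] [Algebra k K] [Group G]

/-- The ideal of the coefficients of `Λ / γ`. -/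
def JL (Λ : LObj k K) (R : Subalgebra k K) (x y : K) (Dx Dy : Derivation k K K) (s t : Bool)
    (γ : K) : Ideal R :=
  Ideal.span {z : R | ∃ l ∈ Λ R x y Dx Dy s t, (z : K) = l / γ}

/-- `Λ / γ` is a logarithmic object with isolated zeros. -/
structure AdL (Λ : LObj k K) (R : Subalgebra k K) (x y : K) (Dx Dy : Derivation k K K)
    (s t : Bool) (γ : K) : Prop where
  ne : γ ≠ 0
  mem : ∀ l ∈ Λ R x y Dx Dy s t, l / γ ∈ R
  fin : FiniteDimensional k (R ⧸ JL Λ R x y Dx Dy s t γ)

/-- The invariant. -/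
noncomputable def invL (Λ : LObj k K) (R : Subalgebra k K) (x y : K) (Dx Dy : Derivation k K K)
    (s t : Bool) (γ : K) : ℕ :=
  2 * Module.finrank k (R ⧸ JL Λ R x y Dx Dy s t γ) + if s = t then 0 else 1

/-- `γ` is a monomial in the boundary coordinates. -/
def Mon (R : Subalgebra k K) (x y : K) (s t : Bool) (γ : K) : Prop :=
  ∃ m n : ℤ, UnitIn R (γ / (x ^ m * y ^ n)) ∧ (s = false → m = 0) ∧ (t = false → n = 0)

/-- The subalgebra `g R`. -/
def tr (φ : G →* (K ≃ₐ[k] K)) (g : G) (R : Subalgebra k K) : Subalgebra k K :=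
  R.map (φ g : K →ₐ[k] K)

/-- The derivation `g D g⁻¹`. -/
def trD (φ : G →* (K ≃ₐ[k] K)) (g : G) (D : Derivation k K K) : Derivation k K K where
  toFun z := φ g (D (φ g⁻¹ z))
  map_add' z w := by rw [map_add, map_add, map_add]
  map_smul' c z := by
    rw [map_smul, D.map_smul, map_smul, RingHom.id_apply]
  map_one_eq_zero' := by
    change φ g (D (φ g⁻¹ 1)) = 0
    rw [map_one, Derivation.map_one_eq_zero, map_zero]
  leibniz' z w := by
    change φ g (D (φ g⁻¹ (z * w))) = z • φ g (D (φ g⁻¹ w)) + w • φ g (D (φ g⁻¹ z))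
    have h : ∀ u : K, φ g (φ g⁻¹ u) = u := fun u => by
      rw [← AlgEquiv.mul_apply, ← map_mul, mul_inv_cancel, map_one, AlgEquiv.one_apply]
    rw [map_mul, Derivation.leibniz, map_add, smul_eq_mul, smul_eq_mul, map_mul, map_mul, h, h,
      smul_eq_mul, smul_eq_mul]

/-- The data at a point of the blowing up of a closed point: the side condition holds, the object is
admissible, and it is clean, or its invariant is smaller than `inv` and it was not clean. -/
def Stp (Λ : LObj k K) (adm : LCond k K) (R : Subalgebra k K) (x y : K)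
    (Dx Dy : Derivation k K K) (s t : Bool) (γ : K) (clean : Prop) (inv : ℕ) : Prop :=
  adm R x y Dx Dy s t ∧ AdL Λ R x y Dx Dy s t γ ∧
    (JL Λ R x y Dx Dy s t γ = ⊤ ∨ (¬ clean ∧ invL Λ R x y Dx Dy s t γ < inv))

/-- The axiom on blowing up of a closed point. -/
def LDrop (φ : G →* (K ≃ₐ[k] K)) (Λ : LObj k K) (H : Set G) (adm : LCond k K) : Prop :=
  ∀ (R : Subalgebra k K) (x y : K) (Dx Dy : Derivation k K K) (s t : Bool) (γ : K),
    Reg R x y Dx Dy → (∀ g ∈ H, tr φ g R = R) → adm R x y Dx Dy s t → Mon R x y s t γ →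
    AdL Λ R x y Dx Dy s t γ → ∃ μ : ℤ,
    (∀ (R' : Subalgebra k K) (c : k), QT R R' x y c → (∀ g ∈ H, tr φ g R' = R') →
      Stp Λ adm R' x (y / x - algebraMap k K c) (Dx + (y / x) • Dy) (x • Dy) true
        (t && decide (c = 0)) (γ * x ^ μ) (JL Λ R x y Dx Dy s t γ = ⊤)
        (invL Λ R x y Dx Dy s t γ)) ∧
    ∀ R' : Subalgebra k K, QT R R' y x 0 → (∀ g ∈ H, tr φ g R' = R') →
      Stp Λ adm R' (x / y) y (y • Dx) (Dy + (x / y) • Dx) s true (γ * y ^ μ)
        (JL Λ R x y Dx Dy s t γ = ⊤) (invL Λ R x y Dx Dy s t γ)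

/-- The axiom on neighbourhoods. -/
def LNbhd (B : Subalgebra k K) (φ : G →* (K ≃ₐ[k] K)) (Λ : LObj k K) (H : Set G)
    (adm : LCond k K) : Prop :=
  ∀ (C : Subalgebra k K), B ≤ C → C.FG → ∀ (χ : C →ₐ[k] k) (x y : K) (Dx Dy : Derivation k K K)
    (s t : Bool) (γ : K),
    Reg (ptLoc C χ) x y Dx Dy → (∀ g ∈ H, tr φ g (ptLoc C χ) = ptLoc C χ) →
    adm (ptLoc C χ) x y Dx Dy s t → Mon (ptLoc C χ) x y s t γ →
    AdL Λ (ptLoc C χ) x y Dx Dy s t γ → ∃ f : C, χ f ≠ 0 ∧ ∀ ψ : C →ₐ[k] k, ψ f ≠ 0 →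
    (∀ g ∈ H, tr φ g (ptLoc C ψ) = ptLoc C ψ) → ∀ a b : k, a ≠ 0 ∨ b ≠ 0 →
    Reg (ptLoc C ψ) (x - algebraMap k K a) (y - algebraMap k K b) Dx Dy →
    adm (ptLoc C ψ) (x - algebraMap k K a) (y - algebraMap k K b) Dx Dy (s && decide (a = 0))
      (t && decide (b = 0)) ∧
    AdL Λ (ptLoc C ψ) (x - algebraMap k K a) (y - algebraMap k K b) Dx Dy
      (s && decide (a = 0)) (t && decide (b = 0)) γ ∧
    JL Λ (ptLoc C ψ) (x - algebraMap k K a) (y - algebraMap k K b) Dx Dy
      (s && decide (a = 0)) (t && decide (b = 0)) γ = ⊤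

/-- A finite system of logarithmic objects, permuted by the group `G`. The object `c` is defined at
the points which are fixed by the elements of `H c`. -/
structure Sys (k K G C : Type) [Field k] [Field K] [Algebra k K] where
  /-- the objects -/
  Λ : C → LObj k K
  /-- the elements of the group which fix the points where the object is defined -/
  H : C → Set G
  /-- the side conditions -/
  adm : C → LCond k K

/-- The object `c` is defined at `R`. -/
def Sys.Ok {C : Type} (S : Sys k K G C) (φ : G →* (K ≃ₐ[k] K)) (c : C)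
    (R : Subalgebra k K) : Prop := ∀ g ∈ S.H c, tr φ g R = R

/-- The system is compatible with the action of the group. -/
structure Sys.Equi {C : Type} [MulAction G C] (S : Sys k K G C) (φ : G →* (K ≃ₐ[k] K)) :
    Prop where
  Λ : ∀ (g : G) (c : C) (R : Subalgebra k K) (x y : K) (Dx Dy : Derivation k K K) (s t : Bool),
    S.Λ (g • c) (tr φ g R) (φ g x) (φ g y) (trD φ g Dx) (trD φ g Dy) s t =
      φ g '' S.Λ c R x y Dx Dy s t
  H : ∀ (g : G) (c : C) (h : G), h ∈ S.H c ↔ g * h * g⁻¹ ∈ S.H (g • c)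
  adm : ∀ (g : G) (c : C) (R : Subalgebra k K) (x y : K) (Dx Dy : Derivation k K K)
    (s t : Bool), S.adm c R x y Dx Dy s t →
      S.adm (g • c) (tr φ g R) (φ g x) (φ g y) (trD φ g Dx) (trD φ g Dy) s t

end Local

section Model

variable {k K G C : Type} [Field k] [Field K] [Algebra k K] [Group G] (B : Subalgebra k K)
  {E : Type} [Fintype E]

/-- The local data of the boundary at the point `R` (the curves are not named). -/
def PtN (J : E → Ideal B) (e : E → E → ℤ) (R : Subalgebra k K) (h : E → K) (x y : K)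
    (Dx Dy : Derivation k K K) (s t : Bool) (b : E → Option Bool) : Prop :=
  ∃ V : E → Subalgebra k K, PtNc B J e V R h x y Dx Dy s t b

/-- A model with a boundary with normal crossings which is stable under the group. -/
structure Mdl (φ : G →* (K ≃ₐ[k] K)) (J : E → Ideal B) (e : E → E → ℤ) : Prop where
  ne : ∀ i, J i ≠ ⊥
  span : ∀ d : E → ℤ, ∃ n : E → ℤ, d = ∑ j, n j • e j
  stab : ∀ g i, ∀ w : B, w ∈ J i → ∃ w' : B, w' ∈ J i ∧ (w' : K) = φ g w
  pt : ∀ R, Pt B J R → ∃ h x y Dx Dy s t b, PtN B J e R h x y Dx Dy s t b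

/-- A presentation at the point `R`: boundary data and exponents of the objects which are defined at
`R` in `HH`, such that the objects are admissible and `P` holds for them. -/
def PresS (φ : G →* (K ≃ₐ[k] K)) (S : Sys k K G C) (J : E → Ideal B) (e : E → E → ℤ)
    (HH : C → Set (E → ℤ)) (R : Subalgebra k K)
    (P : C → K → K → Derivation k K K → Derivation k K K → Bool → Bool → K → Prop) : Prop :=
  ∃ h x y Dx Dy s t b, PtN B J e R h x y Dx Dy s t b ∧
    ∀ c, S.Ok φ c R → S.adm c R x y Dx Dy s t ∧ ∃ w ∈ HH c,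
      AdL (S.Λ c) R x y Dx Dy s t (∏ j, xi h e j ^ w j) ∧
      P c x y Dx Dy s t (∏ j, xi h e j ^ w j)

/-- A stage: a model and exponents of the objects of the system along the components. The exponents
may depend on the point, but the exponents of `c` belong to the finite set `HH c`. -/
structure Stage [MulAction G C] (φ : G →* (K ≃ₐ[k] K)) (S : Sys k K G C) (J : E → Ideal B)
    (e : E → E → ℤ) (HH : C → Set (E → ℤ)) : Prop where
  mdl : Mdl B φ J e
  fin : ∀ c, (HH c).Finite
  inv : ∀ (g : G) (c : C), HH (g • c) = HH c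
  pt : ∀ R, Pt B J R → PresS B φ S J e HH R fun _ _ _ _ _ _ _ _ => True

/-- At the point `R` every object is clean or its invariant is at most `m`. -/
def LvS (φ : G →* (K ≃ₐ[k] K)) (S : Sys k K G C) (J : E → Ideal B) (e : E → E → ℤ)
    (HH : C → Set (E → ℤ)) (m : ℕ) (R : Subalgebra k K) : Prop :=
  PresS B φ S J e HH R fun c x y Dx Dy s t γ =>
    JL (S.Λ c) R x y Dx Dy s t γ = ⊤ ∨ invL (S.Λ c) R x y Dx Dy s t γ ≤ m

end Model

end Pool.Agent.MP_b525bf_ag_S
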