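import Pool.Agent.Lib.MP_b525bf_ag_S.Trans

/-!
# S4a: the fixed points of an automorphism are closed in a model
-/

set_option autoImplicit false

namespace Pool.Agent.MP_b525bf_ag_S

open Pool.Agent.MP_b525bf_ag_TS

variable {k K G : Type} [Field k] [Field K] [Algebra k K] [Group G] {B : Subalgebra k K}
  {E : Type} [Fintype E] {J : E → Ideal B} {φ : G →* (K ≃ₐ[k] K)}

namespace FixClosed

theorem phi_inv (g : G) (z : K) : φ g (φ g⁻¹ z) = z := by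
  rw [← AlgEquiv.mul_apply, ← map_mul, mul_inv_cancel, map_one, AlgEquiv.one_apply]

theorem inv_phi (g : G) (z : K) : φ g⁻¹ (φ g z) = z := by
  rw [← AlgEquiv.mul_apply, ← map_mul, inv_mul_cancel, map_one, AlgEquiv.one_apply]

theorem mem_fix {R : Subalgebra k K} {g : G} (hg : tr φ g R = R) {z : K} (hz : z ∈ R) :
    φ g z ∈ R := by
  rw [← hg, mem_tr, inv_phi]
  exact hz

theorem mem_fix_inv {R : Subalgebra k K} {g : G} (hg : tr φ g R = R) {z : K} (hz : z ∈ R) :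
    φ g⁻¹ z ∈ R := by
  rw [← hg] at hz
  exact mem_tr.mp hz

/-- At a fixed point the value is invariant. -/
theorem ev_fix {C : Subalgebra k K} {ψ : C →ₐ[k] k} {g : G}
    (hg : tr φ g (ptLoc C ψ) = ptLoc C ψ) {z : K} (hz : z ∈ ptLoc C ψ)
    (hz' : φ g z ∈ ptLoc C ψ) :
    ptEv C ψ ⟨φ g z, hz'⟩ = ptEv C ψ ⟨z, hz⟩ := by
  set c := ptEv C ψ ⟨z, hz⟩ with hc
  have hzc : z - algebraMap k K c ∈ ptLoc C ψ := Subalgebra.sub_mem _ hz (Subalgebra.algebraMap_mem _ c)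
  have hgzc : φ g (z - algebraMap k K c) ∈ ptLoc C ψ := mem_fix hg hzc
  have h1 : ¬ UnitIn (ptLoc C ψ) (z - algebraMap k K c) := by
    have h2 := (unitIn_iff_ptEv (⟨z - algebraMap k K c, hzc⟩ : ptLoc C ψ)).not
    rw [h2, not_not]
    have h3 : (⟨z - algebraMap k K c, hzc⟩ : ptLoc C ψ) =
        ⟨z, hz⟩ - algebraMap k (ptLoc C ψ) c := Subtype.ext rfl
    rw [h3, map_sub, AlgHom.commutes, ← hc]
    exact sub_self c
  have h4 : ¬ UnitIn (ptLoc C ψ) (φ g (z - algebraMap k K c)) := by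
    rintro ⟨h0, h5, h6⟩
    apply h1
    refine ⟨fun h => h0 (by rw [h, map_zero]), hzc, ?_⟩
    have h7 := mem_fix_inv hg h6
    rw [map_inv₀, inv_phi] at h7
    exact h7
  have h5 := (unitIn_iff_ptEv (⟨φ g (z - algebraMap k K c), hgzc⟩ : ptLoc C ψ)).not
  rw [h5, not_not] at h4
  have h6 : (⟨φ g (z - algebraMap k K c), hgzc⟩ : ptLoc C ψ) =
      ⟨φ g z, hz'⟩ - algebraMap k (ptLoc C ψ) c := by
    apply Subtype.ext
    change φ g (z - algebraMap k K c) = φ g z - algebraMap k K c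
    rw [map_sub, AlgEquiv.commutes]
  rw [h6, map_sub, AlgHom.commutes, sub_eq_zero] at h4
  exact h4

/-- If `R ≤ g R` then `g R = R`. -/
theorem tr_eq_of_le [Finite G] {R : Subalgebra k K} {g : G} (h : R ≤ tr φ g R) :
    tr φ g R = R := by
  refine le_antisymm ?_ h
  have h1 : ∀ n : ℕ, R ≤ tr φ (g ^ n) R := by
    intro n
    induction n with
    | zero => rw [pow_zero, tr_one]
    | succ n ih =>
      rw [pow_succ', tr_mul]
      exact h.trans (tr_mono g ih)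
  have h2 : tr φ g R ≤ tr φ g (tr φ (g ^ (orderOf g - 1)) R) := tr_mono g (h1 _)
  rw [← tr_mul, ← pow_succ', Nat.sub_add_cancel (orderOf_pos g), pow_orderOf_eq_one, tr_one] at h2
  exact h2

end FixClosed

open FixClosed

theorem exists_nbhd_not_fixed [Finite G] (hφB : ∀ g, ∀ b ∈ B, φ g b ∈ B)
    (hst : ∀ g i, ∀ w : B, w ∈ J i → ∃ w' : B, w' ∈ J i ∧ (w' : K) = φ g w)
    {h₀ : E → K} (hh₀ : TupIn B J h₀) (χ : chartF B J h₀ →ₐ[k] k) (g : G)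
    (hχ : tr φ g (ptLoc (chartF B J h₀) χ) ≠ ptLoc (chartF B J h₀) χ) :
    ∃ f : chartF B J h₀, χ f ≠ 0 ∧ ∀ ψ : chartF B J h₀ →ₐ[k] k, ψ f ≠ 0 →
      tr φ g (ptLoc (chartF B J h₀) ψ) ≠ ptLoc (chartF B J h₀) ψ := by
  by_contra hcon
  push Not at hcon
  have key : ∀ f : chartF B J h₀, (∀ ψ : chartF B J h₀ →ₐ[k] k,
      tr φ g (ptLoc (chartF B J h₀) ψ) = ptLoc (chartF B J h₀) ψ → ψ f = 0) → χ f = 0 := by
    intro f hf
    by_contra h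
    obtain ⟨ψ, h1, h2⟩ := hcon f h
    exact h1 (hf ψ h2)
  apply hχ
  apply tr_eq_of_le
  have hB : ∀ g' : G, ∀ b ∈ B, φ g' b ∈ chartF B J h₀ := fun g' b hb => le_chartF h₀ (hφB g' b hb)
  have hJ : ∀ g' : G, ∀ i, ∀ w : B, w ∈ J i → φ g' w / h₀ i ∈ chartF B J h₀ := by
    intro g' i w hw
    obtain ⟨w', hw', hww'⟩ := hst g' i w hw
    rw [← hww']
    exact div_mem_chartF h₀ i hw'
  have hH : ∀ g' : G, ∀ i, φ g' (h₀ i) / h₀ i ∈ chartF B J h₀ := by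
    intro g' i
    obtain ⟨-, w, hw, hwh⟩ := hh₀ i
    rw [← hwh]
    have := hJ g' i w hw
    rwa [← hwh] at this
  -- the values of the elements of `B`
  have hvB : ∀ b (hb : b ∈ B), χ ⟨φ g b, hB g b hb⟩ = χ ⟨b, le_chartF h₀ hb⟩ := by
    intro b hb
    have h1 := key (⟨φ g b, hB g b hb⟩ - ⟨b, le_chartF h₀ hb⟩) (by
      intro ψ hψ
      have h2 := ev_fix hψ (z := b) (le_ptLoc (le_chartF h₀ hb)) (le_ptLoc (hB g b hb))
      have h3 := ptEv_coe (χ := ψ) (⟨φ g b, hB g b hb⟩ : chartF B J h₀) (le_ptLoc (hB g b hb))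
      have h4 := ptEv_coe (χ := ψ) (⟨b, le_chartF h₀ hb⟩ : chartF B J h₀)
        (le_ptLoc (le_chartF h₀ hb))
      rw [map_sub, ← h3, ← h4, sub_eq_zero]
      exact h2)
    rw [map_sub, sub_eq_zero] at h1
    exact h1
  -- the values of the other generators
  have hvJ : ∀ i (w : B) (hw : w ∈ J i), χ ⟨φ g w / h₀ i, hJ g i w hw⟩ =
      χ ⟨φ g (h₀ i) / h₀ i, hH g i⟩ * χ ⟨(w : K) / h₀ i, div_mem_chartF h₀ i hw⟩ := by
    intro i w hw
    have h1 := key (⟨φ g w / h₀ i, hJ g i w hw⟩ -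
      ⟨φ g (h₀ i) / h₀ i, hH g i⟩ * ⟨(w : K) / h₀ i, div_mem_chartF h₀ i hw⟩) (by
      intro ψ hψ
      have hz : (w : K) / h₀ i ∈ ptLoc (chartF B J h₀) ψ := le_ptLoc (div_mem_chartF h₀ i hw)
      have hz' := mem_fix hψ hz
      have h2 := ev_fix hψ hz hz'
      have h3 := ptEv_coe (χ := ψ) (⟨φ g w / h₀ i, hJ g i w hw⟩ : chartF B J h₀)
        (le_ptLoc (hJ g i w hw))
      have h4 := ptEv_coe (χ := ψ) (⟨φ g (h₀ i) / h₀ i, hH g i⟩ : chartF B J h₀)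
        (le_ptLoc (hH g i))
      have h5 := ptEv_coe (χ := ψ) (⟨(w : K) / h₀ i, div_mem_chartF h₀ i hw⟩ : chartF B J h₀) hz
      rw [map_sub, map_mul, ← h3, ← h4, ← h5, sub_eq_zero, ← h2, ← map_mul]
      congr 1
      apply Subtype.ext
      change φ g w / h₀ i = φ g (h₀ i) / h₀ i * φ g ((w : K) / h₀ i)
      have h6 : φ g (h₀ i) ≠ 0 := (map_ne_zero _).mpr (hh₀ i).1
      rw [map_div₀]
      field_simp)
    rw [map_sub, map_mul, sub_eq_zero] at h1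
    exact h1
  -- the units
  have hu : ∀ i, χ ⟨φ g (h₀ i) / h₀ i, hH g i⟩ * χ ⟨φ g⁻¹ (h₀ i) / h₀ i, hH g⁻¹ i⟩ = 1 := by
    intro i
    obtain ⟨h0, w, hw, hwh⟩ := hh₀ i
    obtain ⟨w', hw', hww'⟩ := hst g⁻¹ i w hw
    have h1 := hvJ i w' hw'
    have h2 : (⟨φ g w' / h₀ i, hJ g i w' hw'⟩ : chartF B J h₀) = 1 := by
      apply Subtype.ext
      change φ g w' / h₀ i = 1
      rw [hww', phi_inv, hwh, div_self h0]
    have h3 : (⟨(w' : K) / h₀ i, div_mem_chartF h₀ i hw'⟩ : chartF B J h₀) =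
        ⟨φ g⁻¹ (h₀ i) / h₀ i, hH g⁻¹ i⟩ := by
      apply Subtype.ext
      change (w' : K) / h₀ i = φ g⁻¹ (h₀ i) / h₀ i
      rw [hww', hwh]
    rw [h2, h3, map_one] at h1
    exact h1.symm
  have hmain : ∀ z, ∀ hz : z ∈ chartF B J h₀,
      ∃ hz' : φ g⁻¹ z ∈ ptLoc (chartF B J h₀) χ,
        ptEv (chartF B J h₀) χ ⟨φ g⁻¹ z, hz'⟩ = χ ⟨z, hz⟩ := by
    intro z hz
    have hz₀ := hz
    unfold chartF at hz₀
    induction hz₀ using Algebra.adjoin_induction with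
    | mem z hz₁ =>
      rcases hz₁ with hb | ⟨i, w, hw, rfl⟩
      · refine ⟨le_ptLoc (hB g⁻¹ z hb), ?_⟩
        have h1 := ptEv_coe (χ := χ) (⟨φ g⁻¹ z, hB g⁻¹ z hb⟩ : chartF B J h₀)
          (le_ptLoc (hB g⁻¹ z hb))
        rw [h1, ← hvB (φ g⁻¹ z) (hφB g⁻¹ z hb)]
        congr 1
        apply Subtype.ext
        exact phi_inv g z
      · have h0 := (hh₀ i).1
        have hne : χ ⟨φ g⁻¹ (h₀ i) / h₀ i, hH g⁻¹ i⟩ ≠ 0 := right_ne_zero_of_mul_eq_one (hu i)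
        have hgh : φ g⁻¹ (h₀ i) ≠ 0 := (map_ne_zero _).mpr h0
        have heq : φ g⁻¹ ((w : K) / h₀ i) * (φ g⁻¹ (h₀ i) / h₀ i) = φ g⁻¹ w / h₀ i := by
          rw [map_div₀]
          field_simp
        have hz' : φ g⁻¹ ((w : K) / h₀ i) ∈ ptLoc (chartF B J h₀) χ :=
          ⟨⟨φ g⁻¹ w / h₀ i, hJ g⁻¹ i w hw⟩, ⟨φ g⁻¹ (h₀ i) / h₀ i, hH g⁻¹ i⟩, hne, heq⟩
        refine ⟨hz', ?_⟩
        rw [ptEv_eq (a := ⟨φ g⁻¹ w / h₀ i, hJ g⁻¹ i w hw⟩)
          (b := ⟨φ g⁻¹ (h₀ i) / h₀ i, hH g⁻¹ i⟩) ⟨_, hz'⟩ hne heq]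
        obtain ⟨w', hw', hww'⟩ := hst g⁻¹ i w hw
        have h1 := hvJ i w' hw'
        have h2 : (⟨φ g w' / h₀ i, hJ g i w' hw'⟩ : chartF B J h₀) =
            ⟨(w : K) / h₀ i, hz⟩ := by
          apply Subtype.ext
          change φ g w' / h₀ i = (w : K) / h₀ i
          rw [hww', phi_inv]
        have h3 : (⟨(w' : K) / h₀ i, div_mem_chartF h₀ i hw'⟩ : chartF B J h₀) =
            ⟨φ g⁻¹ w / h₀ i, hJ g⁻¹ i w hw⟩ := by
          apply Subtype.ext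
          change (w' : K) / h₀ i = φ g⁻¹ w / h₀ i
          rw [hww']
        rw [h2, h3] at h1
        rw [h1, div_eq_iff hne]
        have h4 := hu i
        linear_combination (-χ ⟨φ g⁻¹ w / h₀ i, hJ g⁻¹ i w hw⟩) * h4
    | algebraMap r =>
      have h1 : φ g⁻¹ (algebraMap k K r) = algebraMap k K r := AlgEquiv.commutes _ r
      refine ⟨by rw [h1]; exact Subalgebra.algebraMap_mem _ r, ?_⟩
      have h2 : (⟨φ g⁻¹ (algebraMap k K r), by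
          rw [h1]; exact Subalgebra.algebraMap_mem _ r⟩ : ptLoc (chartF B J h₀) χ) =
          algebraMap k _ r := Subtype.ext h1
      rw [h2, AlgHom.commutes]
      exact (χ.commutes r).symm
    | add z w hz₁ hw₁ ihz ihw =>
      obtain ⟨h1, h2⟩ := ihz hz₁
      obtain ⟨h3, h4⟩ := ihw hw₁
      refine ⟨by rw [map_add]; exact Subalgebra.add_mem _ h1 h3, ?_⟩
      have h5 : (⟨φ g⁻¹ (z + w), by rw [map_add]; exact Subalgebra.add_mem _ h1 h3⟩ :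
          ptLoc (chartF B J h₀) χ) = ⟨φ g⁻¹ z, h1⟩ + ⟨φ g⁻¹ w, h3⟩ :=
        Subtype.ext (map_add _ _ _)
      rw [h5, map_add, h2, h4, ← map_add]
      rfl
    | mul z w hz₁ hw₁ ihz ihw =>
      obtain ⟨h1, h2⟩ := ihz hz₁
      obtain ⟨h3, h4⟩ := ihw hw₁
      refine ⟨by rw [map_mul]; exact Subalgebra.mul_mem _ h1 h3, ?_⟩
      have h5 : (⟨φ g⁻¹ (z * w), by rw [map_mul]; exact Subalgebra.mul_mem _ h1 h3⟩ :
          ptLoc (chartF B J h₀) χ) = ⟨φ g⁻¹ z, h1⟩ * ⟨φ g⁻¹ w, h3⟩ :=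
        Subtype.ext (map_mul _ _ _)
      rw [h5, map_mul, h2, h4, ← map_mul]
      rfl
  rintro z ⟨a, b, hb, hab⟩
  rw [mem_tr]
  obtain ⟨ha', hva⟩ := hmain (a : K) a.2
  obtain ⟨hb', hvb⟩ := hmain (b : K) b.2
  have hub : UnitIn (ptLoc (chartF B J h₀) χ) (φ g⁻¹ (b : K)) := by
    rw [unitIn_iff_ptEv (⟨φ g⁻¹ (b : K), hb'⟩ : ptLoc (chartF B J h₀) χ), hvb]
    exact hb
  have h1 : φ g⁻¹ z = φ g⁻¹ (a : K) * (φ g⁻¹ (b : K))⁻¹ := by
    rw [← hab, map_mul, mul_assoc, mul_inv_cancel₀ hub.1, mul_one]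
  rw [h1]
  exact Subalgebra.mul_mem _ ha' hub.2.2

end Pool.Agent.MP_b525bf_ag_S
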