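import Pool.Agent.Lib.MP_b525bf_ag_S.Trans
import Pool.Agent.Lib.MP_b525bf_ag_S.Ufd
import Pool.Agent.Lib.MP_b525bf_ag_TS.FinBad

/-!
# Functions as logarithmic objects
-/

set_option autoImplicit false

namespace Pool.Agent.MP_b525bf_ag_S

open Pool.Agent.MP_b525bf_ag_TS

variable {k K G C : Type} [Field k] [Field K] [Algebra k K] [Group G]
  {φ : G →* (K ≃ₐ[k] K)}

/-- The function `z` as a logarithmic object. -/
def funL (z : K) : LObj k K := fun _ _ _ _ _ _ _ => {z}

/-- No side condition. -/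
def noA : LCond k K := fun _ _ _ _ _ _ _ => True

/-- The function is a monomial times a unit. -/
theorem funL_unit {R : Subalgebra k K} {x y : K} {Dx Dy : Derivation k K K}
    (h : Reg R x y Dx Dy) {s t : Bool} {γ z : K} (hA : AdL (funL z) R x y Dx Dy s t γ) :
    UnitIn R (z / γ) ∧ JL (funL z) R x y Dx Dy s t γ = ⊤ := by
  have hzR : z / γ ∈ R := hA.mem z rfl
  have hfin := hA.fin
  have hJ : ∀ f : R, f ∣ ⟨z / γ, hzR⟩ → JL (funL z) R x y Dx Dy s t γ ≤ Ideal.span {f} := by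
    intro f hf
    unfold JL
    rw [Ideal.span_le]
    rintro w ⟨l, hl, hw⟩
    rw [show l = z from hl] at hw
    rw [show w = ⟨z / γ, hzR⟩ from Subtype.ext hw]
    exact Ideal.mem_span_singleton.2 hf
  have hu : (⟨z / γ, hzR⟩ : R) ∉ mId R x y := by
    intro hm
    have := reg_ufd h
    by_cases h0 : (⟨z / γ, hzR⟩ : R) = 0
    · exact reg_not_le_of_fin h _ (reg_prime_coord h).1 (hJ _ (by rw [h0]; exact dvd_zero _))
    · have hnu : ¬ IsUnit (⟨z / γ, hzR⟩ : R) := by
        intro hu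
        exact Loc2.one_notMem h (by
          rw [Ideal.eq_top_of_isUnit_mem _ hm hu]
          trivial)
      obtain ⟨f, hf, hfd⟩ := WfDvdMonoid.exists_irreducible_factor hnu h0
      exact reg_not_le_of_fin h _ (UniqueFactorizationMonoid.irreducible_iff_prime.1 hf) (hJ f hfd)
  have hunit := h.unitIn.1 hu
  refine ⟨hunit, ?_⟩
  refine Ideal.eq_top_of_isUnit_mem _ (Ideal.subset_span ⟨z, rfl, rfl⟩)
    (x := ⟨z / γ, hzR⟩) ?_
  exact IsUnit.of_mul_eq_one ⟨_, hunit.2.2⟩ (Subtype.ext (by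
    push_cast
    exact mul_inv_cancel₀ hunit.1))

theorem funL_of_unit {R : Subalgebra k K} {x y : K} {Dx Dy : Derivation k K K}
    {s t : Bool} {γ z : K} (hγ : γ ≠ 0) (hz : UnitIn R (z / γ)) :
    AdL (funL z) R x y Dx Dy s t γ ∧ JL (funL z) R x y Dx Dy s t γ = ⊤ := by
  have hJ : JL (funL z) R x y Dx Dy s t γ = ⊤ := by
    refine Ideal.eq_top_of_isUnit_mem _ (Ideal.subset_span ⟨z, rfl, rfl⟩)
      (x := ⟨z / γ, hz.2.1⟩) ?_
    exact IsUnit.of_mul_eq_one ⟨_, hz.2.2⟩ (Subtype.ext (by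
      push_cast
      exact mul_inv_cancel₀ hz.1))
  refine ⟨⟨hγ, ?_, ?_⟩, hJ⟩
  · intro l hl
    rw [show l = z from hl]
    exact hz.2.1
  · rw [hJ]
    have : Subsingleton (R ⧸ (⊤ : Ideal R)) := Ideal.Quotient.subsingleton_iff.2 rfl
    infer_instance

theorem fun_drop (z : K) (H : Set G) : LDrop φ (funL z) H noA := by
  intro R x y Dx Dy s t γ h _ _ _ hA
  have hu := (funL_unit h hA).1
  refine ⟨0, ?_, ?_⟩
  · intro R' c hQ _
    rw [zpow_zero, mul_one]
    have hle : R ≤ R' := le_qt.trans hQ.qt_le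
    have hu' : UnitIn R' (z / γ) := ⟨hu.1, hle hu.2.1, hle hu.2.2⟩
    exact ⟨trivial, (funL_of_unit hA.ne hu').1, Or.inl (funL_of_unit hA.ne hu').2⟩
  · intro R' hQ _
    rw [zpow_zero, mul_one]
    have hle : R ≤ R' := le_qt.trans hQ.qt_le
    have hu' : UnitIn R' (z / γ) := ⟨hu.1, hle hu.2.1, hle hu.2.2⟩
    exact ⟨trivial, (funL_of_unit hA.ne hu').1, Or.inl (funL_of_unit hA.ne hu').2⟩

theorem fun_nbhd (B : Subalgebra k K) (z : K) (H : Set G) : LNbhd B φ (funL z) H noA := by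
  intro C _ _ χ x y Dx Dy s t γ h _ _ _ hA
  obtain ⟨h0, ⟨a, b, hb, e⟩, ⟨a', b', hb', e'⟩⟩ := (funL_unit h hA).1
  have ha : χ a ≠ 0 := by
    intro ha
    have h1 : a * a' = b * b' := by
      apply Subtype.ext
      push_cast
      rw [← e, ← e', mul_mul_mul_comm, mul_inv_cancel₀ h0, one_mul]
    have h2 := congrArg χ h1
    rw [map_mul, map_mul, ha, zero_mul] at h2
    exact mul_ne_zero hb hb' h2.symm
  refine ⟨a * b, by rw [map_mul]; exact mul_ne_zero ha hb, ?_⟩
  intro ψ hψ _ α β _ _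
  rw [map_mul] at hψ
  have hu' : UnitIn (ptLoc C ψ) (z / γ) :=
    ⟨h0, ⟨a, b, right_ne_zero_of_mul hψ, e⟩, ⟨b, a, left_ne_zero_of_mul hψ, by
      rw [← e, ← mul_assoc, inv_mul_cancel₀ h0, one_mul]⟩⟩
  exact ⟨trivial, (funL_of_unit hA.ne hu').1, (funL_of_unit hA.ne hu').2⟩

/-- A system with one more function. -/
def optS (S : Sys k K G C) (z : K) : Sys k K G (Option C) where
  Λ
    | none => funL z
    | some c => S.Λ c
  H
    | none => ∅
    | some c => S.H c
  adm
    | none => noA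
    | some c => S.adm c

theorem optS_equi [MulAction G C] {S : Sys k K G C} (hS : S.Equi φ) {z : K}
    (hz : ∀ g, φ g z = z) : (optS S z).Equi φ where
  Λ g c R x y Dx Dy s t := by
    cases c with
    | none =>
      change ({z} : Set K) = φ g '' {z}
      rw [Set.image_singleton, hz]
    | some c => exact hS.Λ g c R x y Dx Dy s t
  H g c h := by
    cases c with
    | none => exact Iff.rfl
    | some c => exact hS.H g c h
  adm g c R x y Dx Dy s t h := by
    cases c with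
    | none => trivial
    | some c => exact hS.adm g c R x y Dx Dy s t h

end Pool.Agent.MP_b525bf_ag_S
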