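import Pool.Agent.Lib.MP_b525bf_ag_S.Ufd
import Pool.Agent.Lib.MP_b525bf_ag_TS.PPow

/-!
# S9b: curves on a smooth surface are generically smooth
-/

set_option autoImplicit false

namespace Pool.Agent.MP_b525bf_ag_S

open Pool.Agent.MP_b525bf_ag_TS

variable {k K : Type} [Field k] [Field K] [Algebra k K]
  {R : Subalgebra k K} {x y : K} {Dx Dy : Derivation k K K}

namespace GenSm

open TensorProduct MvPolynomial

/-- An étale algebra over a domain is algebraic. -/
theorem isAlgebraic_of_etale {A C : Type} [CommRing A] [IsDomain A] [CommRing C] [Algebra A C]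
    [Algebra.Etale A C] (a : C) : IsAlgebraic A a := by
  have hT : Algebra.Etale (FractionRing A) (FractionRing A ⊗[A] C) := inferInstance
  have h1 : Module.Finite (FractionRing A) (FractionRing A ⊗[A] C) :=
    Algebra.FormallyUnramified.finite_of_free (FractionRing A) (FractionRing A ⊗[A] C)
  have h2 : IsAlgebraic (FractionRing A) ((1 : FractionRing A) ⊗ₜ[A] a) :=
    (Algebra.IsIntegral.isIntegral _).isAlgebraic
  have h3 : IsAlgebraic A ((1 : FractionRing A) ⊗ₜ[A] a) :=
    (IsFractionRing.isAlgebraic_iff A (FractionRing A) (FractionRing A ⊗[A] C)).2 h2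
  exact (isAlgebraic_algHom_iff
    (Algebra.TensorProduct.includeRight : C →ₐ[A] FractionRing A ⊗[A] C)
    (Algebra.TensorProduct.includeRight_injective
      (IsFractionRing.injective A (FractionRing A)))).1 h3

theorem totalDegree_pderiv_lt {σ : Type} {P : MvPolynomial σ k} (i : σ) (h : pderiv i P ≠ 0) :
    (pderiv i P).totalDegree < P.totalDegree := by
  classical
  have key : ∀ m ∈ (pderiv i P).support, (m.sum fun _ e => e) + 1 ≤ P.totalDegree := by
    intro m hm
    have h1 := coeff_pderiv P (i := i) m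
    have h2 : m + Finsupp.single i 1 ∈ P.support := by
      rw [mem_support_iff]
      intro h0
      rw [h0, zero_mul] at h1
      exact (mem_support_iff.1 hm) h1
    have h3 := le_totalDegree h2
    have h4 : ((m + Finsupp.single i 1).sum fun _ e => e) = (m.sum fun _ e => e) + 1 := by
      rw [Finsupp.sum_add_index' (fun _ => rfl) (fun _ _ _ => rfl)]
      simp
    omega
  obtain ⟨m, hm⟩ := Finset.nonempty_of_ne_empty (fun h0 => h (support_eq_empty.1 h0))
  have h1 := key m hm
  unfold totalDegree at *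
  rw [Finset.sup_lt_iff (lt_of_lt_of_le (Nat.succ_pos _) h1)]
  intro m' hm'
  exact key m' hm'

theorem D_aeval (D : Derivation k K K) (x y : K) (P : MvPolynomial (Fin 2) k) :
    D (aeval ![x, y] P) = aeval ![x, y] (pderiv 0 P) * D x + aeval ![x, y] (pderiv 1 P) * D y := by
  induction P using MvPolynomial.induction_on with
  | C c => simp
  | add p q hp hq => rw [map_add, map_add, hp, hq, map_add, map_add, map_add, map_add]; ring
  | mul_X p i hp =>
    rw [map_mul, aeval_X, Derivation.leibniz, hp, Derivation.leibniz, Derivation.leibniz,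
      map_add, map_add]
    simp only [smul_eq_mul, map_mul, aeval_X]
    fin_cases i
    · simp [pderiv_X]
      ring
    · simp [pderiv_X]
      ring

theorem totalDegree_pow_eq {σ : Type} {P : MvPolynomial σ k} (hP : P ≠ 0) (n : ℕ) :
    (P ^ n).totalDegree = n * P.totalDegree := by
  induction n with
  | zero => simp
  | succ n ih => rw [pow_succ, totalDegree_mul_of_isDomain (pow_ne_zero _ hP) hP, ih]; ring

end GenSm

/-- Every nonzero element of `R` divides a nonzero polynomial in `x`, `y`. -/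
theorem reg_exists_poly (h : Reg R x y Dx Dy) {f : K} (hf : f ∈ R) (hf0 : f ≠ 0) :
    ∃ P : MvPolynomial (Fin 2) k, P ≠ 0 ∧ ∃ u ∈ R, MvPolynomial.aeval ![x, y] P = f * u := by
  obtain ⟨C, χ, hx, hy, rfl, -, -, het⟩ := h.et
  obtain ⟨a, b, hb, hab⟩ := hf
  have hb0 : (b : K) ≠ 0 := fun h0 => hb (by
    rw [show b = 0 from Subtype.ext h0, map_zero])
  have ha0 : (a : C) ≠ 0 := by
    intro h0
    rw [h0] at hab
    exact mul_ne_zero hf0 hb0 hab
  let φ : MvPolynomial (Fin 2) k →ₐ[k] C := MvPolynomial.aeval ![(⟨x, hx⟩ : C), ⟨y, hy⟩]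
  let _ : Algebra (MvPolynomial (Fin 2) k) C := φ.toRingHom.toAlgebra
  have het' : Algebra.Etale (MvPolynomial (Fin 2) k) C := het
  obtain ⟨P, hP, c, hc⟩ := (GenSm.isAlgebraic_of_etale (A := MvPolynomial (Fin 2) k)
    (a : C)).exists_nonzero_dvd (mem_nonZeroDivisors_of_ne_zero ha0)
  refine ⟨P, hP, (b * c : C), ptLoc_le _ _ (b * c).2, ?_⟩
  have h1 : MvPolynomial.aeval ![x, y] P = ((φ P : C) : K) := by
    have h2 := MvPolynomial.comp_aeval_apply (R := k) ![(⟨x, hx⟩ : C), ⟨y, hy⟩] C.val P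
    have h3 : (fun i => C.val (![(⟨x, hx⟩ : C), ⟨y, hy⟩] i)) = ![x, y] := by
      funext i
      fin_cases i <;> rfl
    rw [h3] at h2
    exact h2.symm
  have hc' : φ P = a * c := hc
  rw [h1, hc']
  push_cast
  rw [← hab]
  ring

theorem reg_gen_smooth [IsAlgClosed k] (p : ℕ) [Fact p.Prime] [CharP k p]
    (h : Reg R x y Dx Dy) {f : R} (hf : Prime f) :
    ¬ ((∃ u ∈ R, Dx f = f * u) ∧ ∃ v ∈ R, Dy f = f * v) := by
  classical
  rintro ⟨⟨u, hu, hxu⟩, v, hv, hyv⟩
  have hex : ∃ n : ℕ, ∃ P : MvPolynomial (Fin 2) k, P ≠ 0 ∧ P.totalDegree = n ∧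
      ∃ u ∈ R, MvPolynomial.aeval ![x, y] P = f * u := by
    obtain ⟨P, hP, hPu⟩ := reg_exists_poly h f.2 (fun h0 => hf.ne_zero (Subtype.ext h0))
    exact ⟨_, P, hP, rfl, hPu⟩
  obtain ⟨P, hP, hPn, w, hw, e⟩ := Nat.find_spec hex
  have hmin : ∀ Q : MvPolynomial (Fin 2) k, Q.totalDegree < P.totalDegree →
      (∃ u ∈ R, MvPolynomial.aeval ![x, y] Q = f * u) → Q = 0 := by
    intro Q hQ hQu
    by_contra hQ0
    rw [hPn] at hQ
    exact Nat.find_min hex hQ ⟨Q, hQ0, rfl, hQu⟩
  -- the partial derivatives vanish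
  have hd : ∀ i, MvPolynomial.pderiv i P = 0 := by
    intro i
    by_contra hne
    apply hne
    apply hmin _ (GenSm.totalDegree_pderiv_lt i hne)
    have hDx := GenSm.D_aeval Dx x y P
    have hDy := GenSm.D_aeval Dy x y P
    rw [h.xx, h.xy, mul_one, mul_zero, add_zero, e, Derivation.leibniz, hxu] at hDx
    rw [h.yx, h.yy, mul_one, mul_zero, zero_add, e, Derivation.leibniz, hyv] at hDy
    fin_cases i
    · refine ⟨Dx w + w * u, R.add_mem (h.Dx_mem w hw) (R.mul_mem hw hu), ?_⟩
      change MvPolynomial.aeval ![x, y] (MvPolynomial.pderiv 0 P) = _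
      rw [← hDx, smul_eq_mul, smul_eq_mul]; ring
    · refine ⟨Dy w + w * v, R.add_mem (h.Dy_mem w hw) (R.mul_mem hw hv), ?_⟩
      change MvPolynomial.aeval ![x, y] (MvPolynomial.pderiv 1 P) = _
      rw [← hDy, smul_eq_mul, smul_eq_mul]; ring
  obtain ⟨Q, hQ⟩ := exists_pow_of_pderiv p P hd
  have hp := (Fact.out : p.Prime)
  have hQ0 : Q ≠ 0 := by
    rintro rfl
    rw [zero_pow hp.ne_zero] at hQ
    exact hP hQ
  have haR : ∀ S : MvPolynomial (Fin 2) k, MvPolynomial.aeval ![x, y] S ∈ R := by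
    intro S
    have h1 : MvPolynomial.aeval ![x, y] S ∈ Algebra.adjoin k (Set.range ![x, y]) := by
      rw [Algebra.adjoin_range_eq_range_aeval]
      exact ⟨S, rfl⟩
    refine Algebra.adjoin_le ?_ h1
    rintro _ ⟨i, rfl⟩
    fin_cases i
    · exact h.hx
    · exact h.hy
  have hdvd : f ∣ (⟨_, haR Q⟩ : R) ^ p := by
    refine ⟨⟨w, hw⟩, Subtype.ext ?_⟩
    push_cast
    rw [← e, hQ, map_pow]
  obtain ⟨c, hc⟩ := hf.dvd_of_dvd_pow hdvd
  by_cases hdeg : Q.totalDegree = 0
  · -- a nonzero constant is a unit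
    have h1 : Q = MvPolynomial.C (Q.coeff 0) := (MvPolynomial.totalDegree_eq_zero_iff_eq_C).1 hdeg
    have h2 : Q.coeff 0 ≠ 0 := by
      intro h0
      rw [h0, map_zero] at h1
      exact hQ0 h1
    apply hf.not_isUnit
    have h3 : (⟨_, haR Q⟩ : R) = algebraMap k R (Q.coeff 0) := by
      apply Subtype.ext
      change MvPolynomial.aeval ![x, y] Q = algebraMap k K (Q.coeff 0)
      conv_lhs => rw [h1]
      rw [MvPolynomial.aeval_C]
    have h4 : IsUnit (⟨_, haR Q⟩ : R) := by
      rw [h3]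
      exact (isUnit_iff_ne_zero.2 h2).map (algebraMap k R)
    rw [hc] at h4
    exact isUnit_of_mul_isUnit_left h4
  · have h1 : Q.totalDegree < P.totalDegree := by
      rw [hQ, GenSm.totalDegree_pow_eq hQ0]
      have := hp.two_le
      nlinarith [Nat.pos_of_ne_zero hdeg]
    exact hQ0 (hmin Q h1 ⟨c, c.2, congrArg Subtype.val hc⟩)

end Pool.Agent.MP_b525bf_ag_S
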