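import Pool.Agent.Lib.MP_b525bf_ag_S.Trans

/-!
# The logarithmic objects of the elements of order `p`
-/

set_option autoImplicit false

namespace Pool.Agent.MP_b525bf_ag_S

open Pool.Agent.MP_b525bf_ag_TS

variable {k K G : Type} [Field k] [Field K] [Algebra k K] [Group G]

/-- The coefficients of `g - 1` as a logarithmic object. -/
def sigL (φ : G →* (K ≃ₐ[k] K)) (g : G) : LObj k K := fun _ x y _ _ s t =>
  {(φ g x - x) / (if s then x else 1), (φ g y - y) / (if t then y else 1)}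

/-- The boundary curves are fixed by `g`. -/
def sigA (φ : G →* (K ≃ₐ[k] K)) (g : G) : LCond k K := fun R x y _ _ s t =>
  (s = true → φ g x / x ∈ R) ∧ (t = true → φ g y / y ∈ R)

/-- The elements of order `p`. -/
def Cp (G : Type) [Group G] (p : ℕ) : Type := {g : G // g ≠ 1 ∧ g ^ p = 1}

instance (p : ℕ) [Finite G] : Finite (Cp G p) :=
  inferInstanceAs (Finite {g : G // g ≠ 1 ∧ g ^ p = 1})

instance (p : ℕ) : MulAction G (Cp G p) where
  smul g c := ⟨g * c.1 * g⁻¹, by
    refine ⟨fun h => c.2.1 ?_, ?_⟩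
    · have : g⁻¹ * (g * c.1 * g⁻¹) * g = g⁻¹ * 1 * g := by rw [h]
      simpa [mul_assoc] using this
    · rw [conj_pow, c.2.2, mul_one, mul_inv_cancel]⟩
  one_smul c := Subtype.ext (by change 1 * c.1 * 1⁻¹ = c.1; simp)
  mul_smul g h c := Subtype.ext (by
    change g * h * c.1 * (g * h)⁻¹ = g * (h * c.1 * h⁻¹) * g⁻¹
    simp [mul_assoc])

/-- The system of the elements of order `p`. -/
def sigS (φ : G →* (K ≃ₐ[k] K)) (p : ℕ) : Sys k K G (Cp G p) where
  Λ c := sigL φ c.1
  H c := {c.1}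
  adm c := sigA φ c.1

private theorem conj_app (φ : G →* (K ≃ₐ[k] K)) (g c : G) (z : K) :
    φ (g * c * g⁻¹) (φ g z) = φ g (φ c z) := by
  rw [← AlgEquiv.mul_apply, ← map_mul, ← AlgEquiv.mul_apply, ← map_mul]
  have h : g * c * g⁻¹ * g = g * c := by group
  rw [h]

private theorem mem_tr_of (φ : G →* (K ≃ₐ[k] K)) {R : Subalgebra k K} {g : G} {z : K}
    (h : z ∈ R) : φ g z ∈ tr φ g R := by
  rw [mem_tr, ← AlgEquiv.mul_apply, ← map_mul, inv_mul_cancel, map_one, AlgEquiv.one_apply]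
  exact h

private theorem map_flag (σ : K ≃ₐ[k] K) (s : Bool) (x : K) :
    (if s then σ x else 1) = σ (if s then x else 1) := by
  cases s
  · exact (map_one σ).symm
  · rfl

theorem sigS_equi (φ : G →* (K ≃ₐ[k] K)) (p : ℕ) : (sigS φ p).Equi φ where
  Λ g c R x y Dx Dy s t := by
    change sigL φ (g * c.1 * g⁻¹) (tr φ g R) (φ g x) (φ g y) (trD φ g Dx) (trD φ g Dy) s t =
      φ g '' sigL φ c.1 R x y Dx Dy s t
    unfold sigL
    rw [Set.image_pair, map_div₀, map_div₀, map_sub, map_sub, conj_app, conj_app, map_flag,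
      map_flag]
  H g c h := by
    change h = c.1 ↔ g * h * g⁻¹ = g * c.1 * g⁻¹
    constructor
    · rintro rfl
      rfl
    · intro h1
      exact mul_left_cancel (mul_right_cancel h1)
  adm g c R x y Dx Dy s t h := by
    change sigA φ c.1 R x y Dx Dy s t at h
    change sigA φ (g * c.1 * g⁻¹) (tr φ g R) (φ g x) (φ g y) (trD φ g Dx) (trD φ g Dy) s t
    refine ⟨fun hs => ?_, fun ht => ?_⟩
    · rw [conj_app, ← map_div₀]
      exact mem_tr_of φ (h.1 hs)
    · rw [conj_app, ← map_div₀]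
      exact mem_tr_of φ (h.2 ht)

end Pool.Agent.MP_b525bf_ag_S
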