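import Pool.Agent.Lib.MP_b525bf_ag_S.Inert
import Pool.Agent.Lib.MP_b525bf_ag_S.Fun
import Pool.Agent.Lib.MP_b525bf_ag_S.Sigma

/-!
# S15: the group conditions at closed points
-/

set_option autoImplicit false
set_option linter.unusedSectionVars false

namespace Pool.Agent.MP_b525bf_ag_S

open Pool.Agent.MP_b525bf_ag Pool.Agent.MP_b525bf_ag_W Pool.Agent.MP_b525bf_ag_P
  Pool.Agent.MP_b525bf_ag_TS

variable {k K G : Type} [Field k] [Field K] [Algebra k K] [Group G] {B : Subalgebra k K}
  {E : Type} [Fintype E] {J : E → Ideal B} {e : E → E → ℤ} {φ : G →* (K ≃ₐ[k] K)}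

namespace GrpM

open Inert

variable {R : Subalgebra k K} {ev : R →ₐ[k] k} {a : G} {γ : K}

/-- The logarithmic difference of `z` is divisible by `γ`. -/
def Dg (φ : G →* (K ≃ₐ[k] K)) (a : G) (R : Subalgebra k K) (γ z : K) : Prop :=
  Cg φ a R z ∧ (φ a z / z - 1) / γ ∈ R

theorem Dg.mul (hev : H86.IsEv R ev) {z w : K} (hz : Dg φ a R γ z) (hw : Dg φ a R γ w) :
    Dg φ a R γ (z * w) := by
  refine ⟨hz.1.mul hev hw.1, ?_⟩
  have e1 : (φ a (z * w) / (z * w) - 1) / γ =
      (φ a z / z - 1) / γ * (φ a w / w) + (φ a w / w - 1) / γ := by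
    rw [map_mul, mul_div_mul_comm]
    ring
  rw [e1]
  exact R.add_mem (R.mul_mem hz.2 (hw.1.unit hev).2.1) hw.2

theorem Dg.inv (hev : H86.IsEv R ev) {z : K} (hz : Dg φ a R γ z) : Dg φ a R γ z⁻¹ := by
  refine ⟨hz.1.inv hev, ?_⟩
  have h0 : φ a z ≠ 0 := by
    rw [Ne, EmbeddingLike.map_eq_zero_iff]
    exact hz.1.1
  have e1 : (φ a z⁻¹ / z⁻¹ - 1) / γ = -((φ a z / z - 1) / γ * (φ a z / z)⁻¹) := by
    have e2 : φ a z⁻¹ / z⁻¹ = (φ a z / z)⁻¹ := by
      rw [map_inv₀, inv_div, div_inv_eq_mul, div_eq_mul_inv, mul_comm]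
    rw [e2]
    have e3 : (φ a z / z) * (φ a z / z)⁻¹ = 1 := mul_inv_cancel₀ (div_ne_zero h0 hz.1.1)
    have e4 : (φ a z / z)⁻¹ - 1 = -((φ a z / z - 1) * (φ a z / z)⁻¹) := by
      rw [sub_mul, e3]
      ring
    rw [e4]
    ring
  rw [e1]
  exact R.neg_mem (R.mul_mem hz.2 (hz.1.unit hev).2.2)

theorem Dg.one : Dg φ a R γ 1 := by
  refine ⟨Cg.one, ?_⟩
  rw [map_one, div_one, sub_self, zero_div]
  exact R.zero_mem

theorem Dg.pow (hev : H86.IsEv R ev) {z : K} (hz : Dg φ a R γ z) (n : ℕ) :
    Dg φ a R γ (z ^ n) := by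
  induction n with
  | zero => rw [pow_zero]; exact Dg.one
  | succ n ih => rw [pow_succ]; exact ih.mul hev hz

theorem Dg.zpow (hev : H86.IsEv R ev) {z : K} (hz : Dg φ a R γ z) (n : ℤ) :
    Dg φ a R γ (z ^ n) := by
  obtain ⟨m, rfl | rfl⟩ := n.eq_nat_or_neg
  · rw [zpow_natCast]; exact hz.pow hev m
  · rw [zpow_neg, zpow_natCast]; exact (hz.pow hev m).inv hev

theorem Dg.prod (hev : H86.IsEv R ev) {ι : Type*} (s : Finset ι) {f : ι → K}
    (hf : ∀ i ∈ s, Dg φ a R γ (f i)) : Dg φ a R γ (∏ i ∈ s, f i) := by
  classical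
  induction s using Finset.induction_on with
  | empty => rw [Finset.prod_empty]; exact Dg.one
  | insert b s hb ih =>
    rw [Finset.prod_insert hb]
    exact (hf b (Finset.mem_insert_self b s)).mul hev
      (ih fun i hi => hf i (Finset.mem_insert_of_mem hi))

theorem Dg.of_unit (hev : H86.IsEv R ev) (hR : ∀ z ∈ R, φ a z - z ∈ mx R)
    (hγ : ∀ z ∈ R, (φ a z - z) / γ ∈ R) {z : K} (hz : UnitIn R z) : Dg φ a R γ z := by
  refine ⟨Cg.of_unit hev hR hz, ?_⟩
  have e1 : (φ a z / z - 1) / γ = (φ a z - z) / γ * z⁻¹ := by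
    rw [← div_self hz.1, ← sub_div, div_div, mul_comm z γ, ← div_div, div_eq_mul_inv _ z]
  rw [e1]
  exact R.mul_mem (hγ z hz.2.1) hz.2.2

/-- The difference for a power is a sum of translates of the difference. -/
theorem phi_pow_sub (c : G) (z : K) (n : ℕ) :
    φ (c ^ n) z - z = ∑ j ∈ Finset.range n, φ (c ^ j) (φ c z - z) := by
  induction n with
  | zero => simp
  | succ n ih =>
    rw [Finset.sum_range_succ, ← ih, pow_succ, map_mul, AlgEquiv.mul_apply, map_sub]
    ring

/-- The monomial of a combination of the degrees of the boundary. -/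
theorem mon_wdeg {g : E → K} (hg : ∀ i, g i ≠ 0) (n : E → ℤ) :
    mon g (wdeg e n) = ∏ j, xi g e j ^ n j := by
  have h : ∀ s : Finset E, mon g (∑ j ∈ s, n j • e j) = ∏ j ∈ s, xi g e j ^ n j := by
    classical
    intro s
    induction s using Finset.induction_on with
    | empty => rw [Finset.sum_empty, Finset.prod_empty, mon_zero]
    | insert i s hi ih =>
      rw [Finset.sum_insert hi, Finset.prod_insert hi, mon_add hg, ih]
      congr 1
      rw [mon, xi, ← Finset.prod_zpow]
      refine Finset.prod_congr rfl fun l _ => ?_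
      rw [Pi.smul_apply, smul_eq_mul, mul_comm, zpow_mul]
  exact h Finset.univ

theorem unit_trans {a b c : K} (h1 : UnitIn R (a / b)) (h2 : UnitIn R (b / c)) :
    UnitIn R (a / c) := by
  have hb : b ≠ 0 := by
    intro hb
    apply h1.1
    rw [hb, div_zero]
  rw [show a / c = a / b * (b / c) by rw [div_mul_div_cancel₀ hb]]
  exact h1.mul h2

theorem unit_symm {a b : K} (h1 : UnitIn R (a / b)) : UnitIn R (b / a) := by
  rw [← inv_div]
  exact h1.inv

/-- A clean object has a coefficient which is a unit. -/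
theorem exists_unit (hev : H86.IsEv R ev) {x y : K} {Dx Dy : Derivation k K K} {s t : Bool}
    (hA : AdL (sigL φ a) R x y Dx Dy s t γ)
    (hcl : JL (sigL φ a) R x y Dx Dy s t γ = ⊤ ∨ invL (sigL φ a) R x y Dx Dy s t γ ≤ 0) :
    UnitIn R ((φ a x - x) / (if s then x else 1) / γ) ∨
      UnitIn R ((φ a y - y) / (if t then y else 1) / γ) := by
  have htop : JL (sigL φ a) R x y Dx Dy s t γ = ⊤ := by
    rcases hcl with h | h
    · exact h
    · have h1 : Module.finrank k (R ⧸ JL (sigL φ a) R x y Dx Dy s t γ) = 0 := by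
        unfold invL at h
        omega
      have := hA.fin
      have h2 : Subsingleton (R ⧸ JL (sigL φ a) R x y Dx Dy s t γ) :=
        Module.finrank_zero_iff.1 h1
      exact Ideal.Quotient.subsingleton_iff.1 h2
  by_contra hne
  push Not at hne
  obtain ⟨h1, h2⟩ := hne
  have hle : JL (sigL φ a) R x y Dx Dy s t γ ≤ RingHom.ker ev := by
    refine Ideal.span_le.2 ?_
    rintro z ⟨l, hl, hz⟩
    change z ∈ RingHom.ker ev
    rw [RingHom.mem_ker]
    by_contra hz0
    have h3 : UnitIn R (z : K) := (H86.unitIn_iff hev).2 ⟨z.2, hz0⟩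
    rw [hz] at h3
    rcases hl with rfl | rfl
    · exact h1 h3
    · exact h2 h3
  rw [htop] at hle
  have h3 : (1 : R) ∈ RingHom.ker ev := hle trivial
  rw [RingHom.mem_ker, map_one] at h3
  exact one_ne_zero h3

end GrpM

open Inert GrpM

/-- The group conditions at a closed point where the elements of order `p` are clean. -/
theorem grpAt_closed [IsAlgClosed k] [Finite G] (p : ℕ) [Fact p.Prime] [CharP k p] (hB : B.FG)
    (hφB : ∀ g, ∀ b ∈ B, φ g b ∈ B) (hφ : Function.Injective φ)
    (hfrac : ∀ z : K, ∃ a ∈ B, ∃ b ∈ B, b ≠ 0 ∧ z * b = a) {z₀ : K}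
    (haug : ∀ g : G, g ≠ 1 → z₀ ∈ Submodule.span B {v : K | ∃ b ∈ B, v = φ g b - b})
    (hp2 : ∀ (χ : B →ₐ[k] k) (E' : Subgroup G),
      (∀ g ∈ E', ∀ (b : B) (h : φ g b ∈ B), χ ⟨φ g b, h⟩ = χ b) → ¬ p ^ 2 ∣ Nat.card E')
    {HH : Option (Cp G p) → Set (E → ℤ)} (h : Stage B φ (optS (sigS φ p) z₀) J e HH)
    (hcl : ∀ R, Pt B J R → LvS B φ (optS (sigS φ p) z₀) J e HH 0 R)
    (q : Ideal (mrees B J e).alg) [q.IsMaximal] (hq : Semi (mrees B J e) (fun _ => 1) q) :
    ∃ w : Unit → E → ℤ, (∀ i, w i ∈ ⋃ c, HH c) ∧
      GrpAt p φ (mrees B J e) q (fun _ : Unit => (⊥ : Subgroup G)) fun i => wdeg e (w i) := by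
  -- the function `z₀` is a monomial at all points
  have hmon : ∀ R, Pt B J R → ∃ h x y Dx Dy s t b, PtN B J e R h x y Dx Dy s t b ∧
      ∃ w : E → ℤ, UnitIn R (z₀ / ∏ j, xi h e j ^ w j) := by
    intro R hR
    obtain ⟨h, x, y, Dx, Dy, s, t, b, hp, hall⟩ := hcl R hR
    refine ⟨h, x, y, Dx, Dy, s, t, b, hp, ?_⟩
    obtain ⟨-, w, -, hA, -⟩ := hall none (fun _ hg => hg.elim)
    have hreg : Reg R x y Dx Dy := hp.choose_spec.reg
    exact ⟨w, (funL_unit hreg hA).1⟩
  have hcard := card_inertia p hB hφB hφ hfrac haug hp2 h.mdl hmon q hq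
  obtain ⟨R, g, hR, hg, hmem, hisU, hin⟩ := mdl_exists_closed hB hφB h.mdl q hq
  obtain ⟨ev, hev⟩ := exists_ev_pt hR
  have hBR : B ≤ R := TorsA.Pt.le hR
  obtain ⟨hh, x, y, Dx, Dy, s, t, b, hp, hall⟩ := hcl R hR
  have hreg : Reg R x y Dx Dy := hp.choose_spec.reg
  have hgh : GenAt B J R hh := hp.choose_spec.gen
  have hg0 : ∀ i, g i ≠ 0 := fun i => (hg.1 i).1
  rcases hcard with hbot | hcard
  · -- the inertia group is trivial
    obtain ⟨-, w, hw, -, -⟩ := hall none (fun _ hg => hg.elim)
    refine ⟨fun _ => w, fun _ => Set.mem_iUnion.2 ⟨none, hw⟩, ?_, ?_, ?_⟩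
    · intro _
      left
      rw [hbot]
    · intro a ha d z _
      rw [hbot, Subgroup.mem_bot] at ha
      rw [ha, map_one, AlgEquiv.one_apply, sub_self]
      exact Submodule.zero_mem _
    · intro _
      refine ⟨0, 0, Submodule.zero_mem _, fun _ _ => map_zero _, ?_⟩
      intro a ha ha'
      rw [hbot] at ha
      exact absurd ha ha'
  · -- the inertia group is cyclic of order `p`
    have hpp : p.Prime := Fact.out
    have hnt : ∃ c : inertia φ (mrees B J e) q, c ≠ 1 := by
      have : Nontrivial (inertia φ (mrees B J e) q) := by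
        rw [← Finite.one_lt_card_iff_nontrivial, hcard]
        exact hpp.one_lt
      exact exists_ne 1
    obtain ⟨⟨c, hcE⟩, hc1⟩ := hnt
    have hc1' : c ≠ 1 := fun h1 => hc1 (Subtype.ext h1)
    have hcp : c ^ p = 1 := by
      have h1 : (⟨c, hcE⟩ : inertia φ (mrees B J e) q) ^ p = 1 := by
        rw [← hcard]
        exact pow_card_eq_one'
      exact congrArg (fun z : inertia φ (mrees B J e) q => (z : G)) h1
    obtain ⟨hcR, hcg, hcz⟩ := hin c hcE
    obtain ⟨-, w, hw, hA, hJ⟩ := hall (some ⟨c, hc1', hcp⟩) (by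
      intro a ha
      have : a = c := ha
      rw [this]
      exact hcR)
    change AdL (sigL φ c) R x y Dx Dy s t (∏ j, xi hh e j ^ w j) at hA
    change JL (sigL φ c) R x y Dx Dy s t (∏ j, xi hh e j ^ w j) = ⊤ ∨
      invL (sigL φ c) R x y Dx Dy s t (∏ j, xi hh e j ^ w j) ≤ 0 at hJ
    set γ := ∏ j, xi hh e j ^ w j with hγ
    have hγ0 : γ ≠ 0 := hA.ne
    have hAx : (φ c x - x) / (if s then x else 1) / γ ∈ R := hA.mem _ (Or.inl rfl)
    have hAy : (φ c y - y) / (if t then y else 1) / γ ∈ R := hA.mem _ (Or.inr rfl)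
    have hx0 : x ≠ 0 := hreg.x_ne
    have hy0 : y ≠ 0 := hreg.symm.x_ne
    -- divisibility by `γ`
    have hdx : (φ c x - x) / γ ∈ R := by
      have e1 : (φ c x - x) / γ =
          (φ c x - x) / (if s then x else 1) / γ * (if s then x else 1) := by
        cases s
        · simp
        · simp only [if_true]
          field_simp
      rw [e1]
      refine R.mul_mem hAx ?_
      cases s
      · simp
      · simpa using hreg.hx
    have hdy : (φ c y - y) / γ ∈ R := by
      have e1 : (φ c y - y) / γ =
          (φ c y - y) / (if t then y else 1) / γ * (if t then y else 1) := by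
        cases t
        · simp
        · simp only [if_true]
          field_simp
      rw [e1]
      refine R.mul_mem hAy ?_
      cases t
      · simp
      · simpa using hreg.hy
    have hdR : ∀ z ∈ R, (φ c z - z) / γ ∈ R := by
      intro z hz
      obtain ⟨u, hu, v, hv, e1⟩ := reg_aug hreg hcR hz
      have e2 : (φ c z - z) / γ = (φ c x - x) / γ * u + (φ c y - y) / γ * v := by
        rw [e1]; ring
      rw [e2]
      exact R.add_mem (R.mul_mem hdx hu) (R.mul_mem hdy hv)
    have hDu : ∀ z, UnitIn R z → Dg φ c R γ z := fun z hz => Dg.of_unit hev hcz hdR hz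
    have hDx : s = true → Dg φ c R γ x := by
      intro hs
      refine ⟨Cg.x hev hcz hp hg hcg hs, ?_⟩
      rw [hs] at hAx
      simp only [if_true, sub_div, div_self hx0] at hAx
      rw [sub_div]
      exact hAx
    have hDy : t = true → Dg φ c R γ y := by
      intro ht
      refine ⟨Cg.y hev hcz hp hg hcg ht, ?_⟩
      rw [ht] at hAy
      simp only [if_true, sub_div, div_self hy0] at hAy
      rw [sub_div]
      exact hAy
    -- the boundary coordinates
    have hxiu : ∀ j, UnitIn R (xi g e j / xi hh e j) := fun j => by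
      unfold xi
      rw [← Finset.prod_div_distrib]
      refine UnitIn.prod _ fun i _ => ?_
      rw [← div_zpow]
      exact (genAt_div hgh hg i).zpow _
    have hDxi : ∀ j, Dg φ c R γ (xi g e j) := by
      intro j
      have hxi0 : xi hh e j ≠ 0 := by
        intro h0
        apply (hxiu j).1
        rw [h0, div_zero]
      have e1 : xi g e j = xi g e j / xi hh e j * xi hh e j := by
        rw [div_mul_cancel₀ _ hxi0]
      rw [e1]
      refine (hDu _ (hxiu j)).mul hev ?_
      obtain ⟨V, hV⟩ := hp
      rcases hb : b j with _ | f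
      · exact hDu _ (hV.b0 j hb)
      · cases f
        · have e2 : xi hh e j = xi hh e j / x * x := by rw [div_mul_cancel₀ _ hx0]
          rw [e2]
          exact (hDu _ (hV.bx j hb)).mul hev (hDx (hV.s_iff.2 ⟨j, hb⟩))
        · have e2 : xi hh e j = xi hh e j / y * y := by rw [div_mul_cancel₀ _ hy0]
          rw [e2]
          exact (hDu _ (hV.by' j hb)).mul hev (hDy (hV.t_iff.2 ⟨j, hb⟩))
    have hDmon : ∀ d, Dg φ c R γ (mon g d) := by
      intro d
      obtain ⟨n, hn⟩ := h.mdl.span d
      have e1 : d = wdeg e n := hn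
      rw [e1, mon_wdeg hg0]
      exact Dg.prod hev _ fun j _ => (hDxi j).zpow hev _
    have hmw : UnitIn R (mon g (wdeg e w) / γ) := by
      rw [mon_wdeg hg0, hγ, ← Finset.prod_div_distrib]
      refine UnitIn.prod _ fun j _ => ?_
      rw [← div_zpow]
      exact (hxiu j).zpow _
    -- the difference for `c`
    have hdc : ∀ d, ∀ z ∈ (atP (mrees B J e) q).s d,
        φ c z - z ∈ (atP (mrees B J e) q).s (d + wdeg e w) := by
      intro d z hz
      rw [hmem] at hz ⊢
      have hm0 := mon_ne (g := g) hg0 d
      have hmw0 := mon_ne (g := g) hg0 (wdeg e w)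
      set r := z / mon g d with hr
      have hzr : z = mon g d * r := by rw [hr, mul_div_cancel₀ _ hm0]
      have e1 : (φ c z - z) / mon g (d + wdeg e w) =
          ((φ c (mon g d) / mon g d - 1) / γ * φ c r + (φ c r - r) / γ) *
            (γ / mon g (wdeg e w)) := by
        rw [mon_add hg0, hzr, map_mul]
        field_simp
        ring
      rw [e1]
      refine R.mul_mem (R.add_mem (R.mul_mem (hDmon d).2 (fix_mem hcR hz)) (hdR r hz))
        (unit_symm hmw).2.1
    -- all elements are powers of `c`
    have hpow : ∀ a ∈ inertia φ (mrees B J e) q, ∃ n : ℕ, a = c ^ n := by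
      intro a ha
      have h1 : (⟨a, ha⟩ : inertia φ (mrees B J e) q) ∈
          Subgroup.zpowers (⟨c, hcE⟩ : inertia φ (mrees B J e) q) :=
        mem_zpowers_of_prime_card hcard hc1
      obtain ⟨n, hn⟩ := (Submonoid.mem_powers_iff _ _).1 (mem_powers_iff_mem_zpowers.2 h1)
      exact ⟨n, (congrArg (fun z : inertia φ (mrees B J e) q => (z : G)) hn).symm⟩
    have hsum : ∀ n : ℕ, ∀ D, ∀ Y ∈ (atP (mrees B J e) q).s D,
        ∑ j ∈ Finset.range n, φ (c ^ j) Y ∈ (atP (mrees B J e) q).s D := by
      intro n D Y hY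
      refine Submodule.sum_mem _ fun j _ => ?_
      exact inertia_mem φ _ q (pow_mem hcE j) hY
    refine ⟨fun _ => w, fun _ => Set.mem_iUnion.2 ⟨_, hw⟩, ?_, ?_, ?_⟩
    · intro _
      right
      rw [Subgroup.relIndex_bot_left, hcard]
    · intro a ha d z hz
      by_cases ha1 : a = 1
      · rw [ha1, map_one, AlgEquiv.one_apply, sub_self]
        exact Submodule.zero_mem _
      · have ha2 : a ∉ (⊥ : Subgroup G) := fun h1 => ha1 (Subgroup.mem_bot.1 h1)
        refine Submodule.mem_iSup_of_mem () (Submodule.mem_iSup_of_mem ha2 ?_)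
        obtain ⟨n, rfl⟩ := hpow a ha
        rw [phi_pow_sub]
        exact hsum n _ _ (hdc d z hz)
    · intro _
      -- sums of translates of a unit
      have key : ∀ D Y, IsU (atP (mrees B J e) q) D Y → ∀ a ∈ inertia φ (mrees B J e) q,
          a ∉ (⊥ : Subgroup G) → ∀ n : ℕ, a = c ^ n →
          IsU (atP (mrees B J e) q) D (∑ j ∈ Finset.range n, φ (c ^ j) Y) := by
        intro D Y hY a ha ha1 n hn
        have hY1 := hY.2.1
        have hYR : Y / mon g D ∈ R := (hmem D Y).1 hY1
        have hYu : UnitIn R (Y / mon g D) := (hisU D Y).1 hY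
        obtain ⟨hY3, hY4⟩ := (H86.unitIn_iff hev).1 hYu
        -- the translates have the same residue
        have hres : ∀ j : ℕ, ∃ hj : φ (c ^ j) Y / mon g D ∈ R,
            ev ⟨_, hj⟩ = ev ⟨Y / mon g D, hY3⟩ := by
          intro j
          have h1 := inertia_mem φ _ q (pow_mem hcE j) hY1
          have h2 : φ (c ^ j) Y / mon g D ∈ R := (hmem D _).1 h1
          refine ⟨h2, ?_⟩
          have h3 := inertia_not_isU φ _ q (pow_mem hcE j) hY1
          rw [hisU, H86.unitIn_iff hev] at h3
          push Not at h3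
          have h4 : (φ (c ^ j) Y - Y) / mon g D ∈ R := by
            rw [sub_div]
            exact R.sub_mem h2 hY3
          have h5 := h3 h4
          have h6 : (⟨(φ (c ^ j) Y - Y) / mon g D, h4⟩ : R) =
              ⟨φ (c ^ j) Y / mon g D, h2⟩ - ⟨Y / mon g D, hY3⟩ :=
            Subtype.ext (sub_div _ _ _)
          rw [h6, map_sub, sub_eq_zero] at h5
          exact h5
        have hS : ∀ n : ℕ, ∃ hn : (∑ j ∈ Finset.range n, φ (c ^ j) Y) / mon g D ∈ R,
            ev ⟨_, hn⟩ = (n : k) * ev ⟨Y / mon g D, hY3⟩ := by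
          intro n
          induction n with
          | zero =>
            have h1 : (∑ j ∈ Finset.range 0, φ (c ^ j) Y) / mon g D = 0 := by simp
            refine ⟨by rw [h1]; exact R.zero_mem, ?_⟩
            have h2 : (⟨(∑ j ∈ Finset.range 0, φ (c ^ j) Y) / mon g D,
                by rw [h1]; exact R.zero_mem⟩ : R) = 0 := Subtype.ext h1
            rw [h2, map_zero, Nat.cast_zero, zero_mul]
          | succ n ih =>
            obtain ⟨hn1, hn2⟩ := ih
            obtain ⟨hj1, hj2⟩ := hres n
            have h1 : (∑ j ∈ Finset.range (n + 1), φ (c ^ j) Y) / mon g D =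
                (∑ j ∈ Finset.range n, φ (c ^ j) Y) / mon g D + φ (c ^ n) Y / mon g D := by
              rw [Finset.sum_range_succ, add_div]
            have h2 : (∑ j ∈ Finset.range (n + 1), φ (c ^ j) Y) / mon g D ∈ R := by
              rw [h1]
              exact R.add_mem hn1 hj1
            refine ⟨h2, ?_⟩
            have h3 : (⟨_, h2⟩ : R) = ⟨_, hn1⟩ + ⟨_, hj1⟩ := Subtype.ext h1
            rw [h3, map_add, hn2, hj2]
            push_cast
            ring
        obtain ⟨hn1, hn2⟩ := hS n
        rw [hisU, H86.unitIn_iff hev]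
        refine ⟨hn1, ?_⟩
        rw [hn2]
        refine mul_ne_zero ?_ hY4
        intro h0
        rw [CharP.cast_eq_zero_iff k p] at h0
        apply ha1
        rw [Subgroup.mem_bot, hn]
        obtain ⟨m, rfl⟩ := h0
        rw [pow_mul, hcp, one_pow]
      rcases exists_unit hev hA hJ with hux | huy
      · -- the coordinate `x`
        have hd : ∃ d, IsU (atP (mrees B J e) q) d (if s then x else 1) := by
          rcases Bool.eq_false_or_eq_true s with hs | hs
          · obtain ⟨j, -, -, hu⟩ := ptN_x hp hs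
            refine ⟨e j, ?_⟩
            rw [hs, hisU]
            simp only [if_true]
            exact unit_trans hu (unit_symm (hxiu j))
          · refine ⟨0, ?_⟩
            rw [hs, hisU]
            simp only [Bool.false_eq_true, if_false, mon_zero, div_one]
            exact UnitIn.one'
        obtain ⟨d, hd⟩ := hd
        have hxd : x ∈ (atP (mrees B J e) q).s d := by
          rcases Bool.eq_false_or_eq_true s with hs | hs
          · rw [hs] at hd
            simpa using hd.2.1
          · rw [hs] at hd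
            simp only [Bool.false_eq_true, if_false] at hd
            have h1 := (hisU d 1).1 hd
            rw [hmem, div_eq_mul_inv]
            rw [one_div] at h1
            exact R.mul_mem hreg.hx h1.2.1
        have hU : IsU (atP (mrees B J e) q) (d + wdeg e w) (φ c x - x) := by
          rw [hisU, mon_add hg0]
          have hd' := (hisU d _).1 hd
          have hX0 : (if s then x else 1) ≠ 0 := by
            cases s
            · simp
            · simpa using hx0
          have hm0 := mon_ne (g := g) hg0 d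
          have hmw0 := mon_ne (g := g) hg0 (wdeg e w)
          have e1 : (φ c x - x) / (mon g d * mon g (wdeg e w)) =
              (φ c x - x) / (if s then x else 1) / γ * ((if s then x else 1) / mon g d) *
                (γ / mon g (wdeg e w)) := by
            generalize (if s then x else 1) = X at hX0
            field_simp
          rw [e1]
          exact (hux.mul hd').mul (unit_symm hmw)
        refine ⟨d, x, hxd, ?_, ?_⟩
        · intro a ha
          rw [Subgroup.mem_bot] at ha
          rw [ha, map_one, AlgEquiv.one_apply]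
        · intro a ha ha1
          obtain ⟨n, hn⟩ := hpow a ha
          have := key _ _ hU a ha ha1 n hn
          rw [← phi_pow_sub, ← hn] at this
          exact this
      · -- the coordinate `y`
        have hd : ∃ d, IsU (atP (mrees B J e) q) d (if t then y else 1) := by
          rcases Bool.eq_false_or_eq_true t with hs | hs
          · obtain ⟨j, -, -, hu⟩ := ptN_y hp hs
            refine ⟨e j, ?_⟩
            rw [hs, hisU]
            simp only [if_true]
            exact unit_trans hu (unit_symm (hxiu j))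
          · refine ⟨0, ?_⟩
            rw [hs, hisU]
            simp only [Bool.false_eq_true, if_false, mon_zero, div_one]
            exact UnitIn.one'
        obtain ⟨d, hd⟩ := hd
        have hyd : y ∈ (atP (mrees B J e) q).s d := by
          rcases Bool.eq_false_or_eq_true t with hs | hs
          · rw [hs] at hd
            simpa using hd.2.1
          · rw [hs] at hd
            simp only [Bool.false_eq_true, if_false] at hd
            have h1 := (hisU d 1).1 hd
            rw [hmem, div_eq_mul_inv]
            rw [one_div] at h1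
            exact R.mul_mem hreg.hy h1.2.1
        have hU : IsU (atP (mrees B J e) q) (d + wdeg e w) (φ c y - y) := by
          rw [hisU, mon_add hg0]
          have hd' := (hisU d _).1 hd
          have hX0 : (if t then y else 1) ≠ 0 := by
            cases t
            · simp
            · simpa using hy0
          have hm0 := mon_ne (g := g) hg0 d
          have hmw0 := mon_ne (g := g) hg0 (wdeg e w)
          have e1 : (φ c y - y) / (mon g d * mon g (wdeg e w)) =
              (φ c y - y) / (if t then y else 1) / γ * ((if t then y else 1) / mon g d) *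
                (γ / mon g (wdeg e w)) := by
            generalize (if t then y else 1) = X at hX0
            field_simp
          rw [e1]
          exact (huy.mul hd').mul (unit_symm hmw)
        refine ⟨d, y, hyd, ?_, ?_⟩
        · intro a ha
          rw [Subgroup.mem_bot] at ha
          rw [ha, map_one, AlgEquiv.one_apply]
        · intro a ha ha1
          obtain ⟨n, hn⟩ := hpow a ha
          have := key _ _ hU a ha ha1 n hn
          rw [← phi_pow_sub, ← hn] at this
          exact this

end Pool.Agent.MP_b525bf_ag_S
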