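import Pool.Agent.Lib.MP_b525bf_ag_S.Add
import Pool.Agent.Lib.MP_b525bf_ag_S.Aug
import Pool.Agent.Lib.MP_b525bf_ag_S.Fun

/-!
# S13: the stage for the elements of order `p`
-/

set_option autoImplicit false

namespace Pool.Agent.MP_b525bf_ag_S

open Pool.Agent.MP_b525bf_ag_TS

variable {k K G : Type} [Field k] [Field K] [Algebra k K] [Group G] {B : Subalgebra k K}
  {E : Type} [Fintype E] {J : E → Ideal B} {e : E → E → ℤ} {φ : G →* (K ≃ₐ[k] K)}

namespace Init3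

variable {R : Subalgebra k K} {h : E → K} {x y : K} {Dx Dy : Derivation k K K}
  {s t : Bool} {b : E → Option Bool}

/-- Exponents of divisors of monomials. -/
theorem pow_le_x (hr : Reg R x y Dx Dy) {c : K} (hc : c ∈ R) {m n A C : ℕ}
    (hu : UnitIn R (x ^ m * y ^ n * c / (x ^ A * y ^ C))) : m ≤ A := by
  obtain ⟨hx, hy, hxy⟩ := reg_prime_coord hr
  have hx0 := hr.x_ne
  have hy0 := hr.symm.x_ne
  have hne : x ^ A * y ^ C ≠ 0 := mul_ne_zero (pow_ne_zero _ hx0) (pow_ne_zero _ hy0)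
  obtain ⟨h0, h1, h2⟩ := hu
  by_contra hlt
  push Not at hlt
  -- `x ∣ u * y ^ C`
  have e1 : (⟨_, h1⟩ : R) * (⟨y, hr.hy⟩ : R) ^ C =
      (⟨x, hr.hx⟩ : R) * ((⟨x, hr.hx⟩ : R) ^ (m - A - 1) * (⟨y, hr.hy⟩ : R) ^ n * ⟨c, hc⟩) := by
    apply Subtype.ext
    push_cast
    have hm : m = A + 1 + (m - A - 1) := by omega
    have hxA : x ^ A ≠ 0 := pow_ne_zero _ hx0
    have : x ^ A * (x ^ m * y ^ n * c / (x ^ A * y ^ C) * y ^ C) =
        x ^ A * (x * (x ^ (m - A - 1) * y ^ n * c)) := by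
      rw [show x ^ A * (x ^ m * y ^ n * c / (x ^ A * y ^ C) * y ^ C) =
        x ^ m * y ^ n * c / (x ^ A * y ^ C) * (x ^ A * y ^ C) by ring, div_mul_cancel₀ _ hne]
      conv_lhs => rw [hm]
      ring
    exact mul_left_cancel₀ hxA this
  rcases hx.dvd_or_dvd ⟨_, e1⟩ with h3 | h3
  · have hunit : IsUnit (⟨_, h1⟩ : R) := IsUnit.of_mul_eq_one ⟨_, h2⟩ (Subtype.ext (by
      push_cast
      exact mul_inv_cancel₀ h0))
    exact hx.not_unit (isUnit_of_dvd_unit h3 hunit)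
  · exact hxy ((hx.dvd_prime_iff_associated hy).1 (hx.dvd_of_dvd_pow h3))

theorem pow_le_y (hr : Reg R x y Dx Dy) {c : K} (hc : c ∈ R) {m n A C : ℕ}
    (hu : UnitIn R (x ^ m * y ^ n * c / (x ^ A * y ^ C))) : n ≤ C := by
  refine pow_le_x hr.symm hc (m := n) (n := m) (A := C) (C := A) ?_
  rw [mul_comm (y ^ n), mul_comm (y ^ C)]
  exact hu

/-- A monomial which divides two elements, such that the quotients have finite colength. -/
theorem exists_mon (hr : Reg R x y Dx Dy) {a a' z u v : K} (ha : a ∈ R) (ha' : a' ∈ R)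
    (hu : u ∈ R) (hv : v ∈ R) (hz : z = a * u + a' * v) {A C : ℕ}
    (hzu : UnitIn R (z / (x ^ A * y ^ C))) :
    ∃ m n : ℕ, m ≤ A ∧ n ≤ C ∧ a / (x ^ m * y ^ n) ∈ R ∧ a' / (x ^ m * y ^ n) ∈ R ∧
      ∀ f : R, Prime f → ¬ ((∃ w ∈ R, a / (x ^ m * y ^ n) = f * w) ∧
        ∃ w ∈ R, a' / (x ^ m * y ^ n) = f * w) := by
  classical
  have hx0 := hr.x_ne
  have hy0 := hr.symm.x_ne
  let P : ℕ × ℕ → Prop := fun q => a / (x ^ q.1 * y ^ q.2) ∈ R ∧ a' / (x ^ q.1 * y ^ q.2) ∈ R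
  let S : Finset (ℕ × ℕ) :=
    (Finset.range (A + 1) ×ˢ Finset.range (C + 1)).filter P
  have hS : S.Nonempty := by
    refine ⟨(0, 0), Finset.mem_filter.2 ⟨?_, ?_, ?_⟩⟩
    · simp
    · simpa using ha
    · simpa using ha'
  obtain ⟨⟨m, n⟩, hq, hmax⟩ := Finset.exists_max_image S (fun q => q.1 + q.2) hS
  obtain ⟨hq1, hq2, hq3⟩ := Finset.mem_filter.1 hq
  simp only [Finset.mem_product, Finset.mem_range] at hq1
  refine ⟨m, n, by omega, by omega, hq2, hq3, fun f hf => ?_⟩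
  rintro ⟨⟨w, hw, hw2⟩, w', hw', hw2'⟩
  obtain ⟨hx, hy, hxy⟩ := reg_prime_coord hr
  have hne : x ^ m * y ^ n ≠ 0 := mul_ne_zero (pow_ne_zero _ hx0) (pow_ne_zero _ hy0)
  rw [div_eq_iff hne] at hw2 hw2'
  have hz2 : z = x ^ m * y ^ n * (f * (w * u + w' * v)) := by
    rw [hz, hw2, hw2']; ring
  have hcR : w * u + w' * v ∈ R := R.add_mem (R.mul_mem hw hu) (R.mul_mem hw' hv)
  -- `f` divides a monomial
  have hne2 : x ^ A * y ^ C ≠ 0 := mul_ne_zero (pow_ne_zero _ hx0) (pow_ne_zero _ hy0)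
  have hfd : f ∣ (⟨x, hr.hx⟩ : R) ^ A * (⟨y, hr.hy⟩ : R) ^ C := by
    refine ⟨⟨(z / (x ^ A * y ^ C))⁻¹, hzu.2.2⟩ * (⟨x, hr.hx⟩ ^ m * ⟨y, hr.hy⟩ ^ n *
      ⟨_, hcR⟩), ?_⟩
    apply Subtype.ext
    push_cast
    have hz0 : z ≠ 0 := fun h0 => hzu.1 (by rw [h0, zero_div])
    rw [show (f : K) * ((z / (x ^ A * y ^ C))⁻¹ * (x ^ m * y ^ n * (w * u + w' * v))) =
      (z / (x ^ A * y ^ C))⁻¹ * (x ^ m * y ^ n * (f * (w * u + w' * v))) by ring, ← hz2, inv_div,
      div_mul_cancel₀ _ hz0]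
  have hfR : ∀ g : R, f ∣ g → ∃ w ∈ R, (f : K) * w = g := by
    rintro g ⟨w, hw⟩
    exact ⟨w, w.2, by rw [hw]; rfl⟩
  rcases hf.dvd_or_dvd hfd with h1 | h1
  · -- `f ∼ x`
    have h2 := hf.dvd_of_dvd_pow h1
    obtain ⟨ε, hε⟩ := (hf.dvd_prime_iff_associated hx).1 h2
    have hε' : (f : K) * ((ε : R) : K) = x := by
      have := congrArg (fun z : R => (z : K)) hε
      simpa using this
    have hεi : ((ε : R) : K) * (((ε⁻¹ : Rˣ) : R) : K) = 1 :=
      congrArg (fun z : R => (z : K)) (ε.mul_inv)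
    have hf2 : (f : K) = x * (((ε⁻¹ : Rˣ) : R) : K) := by
      rw [← hε', mul_assoc, hεi, mul_one]
    have hm : m + 1 ≤ A := by
      refine pow_le_x hr (m := m + 1) (n := n) (A := A) (C := C)
        (c := (((ε⁻¹ : Rˣ) : R) : K) * (w * u + w' * v)) (R.mul_mem (Subtype.coe_prop _) hcR) ?_
      rw [show x ^ (m + 1) * y ^ n * ((((ε⁻¹ : Rˣ) : R) : K) * (w * u + w' * v)) =
        x ^ m * y ^ n * (x * (((ε⁻¹ : Rˣ) : R) : K) * (w * u + w' * v)) by ring, ← hf2, ← hz2]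
      exact hzu
    have hmem : ∀ a w : K, w ∈ R → a = f * w * (x ^ m * y ^ n) →
        a / (x ^ (m + 1) * y ^ n) ∈ R := by
      intro a w hw e
      have : a / (x ^ (m + 1) * y ^ n) = (((ε⁻¹ : Rˣ) : R) : K) * w := by
        rw [div_eq_iff (mul_ne_zero (pow_ne_zero _ hx0) (pow_ne_zero _ hy0)), e, hf2]
        ring
      rw [this]
      exact R.mul_mem (Subtype.coe_prop _) hw
    have := hmax (m + 1, n) (Finset.mem_filter.2 ⟨by
      simp only [Finset.mem_product, Finset.mem_range]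
      omega, hmem a w hw hw2, hmem a' w' hw' hw2'⟩)
    simp only at this
    omega
  · -- `f ∼ y`
    have h2 := hf.dvd_of_dvd_pow h1
    obtain ⟨ε, hε⟩ := (hf.dvd_prime_iff_associated hy).1 h2
    have hε' : (f : K) * ((ε : R) : K) = y := by
      have := congrArg (fun z : R => (z : K)) hε
      simpa using this
    have hεi : ((ε : R) : K) * (((ε⁻¹ : Rˣ) : R) : K) = 1 :=
      congrArg (fun z : R => (z : K)) (ε.mul_inv)
    have hf2 : (f : K) = y * (((ε⁻¹ : Rˣ) : R) : K) := by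
      rw [← hε', mul_assoc, hεi, mul_one]
    have hm : n + 1 ≤ C := by
      refine pow_le_y hr (m := m) (n := n + 1) (A := A) (C := C)
        (c := (((ε⁻¹ : Rˣ) : R) : K) * (w * u + w' * v)) (R.mul_mem (Subtype.coe_prop _) hcR) ?_
      rw [show x ^ m * y ^ (n + 1) * ((((ε⁻¹ : Rˣ) : R) : K) * (w * u + w' * v)) =
        x ^ m * y ^ n * (y * (((ε⁻¹ : Rˣ) : R) : K) * (w * u + w' * v)) by ring, ← hf2, ← hz2]
      exact hzu
    have hmem : ∀ a w : K, w ∈ R → a = f * w * (x ^ m * y ^ n) →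
        a / (x ^ m * y ^ (n + 1)) ∈ R := by
      intro a w hw e
      have : a / (x ^ m * y ^ (n + 1)) = (((ε⁻¹ : Rˣ) : R) : K) * w := by
        rw [div_eq_iff (mul_ne_zero (pow_ne_zero _ hx0) (pow_ne_zero _ hy0)), e, hf2]
        ring
      rw [this]
      exact R.mul_mem (Subtype.coe_prop _) hw
    have := hmax (m, n + 1) (Finset.mem_filter.2 ⟨by
      simp only [Finset.mem_product, Finset.mem_range]
      omega, hmem a w hw hw2, hmem a' w' hw' hw2'⟩)
    simp only at this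
    omega

/-- The generators of the boundary ideals are fixed up to units. -/
theorem fix_xi (hφB : ∀ g, ∀ b ∈ B, φ g b ∈ B)
    (hst : ∀ g i, ∀ w : B, w ∈ J i → ∃ w' : B, w' ∈ J i ∧ (w' : K) = φ g w) {a : G}
    (ha : tr φ a R = R) (hh : GenAt B J R h) (j : E) :
    UnitIn R (φ a (xi h e j) / xi h e j) := by
  have h1 := genAt_tr (φ := φ) hφB hst a hh
  rw [ha] at h1
  have h2 := hh.xi_unit h1 e j
  rwa [xi_tr] at h2

/-- The boundary curves are fixed. -/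
theorem fix_coord (hφB : ∀ g, ∀ b ∈ B, φ g b ∈ B)
    (hst : ∀ g i, ∀ w : B, w ∈ J i → ∃ w' : B, w' ∈ J i ∧ (w' : K) = φ g w) {a : G}
    (ha : tr φ a R = R) (hh : GenAt B J R h) {j : E} {z : K} (h1 : UnitIn R (xi h e j / z)) :
    φ a z / z ∈ R := by
  have h2 := fix_xi (e := e) hφB hst ha hh j
  have h3 := unitIn_tr (φ := φ) a h1
  rw [ha, map_div₀] at h3
  exact (MonAux.UnitIn.trans (MonAux.UnitIn.symm h3) (MonAux.UnitIn.trans h2 h1)).2.1

/-- Elements of the span of the differences. -/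
theorem span_aug (hr : Reg R x y Dx Dy) (hBR : B ≤ R) {a : G} (ha : tr φ a R = R) {z : K}
    (hz : z ∈ Submodule.span B {v : K | ∃ b ∈ B, v = φ a b - b}) :
    ∃ u ∈ R, ∃ v ∈ R, z = (φ a x - x) * u + (φ a y - y) * v := by
  induction hz using Submodule.span_induction with
  | mem z hz =>
    obtain ⟨b, hb, rfl⟩ := hz
    exact reg_aug hr ha (hBR hb)
  | zero => exact ⟨0, R.zero_mem, 0, R.zero_mem, by ring⟩
  | add z w _ _ hz hw =>
    obtain ⟨u, hu, v, hv, rfl⟩ := hz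
    obtain ⟨u', hu', v', hv', rfl⟩ := hw
    exact ⟨u + u', R.add_mem hu hu', v + v', R.add_mem hv hv', by ring⟩
  | smul c z _ hz =>
    obtain ⟨u, hu, v, hv, rfl⟩ := hz
    refine ⟨c * u, R.mul_mem (hBR c.2) hu, c * v, R.mul_mem (hBR c.2) hv, ?_⟩
    change (c : K) * _ = _
    ring

/-- The coefficient of `g - 1` is in the local ring. -/
theorem coef_mem {a : G} (ha : tr φ a R = R) {s : Bool} {z : K} (hz : z ∈ R) (hz0 : z ≠ 0)
    (hs : s = true → φ a z / z ∈ R) : (φ a z - z) / (if s then z else 1) ∈ R := by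
  cases s
  · simp only [Bool.false_eq_true, if_false, div_one]
    exact R.sub_mem (fix_mem ha hz) hz
  · simp only [if_true, sub_div, div_self hz0]
    exact R.sub_mem (hs rfl) R.one_mem

theorem exists_adL (hφB : ∀ g, ∀ b ∈ B, φ g b ∈ B)
    (hst : ∀ g i, ∀ w : B, w ∈ J i → ∃ w' : B, w' ∈ J i ∧ (w' : K) = φ g w) {a : G}
    (ha : tr φ a R = R) (hBR : B ≤ R) (hp : PtN B J e R h x y Dx Dy s t b) {z₀ : K}
    (hz₀ : z₀ ∈ Submodule.span B {v : K | ∃ b ∈ B, v = φ a b - b}) {N : ℕ} {w : E → ℤ}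
    (hw : ∀ j, 0 ≤ w j ∧ w j ≤ N) (hu : UnitIn R (z₀ / ∏ j, xi h e j ^ w j)) :
    sigA φ a R x y Dx Dy s t ∧ ∃ w : E → ℤ, (∀ j, 0 ≤ w j ∧ w j ≤ N) ∧
      AdL (sigL φ a) R x y Dx Dy s t (∏ j, xi h e j ^ w j) := by
  have hr := MonAux.reg hp
  have hx0 := hr.x_ne
  have hy0 := hr.symm.x_ne
  have hgen : GenAt B J R h := by
    obtain ⟨V, hV⟩ := hp
    exact hV.gen
  have hs : s = true → φ a x / x ∈ R := by
    intro hs
    obtain ⟨j, -, h1, -⟩ := ptN_x hp hs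
    exact fix_coord hφB hst ha hgen h1
  have ht : t = true → φ a y / y ∈ R := by
    intro ht
    obtain ⟨j, -, h1, -⟩ := ptN_y hp ht
    exact fix_coord hφB hst ha hgen h1
  refine ⟨⟨hs, ht⟩, ?_⟩
  set A := (φ a x - x) / (if s then x else 1) with hA
  set A' := (φ a y - y) / (if t then y else 1) with hA'
  have hAR : A ∈ R := coef_mem ha hr.hx hx0 hs
  have hAR' : A' ∈ R := coef_mem ha hr.hy hy0 ht
  have hX : (if s then x else 1) ∈ R := by
    cases s
    · simp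
    · simpa using hr.hx
  have hY : (if t then y else 1) ∈ R := by
    cases t
    · simp
    · simpa using hr.hy
  have hX0 : (if s then x else 1) ≠ 0 := by
    cases s
    · simp
    · simpa using hx0
  have hY0 : (if t then y else 1) ≠ 0 := by
    cases t
    · simp
    · simpa using hy0
  obtain ⟨u, hu1, v, hv1, hz1⟩ := span_aug hr hBR ha hz₀
  -- the function as a monomial
  have hwn : ∀ j, (((w j).toNat : ℕ) : ℤ) = w j := fun j => Int.toNat_of_nonneg (hw j).1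
  have h1 := MonAux.prod_xi_unit hp fun j => (w j).toNat
  simp only [hwn] at h1
  obtain ⟨m, n, hm, hn, hAm, hAn, hf⟩ := exists_mon hr (a := A) (a' := A')
    (u := (if s then x else 1) * u) (v := (if t then y else 1) * v) (z := z₀) hAR hAR'
    (R.mul_mem hX hu1) (R.mul_mem hY hv1) (by
      rw [hz1, hA, hA', ← mul_assoc, ← mul_assoc, div_mul_cancel₀ _ hX0, div_mul_cancel₀ _ hY0])
    (MonAux.UnitIn.trans hu h1)
  have hs_iff : s = true ↔ ∃ j, b j = some false := by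
    obtain ⟨V, hV⟩ := hp
    exact hV.s_iff
  have ht_iff : t = true ↔ ∃ j, b j = some true := by
    obtain ⟨V, hV⟩ := hp
    exact hV.t_iff
  have hms : s = false → (m : ℤ) = 0 := by
    intro h
    have hex : ¬ ∃ j, b j = some false := by
      rw [← hs_iff, h]
      exact Bool.false_ne_true
    push Not at hex
    rw [Finset.sum_eq_zero fun j _ => if_neg (hex j)] at hm
    omega
  have hnt : t = false → (n : ℤ) = 0 := by
    intro h
    have hex : ¬ ∃ j, b j = some true := by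
      rw [← ht_iff, h]
      exact Bool.false_ne_true
    push Not at hex
    rw [Finset.sum_eq_zero fun j _ => if_neg (hex j)] at hn
    omega
  have hne : x ^ m * y ^ n ≠ 0 := mul_ne_zero (pow_ne_zero _ hx0) (pow_ne_zero _ hy0)
  obtain ⟨w', hw1, hw2, hw3, hw4⟩ := ptN_exists_w hp (γ := x ^ m * y ^ n) (m := m) (n := n) (by
    rw [zpow_natCast, zpow_natCast, div_self hne]
    exact UnitIn.one') hms hnt
  refine ⟨w', fun j => ?_, ?_⟩
  · rcases hb : b j with _ | c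
    · rw [hw3 j hb]
      exact ⟨le_rfl, Int.natCast_nonneg _⟩
    · cases c
      · rw [hw1 j hb]
        rw [MonAux.sum_eq hp _ hb] at hm
        have := (hw j).2
        have := (hw j).1
        omega
      · rw [hw2 j hb]
        rw [MonAux.sum_eq hp _ hb] at hn
        have := (hw j).2
        have := (hw j).1
        omega
  · set γ := ∏ j, xi h e j ^ w' j with hγ
    have hγ0 : γ ≠ 0 := by
      intro h0
      apply hw4.1
      rw [h0, div_zero]
    have hdiv : ∀ a : K, a / γ = a / (x ^ m * y ^ n) * (x ^ m * y ^ n / γ) := by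
      intro a
      rw [div_mul_div_cancel₀ hne]
    have hmem : ∀ l ∈ sigL φ a R x y Dx Dy s t, l / γ ∈ R := by
      rintro l (rfl | rfl)
      · rw [hdiv]
        exact R.mul_mem hAm hw4.2.1
      · rw [hdiv]
        exact R.mul_mem hAn hw4.2.1
    refine ⟨hγ0, hmem, reg_fin_of hr _ fun f hf0 hle => hf f hf0 ?_⟩
    have key : ∀ a' ∈ sigL φ a R x y Dx Dy s t, a' / (x ^ m * y ^ n) ∈ R →
        ∃ w ∈ R, a' / (x ^ m * y ^ n) = f * w := by
      intro a' ha' _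
      have h2 : (⟨a' / γ, hmem a' ha'⟩ : R) ∈ JL (sigL φ a) R x y Dx Dy s t γ :=
        Ideal.subset_span ⟨a', ha', rfl⟩
      obtain ⟨w, hw⟩ := Ideal.mem_span_singleton.1 (hle h2)
      have hw' : a' / γ = f * w := congrArg (fun z : R => (z : K)) hw
      refine ⟨w * (x ^ m * y ^ n / γ)⁻¹, R.mul_mem w.2 hw4.2.2, ?_⟩
      rw [← mul_assoc, ← hw', hdiv, mul_assoc, mul_inv_cancel₀ hw4.1, mul_one]
    exact ⟨key A (Or.inl rfl) hAm, key A' (Or.inr rfl) hAn⟩

end Init3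

theorem exists_stage_sig [Finite G] (p : ℕ) [Fact p.Prime] (hφB : ∀ g, ∀ b ∈ B, φ g b ∈ B)
    {z₀ : K} (hz₀ : z₀ ≠ 0) (hφz : ∀ g, φ g z₀ = z₀) (h : Mdl B φ J e) {N : ℕ}
    (hmon : MonAt B J e z₀ N)
    (haug : ∀ g : G, g ≠ 1 → z₀ ∈ Submodule.span B {v : K | ∃ b ∈ B, v = φ g b - b}) :
    ∃ HH : Option (Cp G p) → Set (E → ℤ), Stage B φ (optS (sigS φ p) z₀) J e HH := by
  have _ := hz₀
  have _ := hφz
  refine ⟨fun _ => {w | ∀ j, 0 ≤ w j ∧ w j ≤ N}, h, fun _ => ?_, fun _ _ => rfl,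
    fun R hR => ?_⟩
  · exact Set.Finite.pi' fun _ => Set.finite_Icc (0 : ℤ) N
  · obtain ⟨g, x, y, Dx, Dy, s, t, b, hp, w, hw, hu⟩ := hmon R hR
    refine ⟨g, x, y, Dx, Dy, s, t, b, hp, ?_⟩
    rintro (_ | c) hok
    · refine ⟨trivial, w, hw, (funL_of_unit ?_ hu).1, trivial⟩
      intro h0
      apply hu.1
      rw [h0, div_zero]
    · have ha : tr φ c.1 R = R := hok c.1 rfl
      obtain ⟨h1, w', hw', h2⟩ := Init3.exists_adL hφB h.stab ha hR.le hp
        (haug c.1 c.2.1) hw hu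
      exact ⟨h1, w', hw', h2, trivial⟩

end Pool.Agent.MP_b525bf_ag_S
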