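import Pool.Agent.Lib.MP_b525bf_ag_S.Aug
import Pool.Agent.Lib.MP_b525bf_ag_TS.Trans

/-!
# S6c: transformation of the coefficients of `g - 1`
-/

set_option autoImplicit false

namespace Pool.Agent.MP_b525bf_ag_S

open Pool.Agent.MP_b525bf_ag_TS
open scoped Classical

variable {k K G : Type} [Field k] [Field K] [Algebra k K] [Group G]
  {φ : G →* (K ≃ₐ[k] K)} {R : Subalgebra k K} {x y : K} {Dx Dy : Derivation k K K}

namespace SigTrans

/-- `g x / x` belongs to the local rings of the points of the exceptional curve. -/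
theorem div_mem (h : Reg R x y Dx Dy) {g : G} (hg : tr φ g R = R) {R' : Subalgebra k K} {c : k}
    (hQ : QT R R' x y c) : φ g x / x ∈ R' := by
  have hx0 : x ≠ 0 := h.x_ne
  obtain ⟨u, hu, v, hv, e⟩ := reg_fix_sub h hg h.hx
  have e1 : φ g x / x = 1 + u + y / x * v := by
    field_simp
    rw [sub_eq_iff_eq_add] at e
    rw [e]
    ring
  rw [e1]
  exact R'.add_mem (R'.add_mem R'.one_mem (hQ.le hu)) (R'.mul_mem hQ.div_mem (hQ.le hv))

/-- `g x / x` is a unit. -/
theorem unit [Finite G] (h : Reg R x y Dx Dy) {g : G} (hg : tr φ g R = R)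
    {R' : Subalgebra k K} {c : k} (hQ : QT R R' x y c) (hg' : tr φ g R' = R') :
    UnitIn R' (φ g x / x) := unit_of_fix hg' h.x_ne (div_mem h hg hQ)

/-- `x / g x` is a unit. -/
theorem unit' [Finite G] (h : Reg R x y Dx Dy) {g : G} (hg : tr φ g R = R)
    {R' : Subalgebra k K} {c : k} (hQ : QT R R' x y c) (hg' : tr φ g R' = R') :
    UnitIn R' (x / φ g x) := by
  obtain ⟨h1, h2, h3⟩ := unit h hg hQ hg'
  have e : x / φ g x = (φ g x / x)⁻¹ := (inv_div _ _).symm
  rw [e]
  exact ⟨inv_ne_zero h1, h3, by rw [inv_inv]; exact h2⟩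

/-- `y / x` is a unit at the points `y / x = c`, `c ≠ 0`. -/
theorem unit_q (h : Reg R x y Dx Dy) {R' : Subalgebra k K} {c : k} (hQ : QT R R' x y c)
    (hc : c ≠ 0) : UnitIn R' (y / x) := by
  refine ⟨div_ne_zero h.symm.x_ne h.x_ne, hQ.div_mem, ?_⟩
  obtain ⟨χ, _, hχ, rfl⟩ := hQ
  have h1 : χ ⟨y / x, div_mem_qt⟩ ≠ 0 := by rw [hχ]; exact hc
  exact Qtl.inv_mem_ptLoc h1

/-- The formula for the quotient. -/
theorem formula (h : Reg R x y Dx Dy) (g : G) (c : k) :
    φ g (y / x - algebraMap k K c) - (y / x - algebraMap k K c) =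
      x / φ g x * ((φ g y - y) / x - y / x * ((φ g x - x) / x)) := by
  have hx0 : x ≠ 0 := h.x_ne
  have hgx : φ g x ≠ 0 := fun e => hx0 ((map_eq_zero _).1 e)
  rw [map_sub, AlgEquiv.commutes, map_div₀]
  field_simp
  ring

end SigTrans

open SigTrans

/-- The side condition at the points of the exceptional curve. -/
theorem sigA_qt [Finite G] (h : Reg R x y Dx Dy) {g : G} (hg : tr φ g R = R) {s t : Bool}
    (hA : sigA φ g R x y Dx Dy s t) {R' : Subalgebra k K} {c : k} (hQ : QT R R' x y c)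
    (hg' : tr φ g R' = R') : UnitIn R' (φ g x / x) ∧
      sigA φ g R' x (y / x - algebraMap k K c) (Dx + (y / x) • Dy) (x • Dy) true
        (t && decide (c = 0)) := by
  refine ⟨unit h hg hQ hg', fun _ => div_mem h hg hQ, fun ht => ?_⟩
  rw [Bool.and_eq_true, decide_eq_true_iff] at ht
  obtain ⟨ht, rfl⟩ := ht
  have h1 := hQ.le (hA.2 ht)
  have h2 := (unit' h hg hQ hg').2.1
  have hx0 : x ≠ 0 := h.x_ne
  have hy0 : y ≠ 0 := h.symm.x_ne
  have hgx : φ g x ≠ 0 := fun e => hx0 ((map_eq_zero _).1 e)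
  have e : φ g (y / x - algebraMap k K 0) / (y / x - algebraMap k K 0) =
      φ g y / y * (x / φ g x) := by
    rw [map_zero, sub_zero, map_div₀]
    field_simp
  rw [e]
  exact R'.mul_mem h1 h2

/-- The coefficients `A'`, `B'` at the point `y / x = c` of the exceptional curve: `A' = A / x` or
`A`, and `B' = u (B'' - v A')` with `B'' = B / x` or `B` and units `u` (and `w`) of `R'`. -/
theorem sigL_qt [Finite G] (h : Reg R x y Dx Dy) {g : G} (hg : tr φ g R = R) {s t : Bool}
    (hA : sigA φ g R x y Dx Dy s t) {R' : Subalgebra k K} {c : k} (hQ : QT R R' x y c)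
    (hg' : tr φ g R' = R') :
    (φ g x - x) / x = (φ g x - x) / (if s then x else 1) / (if s then 1 else x) ∧
    ∃ u v : K, UnitIn R' u ∧ v ∈ R' ∧
      (φ g (y / x - algebraMap k K c) - (y / x - algebraMap k K c)) /
        (if (t && decide (c = 0)) = true then y / x - algebraMap k K c else 1) =
      u * ((φ g y - y) / (if t then y else 1) / (if t then 1 else x) - v * ((φ g x - x) / x)) := by
  have hx0 : x ≠ 0 := h.x_ne
  have hy0 : y ≠ 0 := h.symm.x_ne
  have hgx : φ g x ≠ 0 := fun e => hx0 ((map_eq_zero _).1 e)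
  refine ⟨by cases s <;> simp, ?_⟩
  have hu := unit' h hg hQ hg'
  rw [formula h g c]
  cases t with
  | false => exact ⟨x / φ g x, y / x, hu, hQ.div_mem, by simp⟩
  | true =>
    by_cases hc : c = 0
    · subst hc
      refine ⟨x / φ g x, 1, hu, R'.one_mem, ?_⟩
      simp only [Bool.true_and, decide_true, if_true, map_zero, sub_zero, div_one, one_mul]
      field_simp
    · have hq := unit_q h hQ hc
      refine ⟨x / φ g x * (y / x), 1, ⟨mul_ne_zero hu.1 hq.1, R'.mul_mem hu.2.1 hq.2.1, ?_⟩,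
        R'.one_mem, ?_⟩
      · rw [mul_inv]
        exact R'.mul_mem hu.2.2 hq.2.2
      · simp only [Bool.true_and, hc, decide_false, Bool.false_eq_true, if_false, if_true, div_one,
          one_mul]
        field_simp

end Pool.Agent.MP_b525bf_ag_S
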