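import Pool.Agent.Lib.MP_b525bf_ag_S.SigLin
import Pool.Agent.Lib.MP_b525bf_ag_S.SigTrans
import Pool.Agent.Lib.MP_b525bf_ag_TS.Drop

/-!
# S6: the elements of order `p` satisfy the axiom on blowing up
-/

set_option autoImplicit false

namespace Pool.Agent.MP_b525bf_ag_S

open Pool.Agent.MP_b525bf_ag_TS

variable {k K G : Type} [Field k] [Field K] [Algebra k K] [Group G]
  {φ : G →* (K ≃ₐ[k] K)}

namespace SigDrop

open Drop
open scoped Classical

variable {R : Subalgebra k K} {x y : K} {Dx Dy : Derivation k K K} {g : G} {s t : Bool} {γ : K}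

/-! ### Symmetry -/

theorem sigL_symm (φ : G →* (K ≃ₐ[k] K)) (g : G) (R : Subalgebra k K) (x y : K)
    (Dx Dy : Derivation k K K) (s t : Bool) :
    sigL φ g R y x Dy Dx t s = sigL φ g R x y Dx Dy s t := Set.pair_comm _ _

theorem sigA_symm (h : sigA φ g R x y Dx Dy s t) : sigA φ g R y x Dy Dx t s := ⟨h.2, h.1⟩

theorem JL_symm (φ : G →* (K ≃ₐ[k] K)) (g : G) (R : Subalgebra k K) (x y : K)
    (Dx Dy : Derivation k K K) (s t : Bool) (γ : K) :
    JL (sigL φ g) R y x Dy Dx t s γ = JL (sigL φ g) R x y Dx Dy s t γ := by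
  unfold JL
  rw [sigL_symm]

theorem invL_symm (φ : G →* (K ≃ₐ[k] K)) (g : G) (R : Subalgebra k K) (x y : K)
    (Dx Dy : Derivation k K K) (s t : Bool) (γ : K) :
    invL (sigL φ g) R y x Dy Dx t s γ = invL (sigL φ g) R x y Dx Dy s t γ := by
  unfold invL
  rw [JL_symm]
  congr 1
  cases s <;> cases t <;> rfl

theorem adL_symm (h : AdL (sigL φ g) R x y Dx Dy s t γ) : AdL (sigL φ g) R y x Dy Dx t s γ := by
  refine ⟨h.ne, ?_, ?_⟩
  · rw [sigL_symm]; exact h.mem
  · rw [JL_symm]; exact h.fin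

theorem mon_symm (h : Mon R x y s t γ) : Mon R y x t s γ := by
  obtain ⟨m, n, h1, h2, h3⟩ := h
  exact ⟨n, m, by rwa [mul_comm (y ^ n)], h3, h2⟩

/-! ### The ideals -/

theorem JL_eq (ha : (φ g x - x) / (if s then x else 1) / γ ∈ R)
    (hb : (φ g y - y) / (if t then y else 1) / γ ∈ R) :
    JL (sigL φ g) R x y Dx Dy s t γ = JW (0 : R) ⟨_, ha⟩ ⟨_, hb⟩ := by
  unfold JL JW
  rw [Ideal.span_singleton_eq_bot.2 rfl, bot_sup_eq, ← Ideal.span_union]
  congr 1
  ext z
  simp only [sigL, Set.mem_ofPred_eq, Set.mem_insert_iff, Set.mem_singleton_iff, Set.mem_union,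
    Subtype.ext_iff, exists_eq_or_imp, exists_eq_left]

theorem not_unit_le (h : Reg R x y Dx Dy) {J : Ideal R} (hJ : J ≠ ⊤) : J ≤ mId R x y := by
  intro z hz
  by_contra hcon
  obtain ⟨h3, -, h4⟩ := h.unitIn.1 hcon
  apply hJ
  rw [Ideal.eq_top_iff_one]
  have h5 := Ideal.mul_mem_left _ ⟨_, h4⟩ hz
  have e : (⟨_, h4⟩ : R) * z = 1 := Subtype.ext (inv_mul_cancel₀ h3)
  rwa [e] at h5

theorem sq_dec (h : Reg R x y Dx Dy) {q : R} (hq : q ∈ mId R x y ^ 2) :
    ∃ u v : R, (q : K) = x * u + y * v ∧ u ∈ mId R x y ∧ v ∈ mId R x y := by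
  obtain ⟨u, v, hq'⟩ := (Drop.mem_mId_iff h).1 (Ideal.pow_le_self two_ne_zero hq)
  obtain ⟨h1, h2⟩ := Loc2.D_mem h hq
  exact ⟨u, v, hq', left_mem h hq' h1, right_mem h hq' h2⟩

theorem sq_of_linear_zero {b : R} {α : k} {q : R} (hα : α = 0)
    (hb : (b : K) = algebraMap k K α * x + q) (hq : q ∈ mId R x y ^ 2) : b ∈ mId R x y ^ 2 := by
  have e : b = q := Subtype.ext (by rw [hb, hα, map_zero, zero_mul, zero_add])
  rw [e]
  exact hq

/-- The exponents: cancellation. -/
theorem zpow_aux (hx : x ≠ 0) (μ : ℕ) : x ^ ((μ : ℤ) - 1) * x = x ^ μ := by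
  rw [zpow_sub_one₀ hx, zpow_natCast, mul_assoc, inv_mul_cancel₀ hx, mul_one]

theorem aux_a (hx : x ≠ 0) (hγ : γ ≠ 0) (μ : ℕ) (s t : Bool) {δ A : K}
    (hδ : δ = x ^ ((μ : ℤ) - if (s && t) = true then 0 else 1)) :
    A / (if s then 1 else x) / (γ * δ) =
      (if (s && !t) = true then x * (A / γ) else A / γ) / x ^ μ := by
  have hz := zpow_aux hx μ
  subst hδ
  cases s <;> cases t
  · simp only [Bool.false_and, Bool.false_eq_true, if_false]
    rw [← hz]
    field_simp
  · simp only [Bool.false_and, Bool.false_eq_true, if_false]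
    rw [← hz]
    field_simp
  · simp only [Bool.and_false, Bool.false_eq_true, if_false, if_true, Bool.not_false,
      Bool.and_self]
    rw [← hz]
    field_simp
  · simp only [Bool.and_self, if_true, Bool.not_true, Bool.and_false, Bool.false_eq_true,
      if_false, sub_zero, zpow_natCast]
    field_simp

theorem aux_b (hx : x ≠ 0) (hγ : γ ≠ 0) (μ : ℕ) (s t : Bool) {δ B : K}
    (hδ : δ = x ^ ((μ : ℤ) - if (s && t) = true then 0 else 1)) :
    B / (if t then 1 else x) / (γ * δ) =
      (if (t && !s) = true then x * (B / γ) else B / γ) / x ^ μ :=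
  aux_a hx hγ μ t s (by rw [hδ, Bool.and_comm])

theorem bool1 : ∀ s t : Bool, ¬ (s && !t) = true → (t || !s) = true := by decide

theorem bool2 : ∀ s t : Bool, (t || !s) = true → ¬ (s && !t) = true := by decide

theorem bool3 : ∀ s t : Bool, (t || !s) = false → (s && !t) = true := by decide

/-- The axiom for one chart. -/
theorem half [Finite G] (p : ℕ) [Fact p.Prime] [CharP k p] (hgp : g ^ p = 1)
    (h : Reg R x y Dx Dy) (hg : tr φ g R = R) (hadm : sigA φ g R x y Dx Dy s t)
    (hMon : Mon R x y s t γ) (hA : AdL (sigL φ g) R x y Dx Dy s t γ)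
    (haR : (φ g x - x) / (if s then x else 1) / γ ∈ R)
    (hbR : (φ g y - y) / (if t then y else 1) / γ ∈ R) {μ : ℕ}
    (h1 : JP R x y (t || !s) (s || !t) 0 ⟨_, haR⟩ ⟨_, hbR⟩ ≤ mId R x y ^ μ)
    (h2 : ¬ JP R x y (t || !s) (s || !t) 0 ⟨_, haR⟩ ⟨_, hbR⟩ ≤ mId R x y ^ (μ + 1))
    {R' : Subalgebra k K} {c : k} (hQ : QT R R' x y c) (hg' : tr φ g R' = R') :
    Stp (sigL φ g) (sigA φ g) R' x (y / x - algebraMap k K c) (Dx + (y / x) • Dy) (x • Dy) true
      (t && decide (c = 0)) (γ * x ^ ((μ : ℤ) - if (s && t) = true then 0 else 1))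
      (JL (sigL φ g) R x y Dx Dy s t γ = ⊤) (invL (sigL φ g) R x y Dx Dy s t γ) := by
  have hx0 := h.x_ne
  have hγ := hA.ne
  have hle : R ≤ R' := hQ.le
  have hyx : y / x ∈ R' := hQ.div_mem
  have hxμ : x ^ μ ≠ 0 := pow_ne_zero _ hx0
  obtain ⟨χ, hχ, hinv⟩ := exists_char h hQ
  obtain ⟨-, hadm'⟩ := sigA_qt h hg hadm hQ hg'
  obtain ⟨eA, u, v, hu, hv, eB⟩ := sigL_qt h hg hadm hQ hg'
  set a : R := ⟨_, haR⟩ with ha
  set b : R := ⟨_, hbR⟩ with hb
  have hav : (a : K) = (φ g x - x) / (if s then x else 1) / γ := rfl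
  have hbv : (b : K) = (φ g y - y) / (if t then y else 1) / γ := rfl
  set δ : K := x ^ ((μ : ℤ) - if (s && t) = true then 0 else 1) with hδ
  have hδ0 : δ ≠ 0 := zpow_ne_zero _ hx0
  set X : R := ⟨x, h.hx⟩ with hX
  set Y : R := ⟨y, h.hy⟩ with hY
  have hXv : (X : K) = x := rfl
  set a1 : R := if (s && !t) = true then X * a else a with ha1
  set b1 : R := if (t && !s) = true then X * b else b with hb1
  have ea : (φ g x - x) / x / (γ * δ) = (a1 : K) / x ^ μ := by
    rw [eA, aux_a hx0 hγ μ s t hδ, ha1]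
    by_cases h3 : (s && !t) = true
    · rw [if_pos h3, if_pos h3]
      rfl
    · rw [if_neg h3, if_neg h3]
  have eb : (φ g y - y) / (if t then y else 1) / (if t then 1 else x) / (γ * δ) =
      (b1 : K) / x ^ μ := by
    rw [aux_b hx0 hγ μ s t hδ, hb1]
    by_cases h3 : (t && !s) = true
    · rw [if_pos h3, if_pos h3]
      rfl
    · rw [if_neg h3, if_neg h3]
  -- membership
  have ha1m : a1 ∈ JP R x y (t || !s) (s || !t) 0 a b := by
    rw [ha1]
    split_ifs with h3
    · exact mA_mem _ _ _ _ _ (Drop.x_mem h)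
    · rw [bool1 s t h3]
      exact A_mem x y _ _ _ _
  have hb1m : b1 ∈ JP R x y (t || !s) (s || !t) 0 a b := by
    rw [hb1]
    split_ifs with h3
    · exact mB_mem _ _ _ _ _ (Drop.x_mem h)
    · rw [bool1 t s h3]
      exact B_mem x y _ _ _ _
  have qa : (a1 : K) / x ^ μ ∈ R' := hQ.div_pow_mem h (h1 ha1m)
  have qb : (b1 : K) / x ^ μ ∈ R' := hQ.div_pow_mem h (h1 hb1m)
  set t' : Bool := t && decide (c = 0) with ht'
  set y' : K := y / x - algebraMap k K c with hy'
  obtain ⟨hu0, huR, hui⟩ := hu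
  have eB' : (φ g y' - y') / (if t' = true then y' else 1) / (γ * δ) =
      u * ((b1 : K) / x ^ μ - v * ((a1 : K) / x ^ μ)) := by
    rw [eB, ← ea, ← eb]
    ring
  have qB' : (φ g y' - y') / (if t' = true then y' else 1) / (γ * δ) ∈ R' := by
    rw [eB']
    exact R'.mul_mem huR (R'.sub_mem qb (R'.mul_mem hv qa))
  have eA' : (φ g x - x) / (if (true : Bool) = true then x else 1) / (γ * δ) =
      (a1 : K) / x ^ μ := by
    rw [if_pos rfl]
    exact ea
  set J' := JL (sigL φ g) R' x y' (Dx + (y / x) • Dy) (x • Dy) true t' (γ * δ) with hJ'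
  have p1 : PJ J' ((a1 : K) / x ^ μ) :=
    ⟨qa, Ideal.subset_span ⟨_, Or.inl rfl, eA'.symm⟩⟩
  have p2 : PJ J' (u * ((b1 : K) / x ^ μ - v * ((a1 : K) / x ^ μ))) := by
    rw [← eB']
    exact ⟨qB', Ideal.subset_span ⟨_, Or.inr rfl, rfl⟩⟩
  have p3 : PJ J' ((b1 : K) / x ^ μ) := by
    have h3 := (PJ.mul hui p2).add (PJ.mul hv p1)
    convert h3 using 1
    field_simp
    ring
  have hJQ : JP R x y (t || !s) (s || !t) 0 a b ≤ JQ hle x μ J' := by
    refine JP_le h (Ideal.zero_mem _) ?_ ?_ ?_ ?_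
    · intro h3
      rw [ha1, if_neg (bool2 s t h3)] at p1
      exact p1
    · intro h3
      rw [ha1, if_pos (bool3 s t h3)] at p1
      refine ⟨p1, ?_⟩
      have h5 := PJ.mul hyx p1
      change PJ J' (((Y * a : R) : K) / x ^ μ)
      convert h5 using 1
      push_cast
      rw [hX, hY]
      field_simp
    · intro h3
      rw [hb1, if_neg (bool2 t s h3)] at p3
      exact p3
    · intro h3
      rw [hb1, if_pos (bool3 t s h3)] at p3
      refine ⟨p3, ?_⟩
      have h5 := PJ.mul hyx p3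
      change PJ J' (((Y * b : R) : K) / x ^ μ)
      convert h5 using 1
      push_cast
      rw [hX, hY]
      field_simp
  -- lengths
  have hJL := JL_eq (Dx := Dx) (Dy := Dy) haR hbR
  have hfd : FiniteDimensional k (R ⧸ JW (0 : R) a b) := by
    rw [← hJL]
    exact hA.fin
  obtain ⟨hfd2, hlen⟩ := JP_fin h (t || !s) (s || !t) (0 : R) a b hfd
  obtain ⟨hfd3, hlen2⟩ := h.finrank_transform hQ _ h1 h2 J' (fun z hz => hJQ hz)
  refine ⟨hadm', ⟨mul_ne_zero hγ hδ0, ?_, hfd3⟩, ?_⟩
  · rintro l (rfl | hl)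
    · rw [eA']; exact qa
    · rw [Set.mem_singleton_iff] at hl
      subst hl
      exact qB'
  -- a unit
  have top0 : μ = 0 → J' = ⊤ := by
    rintro rfl
    obtain ⟨z, hz, hz1⟩ := Set.not_subset.1 h2
    rw [zero_add, pow_one] at hz1
    obtain ⟨h3, -, h4⟩ := h.unitIn.1 hz1
    have h5 : PJ J' ((z : K) / x ^ 0) := hJQ hz
    rw [pow_zero, div_one] at h5
    exact PJ.top h3 h5 (hle h4)
  have top : μ = 1 → (∃ z ∈ JP R x y (t || !s) (s || !t) 0 a b, ∃ u v : R,
      (z : K) = x * u + y * v ∧ χ u + c * χ v ≠ 0) → J' = ⊤ := by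
    rintro rfl ⟨z, hz, u, v, hzz, huv⟩
    have h3 : PJ J' ((z : K) / x ^ 1) := hJQ hz
    have e : (z : K) / x ^ 1 = u + y / x * v := by
      rw [hzz]
      field_simp
    rw [e] at h3
    exact PJ.top (hinv u v huv).1 h3 (hinv u v huv).2
  by_cases hcl : JL (sigL φ g) R x y Dx Dy s t γ = ⊤
  · -- clean
    left
    by_cases hμ0 : μ = 0
    · exact top0 hμ0
    have hab : a ∉ mId R x y ∨ b ∉ mId R x y := by
      by_contra hcon
      push Not at hcon
      rw [hJL] at hcl
      have h3 : JW (0 : R) a b ≤ mId R x y := by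
        unfold JW
        refine sup_le (sup_le ?_ ?_) ?_
        · rw [Ideal.span_singleton_le_iff_mem]; exact Ideal.zero_mem _
        · rw [Ideal.span_singleton_le_iff_mem]; exact hcon.1
        · rw [Ideal.span_singleton_le_iff_mem]; exact hcon.2
      rw [hcl] at h3
      exact Loc2.one_notMem h (h3 trivial)
    -- a multiple of `x` by a unit
    have key : ∃ w : R, w ∉ mId R x y ∧ (w ∈ JP R x y (t || !s) (s || !t) 0 a b ∨
        X * w ∈ JP R x y (t || !s) (s || !t) 0 a b) := by
      rcases hab with h3 | h3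
      · refine ⟨a, h3, Or.inr (mA_mem _ _ _ _ _ (Drop.x_mem h))⟩
      · refine ⟨b, h3, Or.inr (mB_mem _ _ _ _ _ (Drop.x_mem h))⟩
    obtain ⟨w, hw, hw2⟩ := key
    have hXw : X * w ∈ JP R x y (t || !s) (s || !t) 0 a b := by
      rcases hw2 with h3 | h3
      · exact Ideal.mul_mem_left _ _ h3
      · exact h3
    have hμ1 : μ = 1 := by
      by_contra hne
      have h3 : 2 ≤ μ := by omega
      have h4 : X * w ∈ mId R x y ^ 2 := Ideal.pow_le_pow_right h3 (h1 hXw)
      obtain ⟨h5, -⟩ := Loc2.D_mem h h4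
      have h6 : ((X * w : R) : K) = x * w + y * (0 : R) := by
        push_cast
        rw [hX]
        ring
      exact hw (left_mem h h6 h5)
    refine top hμ1 ⟨_, hXw, w, 0, ?_, ?_⟩
    · push_cast
      rw [hX]
      ring
    · rw [map_zero, mul_zero, add_zero]
      exact fun h7 => hw ((hχ w).2 h7)
  · -- not clean
    have hJle : JW (0 : R) a b ≤ mId R x y := by
      rw [← hJL]
      exact not_unit_le h hcl
    have ham : a ∈ mId R x y := hJle (Submodule.mem_sup_left (Submodule.mem_sup_right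
      (Ideal.mem_span_singleton_self _)))
    have hbm : b ∈ mId R x y := hJle (Submodule.mem_sup_right (Ideal.mem_span_singleton_self _))
    have hμ : 1 ≤ μ := by
      by_contra h3
      have h4 : μ = 0 := by omega
      subst h4
      apply h2
      rw [zero_add, pow_one]
      exact (JP_le_JW x y _ _ _ a b).trans hJle
    have hm1 := h.one_le_finrank hμ
    have hm3 : 2 ≤ μ → 3 ≤ Module.finrank k (R ⧸ mId R x y ^ μ) := fun h3 =>
      h.three_le_finrank h3
    have einv : invL (sigL φ g) R x y Dx Dy s t γ =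
        2 * Module.finrank k (R ⧸ JW (0 : R) a b) + if s = t then 0 else 1 := by
      unfold invL
      rw [hJL]
    have einv' : invL (sigL φ g) R' x y' (Dx + (y / x) • Dy) (x • Dy) true t' (γ * δ) =
        2 * Module.finrank k (R' ⧸ J') + if true = t' then 0 else 1 := rfl
    have hone : (if true = t' then 0 else 1) ≤ 1 := by split_ifs <;> omega
    rw [einv, einv']
    cases s <;> cases t
    · right
      refine ⟨hcl, ?_⟩
      simp only [Bool.not_false, Bool.or_true, if_true] at hlen ⊢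
      omega
    · by_cases hμ2 : 2 ≤ μ
      · right
        refine ⟨hcl, ?_⟩
        have h5 := hm3 hμ2
        simp only [Bool.not_false, Bool.or_true, Bool.not_true, Bool.or_false, if_true,
          Bool.false_eq_true, if_false] at hlen ⊢
        omega
      · have h4 : μ = 1 := by omega
        by_cases hc : c = 0
        · right
          refine ⟨hcl, ?_⟩
          have h6 : t' = true := by rw [ht', hc]; simp
          rw [h6]
          simp only [Bool.not_false, Bool.or_true, Bool.not_true, Bool.or_false, if_true,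
            Bool.false_eq_true, if_false] at hlen ⊢
          omega
        · left
          refine top h4 ?_
          subst h4
          simp only [Bool.not_false, Bool.or_true, Bool.not_true, Bool.or_false] at h2 ⊢
          have ham2 := (Drop.mem_mId_iff h.symm).1 (by rw [mId_symm]; exact ham)
          have hbm2 := (Drop.mem_mId_iff h.symm).1 (by rw [mId_symm]; exact hbm)
          obtain ⟨u1, v1, e1⟩ := ham2
          obtain ⟨u2, v2, e2⟩ := hbm2
          have hy0 := h.symm.x_ne
          obtain ⟨α, q, hq, hαq⟩ := sig_linear p h.symm hg hgp hγ (mon_symm hMon)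
            (a := (b : K)) (b := (a : K))
            (by rw [hbv, if_pos rfl]; field_simp)
            (by rw [hav]; simp only [Bool.false_eq_true, if_false]; field_simp)
            ⟨u2, u2.2, v2, v2.2, e2⟩ ⟨u1, u1.2, v1, v1.2, e1⟩
          rw [mId_symm] at hq
          have hα : α ≠ 0 := by
            intro h0
            apply h2
            have h7 : a ∈ mId R x y ^ (1 + 1) := by
              have e : a = q := Subtype.ext (by rw [hαq, h0, map_zero, zero_mul, zero_add])
              rw [e]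
              exact hq
            refine JP_le h (Ideal.zero_mem _) (fun _ => h7) (fun h8 => ?_) (fun h8 => ?_)
              (fun _ => ⟨?_, ?_⟩)
            · exact Bool.noConfusion h8
            · exact Bool.noConfusion h8
            · rw [pow_succ, pow_one]
              exact Ideal.mul_mem_mul (Drop.x_mem h) hbm
            · rw [pow_succ, pow_one]
              exact Ideal.mul_mem_mul (Drop.y_mem h) hbm
          obtain ⟨q1, q2, hqq, hq1, hq2⟩ := sq_dec h hq
          refine ⟨a, A_mem x y _ _ _ _, q1, algebraMap k R α + q2, ?_, ?_⟩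
          · rw [hαq, hqq]
            push_cast
            change _ = x * (q1 : K) + y * (algebraMap k K α + q2)
            ring
          · rw [map_add, (hχ q1).1 hq1, (hχ q2).1 hq2, AlgHom.commutes, add_zero, zero_add]
            exact mul_ne_zero hc hα
    · by_cases hμ2 : 2 ≤ μ
      · right
        refine ⟨hcl, ?_⟩
        have h5 := hm3 hμ2
        simp only [Bool.not_false, Bool.or_true, Bool.not_true, Bool.or_false, if_true,
          Bool.false_eq_true, if_false] at hlen ⊢
        omega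
      · have h4 : μ = 1 := by omega
        left
        refine top h4 ?_
        subst h4
        simp only [Bool.not_false, Bool.or_true, Bool.not_true, Bool.or_false] at h2 ⊢
        obtain ⟨u1, v1, e1⟩ := (Drop.mem_mId_iff h).1 ham
        obtain ⟨u2, v2, e2⟩ := (Drop.mem_mId_iff h).1 hbm
        obtain ⟨α, q, hq, hαq⟩ := sig_linear p h hg hgp hγ hMon
          (a := (a : K)) (b := (b : K))
          (by rw [hav, if_pos rfl]; field_simp)
          (by rw [hbv]; simp only [Bool.false_eq_true, if_false]; field_simp)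
          ⟨u1, u1.2, v1, v1.2, e1⟩ ⟨u2, u2.2, v2, v2.2, e2⟩
        have hα : α ≠ 0 := by
          intro h0
          apply h2
          have h7 : b ∈ mId R x y ^ (1 + 1) := by
            have e : b = q := Subtype.ext (by rw [hαq, h0, map_zero, zero_mul, zero_add])
            rw [e]
            exact hq
          refine JP_le h (Ideal.zero_mem _) (fun h8 => ?_) (fun _ => ⟨?_, ?_⟩) (fun _ => h7)
            (fun h8 => ?_)
          · exact Bool.noConfusion h8
          · rw [pow_succ, pow_one]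
            exact Ideal.mul_mem_mul (Drop.x_mem h) ham
          · rw [pow_succ, pow_one]
            exact Ideal.mul_mem_mul (Drop.y_mem h) ham
          · exact Bool.noConfusion h8
        obtain ⟨q1, q2, hqq, hq1, hq2⟩ := sq_dec h hq
        refine ⟨b, B_mem x y _ _ _ _, algebraMap k R α + q1, q2, ?_, ?_⟩
        · rw [hαq, hqq]
          push_cast
          change _ = x * (algebraMap k K α + q1) + y * (q2 : K)
          ring
        · rw [map_add, (hχ q1).1 hq1, (hχ q2).1 hq2, AlgHom.commutes, add_zero, mul_zero, add_zero]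
          exact hα
    · right
      refine ⟨hcl, ?_⟩
      simp only [Bool.not_true, Bool.or_false, if_true] at hlen ⊢
      omega

end SigDrop

open SigDrop Drop

theorem sig_drop [Finite G] (p : ℕ) [Fact p.Prime] [CharP k p] {g : G} (hgp : g ^ p = 1) :
    LDrop φ (sigL φ g) {g} (sigA φ g) := by
  intro R x y Dx Dy s t γ h hH hadm hMon hA
  have hg : tr φ g R = R := hH g rfl
  have haR : (φ g x - x) / (if s then x else 1) / γ ∈ R := hA.mem _ (Or.inl rfl)
  have hbR : (φ g y - y) / (if t then y else 1) / γ ∈ R := hA.mem _ (Or.inr rfl)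
  have hfd : FiniteDimensional k (R ⧸ JW (0 : R) ⟨_, haR⟩ ⟨_, hbR⟩) := by
    rw [← JL_eq (Dx := Dx) (Dy := Dy) haR hbR]
    exact hA.fin
  obtain ⟨hfd2, -⟩ := JP_fin h (t || !s) (s || !t) (0 : R) ⟨_, haR⟩ ⟨_, hbR⟩ hfd
  obtain ⟨μ, h1, h2⟩ := h.exists_order (JP R x y (t || !s) (s || !t) 0 ⟨_, haR⟩ ⟨_, hbR⟩)
  refine ⟨(μ : ℤ) - (if (s && t) = true then 0 else 1), fun R' c hQ hg' =>
    half p hgp h hg hadm hMon hA haR hbR h1 h2 hQ (hg' g rfl), fun R' hQ hg' => ?_⟩
  have h1' : JP R y x (s || !t) (t || !s) 0 ⟨_, hbR⟩ ⟨_, haR⟩ ≤ mId R y x ^ μ := by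
    rw [JP_symm, mId_symm]
    exact h1
  have h2' : ¬ JP R y x (s || !t) (t || !s) 0 ⟨_, hbR⟩ ⟨_, haR⟩ ≤ mId R y x ^ (μ + 1) := by
    rw [JP_symm, mId_symm]
    exact h2
  have key := half p hgp h.symm hg (sigA_symm hadm) (mon_symm hMon) (adL_symm hA) hbR haR h1' h2'
    hQ (hg' g rfl)
  simp only [map_zero, sub_zero, decide_true, Bool.and_true] at key
  rw [JL_symm, invL_symm, Bool.and_comm] at key
  obtain ⟨k1, k2, k3⟩ := key
  refine ⟨sigA_symm k1, adL_symm k2, ?_⟩
  rw [JL_symm, invL_symm] at k3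
  exact k3

end Pool.Agent.MP_b525bf_ag_S
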