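import Pool.Agent.Lib.MP_b525bf_ag_S.Sigma
import Pool.Agent.Lib.MP_b525bf_ag_TS.FinBad

/-!
# S6d: the elements of order `p` satisfy the axiom on neighbourhoods
-/

set_option autoImplicit false

namespace Pool.Agent.MP_b525bf_ag_S

open Pool.Agent.MP_b525bf_ag_TS

variable {k K G : Type} [Field k] [Field K] [Algebra k K] [Group G]
  {φ : G →* (K ≃ₐ[k] K)}

/-- The coefficient at a nearby point. -/
private theorem num_near {R' : Subalgebra k K} {x : K} (s : Bool) {a : k} [Decidable (a = 0)]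
    (g : G) (hx : a ≠ 0 → UnitIn R' x) : ∃ ε, UnitIn R' ε ∧
      (φ g (x - algebraMap k K a) - (x - algebraMap k K a)) /
        (if (s && decide (a = 0)) = true then x - algebraMap k K a else 1) =
      (φ g x - x) / (if s = true then x else 1) * ε := by
  have h0 : φ g (x - algebraMap k K a) - (x - algebraMap k K a) = φ g x - x := by
    rw [map_sub, AlgEquiv.commutes]; ring
  rw [h0]
  by_cases ha : a = 0
  · refine ⟨1, UnitIn.one R', ?_⟩
    have h1 : decide (a = 0) = true := by simp [ha]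
    have h2 : algebraMap k K a = 0 := by rw [ha, map_zero]
    rw [h1, h2, Bool.and_true, sub_zero, mul_one]
  · have h1 : decide (a = 0) = false := by simp [ha]
    rw [h1, Bool.and_false, if_neg (by simp), div_one]
    cases s with
    | false =>
      refine ⟨1, UnitIn.one R', ?_⟩
      rw [if_neg (by simp), div_one, mul_one]
    | true =>
      refine ⟨x, hx ha, ?_⟩
      rw [if_pos rfl, div_mul_cancel₀ _ (hx ha).1]

/-- Membership in the ideal of the coefficients. -/
private theorem mem_JLsig {g : G} {R : Subalgebra k K} {x y : K} {Dx Dy : Derivation k K K}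
    {s t : Bool} {γ : K} (hA : AdL (sigL φ g) R x y Dx Dy s t γ) {z : R}
    (hz : z ∈ JL (sigL φ g) R x y Dx Dy s t γ) :
    ∃ p ∈ R, ∃ q ∈ R, (z : K) = (φ g x - x) / (if s = true then x else 1) / γ * p +
      (φ g y - y) / (if t = true then y else 1) / γ * q := by
  have hset : {z : R | ∃ l ∈ sigL φ g R x y Dx Dy s t, (z : K) = l / γ} =
      {⟨_, hA.mem _ (Or.inl rfl)⟩, ⟨_, hA.mem _ (Or.inr rfl)⟩} := by
    ext z
    simp only [Set.mem_ofPred_eq, Set.mem_insert_iff, Set.mem_singleton_iff]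
    constructor
    · rintro ⟨l, rfl | rfl, h⟩
      · exact Or.inl (Subtype.ext h)
      · exact Or.inr (Subtype.ext h)
    · rintro (h | h)
      · exact ⟨_, Or.inl rfl, congrArg Subtype.val h⟩
      · exact ⟨_, Or.inr rfl, congrArg Subtype.val h⟩
  unfold JL at hz
  rw [hset, Ideal.mem_span_pair] at hz
  obtain ⟨p, q, h⟩ := hz
  refine ⟨p, p.2, q, q.2, ?_⟩
  rw [← h]
  push_cast
  ring

theorem sig_nbhd (B : Subalgebra k K) (g : G) : LNbhd B φ (sigL φ g) {g} (sigA φ g) := by
  classical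
  intro C hBC hC χ x y Dx Dy s t γ hreg hfix hadm hmon hA
  have hfin := hA.fin
  obtain ⟨N, hN⟩ := exists_pow_mem (JL (sigL φ g) (ptLoc C χ) x y Dx Dy s t γ)
    ⟨x, hreg.hx⟩ hreg.isUnit_sub
  obtain ⟨M, hM⟩ := exists_pow_mem (JL (sigL φ g) (ptLoc C χ) x y Dx Dy s t γ)
    ⟨y, hreg.hy⟩ hreg.symm.isUnit_sub
  obtain ⟨p, hpR, q, hqR, hN'⟩ := mem_JLsig hA hN
  obtain ⟨p', hpR', q', hqR', hM'⟩ := mem_JLsig hA hM
  obtain ⟨A, hAe⟩ : ∃ A : K, A = (φ g x - x) / (if s = true then x else 1) / γ := ⟨_, rfl⟩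
  obtain ⟨D, hDe⟩ : ∃ D : K, D = (φ g y - y) / (if t = true then y else 1) / γ := ⟨_, rfl⟩
  have hAR : A ∈ ptLoc C χ := by rw [hAe]; exact hA.mem _ (Or.inl rfl)
  have hDR : D ∈ ptLoc C χ := by rw [hDe]; exact hA.mem _ (Or.inr rfl)
  rw [← hAe, ← hDe] at hN' hM'
  have hN1 : x ^ N = A * p + D * q := hN'
  have hM1 : y ^ M = A * p' + D * q' := hM'
  let S : Set K := {A, D, p, q, p', q', if s = true then φ g x / x else 0,
    if t = true then φ g y / y else 0}
  have hS : S.Finite := by simp [S]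
  have hSR : S ⊆ ptLoc C χ := by
    intro z hz
    simp only [S, Set.mem_insert_iff, Set.mem_singleton_iff] at hz
    rcases hz with rfl | rfl | rfl | rfl | rfl | rfl | rfl | rfl
    · exact hAR
    · exact hDR
    · exact hpR
    · exact hqR
    · exact hpR'
    · exact hqR'
    · split_ifs with hs
      · exact hadm.1 hs
      · exact (ptLoc C χ).zero_mem
    · split_ifs with hs
      · exact hadm.2 hs
      · exact (ptLoc C χ).zero_mem
  obtain ⟨f, hf, hspread⟩ := hreg.spread hC hS hSR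
  refine ⟨f, hf, fun ψ hψ _ a b hab hreg' => ?_⟩
  obtain ⟨hSψ, -⟩ := hspread ψ hψ
  obtain ⟨R', hR'⟩ : ∃ R' : Subalgebra k K, R' = ptLoc C ψ := ⟨_, rfl⟩
  rw [← hR'] at hSψ hreg' ⊢
  have mA : A ∈ R' := hSψ (by simp [S])
  have mD : D ∈ R' := hSψ (by simp [S])
  have mp : p ∈ R' := hSψ (by simp [S])
  have mq : q ∈ R' := hSψ (by simp [S])
  have mp' : p' ∈ R' := hSψ (by simp [S])
  have mq' : q' ∈ R' := hSψ (by simp [S])
  have mx : (if s = true then φ g x / x else 0) ∈ R' := hSψ (by simp [S])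
  have my : (if t = true then φ g y / y else 0) ∈ R' := hSψ (by simp [S])
  have hxu : a ≠ 0 → UnitIn R' x := fun ha => hreg'.unit_of_ne ha
  have hyu : b ≠ 0 → UnitIn R' y := fun hb => hreg'.symm.unit_of_ne hb
  obtain ⟨ε, hε, hεD⟩ := num_near (φ := φ) s g hxu
  obtain ⟨η, hη, hηD⟩ := num_near (φ := φ) t g hyu
  have hA' : (φ g (x - algebraMap k K a) - (x - algebraMap k K a)) /
      (if (s && decide (a = 0)) = true then x - algebraMap k K a else 1) / γ = A * ε := by
    rw [hεD, hAe]; ring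
  have hD' : (φ g (y - algebraMap k K b) - (y - algebraMap k K b)) /
      (if (t && decide (b = 0)) = true then y - algebraMap k K b else 1) / γ = D * η := by
    rw [hηD, hDe]; ring
  have hAm : (φ g (x - algebraMap k K a) - (x - algebraMap k K a)) /
      (if (s && decide (a = 0)) = true then x - algebraMap k K a else 1) / γ ∈ R' := by
    rw [hA']; exact R'.mul_mem mA hε.2.1
  have hDm : (φ g (y - algebraMap k K b) - (y - algebraMap k K b)) /
      (if (t && decide (b = 0)) = true then y - algebraMap k K b else 1) / γ ∈ R' := by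
    rw [hD']; exact R'.mul_mem mD hη.2.1
  have hJtop : JL (sigL φ g) R' (x - algebraMap k K a) (y - algebraMap k K b) Dx Dy
      (s && decide (a = 0)) (t && decide (b = 0)) γ = ⊤ := by
    have hcomb : ∀ (P Q : K), P ∈ R' → Q ∈ R' → UnitIn R' (A * P + D * Q) →
        JL (sigL φ g) R' (x - algebraMap k K a) (y - algebraMap k K b) Dx Dy
          (s && decide (a = 0)) (t && decide (b = 0)) γ = ⊤ := by
      intro P Q hP hQ hU
      let I := JL (sigL φ g) R' (x - algebraMap k K a) (y - algebraMap k K b) Dx Dy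
          (s && decide (a = 0)) (t && decide (b = 0)) γ
      have g1 : (⟨_, hAm⟩ : R') ∈ I := Ideal.subset_span ⟨_, Or.inl rfl, rfl⟩
      have g2 : (⟨_, hDm⟩ : R') ∈ I := Ideal.subset_span ⟨_, Or.inr rfl, rfl⟩
      have g4 := I.add_mem (I.mul_mem_right (⟨ε⁻¹ * P, R'.mul_mem hε.2.2 hP⟩ : R') g1)
        (I.mul_mem_right (⟨η⁻¹ * Q, R'.mul_mem hη.2.2 hQ⟩ : R') g2)
      refine Ideal.eq_top_of_isUnit_mem _ g4 ?_
      refine IsUnit.of_mul_eq_one (⟨_, hU.2.2⟩ : R') ?_
      apply Subtype.ext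
      push_cast
      rw [hA', hD']
      have e1 : A * ε * (ε⁻¹ * P) = A * P := by
        rw [mul_assoc, mul_inv_cancel_left₀ hε.1]
      have e2 : D * η * (η⁻¹ * Q) = D * Q := by
        rw [mul_assoc, mul_inv_cancel_left₀ hη.1]
      rw [e1, e2]
      exact mul_inv_cancel₀ hU.1
    rcases hab with ha | ha
    · refine hcomb p q mp mq ?_
      rw [← hN1]
      have := (hxu ha).zpow (N : ℤ)
      rwa [zpow_natCast] at this
    · refine hcomb p' q' mp' mq' ?_
      rw [← hM1]
      have := (hyu ha).zpow (M : ℤ)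
      rwa [zpow_natCast] at this
  refine ⟨⟨?_, ?_⟩, ⟨hA.ne, ?_, ?_⟩, hJtop⟩
  · intro hs
    rw [Bool.and_eq_true, decide_eq_true_iff] at hs
    rw [if_pos hs.1] at mx
    rw [hs.2, map_zero, sub_zero]
    exact mx
  · intro hs
    rw [Bool.and_eq_true, decide_eq_true_iff] at hs
    rw [if_pos hs.1] at my
    rw [hs.2, map_zero, sub_zero]
    exact my
  · rintro l (rfl | rfl)
    · exact hAm
    · exact hDm
  · rw [hJtop]
    have : Subsingleton (R' ⧸ (⊤ : Ideal R')) := Ideal.Quotient.subsingleton_iff.2 rfl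
    infer_instance

end Pool.Agent.MP_b525bf_ag_S
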