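import Pool.Agent.Lib.MP_b525bf_ag_P.Defs
import Pool.Agent.Lib.MP_b525bf_ag_P.TorGrp
import Pool.Agent.Lib.MP_b525bf_ag_W.Sem

/-!
# S15a: the group conditions at closed points imply the conditions at all points
-/

set_option autoImplicit false

namespace Pool.Agent.MP_b525bf_ag_S

open Pool.Agent.MP_b525bf_ag Pool.Agent.MP_b525bf_ag_W Pool.Agent.MP_b525bf_ag_P
open AddMonoidAlgebra

variable {k K ι G I : Type} [Field k] [Field K] [Algebra k K] [AddCommGroup ι] [Group G]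
  [Finite G]

private theorem spec_atP_mono {M : Fam k K ι} {q q' : Ideal M.alg} [q.IsPrime] [q'.IsPrime]
    (hle : q ≤ q') (d : ι) : (atP M q').s d ≤ (atP M q).s d := by
  rintro y ⟨c, f, hf, hfq, hy⟩
  exact ⟨c, f, hf, fun h => hfq (hle h), hy⟩

private theorem spec_isU_mono {M : Fam k K ι} {q q' : Ideal M.alg} [q.IsPrime] [q'.IsPrime]
    (hle : q ≤ q') {d : ι} {y : K} (h : IsU (atP M q') d y) : IsU (atP M q) d y :=
  ⟨h.1, spec_atP_mono hle _ h.2.1, spec_atP_mono hle _ h.2.2⟩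

/-- The group conditions pass to smaller primes. -/
theorem grpAt_mono {p : ℕ} (hp : p.Prime) {φ : G →* (K ≃ₐ[k] K)} {M : Fam k K ι}
    (hst : ∀ g d x, x ∈ M.s d → φ g x ∈ M.s d) {q q' : Ideal M.alg} [q.IsPrime] [q'.IsPrime]
    (hle : q ≤ q') {L : I → Subgroup G} (hL : ∀ i, (L i).Normal) {η : I → ι}
    (h : GrpAt p φ M q' L η) : GrpAt p φ M q L η := by
  have hEE : inertia φ M q ≤ inertia φ M q' := by
    intro g hg d x hx
    obtain ⟨h1, h2⟩ := hg d x hx
    exact ⟨h1, hle h2⟩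
  refine ⟨?_, ?_, ?_⟩
  · intro i
    rcases h.index i with h1 | h1
    · exact Or.inl (hEE.trans h1)
    · have h2 := relIndex_dvd_of_normal (hL i) hEE
      rw [h1] at h2
      rcases (Nat.dvd_prime hp).1 h2 with h3 | h3
      · exact Or.inl (Subgroup.relIndex_eq_one.1 h3)
      · exact Or.inr h3
  · intro g hg c x hx
    have key : ∀ (b : ι) (y : K), y ∈ M.s b →
        φ g y - y ∈ ⨆ i, ⨆ (_ : g ∉ L i), (atP M q).s (b + η i) := by
      intro b y hy
      have h2 := h.diff g (hEE hg) b y (le_atP _ _ _ hy)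
      have h3 : (⨆ i, ⨆ (_ : g ∉ L i), (atP M q').s (b + η i)) ≤
          ⨆ i, ⨆ (_ : g ∉ L i), (atP M q).s (b + η i) :=
        iSup_mono fun i => iSup_mono fun _ => spec_atP_mono hle _
      exact h3 h2
    obtain ⟨b, f, hf, hfq, hf0, hfx⟩ := exists_frac _ q hx
    obtain ⟨hgf, hgfq⟩ := inertia_el φ _ q hg hf hfq
    have hU : IsU (atP M q) b (φ g f) := (isU_atP_iff _ q hgf).2 hgfq
    have e : φ g x - x = (φ g f)⁻¹ * (φ g (f * x) - f * x) -
        (x * (φ g f)⁻¹) * (φ g f - f) := by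
      have h0 := hU.1
      rw [map_mul]
      field_simp
      ring
    rw [e]
    refine Submodule.sub_mem _ ?_ ?_
    · have h1 := mul_mem_iSup_pieces (atP M q) hU.2.2 (key (b + c) _ hfx)
      rwa [neg_add_cancel_left] at h1
    · have h1 := mul_mem_iSup_pieces (atP M q)
        ((atP M q).mul' hx hU.2.2) (key b _ hf)
      rwa [neg_add_cancel_right] at h1
  · intro i
    obtain ⟨d, y, hy, hfix, hU⟩ := h.good i
    exact ⟨d, y, spec_atP_mono hle _ hy, hfix, fun g hg hgL => spec_isU_mono hle (hU g (hEE hg) hgL)⟩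

/-- Every semistable prime is contained in a semistable maximal ideal. -/
theorem exists_max_semi {M : Fam k K ι} (hM : M.alg.FG) {a : ι} (q : Ideal M.alg) [q.IsPrime]
    (hq : Semi M a q) : ∃ q' : Ideal M.alg, q'.IsMaximal ∧ q ≤ q' ∧ ∀ _ : q'.IsPrime,
      Semi M a q' := by
  obtain ⟨n, hn, x, hx, hxq⟩ := hq
  have hft : Algebra.FiniteType k M.alg := (Subalgebra.fg_iff_finiteType _).1 hM
  have hJ : IsJacobsonRing M.alg := isJacobsonRing_of_finiteType (A := k)
  by_contra hcon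
  push Not at hcon
  apply hxq
  have h1 : q.jacobson = q := hJ.out (Ideal.IsPrime.isRadical ‹_›)
  rw [← h1]
  refine Submodule.mem_sInf.2 fun q' hq' => ?_
  obtain ⟨hle, hmax⟩ := hq'
  obtain ⟨hp', hns⟩ := hcon q' hmax hle
  by_contra hx'
  exact hns ⟨n, hn, x, hx, hx'⟩

end Pool.Agent.MP_b525bf_ag_S
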