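import Pool.Agent.Lib.MP_b525bf_ag_S.CleanS
import Pool.Agent.Lib.MP_b525bf_ag_S.SigDrop
import Pool.Agent.Lib.MP_b525bf_ag_S.SigNbhd
import Pool.Agent.Lib.MP_b525bf_ag_S.CurDrop
import Pool.Agent.Lib.MP_b525bf_ag_S.CurNbhd
import Pool.Agent.Lib.MP_b525bf_ag_S.Init3
import Pool.Agent.Lib.MP_b525bf_ag_S.GrpM
import Pool.Agent.Lib.MP_b525bf_ag_S.Spec

/-!
# S16: the package of a group acting on a smooth affine surface
-/

set_option autoImplicit false

namespace Pool.Agent.MP_b525bf_ag_S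

open Pool.Agent.MP_b525bf_ag Pool.Agent.MP_b525bf_ag_W Pool.Agent.MP_b525bf_ag_P
  Pool.Agent.MP_b525bf_ag_TS

variable {k K G : Type} [Field k] [Field K] [Algebra k K] [Group G] {B : Subalgebra k K}
  {φ : G →* (K ≃ₐ[k] K)}

/-- There is an invariant function in all augmentation ideals. -/
theorem exists_z₀ [Finite G] (hφB : ∀ g, ∀ b ∈ B, φ g b ∈ B) (hφ : Function.Injective φ)
    (hfrac : ∀ z : K, ∃ a ∈ B, ∃ b ∈ B, b ≠ 0 ∧ z * b = a) :
    ∃ z₀ : B, z₀ ≠ 0 ∧ (∀ g, φ g z₀ = z₀) ∧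
      ∀ g : G, g ≠ 1 → (z₀ : K) ∈ Submodule.span B {v : K | ∃ b ∈ B, v = φ g b - b} := by
  classical
  have _ := Fintype.ofFinite G
  -- elements which are moved
  have h1 : ∀ g : G, ∃ b : B, g ≠ 1 → φ g b - b ≠ 0 := by
    intro g
    by_contra hcon
    push Not at hcon
    have hg1 : g ≠ 1 := (hcon 0).1
    apply hg1
    apply hφ
    rw [map_one]
    refine AlgEquiv.ext fun z => ?_
    obtain ⟨a, ha, b, hb, hb0, hab⟩ := hfrac z
    have h2 : φ g a = a := sub_eq_zero.1 (hcon ⟨a, ha⟩).2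
    have h3 : φ g b = b := sub_eq_zero.1 (hcon ⟨b, hb⟩).2
    rw [AlgEquiv.one_apply]
    have h4 := congrArg (φ g) hab
    rw [map_mul, h2, h3, ← hab] at h4
    exact mul_right_cancel₀ hb0 h4
  choose c hc using h1
  let v : G → K := fun g => if g = 1 then 1 else φ g (c g) - c g
  have hv0 : ∀ g, v g ≠ 0 := by
    intro g
    by_cases hg : g = 1
    · simp [v, hg]
    · simp only [v, if_neg hg]
      exact hc g hg
  have hvB : ∀ g, v g ∈ B := by
    intro g
    by_cases hg : g = 1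
    · simp only [v, if_pos hg]
      exact B.one_mem
    · simp only [v, if_neg hg]
      exact B.sub_mem (hφB g _ (c g).2) (c g).2
  let y : K := ∏ g, v g
  have hyB : y ∈ B := B.prod_mem fun g _ => hvB g
  have hy0 : y ≠ 0 := Finset.prod_ne_zero_iff.2 fun g _ => hv0 g
  let z : K := ∏ g, φ g y
  have hzB : z ∈ B := B.prod_mem fun g _ => hφB g _ hyB
  refine ⟨⟨z, hzB⟩, fun h => ?_, fun g => ?_, fun g hg => ?_⟩
  · have h2 : z = 0 := congrArg Subtype.val h
    obtain ⟨g, -, hg⟩ := Finset.prod_eq_zero_iff.1 h2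
    exact hy0 ((map_eq_zero (φ g)).1 hg)
  · change φ g (∏ h, φ h y) = ∏ h, φ h y
    rw [map_prod]
    refine Fintype.prod_equiv (Equiv.mulLeft g) _ _ fun h => ?_
    rw [← AlgEquiv.mul_apply, ← map_mul]
    rfl
  · have h2 : z = (∏ h ∈ Finset.univ.erase (1 : G), φ h y) *
        ((∏ h ∈ Finset.univ.erase g, v h) * v g) := by
      have h3 : y = (∏ h ∈ Finset.univ.erase g, v h) * v g :=
        (Finset.prod_erase_mul _ _ (Finset.mem_univ g)).symm
      have h4 : z = (∏ h ∈ Finset.univ.erase (1 : G), φ h y) * φ 1 y :=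
        (Finset.prod_erase_mul _ _ (Finset.mem_univ 1)).symm
      rw [h4, map_one, AlgEquiv.one_apply, ← h3]
    have h5 : (⟨z, hzB⟩ : B) = (⟨∏ h ∈ Finset.univ.erase (1 : G), φ h y,
        B.prod_mem fun h _ => hφB h _ hyB⟩ * ⟨∏ h ∈ Finset.univ.erase g, v h,
        B.prod_mem fun h _ => hvB h⟩ : B) * ⟨v g, hvB g⟩ := by
      apply Subtype.ext
      push_cast
      rw [h2, mul_assoc]
    change z ∈ _
    have h6 : z = (⟨∏ h ∈ Finset.univ.erase (1 : G), φ h y,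
        B.prod_mem fun h _ => hφB h _ hyB⟩ * ⟨∏ h ∈ Finset.univ.erase g, v h,
        B.prod_mem fun h _ => hvB h⟩ : B) • v g := by
      rw [Algebra.smul_def]
      change z = (∏ h ∈ Finset.univ.erase (1 : G), φ h y) * (∏ h ∈ Finset.univ.erase g, v h) * v g
      rw [h2, mul_assoc]
    rw [h6]
    refine Submodule.smul_mem _ _ (Submodule.subset_span ⟨c g, (c g).2, ?_⟩)
    simp only [v, if_neg hg]

theorem hasPkg_surface [IsAlgClosed k] [Finite G] (p : ℕ) [Fact p.Prime] [CharP k p]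
    (hB : B.FG) (hφB : ∀ g, ∀ b ∈ B, φ g b ∈ B) (hφ : Function.Injective φ)
    (hfrac : ∀ z : K, ∃ a ∈ B, ∃ b ∈ B, b ≠ 0 ∧ z * b = a)
    (hreg : ∀ χ : B →ₐ[k] k, ∃ x y Dx Dy, Reg (ptLoc B χ) x y Dx Dy)
    (hp2 : ∀ (χ : B →ₐ[k] k) (E' : Subgroup G),
      (∀ g ∈ E', ∀ (b : B) (h : φ g b ∈ B), χ ⟨φ g b, h⟩ = χ b) → ¬ p ^ 2 ∣ Nat.card E') :
    HasPkg p B φ ⊥ := by
  have hp : p.Prime := Fact.out
  obtain ⟨z₀, hz0, hφz, haug⟩ := exists_z₀ hφB hφ hfrac
  have hz0' : (z₀ : K) ≠ 0 := fun h => hz0 (Subtype.ext h)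
  -- the curve object becomes clean
  obtain ⟨J1, e1, HH1, hst1, hsub1⟩ := exists_stage_cur p hB hφB hreg hz0 hφz
  have hJst := rad_stable (φ := φ) hφB hφz
  obtain ⟨E2, hE2, J2, e2, HH2, hst2, hsub2, hcl2⟩ := stage_exists_clean hB hφB
    (curS_equi φ B hφB _ hJst) (fun _ => cur_drop B _) (fun _ => cur_nbhd B hB _) hst1
  have hHH2 : (HH2 ()).Subsingleton := hsub2 () (fun g => rfl) hsub1
  -- it is added to the boundary
  have hJ0 : (Ideal.span {z₀}).radical ≠ ⊥ := fun h0 => hz0 (by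
    have h1 : z₀ ∈ (Ideal.span {z₀}).radical :=
      Ideal.le_radical (Ideal.mem_span_singleton_self z₀)
    rw [h0] at h1
    exact h1)
  obtain ⟨J3, e3, w3, hm3, hw3, hpt3⟩ := stage_add hJ0 hJst hHH2 hst2 hcl2
  obtain ⟨N, hmon⟩ := monAt_of_rad hB hz0 hw3 fun R hR => (hpt3 R hR).2
  -- the elements of order `p` become clean
  obtain ⟨HH4, hst4⟩ := exists_stage_sig p hφB hz0' hφz hm3 hmon haug
  obtain ⟨E5, hE5, J5, e5, HH5, hst5, -, hcl5⟩ := stage_exists_clean hB hφB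
    (optS_equi (sigS_equi φ p) hφz)
    (fun c => match c with
      | none => fun_drop _ _
      | some c => sig_drop p c.2.2)
    (fun c => match c with
      | none => fun_nbhd B _ _
      | some c => sig_nbhd B _) hst4
  -- the package
  have htor := mdl_tor hB hst5.mdl
  refine ⟨E5 → ℤ, inferInstance, inferInstance, inferInstance, E5, hE5, Unit, inferInstance,
    mrees B J5 e5, fun _ => 1, e5, fun _ => ⊥, ⋃ c, HH5 c, ?_, mrees_zero, ?_⟩
  · refine ⟨htor, mdl_stab hφB hst5.mdl, fun _ => inferInstance,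
      Set.finite_iUnion fun c => hst5.fin c, fun q hq hs => ?_⟩
    obtain ⟨q', hq'm, hle, hq's⟩ := exists_max_semi htor.fg q hs
    have hq'p : q'.IsPrime := hq'm.isPrime
    obtain ⟨w, hw, hgrp⟩ := grpAt_closed p hB hφB hφ hfrac haug hp2 hst5 hcl5 q' (hq's hq'p)
    exact ⟨w, hw, grpAt_mono hp (fun g d x hx => mdl_stab hφB hst5.mdl g d x hx) hle
      (fun _ => inferInstance) hgrp⟩
  · exact iInf_le _ ()

end Pool.Agent.MP_b525bf_ag_S
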