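import Pool.Agent.Lib.MP_b525bf_ag_S.Aug
import Pool.Agent.Lib.MP_b525bf_ag_S.Ufd

/-!
# S15c: elements of order prime to `p` of the inertia groups
-/

set_option autoImplicit false

namespace Pool.Agent.MP_b525bf_ag_S

open Pool.Agent.MP_b525bf_ag_TS

namespace TameAux

/-! ### The abstract argument -/

section Abs

variable {k A : Type} [Field k] [CommRing A] [Algebra k A] {σ : A →ₐ[k] A} {m : Ideal A}
  {X Y : A} {l : ℕ}

theorem tame_step {J : Ideal A} (hJ : ∀ z ∈ J, σ z ∈ J) (hσ : ∀ z, (σ ^ l) z = z)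
    (hl : (l : k) ≠ 0) {z : A} (h : σ (σ z - z) - (σ z - z) ∈ J) : σ z - z ∈ J := by
  have h1 : ∀ i : ℕ, (σ ^ i) z - z - i * (σ z - z) ∈ J := by
    intro i
    induction i with
    | zero => simp
    | succ i ih =>
      have e : (σ ^ (i + 1)) z - z - ((i + 1 : ℕ) : A) * (σ z - z) =
          σ ((σ ^ i) z - z - i * (σ z - z)) + i * (σ (σ z - z) - (σ z - z)) := by
        rw [pow_succ', AlgHom.mul_apply]
        push_cast
        rw [map_sub, map_sub, map_mul, map_natCast, map_sub]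
        ring
      rw [e]
      exact J.add_mem (hJ _ ih) (J.mul_mem_left _ h)
  have h2 := h1 l
  rw [hσ, sub_self, zero_sub, Ideal.neg_mem_iff] at h2
  have h3 : σ z - z = algebraMap k A (l : k)⁻¹ * (l * (σ z - z)) := by
    rw [← mul_assoc, ← map_natCast (algebraMap k A) l, ← map_mul, inv_mul_cancel₀ hl, map_one,
      one_mul]
  rw [h3]
  exact J.mul_mem_left _ h2

theorem map_pow_mem (hm : ∀ z, σ z - z ∈ m) (n : ℕ) {z : A} (hz : z ∈ m ^ n) : σ z ∈ m ^ n := by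
  have h1 : m.map σ.toRingHom ≤ m := by
    rw [Ideal.map_le_iff_le_comap]
    intro w hw
    rw [Ideal.mem_comap]
    have h2 := m.add_mem (hm w) hw
    rwa [sub_add_cancel] at h2
  have h2 : (m ^ n).map σ.toRingHom ≤ m ^ n := by
    rw [Ideal.map_pow]
    exact Ideal.pow_right_mono h1 n
  exact h2 (Ideal.mem_map_of_mem _ hz)

theorem N_pow_mem {n : ℕ} (hN : ∀ z, σ z - z ∈ m ^ (n + 2)) {z : A} (hz : z ∈ m ^ (n + 2)) :
    σ z - z ∈ m ^ (n + 3) := by
  have hm : ∀ z, σ z - z ∈ m := fun z => Ideal.pow_le_self (by omega) (hN z)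
  rw [pow_succ] at hz
  refine Submodule.mul_induction_on (C := fun z => σ z - z ∈ m ^ (n + 3)) hz ?_ ?_
  · intro w hw v hv
    have e : σ (w * v) - w * v = (σ w - w) * v + (σ v - v) * σ w := by
      rw [map_mul]; ring
    rw [e, pow_succ]
    refine Ideal.add_mem _ (Ideal.mul_mem_mul (hN w) hv) (Ideal.mul_mem_mul (hN v) ?_)
    exact Ideal.pow_le_self (Nat.succ_ne_zero n) (map_pow_mem hm (n + 1) hw)
  · intro w v hw hv
    rw [map_add, add_sub_add_comm]
    exact Ideal.add_mem _ hw hv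

theorem tame_all (hσ : ∀ z, (σ ^ l) z = z) (hl : (l : k) ≠ 0)
    (haug : ∀ J : Ideal A, σ X - X ∈ J → σ Y - Y ∈ J → ∀ z, σ z - z ∈ J)
    (hX : σ X - X ∈ m ^ 2) (hY : σ Y - Y ∈ m ^ 2) (n : ℕ) (z : A) :
    σ z - z ∈ m ^ (n + 2) := by
  induction n generalizing z with
  | zero => exact haug _ hX hY z
  | succ n ih =>
    have hm : ∀ z, σ z - z ∈ m := fun z => Ideal.pow_le_self (by omega) (ih z)
    exact tame_step (fun z hz => map_pow_mem hm _ hz) hσ hl (N_pow_mem ih (ih z))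

theorem tame_zero [IsNoetherianRing A] [IsDomain A] (hm : m ≠ ⊤) (hσ : ∀ z, (σ ^ l) z = z)
    (hl : (l : k) ≠ 0) (haug : ∀ J : Ideal A, σ X - X ∈ J → σ Y - Y ∈ J → ∀ z, σ z - z ∈ J)
    (hX : σ X - X ∈ m ^ 2) (hY : σ Y - Y ∈ m ^ 2) (z : A) : σ z = z := by
  have h1 : σ z - z ∈ (⨅ i : ℕ, m ^ i) := by
    rw [Submodule.mem_iInf]
    intro i
    exact Ideal.pow_le_pow_right (Nat.le_add_right i 2) (tame_all hσ hl haug hX hY i z)
  rw [Ideal.iInf_pow_eq_bot_of_isDomain m hm, Submodule.mem_bot] at h1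
  exact sub_eq_zero.1 h1

/-- If `σ X = X (1 + d)`, the sum of the conjugates of `X` is a multiple of `X`. -/
theorem tame_avg (hσm : ∀ z ∈ m, σ z ∈ m) {d : A} (hd : d ∈ m) (hX : σ X = X * (1 + d))
    (hσ : ∀ z, (σ ^ l) z = z) : ∃ e ∈ m, σ (X * (l + e)) = X * (l + e) := by
  have h1 : ∀ i : ℕ, ∃ e ∈ m, (σ ^ i) X = X * (1 + e) := by
    intro i
    induction i with
    | zero => exact ⟨0, m.zero_mem, by simp⟩
    | succ i ih =>
      obtain ⟨e, he, h2⟩ := ih
      refine ⟨d + σ e + d * σ e, m.add_mem (m.add_mem hd (hσm e he))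
        (m.mul_mem_left _ (hσm e he)), ?_⟩
      rw [pow_succ', AlgHom.mul_apply, h2, map_mul, hX, map_add, map_one]
      ring
  choose e he h2 using h1
  refine ⟨∑ i ∈ Finset.range l, e i, m.sum_mem fun i _ => he i, ?_⟩
  have h3 : X * ((l : A) + ∑ i ∈ Finset.range l, e i) = ∑ i ∈ Finset.range l, (σ ^ i) X := by
    rw [Finset.sum_congr rfl fun i _ => h2 i, ← Finset.mul_sum, Finset.sum_add_distrib]
    simp
  rw [h3, map_sum]
  have h4 : ∀ i, σ ((σ ^ i) X) = (σ ^ (i + 1)) X := fun i => by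
    rw [pow_succ', AlgHom.mul_apply]
  rw [Finset.sum_congr rfl fun i _ => h4 i]
  have h5 := Finset.sum_range_succ (fun i => (σ ^ i) X) l
  rw [Finset.sum_range_succ'] at h5
  rw [hσ, pow_zero, AlgHom.one_apply] at h5
  exact add_right_cancel h5

end Abs

variable {k K G : Type} [Field k] [Field K] [Algebra k K] [Group G]
  {φ : G →* (K ≃ₐ[k] K)} {R : Subalgebra k K} {x y : K} {Dx Dy : Derivation k K K}

/-- The restriction of `g` to a fixed local ring. -/
def res (φ : G →* (K ≃ₐ[k] K)) {R : Subalgebra k K} {g : G} (hg : tr φ g R = R) :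
    R →ₐ[k] R :=
  ((φ g : K →ₐ[k] K).comp R.val).codRestrict R fun z => fix_mem hg z.2

theorem res_pow {g : G} (hg : tr φ g R = R) (n : ℕ) (z : R) :
    (((res φ hg) ^ n) z : K) = φ (g ^ n) z := by
  induction n generalizing z with
  | zero => simp
  | succ n ih =>
    rw [pow_succ, AlgHom.mul_apply, ih, pow_succ, map_mul, AlgEquiv.mul_apply]
    rfl

theorem res_sub_mem (h : Reg R x y Dx Dy) {g : G} (hg : tr φ g R = R) (z : R) :
    (res φ hg) z - z ∈ mId R x y :=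
  h.mem_mId'.2 (reg_fix_sub h hg z.2)

theorem res_aug (h : Reg R x y Dx Dy) {g : G} (hg : tr φ g R = R) (J : Ideal R)
    (hX : (res φ hg) ⟨x, h.hx⟩ - ⟨x, h.hx⟩ ∈ J) (hY : (res φ hg) ⟨y, h.hy⟩ - ⟨y, h.hy⟩ ∈ J)
    (z : R) : (res φ hg) z - z ∈ J := by
  obtain ⟨u, hu, v, hv, e⟩ := reg_aug h hg z.2
  have e1 : (res φ hg) z - z = ((res φ hg) ⟨x, h.hx⟩ - ⟨x, h.hx⟩) * ⟨u, hu⟩ +
      ((res φ hg) ⟨y, h.hy⟩ - ⟨y, h.hy⟩) * ⟨v, hv⟩ := Subtype.ext e
  rw [e1]
  exact J.add_mem (J.mul_mem_right _ hX) (J.mul_mem_right _ hY)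

/-- The boundary curve `x = 0` is fixed and the action on the normal direction is trivial. -/
theorem res_curve (h : Reg R x y Dx Dy) {g : G} (hg : tr φ g R = R)
    (hs : φ g x / x - 1 ∈ mx R) : ∃ d ∈ mId R x y, (res φ hg) ⟨x, h.hx⟩ = ⟨x, h.hx⟩ * (1 + d) := by
  refine ⟨⟨_, hs.1⟩, h.mem_mId.2 hs, Subtype.ext ?_⟩
  have hx0 := h.x_ne
  change φ g x = x * (1 + (φ g x / x - 1))
  field_simp
  ring

/-- The case of one boundary curve. -/
theorem tame_one (h : Reg R x y Dx Dy) {a : G} (ha : tr φ a R = R) {l : ℕ} (hl : (l : k) ≠ 0)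
    (hal : a ^ l = 1) (hs : φ a x / x - 1 ∈ mx R) {z₀ : K} (hmon : Mon R x y true false z₀)
    (hz₀ : ∃ u ∈ R, ∃ v ∈ R, z₀ = (φ a x - x) * u + (φ a y - y) * v) :
    (res φ ha) ⟨y, h.hy⟩ - ⟨y, h.hy⟩ ∈ mId R x y ^ 2 := by
  set σ := res φ ha with hσdef
  set X : R := ⟨x, h.hx⟩ with hX
  set Y : R := ⟨y, h.hy⟩ with hY
  set m : Ideal R := mId R x y with hm
  have hXm : X ∈ m := Loc2.x_mem h
  have hYm : Y ∈ m := Loc2.y_mem h
  have hx0 := h.x_ne
  have hσ : ∀ z, (σ ^ l) z = z := by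
    intro z
    apply Subtype.ext
    rw [hσdef, res_pow, hal, map_one, AlgEquiv.one_apply]
  have hσm : ∀ z, σ z - z ∈ m := res_sub_mem h ha
  have hσm' : ∀ z ∈ m, σ z ∈ m := fun z hz => by
    have := m.add_mem (hσm z) hz
    rwa [sub_add_cancel] at this
  obtain ⟨d, hd, hXd⟩ := res_curve h ha hs
  change σ X = X * (1 + d) at hXd
  obtain ⟨e, he, hinv⟩ := tame_avg hσm' hd hXd hσ
  -- `l + e` is a unit
  have hunit : ∀ c : k, c ≠ 0 → ∀ e ∈ m, UnitIn R ((algebraMap k R c + e : R) : K) := by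
    intro c hc e he
    refine h.unitIn.1 fun h1 => hc ?_
    have h2 := m.sub_mem h1 he
    rw [add_sub_cancel_right] at h2
    exact Loc2.const_mem h h2
  have hw := hunit l hl e he
  rw [map_natCast] at hw
  set u : R := ⟨_, hw.2.2⟩ with hu
  have hwu : ((l : R) + e) * u = 1 := Subtype.ext (mul_inv_cancel₀ hw.1)
  have hX' : X = X * (l + e) * u := by rw [mul_assoc, hwu, mul_one]
  have hNX : σ X - X = X * (l + e) * (σ u - u) := by
    have h1 : σ X = X * (l + e) * σ u := by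
      conv_lhs => rw [hX']
      rw [map_mul, hinv]
    rw [h1]
    linear_combination -hX'
  obtain ⟨r, hr, s', hs', hNu⟩ := reg_aug h ha u.2
  have hNu' : σ u - u = (σ X - X) * ⟨r, hr⟩ + (σ Y - Y) * ⟨s', hs'⟩ := Subtype.ext hNu
  have hv := hunit 1 one_ne_zero (-(X * (l + e) * ⟨r, hr⟩))
    (m.neg_mem (m.mul_mem_right _ (m.mul_mem_right _ hXm)))
  rw [map_one] at hv
  set v : R := ⟨_, hv.2.2⟩ with hvdef
  have hvv : (1 + -(X * (l + e) * ⟨r, hr⟩)) * v = 1 := Subtype.ext (mul_inv_cancel₀ hv.1)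
  have hNXY : σ X - X = (σ Y - Y) * (X * (l + e) * ⟨s', hs'⟩ * v) := by
    linear_combination v * hNX + v * X * (l + e) * hNu' - (σ X - X) * hvv
  -- `z₀` is a multiple of `σ Y - Y`
  obtain ⟨u₀, hu₀, v₀, hv₀, ez⟩ := hz₀
  obtain ⟨w₀, hw₀⟩ : ∃ w₀ : R, z₀ = ((σ Y - Y : R) : K) * w₀ := by
    refine ⟨X * (l + e) * ⟨s', hs'⟩ * v * ⟨u₀, hu₀⟩ + ⟨v₀, hv₀⟩, ?_⟩
    have e1 : z₀ = (((σ X - X) * ⟨u₀, hu₀⟩ + (σ Y - Y) * ⟨v₀, hv₀⟩ : R) : K) := ez
    rw [e1, hNXY]
    push_cast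
    ring
  -- the linear part of `σ Y - Y`
  obtain ⟨u₁, hu₁, v₁, hv₁, eN⟩ := h.mem_mId'.1 (hσm Y)
  obtain ⟨c, u₂, hu₂, v₂, hv₂, ev⟩ := h.dec v₁ hv₁
  have eN' : σ Y - Y = X * ⟨u₁, hu₁⟩ + algebraMap k R c * Y +
      Y * (X * ⟨u₂, hu₂⟩ + Y * ⟨v₂, hv₂⟩) := by
    apply Subtype.ext
    rw [eN, ev]
    change x * u₁ + y * (algebraMap k K c + x * u₂ + y * v₂) =
      x * u₁ + algebraMap k K c * y + y * (x * u₂ + y * v₂)
    ring
  have hq : Y * (X * ⟨u₂, hu₂⟩ + Y * ⟨v₂, hv₂⟩) ∈ m ^ 2 := by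
    rw [pow_two]
    exact Ideal.mul_mem_mul hYm (m.add_mem (m.mul_mem_right _ hXm) (m.mul_mem_right _ hYm))
  by_cases hc : c = 0
  · -- unipotent case
    refine tame_step (fun z hz => map_pow_mem hσm _ hz) hσ hl ?_
    rw [hc, map_zero, zero_mul, add_zero] at eN'
    set q : R := Y * (X * ⟨u₂, hu₂⟩ + Y * ⟨v₂, hv₂⟩) with hqdef
    rw [eN']
    have e1 : σ (X * ⟨u₁, hu₁⟩ + q) - (X * ⟨u₁, hu₁⟩ + q) =
        X * d * σ ⟨u₁, hu₁⟩ + X * (σ ⟨u₁, hu₁⟩ - ⟨u₁, hu₁⟩) + (σ q - q) := by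
      rw [map_add, map_mul, hXd]; ring
    rw [e1]
    refine Ideal.add_mem _ (Ideal.add_mem _ (Ideal.mul_mem_right _ _ ?_) ?_)
      (Ideal.sub_mem _ (map_pow_mem hσm _ hq) hq)
    · rw [pow_two]; exact Ideal.mul_mem_mul hXm hd
    · rw [pow_two]; exact Ideal.mul_mem_mul hXm (hσm _)
  · -- the other case: `z₀` is not in the augmentation ideal
    exfalso
    have hND : ¬ ∃ w ∈ R, ((σ Y - Y : R) : K) = x * w := by
      rintro ⟨w, hw, ew⟩
      apply hc
      have e1 : algebraMap k R c * Y = X * (⟨w, hw⟩ - ⟨u₁, hu₁⟩) -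
          Y * (X * ⟨u₂, hu₂⟩ + Y * ⟨v₂, hv₂⟩) := by
        have e2 : σ Y - Y = X * ⟨w, hw⟩ := Subtype.ext ew
        linear_combination e2 - eN'
      set q : R := Y * (X * ⟨u₂, hu₂⟩ + Y * ⟨v₂, hv₂⟩) with hqdef
      have e3 := congrArg (fun z : R => Dy (z : K)) e1
      change Dy (algebraMap k K c * y) = Dy (x * (w - u₁) - (q : K)) at e3
      rw [Derivation.leibniz, map_sub, Derivation.leibniz, h.yy, Derivation.map_algebraMap, h.yx,
        smul_zero, smul_zero, add_zero, add_zero, smul_eq_mul, mul_one, smul_eq_mul] at e3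
      have e4 : algebraMap k R c = X * ⟨Dy (w - u₁), h.Dy_mem _ (R.sub_mem hw hu₁)⟩ -
          ⟨Dy q, h.Dy_mem q q.2⟩ := Subtype.ext e3
      refine Loc2.const_mem h ?_
      rw [e4]
      exact m.sub_mem (m.mul_mem_right _ hXm) (Loc2.D_mem h hq).2
    have hdiv : ∀ (n : ℕ) (ε : K), UnitIn R ε → ∀ w : R,
        x ^ n * ε ≠ ((σ Y - Y : R) : K) * w := by
      intro n ε hε
      induction n with
      | zero =>
        intro w e1
        rw [pow_zero, one_mul] at e1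
        have h1 : (σ Y - Y) * w ∈ m := m.mul_mem_right _ (hσm Y)
        refine h.unitIn.2 ?_ h1
        push_cast at e1 ⊢
        rw [← e1]
        exact hε
      | succ n ih =>
        intro w e1
        rcases h.prime_x (σ Y - Y).2 w.2 ⟨x ^ n * ε, R.mul_mem (R.pow_mem h.hx n) hε.2.1, by
          rw [← e1]; ring⟩ with h1 | ⟨w', hw', h1⟩
        · exact hND h1
        · refine ih ⟨w', hw'⟩ (mul_left_cancel₀ hx0 ?_)
          rw [h1] at e1
          linear_combination e1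
    obtain ⟨n, j, hun, -, hj⟩ := hmon
    obtain rfl := hj rfl
    rw [zpow_zero, mul_one] at hun
    rcases lt_or_ge n 0 with hn | hn
    · obtain ⟨i, hi⟩ : ∃ i : ℕ, n = -((i : ℤ) + 1) := ⟨(-n - 1).toNat, by omega⟩
      refine hdiv 0 (z₀ / x ^ n) hun (X ^ (i + 1) * w₀) ?_
      rw [hi, zpow_neg, ← Nat.cast_succ, zpow_natCast, hw₀]
      push_cast
      change x ^ 0 * (_ / (x ^ (i + 1))⁻¹) = _ * (x ^ (i + 1) * _)
      rw [pow_zero, one_mul, div_inv_eq_mul]
      ring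
    · obtain ⟨i, rfl⟩ := Int.eq_ofNat_of_zero_le hn
      rw [zpow_natCast] at hun
      refine hdiv i _ hun w₀ ?_
      rw [← hw₀]
      field_simp

end TameAux

open TameAux

variable {k K G : Type} [Field k] [Field K] [Algebra k K] [Group G]
  {φ : G →* (K ≃ₐ[k] K)} {R : Subalgebra k K} {x y : K} {Dx Dy : Derivation k K K}

/-- An element of prime order `ℓ ≠ p` which acts trivially on the normal directions of the boundary
curves at `R` is the identity, if the boundary contains the fixed points, i.e. if a monomial `z₀`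
in the boundary is in the augmentation ideal. -/
theorem tame_trivial (p : ℕ) [Fact p.Prime] [CharP k p] [IsAlgClosed k] (h : Reg R x y Dx Dy)
    {a : G} (ha : tr φ a R = R) {l : ℕ} (hl : l.Prime) (hlp : l ≠ p) (hal : a ^ l = 1)
    {s t : Bool} (hs : s = true → φ a x / x - 1 ∈ mx R) (ht : t = true → φ a y / y - 1 ∈ mx R)
    {z₀ : K} (hmon : Mon R x y s t z₀)
    (hz₀ : ∃ u ∈ R, ∃ v ∈ R, z₀ = (φ a x - x) * u + (φ a y - y) * v) :
    ∀ z ∈ R, φ a z = z := by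
  have hlk : (l : k) ≠ 0 := by
    rw [Ne, CharP.cast_eq_zero_iff k p l]
    intro h1
    exact hlp ((Nat.prime_dvd_prime_iff_eq Fact.out hl).1 h1).symm
  have hN := h.isNoetherianRing
  have htop : mId R x y ≠ ⊤ := fun e => Loc2.one_notMem h (by rw [e]; trivial)
  have hσ : ∀ z, ((res φ ha) ^ l) z = z := by
    intro z
    apply Subtype.ext
    rw [res_pow, hal, map_one, AlgEquiv.one_apply]
  have hcurve : ∀ {x y : K} {Dx Dy : Derivation k K K} (h : Reg R x y Dx Dy),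
      φ a x / x - 1 ∈ mx R → (res φ ha) ⟨x, h.hx⟩ - ⟨x, h.hx⟩ ∈ mId R x y ^ 2 := by
    intro x y Dx Dy h h1
    obtain ⟨d, hd, e⟩ := res_curve h ha h1
    rw [e, mul_add, mul_one, add_sub_cancel_left, pow_two]
    exact Ideal.mul_mem_mul (Loc2.x_mem h) hd
  have hsymm : mId R y x = mId R x y := by
    unfold mId
    congr 1
    ext z
    exact or_comm
  have hX : (res φ ha) ⟨x, h.hx⟩ - ⟨x, h.hx⟩ ∈ mId R x y ^ 2 := by
    cases s with
    | true => exact hcurve h (hs rfl)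
    | false =>
      cases t with
      | true =>
        have h1 := tame_one h.symm ha hlk hal (ht rfl) (z₀ := z₀)
          (by
            obtain ⟨m, n, h1, h2, h3⟩ := hmon
            exact ⟨n, m, by rwa [mul_comm], fun h4 => h3 h4, fun h4 => h2 h4⟩)
          (by
            obtain ⟨u, hu, v, hv, e⟩ := hz₀
            exact ⟨v, hv, u, hu, by rw [e]; ring⟩)
        rw [hsymm] at h1
        exact h1
      | false =>
        exfalso
        obtain ⟨m, n, h1, h2, h3⟩ := hmon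
        obtain rfl := h2 rfl
        obtain rfl := h3 rfl
        rw [zpow_zero, zpow_zero, mul_one, div_one] at h1
        obtain ⟨u, hu, v, hv, e⟩ := hz₀
        have h4 : ((res φ ha) ⟨x, h.hx⟩ - ⟨x, h.hx⟩) * ⟨u, hu⟩ +
            ((res φ ha) ⟨y, h.hy⟩ - ⟨y, h.hy⟩) * ⟨v, hv⟩ ∈ mId R x y :=
          Ideal.add_mem _ (Ideal.mul_mem_right _ _ (res_sub_mem h ha _))
            (Ideal.mul_mem_right _ _ (res_sub_mem h ha _))
        refine h.unitIn.2 ?_ h4
        rw [e] at h1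
        exact h1
  have hY : (res φ ha) ⟨y, h.hy⟩ - ⟨y, h.hy⟩ ∈ mId R x y ^ 2 := by
    cases t with
    | true =>
      have h1 := hcurve h.symm (ht rfl)
      rw [hsymm] at h1
      exact h1
    | false =>
      cases s with
      | true => exact tame_one h ha hlk hal (hs rfl) hmon hz₀
      | false =>
        exfalso
        obtain ⟨m, n, h1, h2, h3⟩ := hmon
        obtain rfl := h2 rfl
        obtain rfl := h3 rfl
        rw [zpow_zero, zpow_zero, mul_one, div_one] at h1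
        obtain ⟨u, hu, v, hv, e⟩ := hz₀
        have h4 : ((res φ ha) ⟨x, h.hx⟩ - ⟨x, h.hx⟩) * ⟨u, hu⟩ +
            ((res φ ha) ⟨y, h.hy⟩ - ⟨y, h.hy⟩) * ⟨v, hv⟩ ∈ mId R x y :=
          Ideal.add_mem _ (Ideal.mul_mem_right _ _ (res_sub_mem h ha _))
            (Ideal.mul_mem_right _ _ (res_sub_mem h ha _))
        refine h.unitIn.2 ?_ h4
        rw [e] at h1
        exact h1
  intro z hz
  have h1 := tame_zero htop hσ hlk (res_aug h ha) hX hY ⟨z, hz⟩
  exact congrArg (fun z : R => (z : K)) h1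

end Pool.Agent.MP_b525bf_ag_S
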