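import Pool.Agent.Lib.MP_b525bf_ag_S.Closed
import Pool.Agent.Lib.MP_b525bf_ag_S.Tame
import Pool.Agent.Lib.MP_b525bf_ag_S.PtN

/-!
# S15d: the inertia groups at closed points
-/

set_option autoImplicit false
set_option linter.unusedSectionVars false

namespace Pool.Agent.MP_b525bf_ag_S

open Pool.Agent.MP_b525bf_ag Pool.Agent.MP_b525bf_ag_W Pool.Agent.MP_b525bf_ag_P
  Pool.Agent.MP_b525bf_ag_TS

variable {k K G : Type} [Field k] [Field K] [Algebra k K] [Group G] {B : Subalgebra k K}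
  {E : Type} [Fintype E] {J : E → Ideal B} {e : E → E → ℤ} {φ : G →* (K ≃ₐ[k] K)}

namespace Inert

variable {R : Subalgebra k K} {ev : R →ₐ[k] k} {a : G}

theorem mx_neg (hev : H86.IsEv R ev) {z : K} (hz : z ∈ mx R) : -z ∈ mx R := by
  have h := H86.mx_mul hev hz (R.neg_mem R.one_mem)
  rwa [mul_neg, mul_one] at h

theorem mx_mul' (hev : H86.IsEv R ev) {z w : K} (hw : w ∈ R) (hz : z ∈ mx R) : w * z ∈ mx R := by
  rw [mul_comm]
  exact H86.mx_mul hev hz hw

/-- Elements which are congruent to one are units. -/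
theorem unit_of_sub_one (hev : H86.IsEv R ev) {z : K} (hz : z - 1 ∈ mx R) : UnitIn R z := by
  obtain ⟨h1, h2⟩ := (H86.mem_mx_iff hev).1 hz
  have h3 : z ∈ R := by
    have := R.add_mem h1 R.one_mem
    rwa [sub_add_cancel] at this
  refine (H86.unitIn_iff hev).2 ⟨h3, ?_⟩
  have h4 : (⟨z - 1, h1⟩ : R) = ⟨z, h3⟩ - 1 := rfl
  rw [h4, map_sub, map_one, sub_eq_zero] at h2
  rw [h2]
  exact one_ne_zero

/-- `a` acts trivially on the class of `z`. -/
def Cg (φ : G →* (K ≃ₐ[k] K)) (a : G) (R : Subalgebra k K) (z : K) : Prop :=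
  z ≠ 0 ∧ φ a z / z - 1 ∈ mx R

theorem Cg.unit (hev : H86.IsEv R ev) {z : K} (h : Cg φ a R z) : UnitIn R (φ a z / z) :=
  unit_of_sub_one hev h.2

theorem Cg.mul (hev : H86.IsEv R ev) {z w : K} (hz : Cg φ a R z) (hw : Cg φ a R w) :
    Cg φ a R (z * w) := by
  refine ⟨mul_ne_zero hz.1 hw.1, ?_⟩
  have e1 : φ a (z * w) / (z * w) - 1 =
      (φ a z / z - 1) * (φ a w / w) + (φ a w / w - 1) := by
    rw [map_mul, mul_div_mul_comm]
    ring
  rw [e1]
  exact H86.mx_add hev (H86.mx_mul hev hz.2 (hw.unit hev).2.1) hw.2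

theorem Cg.inv (hev : H86.IsEv R ev) {z : K} (hz : Cg φ a R z) : Cg φ a R z⁻¹ := by
  refine ⟨inv_ne_zero hz.1, ?_⟩
  have h0 : φ a z ≠ 0 := by
    rw [Ne, EmbeddingLike.map_eq_zero_iff]
    exact hz.1
  have e1 : φ a z⁻¹ / z⁻¹ - 1 = -((φ a z / z - 1) * (φ a z / z)⁻¹) := by
    rw [map_inv₀]
    have := hz.1
    field_simp
    ring
  rw [e1]
  exact mx_neg hev (H86.mx_mul hev hz.2 (hz.unit hev).2.2)

theorem Cg.one : Cg φ a R 1 := by
  refine ⟨one_ne_zero, ?_⟩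
  rw [map_one, div_one, sub_self]
  exact H86.mx_zero R

theorem Cg.pow (hev : H86.IsEv R ev) {z : K} (hz : Cg φ a R z) (n : ℕ) : Cg φ a R (z ^ n) := by
  induction n with
  | zero => rw [pow_zero]; exact Cg.one
  | succ n ih => rw [pow_succ]; exact ih.mul hev hz

theorem Cg.zpow (hev : H86.IsEv R ev) {z : K} (hz : Cg φ a R z) (n : ℤ) : Cg φ a R (z ^ n) := by
  obtain ⟨m, rfl | rfl⟩ := n.eq_nat_or_neg
  · rw [zpow_natCast]; exact hz.pow hev m
  · rw [zpow_neg, zpow_natCast]; exact (hz.pow hev m).inv hev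

theorem Cg.prod (hev : H86.IsEv R ev) {ι : Type*} (s : Finset ι) {f : ι → K}
    (hf : ∀ i ∈ s, Cg φ a R (f i)) : Cg φ a R (∏ i ∈ s, f i) := by
  classical
  induction s using Finset.induction_on with
  | empty => rw [Finset.prod_empty]; exact Cg.one
  | insert b s hb ih =>
    rw [Finset.prod_insert hb]
    exact (hf b (Finset.mem_insert_self b s)).mul hev
      (ih fun i hi => hf i (Finset.mem_insert_of_mem hi))

theorem Cg.of_unit (hev : H86.IsEv R ev) (hR : ∀ z ∈ R, φ a z - z ∈ mx R) {z : K}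
    (hz : UnitIn R z) : Cg φ a R z := by
  refine ⟨hz.1, ?_⟩
  have e1 : φ a z / z - 1 = (φ a z - z) * z⁻¹ := by
    have := hz.1
    field_simp
  rw [e1]
  exact H86.mx_mul hev (hR z hz.2.1) hz.2.2

/-- Different generators differ by units. -/
theorem genAt_div {g h : E → K} (hg : GenAt B J R g) (hh : GenAt B J R h) (i : E) :
    UnitIn R (h i / g i) := by
  obtain ⟨w, hw, hw'⟩ := (hh.1 i).2
  obtain ⟨v, hv, hv'⟩ := (hg.1 i).2
  refine ⟨div_ne_zero (hh.1 i).1 (hg.1 i).1, ?_, ?_⟩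
  · rw [← hw']
    exact hg.2 i w hw
  · rw [inv_div, ← hv']
    exact hh.2 i v hv

/-- The generators at `R`. -/
theorem Cg.gen (hev : H86.IsEv R ev) (hR : ∀ z ∈ R, φ a z - z ∈ mx R) {g h : E → K}
    (hg : GenAt B J R g) (hh : GenAt B J R h) (hga : ∀ i, φ a (g i) / g i - 1 ∈ mx R) (i : E) :
    Cg φ a R (h i) := by
  have e1 : h i = h i / g i * g i := by rw [div_mul_cancel₀ _ (hg.1 i).1]
  rw [e1]
  exact (Cg.of_unit hev hR (genAt_div hg hh i)).mul hev ⟨(hg.1 i).1, hga i⟩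

theorem Cg.xi (hev : H86.IsEv R ev) (hR : ∀ z ∈ R, φ a z - z ∈ mx R) {g h : E → K}
    (hg : GenAt B J R g) (hh : GenAt B J R h) (hga : ∀ i, φ a (g i) / g i - 1 ∈ mx R) (j : E) :
    Cg φ a R (xi h e j) :=
  Cg.prod hev _ fun i _ => (Cg.gen hev hR hg hh hga i).zpow hev _

/-- The function `z₀` is in the augmentation ideal. -/
theorem aug_mem {x y : K} {Dx Dy : Derivation k K K} (h : Reg R x y Dx Dy)
    (ha : tr φ a R = R) (hBR : B ≤ R) {z : K}
    (hz : z ∈ Submodule.span B {v : K | ∃ b ∈ B, v = φ a b - b}) :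
    ∃ u ∈ R, ∃ v ∈ R, z = (φ a x - x) * u + (φ a y - y) * v := by
  induction hz using Submodule.span_induction with
  | mem z hz =>
    obtain ⟨b, hb, rfl⟩ := hz
    exact reg_aug h ha (hBR hb)
  | zero => exact ⟨0, R.zero_mem, 0, R.zero_mem, by simp⟩
  | add z w _ _ hz hw =>
    obtain ⟨u, hu, v, hv, e1⟩ := hz
    obtain ⟨u', hu', v', hv', e2⟩ := hw
    exact ⟨u + u', R.add_mem hu hu', v + v', R.add_mem hv hv', by rw [e1, e2]; ring⟩
  | smul c z _ hz =>
    obtain ⟨u, hu, v, hv, e1⟩ := hz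
    refine ⟨c * u, R.mul_mem (hBR c.2) hu, c * v, R.mul_mem (hBR c.2) hv, ?_⟩
    rw [Subalgebra.smul_def, smul_eq_mul, e1]
    ring

theorem exists_ev_pt (hR : Pt B J R) : ∃ ev : R →ₐ[k] k, H86.IsEv R ev := by
  obtain ⟨h, -, χ, rfl⟩ := hR
  obtain ⟨ev, hev, -⟩ := H86.exists_ev (chartF B J h) χ
  exact ⟨ev, hev⟩

theorem mon_of_unit {x y : K} {s t : Bool} {z w : K} (hw : Mon R x y s t w)
    (h : UnitIn R (z / w)) : Mon R x y s t z := by
  obtain ⟨m, n, hu, hm, hn⟩ := hw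
  refine ⟨m, n, ?_, hm, hn⟩
  have hw0 : w ≠ 0 := by
    rintro rfl
    apply hu.1
    rw [zero_div]
  have e1 : z / (x ^ m * y ^ n) = z / w * (w / (x ^ m * y ^ n)) := by
    rw [div_mul_div_cancel₀ hw0]
  rw [e1]
  exact h.mul hu

/-- The boundary coordinate `x`. -/
theorem Cg.x (hev : H86.IsEv R ev) (hR : ∀ z ∈ R, φ a z - z ∈ mx R) {g h : E → K}
    {x y : K} {Dx Dy : Derivation k K K} {s t : Bool} {b : E → Option Bool}
    (hp : PtN B J e R h x y Dx Dy s t b)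
    (hg : GenAt B J R g) (hga : ∀ i, φ a (g i) / g i - 1 ∈ mx R) (hs : s = true) :
    Cg φ a R x := by
  obtain ⟨j, -, -, hu⟩ := ptN_x hp hs
  have hc := Cg.xi (e := e) hev hR hg hp.choose_spec.gen hga j
  have e1 : x = x / MP_b525bf_ag_TS.xi h e j * MP_b525bf_ag_TS.xi h e j := by
    rw [div_mul_cancel₀ _ hc.1]
  rw [e1]
  exact (Cg.of_unit hev hR hu).mul hev hc

/-- The boundary coordinate `y`. -/
theorem Cg.y (hev : H86.IsEv R ev) (hR : ∀ z ∈ R, φ a z - z ∈ mx R) {g h : E → K}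
    {x y : K} {Dx Dy : Derivation k K K} {s t : Bool} {b : E → Option Bool}
    (hp : PtN B J e R h x y Dx Dy s t b)
    (hg : GenAt B J R g) (hga : ∀ i, φ a (g i) / g i - 1 ∈ mx R) (ht : t = true) :
    Cg φ a R y := by
  obtain ⟨j, -, -, hu⟩ := ptN_y hp ht
  have hc := Cg.xi (e := e) hev hR hg hp.choose_spec.gen hga j
  have e1 : y = y / MP_b525bf_ag_TS.xi h e j * MP_b525bf_ag_TS.xi h e j := by
    rw [div_mul_cancel₀ _ hc.1]
  rw [e1]
  exact (Cg.of_unit hev hR hu).mul hev hc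

end Inert

open Inert

/-- The inertia groups at closed points are trivial or of order `p`. -/
theorem card_inertia [IsAlgClosed k] [Finite G] (p : ℕ) [Fact p.Prime] [CharP k p] (hB : B.FG)
    (hφB : ∀ g, ∀ b ∈ B, φ g b ∈ B) (hφ : Function.Injective φ)
    (hfrac : ∀ z : K, ∃ a ∈ B, ∃ b ∈ B, b ≠ 0 ∧ z * b = a) {z₀ : K}
    (haug : ∀ g : G, g ≠ 1 → z₀ ∈ Submodule.span B {v : K | ∃ b ∈ B, v = φ g b - b})
    (hp2 : ∀ (χ : B →ₐ[k] k) (E' : Subgroup G),
      (∀ g ∈ E', ∀ (b : B) (h : φ g b ∈ B), χ ⟨φ g b, h⟩ = χ b) → ¬ p ^ 2 ∣ Nat.card E')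
    (h : Mdl B φ J e)
    (hmon : ∀ R, Pt B J R → ∃ h x y Dx Dy s t b, PtN B J e R h x y Dx Dy s t b ∧
      ∃ w : E → ℤ, UnitIn R (z₀ / ∏ j, xi h e j ^ w j))
    (q : Ideal (mrees B J e).alg) [q.IsMaximal] (hq : Semi (mrees B J e) (fun _ => 1) q) :
    inertia φ (mrees B J e) q = ⊥ ∨ Nat.card (inertia φ (mrees B J e) q) = p := by
  obtain ⟨R, g, hR, hg, -, -, hin⟩ := mdl_exists_closed hB hφB h q hq
  obtain ⟨ev, hev⟩ := exists_ev_pt hR
  have hBR : B ≤ R := TorsA.Pt.le hR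
  obtain ⟨hh, x, y, Dx, Dy, s, t, b, hp, w, hw⟩ := hmon R hR
  have hreg : Reg R x y Dx Dy := hp.choose_spec.reg
  have hmz : Mon R x y s t z₀ := mon_of_unit (ptN_mon hp w) hw
  -- there are no tame elements
  have htame : ∀ l : ℕ, l.Prime → l ∣ Nat.card (inertia φ (mrees B J e) q) → l = p := by
    intro l hl hdvd
    by_contra hlp
    have : Fact l.Prime := ⟨hl⟩
    obtain ⟨a, hao⟩ := exists_prime_orderOf_dvd_card' l hdvd
    have haE := a.2
    obtain ⟨ha1, ha2, ha3⟩ := hin a haE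
    have hal : (a : G) ^ l = 1 := by
      have h1 : a ^ l = 1 := by rw [← hao]; exact pow_orderOf_eq_one a
      have h2 := congrArg (fun z : inertia φ (mrees B J e) q => (z : G)) h1
      simpa using h2
    have hane : (a : G) ≠ 1 := by
      intro h1
      have h2 : a = 1 := Subtype.ext h1
      rw [h2, orderOf_one] at hao
      exact hl.one_lt.ne hao
    have htriv := tame_trivial p hreg ha1 hl hlp hal (s := s) (t := t)
      (fun hs => (Cg.x hev ha3 hp hg ha2 hs).2) (fun ht => (Cg.y hev ha3 hp hg ha2 ht).2)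
      hmz (aug_mem hreg ha1 hBR (haug a hane))
    apply hane
    apply hφ
    rw [map_one]
    refine AlgEquiv.ext fun z => ?_
    obtain ⟨c, hc, d, hd, hd0, hz⟩ := hfrac z
    have h1 := congrArg (φ (a : G)) hz
    rw [map_mul, htriv c (hBR hc), htriv d (hBR hd), ← hz] at h1
    rw [AlgEquiv.one_apply]
    exact mul_right_cancel₀ hd0 h1
  have hcard : Nat.card (inertia φ (mrees B J e) q) ≠ 0 := Nat.card_pos.ne'
  have hpow := Nat.eq_prime_pow_of_unique_prime_dvd hcard (fun {d} hd hdv => htame d hd hdv)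
  have hnd : ¬ p ^ 2 ∣ Nat.card (inertia φ (mrees B J e) q) := by
    refine hp2 (H86.res ev hBR) _ fun a ha c hc => ?_
    obtain ⟨-, -, ha3⟩ := hin a ha
    obtain ⟨h1, h2⟩ := (H86.mem_mx_iff hev).1 (ha3 c (hBR c.2))
    have h3 : (⟨φ a c - c, h1⟩ : R) = ⟨φ a c, hBR hc⟩ - ⟨c, hBR c.2⟩ := rfl
    rw [h3, map_sub, sub_eq_zero] at h2
    exact h2
  rw [hpow] at hnd
  have hle : (Nat.card (inertia φ (mrees B J e) q)).primeFactorsList.length ≤ 1 := by
    by_contra hlt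
    exact hnd (pow_dvd_pow p (by omega))
  rcases Nat.le_one_iff_eq_zero_or_eq_one.1 hle with h0 | h0
  · left
    rw [h0, pow_zero] at hpow
    exact (Subgroup.card_eq_one).1 hpow
  · right
    rw [h0, pow_one] at hpow
    exact hpow

end Pool.Agent.MP_b525bf_ag_S
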