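import Pool.Agent.Lib.MP_b525bf_ag_S.Rad

/-!
# S11: the first stage for the object of a curve
-/

set_option autoImplicit false

namespace Pool.Agent.MP_b525bf_ag_S

open Pool.Agent.MP_b525bf_ag_TS

variable {k K G : Type} [Field k] [Field K] [Algebra k K] [Group G] {B : Subalgebra k K}
  {φ : G →* (K ≃ₐ[k] K)}

theorem rad_stable (hφB : ∀ g, ∀ b ∈ B, φ g b ∈ B) {z₀ : B} (hφz : ∀ g, φ g z₀ = z₀) :
    ∀ g, ∀ w : B, w ∈ (Ideal.span {z₀}).radical →
      ∃ w' : B, w' ∈ (Ideal.span {z₀}).radical ∧ (w' : K) = φ g w := by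
  rintro g w ⟨n, hn⟩
  obtain ⟨v, hv⟩ := Ideal.mem_span_singleton.1 hn
  refine ⟨⟨φ g w, hφB g w w.2⟩, ⟨n, Ideal.mem_span_singleton.2
    ⟨⟨φ g v, hφB g v v.2⟩, Subtype.ext ?_⟩⟩, rfl⟩
  have h1 := congrArg (fun z : B => φ g (z : K)) hv
  push_cast at h1 ⊢
  rw [map_pow, map_mul, hφz] at h1
  exact h1

/-- The points of the model without blowing up. -/
theorem Init1.pt_empty {J : Empty → Ideal B} {R : Subalgebra k K} (h : Pt B J R) :
    ∃ χ : B →ₐ[k] k, R = ptLoc B χ := by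
  obtain ⟨h, -, χ, rfl⟩ := h
  have hC : chartF B J h = B := by
    unfold chartF
    have h1 : ((B : Set K) ∪ {z | ∃ i, ∃ w : B, w ∈ J i ∧ z = w / h i}) = (B : Set K) := by
      ext z
      constructor
      · rintro (h1 | ⟨i, -⟩)
        · exact h1
        · exact i.elim
      · exact Or.inl
    rw [h1, Algebra.adjoin_eq]
  revert χ
  rw [hC]
  exact fun χ => ⟨χ, rfl⟩

theorem exists_stage_cur [IsAlgClosed k] (p : ℕ) [Fact p.Prime] [CharP k p] (hB : B.FG)
    (hφB : ∀ g, ∀ b ∈ B, φ g b ∈ B)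
    (hreg : ∀ χ : B →ₐ[k] k, ∃ x y Dx Dy, Reg (ptLoc B χ) x y Dx Dy)
    {z₀ : B} (hz₀ : z₀ ≠ 0) (hφz : ∀ g, φ g z₀ = z₀) :
    ∃ (J : Empty → Ideal B) (e : Empty → Empty → ℤ) (HH : Unit → Set (Empty → ℤ)),
      Stage B φ (curS G B (Ideal.span {z₀}).radical) J e HH ∧ (HH ()).Subsingleton := by
  have _ := hφB
  have _ := hφz
  refine ⟨fun i => i.elim, fun i => i.elim, fun _ => Set.univ, ?_, Set.subsingleton_of_subsingleton⟩
  have hpt : ∀ R : Subalgebra k K, Pt B (fun i : Empty => i.elim) R →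
      ∃ χ : B →ₐ[k] k, R = ptLoc B χ := fun R hR => Init1.pt_empty hR
  have hN : ∀ (R : Subalgebra k K) (x y : K) (Dx Dy : Derivation k K K), Reg R x y Dx Dy →
      PtN B (fun i : Empty => i.elim) (fun i => i.elim) R (fun i => i.elim) x y Dx Dy false false
        (fun i => i.elim) := by
    intro R x y Dx Dy h
    refine ⟨fun i => i.elim, ?_⟩
    exact
      { gen := ⟨fun i => i.elim, fun i => i.elim⟩
        reg := h
        b0 := fun i => i.elim
        bx := fun i => i.elim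
        by' := fun i => i.elim
        s_iff := ⟨fun h => absurd h (by decide), fun ⟨i, _⟩ => i.elim⟩
        t_iff := ⟨fun h => absurd h (by decide), fun ⟨i, _⟩ => i.elim⟩
        inj := fun i => i.elim
        val := fun i => i.elim }
  refine ⟨⟨fun i => i.elim, fun d => ⟨d, Subsingleton.elim _ _⟩, fun g i => i.elim, ?_⟩,
    fun c => Set.toFinite _, fun g c => rfl, ?_⟩
  · intro R hR
    obtain ⟨χ, rfl⟩ := hpt R hR
    obtain ⟨x, y, Dx, Dy, h⟩ := hreg χ
    exact ⟨_, x, y, Dx, Dy, false, false, _, hN _ x y Dx Dy h⟩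
  · intro R hR
    obtain ⟨χ, rfl⟩ := hpt R hR
    obtain ⟨x, y, Dx, Dy, h⟩ := hreg χ
    refine ⟨_, x, y, Dx, Dy, false, false, _, hN _ x y Dx Dy h, ?_⟩
    intro c _
    refine ⟨⟨ptLoc_le B χ, rad_principal hB hz₀ χ h⟩, fun i => i.elim, trivial, ?_, trivial⟩
    rw [Finset.univ_eq_empty, Finset.prod_empty]
    exact rad_fin p hB hz₀ χ h

end Pool.Agent.MP_b525bf_ag_S
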