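import Pool.Agent.Lib.MP_b525bf_ag_TS.RegEt
import Pool.Agent.Lib.MP_b525bf_ag_TS.Change
import Pool.Agent.Lib.MP_b525bf_ag_X.Tame3
import Pool.Agent.Lib.MP_b525bf_ag.Transfer

/-!
# S10: coordinates on smooth affine surfaces
-/

set_option autoImplicit false

namespace Pool.Agent.MP_b525bf_ag_S

open Pool.Agent.MP_b525bf_ag Pool.Agent.MP_b525bf_ag_X Pool.Agent.MP_b525bf_ag_X.Rg
  Pool.Agent.MP_b525bf_ag_TS TensorProduct KaehlerDifferential

namespace RegB

/-- A basis of the cotangent space at a rational point. -/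
theorem exists_coords {k R : Type} [Field k] [CommRing R] [Algebra k R] [IsNoetherianRing R]
    (P : Ideal R) (hres : ∀ b : R, ∃ c : k, b - algebraMap k R c ∈ P) :
    ∃ (n : ℕ) (x : Fin n → R), (∀ i, x i ∈ P) ∧
      (∀ b ∈ P, ∃ c : Fin n → k, b - ∑ i, c i • x i ∈ P ^ 2) ∧
      ∀ c : Fin n → k, ∑ i, c i • x i ∈ P ^ 2 → c = 0 := by
  have h1 : Module.Finite R P.Cotangent :=
    Module.Finite.of_surjective P.toCotangent P.toCotangent_surjective
  have h2 : Module.Finite (R ⧸ P) P.Cotangent := Module.Finite.of_restrictScalars_finite R _ _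
  have h3 : Function.Surjective (algebraMap k (R ⧸ P)) := by
    intro z
    obtain ⟨b, rfl⟩ := Ideal.Quotient.mk_surjective z
    obtain ⟨c, hc⟩ := hres b
    refine ⟨c, ?_⟩
    rw [IsScalarTower.algebraMap_apply k R (R ⧸ P)]
    exact (Ideal.Quotient.eq.2 hc).symm
  have h4 : Module.Finite k (R ⧸ P) := Module.Finite.of_surjective (Algebra.linearMap k (R ⧸ P)) h3
  have htow : IsScalarTower k (R ⧸ P) P.Cotangent := by
    refine ⟨fun c q z => ?_⟩
    obtain ⟨r, rfl⟩ := Ideal.Quotient.mk_surjective q
    change (c • r) • z = c • r • z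
    rw [smul_assoc]
  have h5 : Module.Finite k P.Cotangent := Module.Finite.trans (R ⧸ P) P.Cotangent
  let b := Module.finBasis k P.Cotangent
  choose x hx using fun i => P.toCotangent_surjective (b i)
  have key : ∀ c : Fin (Module.finrank k P.Cotangent) → k,
      P.toCotangent (∑ i, c i • x i) = ∑ i, c i • b i := by
    intro c
    rw [map_sum]
    refine Finset.sum_congr rfl fun i _ => ?_
    rw [← hx i]
    exact (P.toCotangent.restrictScalars k).map_smul (c i) (x i)
  have hcoe : ∀ c : Fin (Module.finrank k P.Cotangent) → k,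
      ((∑ i, c i • x i : P) : R) = ∑ i, c i • (x i : R) := by
    intro c
    rw [AddSubmonoidClass.coe_finsetSum]
    rfl
  refine ⟨Module.finrank k P.Cotangent, fun i => x i, fun i => (x i).2, fun z hz => ?_,
    fun c hc => ?_⟩
  · refine ⟨fun i => b.repr (P.toCotangent ⟨z, hz⟩) i, ?_⟩
    have h6 := key fun i => b.repr (P.toCotangent ⟨z, hz⟩) i
    rw [b.sum_repr, eq_comm, Ideal.toCotangent_eq] at h6
    rw [← hcoe]
    exact h6
  · have h6 := key c
    have h7 : P.toCotangent (∑ i, c i • x i) = 0 := by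
      rw [Ideal.toCotangent_eq_zero, hcoe]
      exact hc
    rw [h7] at h6
    have h8 := Fintype.linearIndependent_iff.1 b.linearIndependent c h6.symm
    funext i
    exact h8 i

variable {k K : Type} [Field k] [Field K] [Algebra k K]

/-- Étale coordinates on the localisation as a subring. -/
theorem etale_awayB {C : Subalgebra k K} {n : ℕ} (x : Fin n → C) {f : K} (hf : f ∈ C)
    (hf0 : f ≠ 0) (het : (MvPolynomial.aeval (fun i => algebraMap C
      (Localization.Away (⟨f, hf⟩ : C)) (x i)) :
        MvPolynomial (Fin n) k →ₐ[k] Localization.Away (⟨f, hf⟩ : C)).toRingHom.Etale) :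
    (MvPolynomial.aeval (fun i => (⟨x i, le_awayB f hf (x i).2⟩ : awayB C f hf)) :
      MvPolynomial (Fin n) k →ₐ[k] awayB C f hf).toRingHom.Etale := by
  let i1 : Algebra C (awayB C f hf) := (Subalgebra.inclusion (le_awayB f hf)).toRingHom.toAlgebra
  have htow : IsScalarTower k C (awayB C f hf) := IsScalarTower.of_algebraMap_eq fun r => rfl
  have hloc : IsLocalization.Away (⟨f, hf⟩ : C) (awayB C f hf) := Chg.isLocalization hf hf0
  let e : Localization.Away (⟨f, hf⟩ : C) ≃ₐ[C] awayB C f hf :=
    IsLocalization.algEquiv (Submonoid.powers (⟨f, hf⟩ : C)) _ _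
  have h1 : e.toAlgHom.toRingHom.Etale := RingHom.Etale.of_bijective e.bijective
  have h2 := RingHom.Etale.stableUnderComposition _ _ het h1
  convert h2 using 1
  apply MvPolynomial.ringHom_ext
  · intro r
    change MvPolynomial.aeval _ (MvPolynomial.C r) =
      e (MvPolynomial.aeval _ (MvPolynomial.C r))
    rw [MvPolynomial.aeval_C, MvPolynomial.aeval_C,
      IsScalarTower.algebraMap_apply k C (Localization.Away (⟨f, hf⟩ : C)),
      IsScalarTower.algebraMap_apply k C (awayB C f hf), AlgEquiv.commutes]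
  · intro i
    change MvPolynomial.aeval _ (MvPolynomial.X i) =
      e (MvPolynomial.aeval _ (MvPolynomial.X i))
    rw [MvPolynomial.aeval_X, MvPolynomial.aeval_X, AlgEquiv.commutes]
    rfl

/-- The number of étale coordinates is the transcendence degree. -/
theorem card_eq_trdeg {C : Subalgebra k K} [IsFractionRing C K] {n : ℕ} (x : Fin n → C)
    (het : (MvPolynomial.aeval x : MvPolynomial (Fin n) k →ₐ[k] C).toRingHom.Etale) :
    Algebra.trdeg k K = n := by
  let A := MvPolynomial (Fin n) k
  let i1 : Algebra A C := (MvPolynomial.aeval x : A →ₐ[k] C).toRingHom.toAlgebra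
  have hinj : Function.Injective (algebraMap A C) := injective_of_etale _ het
  have t1 : IsScalarTower k A C :=
    IsScalarTower.of_algebraMap_eq' (MvPolynomial.aeval x).comp_algebraMap.symm
  let i2 : Algebra A K := ((algebraMap C K).comp (algebraMap A C)).toAlgebra
  have t2 : IsScalarTower A C K := IsScalarTower.of_algebraMap_eq fun _ => rfl
  have t3 : IsScalarTower k A K := by
    refine IsScalarTower.of_algebraMap_eq fun r => ?_
    change algebraMap k K r = algebraMap C K (algebraMap A C (algebraMap k A r))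
    rw [← IsScalarTower.algebraMap_apply k A C]
    rfl
  have hinj2 : Function.Injective (algebraMap A K) :=
    (FaithfulSMul.algebraMap_injective C K).comp hinj
  have f1 : FaithfulSMul A K := (faithfulSMul_iff_algebraMap_injective A K).2 hinj2
  let F := FractionRing A
  let i3 : Algebra F K := FractionRing.liftAlgebra A K
  have t4 : IsScalarTower A F K := FractionRing.isScalarTower_liftAlgebra A K
  have het' : Algebra.Etale A C := het
  have u1 : Algebra.FormallyUnramified C K :=
    Algebra.FormallyUnramified.of_isLocalization (nonZeroDivisors C)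
  have u2 : Algebra.FormallyUnramified A K := Algebra.FormallyUnramified.comp A C K
  have u3 : Algebra.FormallyUnramified F K := Algebra.FormallyUnramified.of_restrictScalars A F K
  have e1 : Algebra.EssFiniteType C K :=
    Algebra.EssFiniteType.of_isLocalization K (nonZeroDivisors C)
  have e2 : Algebra.EssFiniteType A K := Algebra.EssFiniteType.comp A C K
  have e3 : Algebra.EssFiniteType F K := Algebra.EssFiniteType.of_comp A F K
  have s1 : Algebra.IsSeparable F K := (Algebra.FormallyUnramified.iff_isSeparable F K).1 u3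
  have s2 : Algebra.IsAlgebraic F K := inferInstance
  have s3 : Algebra.IsAlgebraic A K := IsFractionRing.comap_isAlgebraic_iff.2 s2
  have h1 := trdeg_add_eq k A (A := K)
  rw [trdeg_eq_zero (R := A) (A := K), add_zero, MvPolynomial.trdeg_of_isDomain] at h1
  rw [← h1]
  simp

/-- The basis of the differentials of the fraction field. -/
theorem basis_frac {C : Subalgebra k K} [IsFractionRing C K] {n : ℕ} {x : Fin n → C}
    (b : Module.Basis (Fin n) C Ω[C⁄k]) (hb : ∀ i, b i = D k C (x i)) :
    ∃ bK : Module.Basis (Fin n) K Ω[K⁄k], ∀ i, bK i = D k K (x i : K) := by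
  have hfe : Algebra.FormallyEtale C K :=
    Algebra.FormallyEtale.of_isLocalization (nonZeroDivisors C)
  refine ⟨(b.baseChange K).map (tensorKaehlerEquivOfFormallyEtale k C K), fun i => ?_⟩
  rw [Module.Basis.map_apply, Module.Basis.baseChange_apply, hb,
      ← tensorKaehlerEquivOfFormallyEtale_symm_D_algebraMap k, LinearEquiv.apply_symm_apply]
  rfl

/-- The partial derivatives. -/
noncomputable def der (b : Module.Basis (Fin 2) K Ω[K⁄k]) (i : Fin 2) : Derivation k K K :=
  (b.coord i).compDer (D k K)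

theorem der_apply (b : Module.Basis (Fin 2) K Ω[K⁄k]) (i : Fin 2) (z : K) :
    der b i z = b.repr (D k K z) i := rfl

theorem der_basis (b : Module.Basis (Fin 2) K Ω[K⁄k]) {x y : K} (hx : b 0 = D k K x)
    (hy : b 1 = D k K y) (D' : Derivation k K K) : D' = D' x • der b 0 + D' y • der b 1 := by
  refine Derivation.ext fun z => ?_
  have h1 : ∀ w, D' w = D'.liftKaehlerDifferential (D k K w) := fun w => by
    rw [Derivation.liftKaehlerDifferential_comp_D]
  rw [Derivation.add_apply, Derivation.smul_apply, Derivation.smul_apply, smul_eq_mul,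
    smul_eq_mul, der_apply, der_apply, h1 z]
  conv_lhs => rw [← b.sum_repr (D k K z)]
  rw [map_sum, Fin.sum_univ_two, map_smul, map_smul, hx, hy, ← h1, ← h1, smul_eq_mul,
    smul_eq_mul]
  ring

theorem der_val (b : Module.Basis (Fin 2) K Ω[K⁄k]) {x y : K} (hx : b 0 = D k K x)
    (hy : b 1 = D k K y) : der b 0 x = 1 ∧ der b 0 y = 0 ∧ der b 1 x = 0 ∧ der b 1 y = 1 := by
  refine ⟨?_, ?_, ?_, ?_⟩
  · rw [der_apply, ← hx, b.repr_self, Finsupp.single_eq_same]
  · rw [der_apply, ← hy, b.repr_self, Finsupp.single_eq_of_ne (by decide)]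
  · rw [der_apply, ← hx, b.repr_self, Finsupp.single_eq_of_ne (by decide)]
  · rw [der_apply, ← hy, b.repr_self, Finsupp.single_eq_same]

theorem der_comm (b : Module.Basis (Fin 2) K Ω[K⁄k]) {x y : K} (hx : b 0 = D k K x)
    (hy : b 1 = D k K y) (z : K) : der b 0 (der b 1 z) = der b 1 (der b 0 z) := by
  obtain ⟨h1, h2, h3, h4⟩ := der_val b hx hy
  have h5 := der_basis b hx hy ⁅der b 0, der b 1⁆
  rw [Derivation.commutator_apply, Derivation.commutator_apply, h1, h2, h3, h4, map_zero, map_zero,
    Derivation.map_one_eq_zero, Derivation.map_one_eq_zero, sub_zero, zero_smul, zero_smul,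
    add_zero] at h5
  have h6 : ⁅der b 0, der b 1⁆ z = 0 := by rw [h5]; rfl
  rw [Derivation.commutator_apply] at h6
  exact sub_eq_zero.1 h6

theorem isFractionRing_of_le {B : Type} [CommRing B] [IsDomain B] [Algebra k B]
    {C : Subalgebra k (FractionRing B)} (hle : copy k B ≤ C) :
    IsFractionRing C (FractionRing B) := by
  refine IsFractionRing.of_field C (FractionRing B) fun z => ?_
  obtain ⟨a, b, rfl⟩ := IsLocalization.exists_mk'_eq (nonZeroDivisors B) z
  refine ⟨⟨algebraMap B _ a, hle ⟨a, rfl⟩⟩, ⟨algebraMap B _ b, hle ⟨b, rfl⟩⟩, ?_⟩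
  rw [IsFractionRing.mk'_eq_div]
  rfl

theorem trdeg_frac (B : Type) [CommRing B] [IsDomain B] [Algebra k B] :
    Algebra.trdeg k (FractionRing B) = Algebra.trdeg k B := by
  have h1 : Algebra.IsAlgebraic B (FractionRing B) :=
    (IsFractionRing.comap_isAlgebraic_iff (A := B) (K := FractionRing B)
      (C := FractionRing B)).2 inferInstance
  have h2 := trdeg_add_eq k B (A := FractionRing B)
  rw [trdeg_eq_zero (R := B) (A := FractionRing B), add_zero] at h2
  exact h2.symm

end RegB

open RegB

variable {k B : Type} [Field k] [IsAlgClosed k] [CommRing B] [IsDomain B] [Algebra k B]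
  [Algebra.Smooth k B]

omit [IsAlgClosed k] in
/-- Coordinates at the points of a smooth affine surface. -/
theorem exists_reg (h2 : Algebra.trdeg k B = 2) (χ : copy k B →ₐ[k] k) :
    ∃ x y Dx Dy, Reg (ptLoc (copy k B) χ) x y Dx Dy := by
  have hsm : Algebra.Smooth k (copy k B) := Algebra.Smooth.of_equiv (copyEquiv k B)
  have hft : Algebra.FiniteType k (copy k B) := inferInstance
  have hN : IsNoetherianRing (copy k B) := Algebra.FiniteType.isNoetherianRing k _
  let P : Ideal (copy k B) := RingHom.ker χ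
  have hP : P.IsPrime := RingHom.ker_isPrime χ
  have hres : ∀ b : copy k B, ∃ c : k, b - algebraMap k (copy k B) c ∈ P := fun b => ⟨χ b, by
    change χ _ = 0
    rw [map_sub, AlgHom.commutes]
    exact sub_self _⟩
  obtain ⟨n, x, hxP, hx1, hx2⟩ := exists_coords P hres
  obtain ⟨⟨f, hf⟩, hfP, hfe⟩ := exists_etale_of_coords P x hres hxP hx1 hx2
  have hf0 : f ≠ 0 := by
    rintro rfl
    exact hfP P.zero_mem
  have het := etale_awayB x hf hf0 (hfe _ dvd_rfl)
  have hfr : IsFractionRing (awayB (copy k B) f hf) (FractionRing B) :=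
    isFractionRing_of_le (le_awayB f hf)
  have hn : n = 2 := by
    have h3 := card_eq_trdeg _ het
    rw [trdeg_frac, h2] at h3
    exact_mod_cast h3.symm
  subst hn
  obtain ⟨χ', hχ', hpt⟩ := Chg.exists_point χ hf hfP
  obtain ⟨⟨b, hb⟩, -, -⟩ := basis_of_etale het
  obtain ⟨bK, hbK⟩ := basis_frac b hb
  obtain ⟨v1, v2, v3, v4⟩ := der_val bK (hbK 0) (hbK 1)
  have hvec : (fun i => (⟨x i, le_awayB f hf (x i).2⟩ : awayB (copy k B) f hf)) =
      ![⟨x 0, le_awayB f hf (x 0).2⟩, ⟨x 1, le_awayB f hf (x 1).2⟩] := by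
    funext i
    fin_cases i <;> rfl
  rw [hvec] at het
  have hb' : ∀ i, b i = D k (awayB (copy k B) f hf)
      ((![⟨x 0, le_awayB f hf (x 0).2⟩, ⟨x 1, le_awayB f hf (x 1).2⟩] :
        Fin 2 → awayB (copy k B) f hf) i) := by
    intro i
    rw [hb i, ← hvec]
  have hc := Chg.coeff (le_awayB f hf (x 0).2) (le_awayB f hf (x 1).2) v1 v2 v3 v4 b hb'
  have hxχ : ∀ i, χ' ⟨x i, le_awayB f hf (x i).2⟩ = 0 := fun i => by
    rw [hχ' _ (x i).2]
    exact hxP i
  rw [← hpt]
  exact ⟨x 0, x 1, der bK 0, der bK 1, Reg.of_etale χ' (le_awayB f hf (x 0).2)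
    (le_awayB f hf (x 1).2) (hxχ 0) (hxχ 1) het v1 v2 v3 v4
    (fun z hz => by rw [← (hc ⟨z, hz⟩).1]; exact Subtype.property _)
    (fun z hz => by rw [← (hc ⟨z, hz⟩).2]; exact Subtype.property _)
    (der_comm bK (hbK 0) (hbK 1)) (der_basis bK (hbK 0) (hbK 1))⟩

omit [IsAlgClosed k] [Algebra.Smooth k B] in
/-- A smooth domain of dimension at most one. -/
theorem isMaximal_of_trdeg (h1 : Algebra.trdeg k B ≤ 1) (P : Ideal B) (hP : P.IsPrime)
    (h0 : P ≠ ⊥) : P.IsMaximal := by
  obtain ⟨f, hfP, hf0⟩ := (Submodule.ne_bot_iff P).1 h0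
  have h2 : Algebra.IsAlgebraic k (B ⧸ P) := by
    refine ⟨fun z => ?_⟩
    obtain ⟨t, rfl⟩ := Ideal.Quotient.mk_surjective z
    by_contra htr
    have ht : Transcendental k t := by
      intro h3
      exact htr (IsAlgebraic.algHom (Ideal.Quotient.mkₐ k P) h3)
    have hind : AlgebraicIndependent k (fun _ : Unit => t) :=
      (algebraicIndependent_singleton_iff ()).2 ht
    have hbas := hind.isTranscendenceBasis_of_trdeg_le_of_finite (by simpa using h1)
    have halg := hbas.isAlgebraic
    have h4 := Ideal.comap_ne_bot_of_algebraic_mem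
      (R := Algebra.adjoin k (Set.range fun _ : Unit => t)) hf0 hfP (halg.isAlgebraic f)
    obtain ⟨⟨a, ha⟩, haP, ha0⟩ := (Submodule.ne_bot_iff _).1 h4
    rw [Set.range_const, Algebra.adjoin_singleton_eq_range_aeval] at ha
    obtain ⟨g, rfl⟩ := ha
    refine htr ⟨g, ?_, ?_⟩
    · rintro rfl
      apply ha0
      refine Subtype.ext ?_
      exact map_zero _
    · change Polynomial.aeval t g ∈ P at haP
      have h5 : Polynomial.aeval (Ideal.Quotient.mkₐ k P t) g =
          Ideal.Quotient.mkₐ k P (Polynomial.aeval t g) := by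
        rw [Polynomial.aeval_algHom_apply]
      exact h5.trans (Ideal.Quotient.eq_zero_iff_mem.2 haP)
  have h3 : Algebra.IsIntegral k (B ⧸ P) := Algebra.IsAlgebraic.isIntegral
  exact Ideal.Quotient.maximal_of_isField P (isField_of_isIntegral_of_isField' (R := k)
    (Field.toIsField k))

end Pool.Agent.MP_b525bf_ag_S
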