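import Pool.Agent.Lib.MP_b525bf_ag_S.HasP
import Pool.Agent.Lib.MP_b525bf_ag_S.RegB
import Pool.Agent.Lib.MP_b525bf_ag_S.Admissible
import Pool.Agent.Lib.MP_b525bf_ag_P.Main

/-!
# Theorem P2: products of curves, surfaces and varieties with linear inertia
-/

set_option autoImplicit false

namespace Pool.Agent.MP_b525bf_ag_S

open Pool.Agent.MP_b525bf_ag Pool.Agent.MP_b525bf_ag_W Pool.Agent.MP_b525bf_ag_X
  Pool.Agent.MP_b525bf_ag_P Pool.Agent.MP_b525bf_ag_TS TensorProduct

/-- The package of an action on a smooth affine variety of dimension at most two. -/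
theorem hasPkg_dim_two {k B : Type} [Field k] [IsAlgClosed k] [CommRing B] [IsDomain B]
    [Algebra k B] (p : ℕ) [Fact p.Prime] [CharP k p] [Algebra.Smooth k B]
    (h2 : Algebra.trdeg k B ≤ 2) (G : Subgroup (B ≃ₐ[k] B)) [Finite G]
    (hp : ∀ P : Ideal B, P.IsMaximal → ¬ p ^ 2 ∣ Nat.card (inertiaGroup G P)) :
    HasPkg p (copy k B) (fracHom.comp G.subtype) ⊥ := by
  obtain ⟨n, hn⟩ := Cardinal.lt_aleph0.1 (h2.trans_lt (Cardinal.natCast_lt_aleph0 (n := 2)))
  have hn2 : n ≤ 2 := by
    rw [hn] at h2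
    exact_mod_cast h2
  by_cases hn1 : n = 2
  · subst hn1
    have h3 : Algebra.trdeg k B = 2 := by rw [hn]; rfl
    have hφ : ∀ (g : G) (b : B), (fracHom.comp G.subtype) g (algebraMap B (FractionRing B) b) =
      algebraMap B (FractionRing B) ((g : B ≃ₐ[k] B) b) := fun g b => fracEquiv_algebraMap _ b
    have hinjK := IsFractionRing.injective B (FractionRing B)
    have hinj : Function.Injective (fracHom.comp G.subtype : G →* _) := by
      intro g h hgh
      refine Subtype.ext (AlgEquiv.ext fun b => hinjK ?_)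
      rw [← hφ, ← hφ, hgh]
    have hst : ∀ g, ∀ b ∈ copy k B, (fracHom.comp G.subtype) g b ∈ copy k B :=
      fun g => copy_stable _
    refine hasPkg_surface p copy_fg hst hinj exists_mul_eq (fun χ => exists_reg h3 χ) ?_
    intro χ E' hE' hdvd
    let P : Ideal B := RingHom.ker (χ.comp (copyEquiv k B).toAlgHom)
    have hPm : P.IsMaximal := RingHom.ker_isMaximal_of_surjective _ fun c =>
      ⟨algebraMap k B c, by simp⟩
    have h1 : E'.map G.subtype ≤ inertiaGroup G P := by
      rintro _ ⟨g, hg, rfl⟩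
      refine ⟨g.2, fun b => ?_⟩
      change χ (copyEquiv k B (g.1 b - b)) = 0
      have h4 := hE' g hg (copyEquiv k B b) (hst g _ (copyEquiv k B b).2)
      have h5 : (⟨(fracHom.comp G.subtype) g (copyEquiv k B b : FractionRing B),
          hst g _ (copyEquiv k B b).2⟩ : copy k B) = copyEquiv k B (g.1 b) :=
        Subtype.ext (hφ g b)
      rw [h5] at h4
      rw [map_sub, map_sub, h4, sub_self]
    refine hp P hPm (hdvd.trans ?_)
    have h6 := Subgroup.card_dvd_of_le h1
    rwa [Nat.card_congr (E'.equivMapOfInjective G.subtype G.subtype_injective).symm.toEquiv] at h6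
  · have h1 : Algebra.trdeg k B ≤ 1 := by
      rw [hn]
      exact_mod_cast (by omega : n ≤ 1)
    exact hasPkg_curve p (fun P hP hne => isMaximal_of_trdeg h1 P hP hne) G hp

/-- The package of a factor. -/
theorem rpkg_factor₂ {k G : Type} [Field k] [Group G] {B : Type} [CommRing B] [IsDomain B]
    [Algebra k B] [Algebra.Smooth k B]
    (p : ℕ) [Fact p.Prime] [Infinite k] [CharP k p] [Finite G] (ψ : G →* (B ≃ₐ[k] B))
    (h : Admissible2 p ψ.range) : RPkg p B ψ ψ.ker := by
  have hfinr : Finite ψ.range := Finite.of_surjective _ ψ.rangeRestrict_surjective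
  have hp : ∀ P : Ideal B, P.IsMaximal → ¬ p ^ 2 ∣ Nat.card (inertiaGroup ψ.range P) :=
    fun P hP => (h P hP).1
  have h1 : HasPkg p (copy k B) (fracHom.comp ψ.range.subtype) ⊥ := by
    by_cases hc : IsAlgClosed k ∧ Algebra.trdeg k B ≤ 2
    · obtain ⟨hk, hdim⟩ := hc
      exact hasPkg_dim_two p hdim ψ.range hp
    · have hlin : ∀ P : Ideal B, P.IsMaximal → inertiaGroup ψ.range P ≠ ⊥ →
          (IsAlgClosed k → p ∣ Nat.card (inertiaGroup ψ.range P)) → LinearAt ψ.range P :=
        fun P hP => (h P hP).2.resolve_left hc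
      refine hasPkg_etaleLinear p ψ.range (fun P hP hne => ?_) hp
      by_cases hk : IsAlgClosed k
      · by_cases h : p ∣ Nat.card (inertiaGroup ψ.range P)
        · exact hlin P hP hne fun _ => h
        · have hle : inertiaGroup ψ.range P ≤ ψ.range := fun g hg => hg.1
          have hfin : Finite (inertiaGroup ψ.range P) :=
            Finite.of_injective (Subgroup.inclusion hle) (Subgroup.inclusion_injective hle)
          exact exists_linear_coords_of_tame P (inertiaGroup ψ.range P) (fun g hg => hg.2)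
            (fun h0 => h ((CharP.cast_eq_zero_iff k p _).1 h0))
      · exact hlin P hP hne fun h => absurd h hk
  have h2 := hasPkg_comap (Fact.out : p.Prime) h1 ψ.rangeRestrict
  have h3 : (⊥ : Subgroup ψ.range).comap ψ.rangeRestrict = ψ.ker := by
    rw [← MonoidHom.ker_rangeRestrict]
    rfl
  rw [h3] at h2
  exact h2

/-- Theorem P2: quotients of products. -/
theorem hasResolution_products₂ {k G : Type} [Field k] [Group G] (p : ℕ) [Fact p.Prime]
    [Infinite k] [CharP k p] [Finite G]
    (n : ℕ) (B : Fin n → Type) [∀ i, CommRing (B i)] [∀ i, IsDomain (B i)]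
    [∀ i, Algebra k (B i)] [∀ i, Algebra.Smooth k (B i)]
    (hk : IsAlgClosed k ∨ IsDomain (⨂[k] i, B i)) (ψ : ∀ i, G →* (B i ≃ₐ[k] B i))
    (h : ∀ i, Admissible2 p (ψ i).range) : HasResolution k (invRing (tensorAct B ψ)) := by
  have hdom : IsDomain (⨂[k] i, B i) := isDomain_of_or n B hk
  -- the image of `G` in the product of the automorphism groups
  let Ψ : G →* (∀ i, B i ≃ₐ[k] B i) := MonoidHom.pi ψ
  have hfinr : Finite Ψ.range := Finite.of_surjective _ Ψ.rangeRestrict_surjective
  let ψ' : ∀ i, Ψ.range →* (B i ≃ₐ[k] B i) := fun i =>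
    (Pi.evalMonoidHom (fun i => B i ≃ₐ[k] B i) i).comp Ψ.range.subtype
  have hrange : ∀ i, (ψ' i).range = (ψ i).range := by
    intro i
    have h4 : ((ψ' i).comp Ψ.rangeRestrict).range = (ψ' i).range := by
      rw [MonoidHom.range_comp, MonoidHom.range_eq_top.2 Ψ.rangeRestrict_surjective,
        ← MonoidHom.range_eq_map]
    exact h4.symm
  have h1 : RPkg p (⨂[k] i, B i) (tensorAct B ψ') (⨅ i, (ψ' i).ker) := by
    refine rpkg_pi Fact.out n B ψ' _ fun i => rpkg_factor₂ p (ψ' i) ?_
    rw [hrange]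
    exact h i
  have h2 : (⨅ i, (ψ' i).ker) = ⊥ := by
    rw [eq_bot_iff]
    intro g hg
    rw [Subgroup.mem_iInf] at hg
    rw [Subgroup.mem_bot]
    refine Subtype.ext (funext fun i => ?_)
    exact hg i
  rw [h2] at h1
  have h3 : invRing (tensorAct B ψ) = invRing (tensorAct B ψ') := by
    refine SetLike.ext fun b => ?_
    constructor
    · rintro hb ⟨_, g, rfl⟩
      exact hb g
    · intro hb g
      exact hb (Ψ.rangeRestrict g)
  rw [h3]
  exact h1.hasResolution Fact.out

/-- Theorem P2. -/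
theorem hasResolution_tensorInv₂ {k : Type} [Field k] (p : ℕ) [Fact p.Prime] [Infinite k]
    [CharP k p] (n : ℕ) (B : Fin n → Type) [∀ i, CommRing (B i)] [∀ i, IsDomain (B i)]
    [∀ i, Algebra k (B i)] [∀ i, Algebra.Smooth k (B i)]
    (hk : IsAlgClosed k ∨ IsDomain (⨂[k] i, B i))
    (G : Subgroup (∀ i, B i ≃ₐ[k] B i)) [Finite G] (h : ∀ i, Admissible2 p (factorGroup G i)) :
    HasResolution k (tensorInv G) := by
  let ψ : ∀ i, G →* (B i ≃ₐ[k] B i) := fun i =>
    (Pi.evalMonoidHom (fun i => B i ≃ₐ[k] B i) i).comp G.subtype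
  have hrange : ∀ i, (ψ i).range = factorGroup G i := fun i => by
    change ((Pi.evalMonoidHom (fun i => B i ≃ₐ[k] B i) i).comp G.subtype).range = _
    rw [MonoidHom.range_comp, Subgroup.range_subtype]
    rfl
  have h1 : invRing (tensorAct B ψ) = tensorInv G := by
    rw [tensorInv_eq]
    refine SetLike.ext fun b => ⟨?_, ?_⟩
    · rintro hb _ ⟨g, hg, rfl⟩
      exact hb ⟨g, hg⟩
    · intro hb g
      exact hb _ ⟨g.1, g.2, rfl⟩
  have h2 : HasResolution k (invRing (tensorAct B ψ)) :=
    hasResolution_products₂ p n B hk ψ fun i => by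
      rw [hrange]
      exact h i
  rw [h1] at h2
  exact h2

end Pool.Agent.MP_b525bf_ag_S
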