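import Pool.Agent.Lib.MP_b525bf_ag_S.Trans

/-!
# S1: blowing up of a finite set of points
-/

set_option autoImplicit false

namespace Pool.Agent.MP_b525bf_ag_S

open Pool.Agent.MP_b525bf_ag_TS

variable {k K G : Type} [Field k] [Field K] [Algebra k K] [Group G] {B : Subalgebra k K}
  {E : Type} [Fintype E] {J : E → Ideal B}

/-- `I'` generates the maximal ideals of the points in `S` and the unit ideal at the other
points. -/
structure IsCenterS (B : Subalgebra k K) (J : E → Ideal B) (S : Set (Subalgebra k K)) (c : ℕ)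
    (I' : Ideal B) : Prop where
  ne : I' ≠ ⊥
  mem : ∀ R, Pt B J R → ∀ h, GenAt B J R h → ∀ w ∈ I', (w : K) / (∏ i, h i) ^ c ∈ R
  other : ∀ R, Pt B J R → R ∉ S → ∀ h, GenAt B J R h → ∃ w ∈ I',
    UnitIn R ((w : K) / (∏ i, h i) ^ c)
  max : ∀ R ∈ S, ∀ h, GenAt B J R h → ∀ w ∈ I', (w : K) / (∏ i, h i) ^ c ∈ mx R
  gen : ∀ R ∈ S, ∀ h, GenAt B J R h → ∀ z ∈ mx R, z ∈ Submodule.span R
    {v : K | ∃ w ∈ I', v = (w : K) / (∏ i, h i) ^ c}

open H86 in
/-- The ideal of the sections which vanish at the points in `S`. -/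
def cenS (B : Subalgebra k K) (J : E → Ideal B) (S : Set (Subalgebra k K)) (c : ℕ) : Ideal B where
  carrier := {w | ∀ R, Pt B J R → ∀ h, GenAt B J R h → (w : K) / (∏ i, h i) ^ c ∈ R ∧
    (R ∈ S → (w : K) / (∏ i, h i) ^ c ∈ mx R)}
  zero_mem' := fun R _ h _ => by
    rw [ZeroMemClass.coe_zero, zero_div]
    exact ⟨R.zero_mem, fun _ => mx_zero R⟩
  add_mem' := fun {w w'} hw hw' R hR h hh => by
    obtain ⟨ev, hev⟩ := Pt.exists_ev hR
    have h1 : ((w + w' : B) : K) / (∏ i, h i) ^ c = (w : K) / (∏ i, h i) ^ c +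
        (w' : K) / (∏ i, h i) ^ c := by
      push_cast
      rw [add_div]
    rw [h1]
    exact ⟨R.add_mem (hw R hR h hh).1 (hw' R hR h hh).1, fun hRS =>
      mx_add hev ((hw R hR h hh).2 hRS) ((hw' R hR h hh).2 hRS)⟩
  smul_mem' := fun b w hw R hR h hh => by
    obtain ⟨ev, hev⟩ := Pt.exists_ev hR
    have h1 : ((b • w : B) : K) / (∏ i, h i) ^ c = (w : K) / (∏ i, h i) ^ c * b := by
      rw [smul_eq_mul]
      push_cast
      ring
    rw [h1]
    exact ⟨R.mul_mem (hw R hR h hh).1 (Pt.le_R hR b.2), fun hRS =>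
      mx_mul hev ((hw R hR h hh).2 hRS) (Pt.le_R hR b.2)⟩

theorem mem_mx_tr {φ : G →* (K ≃ₐ[k] K)} {R : Subalgebra k K} {g : G} {z : K} (hz : z ∈ mx R) :
    φ g z ∈ mx (tr φ g R) := by
  have h1 : φ g⁻¹ (φ g z) = z := by
    rw [← AlgEquiv.mul_apply, ← map_mul, inv_mul_cancel, map_one, AlgEquiv.one_apply]
  refine ⟨mem_tr.2 (by rw [h1]; exact hz.1), ?_⟩
  rcases hz.2 with h | h
  · exact Or.inl (by rw [h, map_zero])
  · right
    intro h2
    rw [mem_tr, map_inv₀, h1] at h2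
    exact h h2

theorem cenS_stable (φ : G →* (K ≃ₐ[k] K)) (hφB : ∀ g, ∀ b ∈ B, φ g b ∈ B)
    (hst : ∀ g i, ∀ w : B, w ∈ J i → ∃ w' : B, w' ∈ J i ∧ (w' : K) = φ g w)
    {S : Set (Subalgebra k K)} (hSg : ∀ g, ∀ R ∈ S, tr φ g R ∈ S) {c : ℕ} (g : G) (w : B)
    (hw : w ∈ cenS B J S c) : ∃ w' : B, w' ∈ cenS B J S c ∧ (w' : K) = φ g w := by
  refine ⟨⟨φ g w, hφB g w w.2⟩, fun R hR h hh => ?_, rfl⟩
  have hR' : Pt B J (tr φ g⁻¹ R) := pt_tr hφB hst g⁻¹ hR
  have hh' := genAt_tr hφB hst g⁻¹ hh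
  obtain ⟨h1, h2⟩ := hw _ hR' _ hh'
  have hgg : ∀ z : K, φ g (φ g⁻¹ z) = z := fun z => by
    rw [← AlgEquiv.mul_apply, ← map_mul, mul_inv_cancel, map_one, AlgEquiv.one_apply]
  have h3 : φ g ((w : K) / (∏ i, φ g⁻¹ (h i)) ^ c) = φ g w / (∏ i, h i) ^ c := by
    rw [map_div₀, map_pow, map_prod]
    simp only [hgg]
  have h4 : tr φ g (tr φ g⁻¹ R) = R := by
    rw [← tr_mul, mul_inv_cancel, tr_one]
  refine ⟨?_, fun hRS => ?_⟩
  · change φ g w / (∏ i, h i) ^ c ∈ R
    rw [← h3, ← h4]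
    exact ⟨_, h1, rfl⟩
  · change φ g w / (∏ i, h i) ^ c ∈ mx R
    rw [← h3, ← h4]
    exact mem_mx_tr (h2 (hSg _ R hRS))

open H86 in
theorem exists_centerS' (hB : B.FG) (hJ : ∀ i, J i ≠ ⊥)
    {S : Set (Subalgebra k K)} (hS : S.Finite) (hSP : ∀ R ∈ S, Pt B J R)
    (hreg : ∀ R ∈ S, ∃ x y Dx Dy, Reg R x y Dx Dy) :
    ∃ c : ℕ, IsCenterS B J S c (cenS B J S c) := by
  classical
  have h1 : ∀ R : S, ∃ (c : ℕ) (I' : Ideal B), IsCenter B J R.1 c I' := by
    intro R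
    obtain ⟨x, y, Dx, Dy, hr⟩ := hreg R.1 R.2
    exact exists_center hB hJ (hSP R.1 R.2) hr
  choose c I hI using h1
  have hfin : Fintype S := hS.fintype
  -- the products
  have hprod : ∀ w : S → B, ∀ u : K, ((∏ R, w R : B) : K) / u ^ (∑ R, c R) =
      ∏ R, ((w R : K) / u ^ c R) := by
    intro w u
    rw [Finset.prod_div_distrib, Finset.prod_pow_eq_pow_sum]
    push_cast
    rfl
  have hw : ∀ w : S → B, (∀ R, w R ∈ I R) → (∏ R, w R : B) ∈ cenS B J S (∑ R, c R) := by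
    intro w hw R hR h hh
    have h2 : ∀ R', (w R' : K) / (∏ i, h i) ^ c R' ∈ R := fun R' =>
      (hI R').mem R hR h hh _ (hw R')
    rw [hprod]
    refine ⟨R.prod_mem fun R' _ => h2 R', fun hRS => ?_⟩
    obtain ⟨ev, hev⟩ := Pt.exists_ev hR
    rw [← Finset.mul_prod_erase Finset.univ _ (Finset.mem_univ (⟨R, hRS⟩ : S))]
    exact mx_mul hev ((hI ⟨R, hRS⟩).max h hh _ (hw _)) (R.prod_mem fun R' _ => h2 R')
  refine ⟨∑ R, c R, ?_, ?_, ?_, ?_, ?_⟩
  · intro h0
    have h2 : ∀ R, ∃ w ∈ I R, w ≠ 0 := fun R => by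
      by_contra hcon
      push Not at hcon
      exact (hI R).ne ((Submodule.eq_bot_iff _).2 hcon)
    choose w hwI hw0 using h2
    have h3 := hw w hwI
    rw [h0, Ideal.mem_bot] at h3
    exact Finset.prod_ne_zero_iff.2 (fun R _ => hw0 R) h3
  · intro R hR h hh w hw
    exact (hw R hR h hh).1
  · intro R hR hRS h hh
    have h2 : ∀ R' : S, ∃ w ∈ I R', UnitIn R ((w : K) / (∏ i, h i) ^ c R') := fun R' =>
      (hI R').other R hR (fun h => hRS (h ▸ R'.2)) h hh
    choose w hwI hwu using h2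
    refine ⟨_, hw w hwI, ?_⟩
    rw [hprod]
    exact UnitIn.prod _ fun R' _ => hwu R'
  · intro R hRS h hh w hw
    exact (hw R (hSP R hRS) h hh).2 hRS
  · intro R hRS h hh z hz
    have hR := hSP R hRS
    have h2 : ∀ R' : S, R' ≠ ⟨R, hRS⟩ → ∃ w ∈ I R', UnitIn R ((w : K) / (∏ i, h i) ^ c R') :=
      fun R' hne => (hI R').other R hR (fun h => hne (Subtype.ext h.symm)) h hh
    have h2' : ∀ R' : S, ∃ w : B, R' ≠ ⟨R, hRS⟩ → w ∈ I R' ∧
        UnitIn R ((w : K) / (∏ i, h i) ^ c R') := by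
      intro R'
      by_cases hne : R' = ⟨R, hRS⟩
      · exact ⟨0, fun h => absurd hne h⟩
      · obtain ⟨w, h3, h4⟩ := h2 R' hne
        exact ⟨w, fun _ => ⟨h3, h4⟩⟩
    choose w hwI using h2'
    have hU : UnitIn R (∏ R' ∈ Finset.univ.erase (⟨R, hRS⟩ : S),
        ((w R' : K) / (∏ i, h i) ^ c R')) :=
      UnitIn.prod _ fun R' hR' => (hwI R' (Finset.ne_of_mem_erase hR')).2
    set U := ∏ R' ∈ Finset.univ.erase (⟨R, hRS⟩ : S), ((w R' : K) / (∏ i, h i) ^ c R') with hUdef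
    have h3 := (hI ⟨R, hRS⟩).gen h hh z hz
    clear hz
    induction h3 using Submodule.span_induction with
    | mem v hv =>
      obtain ⟨w₁, hw₁, rfl⟩ := hv
      let w' : S → B := fun R' => if R' = ⟨R, hRS⟩ then w₁ else w R'
      have hw' : ∀ R', w' R' ∈ I R' := by
        intro R'
        by_cases hne : R' = ⟨R, hRS⟩
        · subst hne
          simp only [w', if_pos rfl]
          exact hw₁
        · simp only [w', if_neg hne]
          exact (hwI R' hne).1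
      have h4 : ((∏ R', w' R' : B) : K) / (∏ i, h i) ^ (∑ R', c R') =
          (w₁ : K) / (∏ i, h i) ^ c ⟨R, hRS⟩ * U := by
        rw [hprod, ← Finset.mul_prod_erase Finset.univ _ (Finset.mem_univ (⟨R, hRS⟩ : S)), hUdef]
        congr 1
        · simp only [w', if_pos rfl]
        · refine Finset.prod_congr rfl fun R' hR' => ?_
          simp only [w', if_neg (Finset.ne_of_mem_erase hR')]
      have h5 : (w₁ : K) / (∏ i, h i) ^ c ⟨R, hRS⟩ =
          (⟨U⁻¹, hU.2.2⟩ : R) • (((∏ R', w' R' : B) : K) / (∏ i, h i) ^ (∑ R', c R')) := by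
        rw [h4]
        change _ = U⁻¹ * _
        have := hU.1
        field_simp
      rw [h5]
      exact Submodule.smul_mem _ _ (Submodule.subset_span ⟨_, hw w' hw', rfl⟩)
    | zero => exact Submodule.zero_mem _
    | add a b _ _ ha hb => exact Submodule.add_mem _ ha hb
    | smul a b _ hb => exact Submodule.smul_mem _ _ hb

/-- There is a center for every finite set of points; it is stable under the group if the set of
points is. -/
theorem exists_centerS (φ : G →* (K ≃ₐ[k] K)) (hB : B.FG) (hφB : ∀ g, ∀ b ∈ B, φ g b ∈ B)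
    (hJ : ∀ i, J i ≠ ⊥)
    (hst : ∀ g i, ∀ w : B, w ∈ J i → ∃ w' : B, w' ∈ J i ∧ (w' : K) = φ g w)
    {S : Set (Subalgebra k K)} (hS : S.Finite) (hSP : ∀ R ∈ S, Pt B J R)
    (hreg : ∀ R ∈ S, ∃ x y Dx Dy, Reg R x y Dx Dy) (hSg : ∀ g, ∀ R ∈ S, tr φ g R ∈ S) :
    ∃ (c : ℕ) (I' : Ideal B), IsCenterS B J S c I' ∧
      ∀ g, ∀ w : B, w ∈ I' → ∃ w' : B, w' ∈ I' ∧ (w' : K) = φ g w := by
  obtain ⟨c, hc⟩ := exists_centerS' hB hJ hS hSP hreg
  exact ⟨c, cenS B J S c, hc, cenS_stable φ hφB hst hSg⟩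

open H86 in
/-- The points of the blowing up. -/
theorem pt_blowS {S : Set (Subalgebra k K)} {c : ℕ} {I' : Ideal B} (hJ : ∀ i, J i ≠ ⊥)
    (hSP : ∀ R ∈ S, Pt B J R) (hc : IsCenterS B J S c I') {R' : Subalgebra k K}
    (hR' : Pt B (optJ J I') R') :
    (Pt B J R' ∧ R' ∉ S ∧ ∀ h', GenAt B (optJ J I') R' h' →
      GenAt B J R' (fun i => h' (some i)) ∧
        UnitIn R' (h' none / (∏ i, h' (some i)) ^ c)) ∨
    ∃ R₀ ∈ S, R₀ ≤ R' ∧ ∀ x y Dx Dy, Reg R₀ x y Dx Dy →
      (∃ c' : k, QT R₀ R' x y c' ∧ ∀ h', GenAt B (optJ J I') R' h' →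
        UnitIn R' (h' none / (∏ i, h' (some i)) ^ c / x) ∧
          ∀ h, GenAt B J R₀ h → ∀ i, UnitIn R' (h' (some i) / h i)) ∨
      (QT R₀ R' y x 0 ∧ ∀ h', GenAt B (optJ J I') R' h' →
        UnitIn R' (h' none / (∏ i, h' (some i)) ^ c / y) ∧
          ∀ h, GenAt B J R₀ h → ∀ i, UnitIn R' (h' (some i) / h i)) := by
  classical
  obtain ⟨h₁, hT₁, χ', hR'χ⟩ := id hR'
  obtain ⟨ev', hev'⟩ := Pt.exists_ev hR'
  have hfrac : ∀ z ∈ R', ∃ a ∈ chartF B (optJ J I') h₁, ∃ b ∈ chartF B (optJ J I') h₁,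
      UnitIn R' b ∧ z * b = a := by
    intro z hz
    have hz' : z ∈ ptLoc (chartF B (optJ J I') h₁) χ' := by rw [← hR'χ]; exact hz
    have h1 := ptLoc_frac hz'
    rw [← hR'χ] at h1
    exact h1
  have hC'R : chartF B (optJ J I') h₁ ≤ R' := by
    rw [hR'χ]
    exact le_ptLoc _ _
  have hh₁ : GenAt B (optJ J I') R' h₁ :=
    ⟨hT₁, fun i w hw => hC'R (Algebra.subset_adjoin (Or.inr ⟨i, w, hw, rfl⟩))⟩
  have hTh : TupIn B J (fun i => h₁ (some i)) := fun i => hT₁ (some i)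
  have hCC' : chartF B J (fun i => h₁ (some i)) ≤ chartF B (optJ J I') h₁ := by
    apply Algebra.adjoin_mono
    rintro z (hz | ⟨i, w, hw, rfl⟩)
    · exact Or.inl hz
    · exact Or.inr ⟨some i, w, hw, rfl⟩
  have hCR' : chartF B J (fun i => h₁ (some i)) ≤ R' := hCC'.trans hC'R
  obtain ⟨R'', hR''⟩ : ∃ R'', R'' = ptLoc (chartF B J (fun i => h₁ (some i))) (res ev' hCR') :=
    ⟨_, rfl⟩
  have hPt : Pt B J R'' := ⟨_, hTh, _, hR''⟩
  have hCR'' : chartF B J (fun i => h₁ (some i)) ≤ R'' := by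
    rw [hR'']; exact le_ptLoc _ _
  have hGen : GenAt B J R'' (fun i => h₁ (some i)) :=
    ⟨hTh, fun i w hw => hCR'' (Algebra.subset_adjoin (Or.inr ⟨i, w, hw, rfl⟩))⟩
  have hR''R' : R'' ≤ R' := by
    rw [hR'']; exact ptLoc_le hev' hCR'
  have hunit : ∀ z ∈ R'', UnitIn R' z → UnitIn R'' z := by
    intro z hz hu
    rw [hR''] at hz ⊢
    exact unit_of_unit hev' hCR' hz hu
  obtain ⟨hne0, w0, hw0, hw0'⟩ := hT₁ none
  have hw0I : w0 ∈ I' := hw0
  have hg := prod_ne hTh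
  obtain ⟨u, hu⟩ : ∃ u, u = h₁ none / (∏ i, h₁ (some i)) ^ c := ⟨_, rfl⟩
  have hu0 : u ≠ 0 := by
    rw [hu]; exact div_ne_zero hne0 (pow_ne_zero _ hg)
  have huR'' : u ∈ R'' := by
    rw [hu, ← hw0']
    exact hc.mem R'' hPt _ hGen w0 hw0I
  have hIu : ∀ v ∈ I', (v : K) / (∏ i, h₁ (some i)) ^ c / u ∈ chartF B (optJ J I') h₁ := by
    intro v hv
    have h1 : (v : K) / (∏ i, h₁ (some i)) ^ c / u = v / h₁ none := by
      rw [hu]; field_simp
    rw [h1]
    exact Algebra.subset_adjoin (Or.inr ⟨none, v, hv, rfl⟩)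
  by_cases hRR : R'' ∈ S
  · right
    refine ⟨R'', hRR, hR''R', fun x y Dx Dy hreg => ?_⟩
    obtain ⟨R₀, hRR₀⟩ : ∃ R₀, R'' = R₀ := ⟨_, rfl⟩
    have hRS : R₀ ∈ S := hRR₀ ▸ hRR
    have hR₀ : Pt B J R₀ := hRR₀ ▸ hPt
    rw [hRR₀] at hreg
    rw [hRR₀]
    have hGen₀ : GenAt B J R₀ (fun i => h₁ (some i)) := by rw [← hRR₀]; exact hGen
    have hR₀R' : R₀ ≤ R' := by rw [← hRR₀]; exact hR''R'
    obtain ⟨ev₀, hev₀⟩ := Pt.exists_ev hR₀
    have humx : u ∈ mx R₀ := by
      rw [hu, ← hw0']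
      exact hc.max _ hRS _ hGen₀ w0 hw0I
    have hmxu : ∀ S : Subalgebra k K, R₀ ≤ S → (∀ v ∈ I',
        (v : K) / (∏ i, h₁ (some i)) ^ c / u ∈ S) → ∀ z ∈ mx R₀, z / u ∈ S := by
      intro S hS hv z hz
      have h1 := hc.gen _ hRS _ hGen₀ z hz
      clear hz
      induction h1 using Submodule.span_induction with
      | mem x hx =>
        obtain ⟨w, hw, rfl⟩ := hx
        exact hv w hw
      | zero => rw [zero_div]; exact S.zero_mem
      | add x y _ _ hx hy => rw [add_div]; exact S.add_mem hx hy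
      | smul a x _ hx =>
        have h2 : (a • x : K) = (a : K) * x := rfl
        rw [h2, mul_div_assoc]
        exact S.mul_mem (hS a.2) hx
    have hmxu' : ∀ z ∈ mx R₀, z / u ∈ R' :=
      hmxu R' hR₀R' fun v hv => hC'R (hIu v hv)
    have hdec : ∀ z ∈ mx R₀, ∃ a ∈ R₀, ∃ b ∈ R₀, z = x * a + y * b := by
      intro z hz
      by_contra hcon
      push Not at hcon
      rcases hz.2 with h3 | h3
      · exact hcon 0 R₀.zero_mem 0 R₀.zero_mem (by rw [h3]; ring)
      · exact h3 (hreg.inv z hz.1 hcon)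
    have hxm : x ∈ mx R₀ := by
      refine ⟨hreg.hx, ?_⟩
      by_contra hcon
      push Not at hcon
      exact hreg.one x⁻¹ hcon.2 0 R₀.zero_mem (by rw [mul_inv_cancel₀ hcon.1]; ring)
    have hym : y ∈ mx R₀ := by
      refine ⟨hreg.hy, ?_⟩
      by_contra hcon
      push Not at hcon
      exact hreg.one 0 R₀.zero_mem y⁻¹ hcon.2 (by rw [mul_inv_cancel₀ hcon.1]; ring)
    have hcomb : ∀ a ∈ R₀, ∀ b ∈ R₀, x * a + y * b ∈ mx R₀ := fun a ha b hb =>
      mx_add hev₀ (mx_mul hev₀ hxm ha) (mx_mul hev₀ hym hb)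
    -- the maximal ideal of `R₀` is contained in the one of `R'`
    have hmm : ∀ z ∈ mx R₀, z ∈ mx R' := by
      intro z hz
      rcases unit_or_mx (hR₀R' hz.1) with h1 | h1
      · exfalso
        have h2 := hunit z (by rw [hRR₀]; exact hz.1) h1
        rw [hRR₀] at h2
        exact not_mx_of_unit hev₀ h2 hz
      · exact h1
    -- comparison of the generators
    have hcmp : ∀ h', GenAt B (optJ J I') R' h' →
        (∀ z, UnitIn R' (u / z) → UnitIn R' (h' none / (∏ i, h' (some i)) ^ c / z)) ∧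
        ∀ h, GenAt B J R₀ h → ∀ i, UnitIn R' (h' (some i) / h i) := by
      intro h' hh'
      have h2 : ∀ j, UnitIn R' (h' j / h₁ j) := fun j => GenAt.unit hh₁ hh' j
      have h3 : ∀ j, h₁ j ≠ 0 := fun j => (hT₁ j).1
      have h3' : ∀ j, h' j ≠ 0 := fun j => (hh'.1 j).1
      refine ⟨fun z hz => ?_, fun h hh i => ?_⟩
      · have hz0 : z ≠ 0 := by
          rintro rfl
          apply hz.1
          rw [div_zero]
        have hPU : UnitIn R' (∏ i, (h' (some i) / h₁ (some i))) := by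
          have : ∀ s : Finset E, UnitIn R' (∏ i ∈ s, (h' (some i) / h₁ (some i))) := by
            intro s
            induction s using Finset.induction_on with
            | empty =>
              rw [Finset.prod_empty]
              exact ⟨one_ne_zero, R'.one_mem, by rw [inv_one]; exact R'.one_mem⟩
            | insert i s hi ih =>
              rw [Finset.prod_insert hi]
              exact (h2 (some i)).mul ih
          exact this _
        have hPU' : UnitIn R' ((∏ i, (h' (some i) / h₁ (some i))) ^ c) :=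
          ⟨pow_ne_zero _ hPU.1, R'.pow_mem hPU.2.1 c, by
            rw [← inv_pow]; exact R'.pow_mem hPU.2.2 c⟩
        have h4 : h' none / (∏ i, h' (some i)) ^ c / z =
            u / z * (h' none / h₁ none) * ((∏ i, (h' (some i) / h₁ (some i))) ^ c)⁻¹ := by
          rw [Finset.prod_div_distrib, hu, div_pow]
          have h5 := prod_ne (J := J) (B := B) (h := fun i => h' (some i))
            (fun i => hh'.1 (some i))
          have h6 := h3 none
          field_simp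
        rw [h4]
        exact (hz.mul (h2 none)).mul hPU'.inv
      · have h4 : UnitIn R₀ (h₁ (some i) / h i) := GenAt.unit hh hGen₀ i
        have h5 : h' (some i) / h i = h' (some i) / h₁ (some i) * (h₁ (some i) / h i) := by
          have h6 := h3 (some i)
          field_simp
        rw [h5]
        exact (h2 (some i)).mul (UnitIn.mono hR₀R' h4)
    have hC''x : ∀ S : Subalgebra k K, R₀ ≤ S →
        (∀ a ∈ R₀, ∀ b ∈ R₀, (x * a + y * b) / u ∈ S) → chartF B (optJ J I') h₁ ≤ S := by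
      intro S hS hab
      unfold chartF
      rw [Algebra.adjoin_le_iff]
      rintro z (hz | ⟨i, w, hw, rfl⟩)
      · exact hS (Pt.le_R hR₀ hz)
      · cases i with
        | some i => exact hS (hGen₀.2 i w hw)
        | none =>
          have h1 : (w : K) / h₁ none = (w : K) / (∏ i, h₁ (some i)) ^ c / u := by
            rw [hu]; field_simp
          have h2 := hc.max _ hRS _ hGen₀ w hw
          obtain ⟨a, ha, b, hb, hab'⟩ := hdec _ h2
          rw [h1, hab']
          exact hab a ha b hb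
    obtain ⟨a, ha, b, hb, hab⟩ := hdec u humx
    by_cases hxu : UnitIn R' (x / u)
    · left
      obtain ⟨hyx, hQT⟩ := qt_case hev' hR₀R' hfrac (hmm x hxm) ⟨a, ha, b, hb, hab⟩ hxu
        (hmxu' y hym) hC''x
      refine ⟨_, hQT, fun h' hh' => ?_⟩
      obtain ⟨h4, h5⟩ := hcmp h' hh'
      refine ⟨h4 x ?_, h5⟩
      rw [← inv_div]
      exact hxu.inv
    · right
      have hyu : UnitIn R' (y / u) := by
        have h1 : UnitIn R' (a * (x / u) + b * (y / u)) := by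
          have h2 : a * (x / u) + b * (y / u) = 1 := by
            have h3 : a * (x / u) + b * (y / u) = (x * a + y * b) / u := by ring
            rw [h3, ← hab, div_self hu0]
          rw [h2]
          exact ⟨one_ne_zero, R'.one_mem, by rw [inv_one]; exact R'.one_mem⟩
        rcases unitIn_add hev' (R'.mul_mem (hR₀R' ha) (hmxu' x hxm))
          (R'.mul_mem (hR₀R' hb) (hmxu' y hym)) h1 with h2 | h2
        · exact absurd (unitIn_of_mul hev' (hR₀R' ha) (hmxu' x hxm) h2).2 hxu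
        · exact (unitIn_of_mul hev' (hR₀R' hb) (hmxu' y hym) h2).2
      obtain ⟨hxy, hQT⟩ := qt_case hev' hR₀R' hfrac (hmm y hym)
        ⟨b, hb, a, ha, by rw [hab]; ring⟩ hyu (hmxu' x hxm) (fun S hS hab' => hC''x S hS
          fun a ha b hb => by
            have := hab' b hb a ha
            rwa [add_comm] at this)
      have h0 : ev' ⟨x / y, hxy⟩ = 0 := by
        by_contra hne
        apply hxu
        have h1 : UnitIn R' (x / y) := (unitIn_iff hev').2 ⟨hxy, hne⟩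
        have h2 : x / u = x / y * (y / u) := by
          have h3 : y ≠ 0 := by
            rintro rfl
            apply h1.1
            rw [div_zero]
          field_simp
        rw [h2]
        exact h1.mul hyu
      rw [h0] at hQT
      refine ⟨hQT, fun h' hh' => ?_⟩
      obtain ⟨h4, h5⟩ := hcmp h' hh'
      refine ⟨h4 y ?_, h5⟩
      rw [← inv_div]
      exact hyu.inv
  · left
    have huu : ∀ h', GenAt B (optJ J I') R' h' → GenAt B J R'' (fun i => h' (some i)) →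
        UnitIn R' (h' none / (∏ i, h' (some i)) ^ c) := by
      intro h' hh' hh''
      obtain ⟨w₁, hw₁, hw₁u⟩ := hc.other R'' hPt hRR _ hh''
      obtain ⟨hne', w', hw', hw''⟩ := hh'.1 none
      have h1 : (w₁ : K) / (∏ i, h' (some i)) ^ c =
          h' none / (∏ i, h' (some i)) ^ c * (w₁ / h' none) := by
        have h5 := prod_ne (J := J) (B := B) (h := fun i => h' (some i))
            (fun i => hh'.1 (some i))
        field_simp
      have h2 := UnitIn.mono hR''R' hw₁u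
      rw [h1] at h2
      refine (unitIn_of_mul hev' ?_ (hh'.2 none w₁ hw₁) h2).1
      rw [← hw'']
      exact hR''R' (hc.mem R'' hPt _ hh'' w' hw')
    have huU : UnitIn R'' u := by
      apply hunit u huR''
      rw [hu]
      exact huu h₁ hh₁ hGen
    have hC'R'' : chartF B (optJ J I') h₁ ≤ R'' := by
      unfold chartF
      rw [Algebra.adjoin_le_iff]
      rintro z (hz | ⟨i, w, hw, rfl⟩)
      · exact Pt.le_R hPt hz
      · cases i with
        | some i => exact hGen.2 i w hw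
        | none =>
          have h1 : (w : K) / h₁ none = (w : K) / (∏ i, h₁ (some i)) ^ c * u⁻¹ := by
            rw [hu]; field_simp
          rw [h1]
          exact R''.mul_mem (hc.mem R'' hPt _ hGen w hw) huU.2.2
    have hEq : R' = R'' := by
      apply le_antisymm _ hR''R'
      intro z hz
      obtain ⟨a, ha, b, hb, hbu, hzb⟩ := hfrac z hz
      have h1 := hunit b (hC'R'' hb) hbu
      have h2 : z = a * b⁻¹ := by
        rw [← hzb]
        have := hbu.1
        field_simp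
      rw [h2]
      exact R''.mul_mem (hC'R'' ha) h1.2.2
    refine ⟨by rw [hEq]; exact hPt, by rw [hEq]; exact hRR, fun h' hh' => ?_⟩
    have hGG : GenAt B J R' (fun i => h' (some i)) :=
      ⟨fun i => hh'.1 (some i), fun i w hw => hh'.2 (some i) w hw⟩
    exact ⟨hGG, huu h' hh' (by rw [← hEq]; exact hGG)⟩


open H86 in
theorem unit_down {R R' : Subalgebra k K} {ev : R →ₐ[k] k} {ev' : R' →ₐ[k] k}
    (hev : IsEv R ev) (hev' : IsEv R' ev') (hle : R ≤ R') {z : K} (hz : z ∈ R)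
    (hu : UnitIn R' z) : UnitIn R z := by
  by_contra hn
  have h0 : ev ⟨z, hz⟩ = 0 := by
    by_contra h0
    exact hn ((unitIn_iff hev).2 ⟨hz, h0⟩)
  obtain ⟨hz', h1⟩ := (unitIn_iff hev').1 hu
  have h2 : UnitIn R (z - algebraMap k K (ev' ⟨z, hz'⟩)) := by
    refine (unitIn_iff hev).2 ⟨R.sub_mem hz (R.algebraMap_mem _), ?_⟩
    have h3 : (⟨z - algebraMap k K (ev' ⟨z, hz'⟩), R.sub_mem hz (R.algebraMap_mem _)⟩ : R) =
        ⟨z, hz⟩ - algebraMap k R (ev' ⟨z, hz'⟩) := rfl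
    rw [h3, map_sub, h0, AlgHom.commutes, zero_sub]
    exact neg_ne_zero.2 h1
  obtain ⟨h4, h5⟩ := (unitIn_iff hev').1 (UnitIn.mono hle h2)
  apply h5
  have h6 : (⟨z - algebraMap k K (ev' ⟨z, hz'⟩), h4⟩ : R') =
      ⟨z, hz'⟩ - algebraMap k R' (ev' ⟨z, hz'⟩) := rfl
  rw [h6, map_sub, AlgHom.commutes]
  exact sub_self _

open H86 in
theorem pt_unique_le {E' : Type} [Fintype E'] {J' : E' → Ideal B} {R₁ R₂ R' : Subalgebra k K}
    (h₁ : Pt B J R₁) (h₂ : Pt B J R₂) (h' : Pt B J' R') (hle₁ : R₁ ≤ R') (hle₂ : R₂ ≤ R') :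
    R₂ ≤ R₁ := by
  obtain ⟨ev₁, hev₁⟩ := Pt.exists_ev h₁
  obtain ⟨ev', hev'⟩ := Pt.exists_ev h'
  obtain ⟨g₁, hg₁⟩ := h₁.exists_gen
  obtain ⟨g₂, hT₂, χ₂, hR₂⟩ := id h₂
  have hg₂ : GenAt B J R₂ g₂ := by
    refine ⟨hT₂, fun i w hw => ?_⟩
    rw [hR₂]
    exact H86.le_ptLoc _ _ (Algebra.subset_adjoin (Or.inr ⟨i, w, hw, rfl⟩))
  -- the generators at the two points differ by units
  have hu : ∀ i, UnitIn R₁ (g₂ i / g₁ i) := by
    intro i
    obtain ⟨hne₁, w₁, hw₁, he₁⟩ := hg₁.1 i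
    obtain ⟨hne₂, w₂, hw₂, he₂⟩ := hT₂ i
    have h3 : g₂ i / g₁ i ∈ R₁ := by
      rw [← he₂]
      exact hg₁.2 i w₂ hw₂
    have h4 : g₁ i / g₂ i ∈ R₂ := by
      rw [← he₁]
      exact hg₂.2 i w₁ hw₁
    refine unit_down hev₁ hev' hle₁ h3 ⟨div_ne_zero hne₂ hne₁, hle₁ h3, ?_⟩
    rw [inv_div]
    exact hle₂ h4
  have hg₁' : GenAt B J R₁ g₂ := by
    refine ⟨hT₂, fun i w hw => ?_⟩
    have h4 : (w : K) / g₂ i = (w : K) / g₁ i * (g₂ i / g₁ i)⁻¹ := by
      have h5 := (hg₁.1 i).1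
      have h6 := (hT₂ i).1
      field_simp
    rw [h4]
    exact R₁.mul_mem (hg₁.2 i w hw) (hu i).2.2
  have hCR : chartF B J g₂ ≤ R₁ := chart_le (Pt.le_R h₁) hg₁'
  intro z hz
  rw [hR₂] at hz
  obtain ⟨a, ha, b, hb, hbu, hzb⟩ := ptLoc_frac hz
  rw [← hR₂] at hbu
  have h5 := unit_down hev₁ hev' hle₁ (hCR hb) (UnitIn.mono hle₂ hbu)
  have h6 : z = a * b⁻¹ := by
    rw [← hzb]
    have := hbu.1
    field_simp
  rw [h6]
  exact R₁.mul_mem (hCR ha) h5.2.2

/-- A point of a model lies over at most one point of another model. -/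
theorem pt_unique {E' : Type} [Fintype E'] {J' : E' → Ideal B} {R₁ R₂ R' : Subalgebra k K}
    (h₁ : Pt B J R₁) (h₂ : Pt B J R₂) (h' : Pt B J' R') (hle₁ : R₁ ≤ R') (hle₂ : R₂ ≤ R') :
    R₁ = R₂ :=
  le_antisymm (pt_unique_le h₂ h₁ h' hle₂ hle₁) (pt_unique_le h₁ h₂ h' hle₁ hle₂)

end Pool.Agent.MP_b525bf_ag_S
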