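import Pool.Agent.Lib.MP_b525bf_ag_S.GenSm
import Pool.Agent.Lib.MP_b525bf_ag_S.Cur

/-!
# S11a: the radical of a principal ideal
-/

set_option autoImplicit false

namespace Pool.Agent.MP_b525bf_ag_S

open Pool.Agent.MP_b525bf_ag_TS

variable {k K G : Type} [Field k] [Field K] [Algebra k K] [Group G] {B : Subalgebra k K}

/-- The radical of a principal ideal is locally generated by a squarefree element. -/
theorem Rad.exists_sqf {z₀ : B} (hz₀ : z₀ ≠ 0) (χ : B →ₐ[k] k) {x y : K}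
    {Dx Dy : Derivation k K K} (h : Reg (ptLoc B χ) x y Dx Dy) :
    ∃ π : B, π ∈ (Ideal.span {z₀}).radical ∧ (π : K) ≠ 0 ∧
      Squarefree (⟨π, ptLoc_le B χ π.2⟩ : ptLoc B χ) ∧
      ∀ w : B, w ∈ (Ideal.span {z₀}).radical →
        (⟨π, ptLoc_le B χ π.2⟩ : ptLoc B χ) ∣ ⟨w, ptLoc_le B χ w.2⟩ := by
  have hufd := reg_ufd h
  have hinj : ∀ w : B, χ w ≠ 0 → (w : K) ≠ 0 := fun w hw h0 => hw (by
    rw [show w = 0 from Subtype.ext h0, map_zero])
  set i : B → ptLoc B χ := fun w => ⟨w, ptLoc_le B χ w.2⟩ with hi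
  have hz0 : i z₀ ≠ 0 := fun h0 => hz₀ (Subtype.ext (congrArg (fun z : ptLoc B χ => (z : K)) h0))
  obtain ⟨r, N, hr, hrz, hzr⟩ := exists_squarefree_dvd_pow_of_ne_zero hz0
  obtain ⟨a, b, hb, e⟩ := r.2
  obtain ⟨c', hc'⟩ := hzr
  obtain ⟨c, d, hd, e'⟩ := c'.2
  have hb0 := hinj b hb
  have hd0 := hinj d hd
  have hu : IsUnit (i (b * d)) := by
    refine IsUnit.of_mul_eq_one (⟨((b * d : B) : K)⁻¹, 1, b * d, ?_, ?_⟩ : ptLoc B χ) ?_
    · rw [map_mul]; exact mul_ne_zero hb hd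
    · push_cast
      rw [inv_mul_cancel₀ (mul_ne_zero hb0 hd0)]
    · apply Subtype.ext
      push_cast
      exact mul_inv_cancel₀ (mul_ne_zero hb0 hd0)
  have hπ : i (a * d) = r * i (b * d) := by
    apply Subtype.ext
    push_cast
    change (a : K) * d = (r : K) * (b * d)
    rw [← e]; ring
  have hass : Associated r (i (a * d)) := ⟨hu.unit, by rw [hπ]; rfl⟩
  refine ⟨a * d, ?_, ?_, ?_, ?_⟩
  · refine ⟨N + 1, Ideal.mem_span_singleton.2 ⟨c * b ^ N * a * d ^ N, Subtype.ext ?_⟩⟩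
    have h1 : (r : K) ^ N = z₀ * c' := by
      have := congrArg (fun z : ptLoc B χ => (z : K)) hc'
      push_cast at this
      exact this
    push_cast
    have h2 : (a : K) ^ N * d = z₀ * c * b ^ N := by
      rw [← e, ← e', mul_pow, h1]; ring
    calc ((a : K) * d) ^ (N + 1) = (a ^ N * d) * (a * d ^ N) := by ring
      _ = _ := by rw [h2]; ring
  · push_cast
    refine mul_ne_zero ?_ hd0
    rw [← e]
    refine mul_ne_zero ?_ hb0
    intro h0
    exact hr.ne_zero (Subtype.ext h0)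
  · exact hr.squarefree_of_dvd hass.symm.dvd
  · intro w hw
    obtain ⟨n, hn⟩ := hw
    obtain ⟨v, hv⟩ := Ideal.mem_span_singleton.1 hn
    have h1 : r ∣ i w ^ n := by
      refine hrz.trans ⟨i v, Subtype.ext ?_⟩
      push_cast
      have := congrArg (fun z : B => (z : K)) hv
      push_cast at this
      exact this
    exact hass.symm.dvd.trans (hr.isRadical n _ h1)

/-- The radical of a principal ideal is locally principal. -/
theorem rad_principal (hB : B.FG) {z₀ : B} (hz₀ : z₀ ≠ 0) (χ : B →ₐ[k] k) {x y : K}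
    {Dx Dy : Derivation k K K} (h : Reg (ptLoc B χ) x y Dx Dy) :
    ∃ π : B, π ∈ (Ideal.span {z₀}).radical ∧ (π : K) ≠ 0 ∧
      ∀ w : B, w ∈ (Ideal.span {z₀}).radical → (w : K) / π ∈ ptLoc B χ := by
  have _ := hB
  obtain ⟨π, h1, h2, -, h3⟩ := Rad.exists_sqf hz₀ χ h
  refine ⟨π, h1, h2, fun w hw => ?_⟩
  obtain ⟨c, hc⟩ := h3 w hw
  have h4 : (w : K) = π * c := congrArg (fun z : ptLoc B χ => (z : K)) hc
  rw [h4, mul_div_cancel_left₀ _ h2]
  exact c.2

/-- The local equation has isolated singularities. -/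
theorem rad_fin [IsAlgClosed k] (p : ℕ) [Fact p.Prime] [CharP k p] (hB : B.FG) {z₀ : B}
    (hz₀ : z₀ ≠ 0) (χ : B →ₐ[k] k) {x y : K} {Dx Dy : Derivation k K K}
    (h : Reg (ptLoc B χ) x y Dx Dy) :
    AdL (curL B (Ideal.span {z₀}).radical) (ptLoc B χ) x y Dx Dy false false 1 := by
  have _ := hB
  obtain ⟨π, h1, h2, h3, -⟩ := Rad.exists_sqf hz₀ χ h
  have hlx : ∀ w : K, lD false x Dx w = Dx w := fun w => rfl
  have hly : ∀ w : K, lD false y Dy w = Dy w := fun w => rfl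
  refine ⟨one_ne_zero, ?_, ?_⟩
  · rintro l ⟨w, _, hl⟩
    have hw : (w : K) ∈ ptLoc B χ := ptLoc_le B χ w.2
    rw [div_one]
    rcases hl with rfl | rfl | rfl
    · exact hw
    · exact h.Dx_mem _ hw
    · exact h.Dy_mem _ hw
  · apply reg_fin_of h
    intro f hf hle
    have hmem : ∀ l : K, ∀ hl : l ∈ ptLoc B χ,
        l ∈ curL B (Ideal.span {z₀}).radical (ptLoc B χ) x y Dx Dy false false →
        f ∣ (⟨l, hl⟩ : ptLoc B χ) := by
      intro l hl hl'
      exact Ideal.mem_span_singleton.1 (hle (Ideal.subset_span ⟨l, hl', (div_one l).symm⟩))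
    have hπR : (π : K) ∈ ptLoc B χ := ptLoc_le B χ π.2
    obtain ⟨g, hg⟩ := hmem π hπR ⟨π, h1, Or.inl rfl⟩
    obtain ⟨g₁, hg₁⟩ := hmem (Dx π) (h.Dx_mem _ hπR) ⟨π, h1, Or.inr (Or.inl rfl)⟩
    obtain ⟨g₂, hg₂⟩ := hmem (Dy π) (h.Dy_mem _ hπR) ⟨π, h1, Or.inr (Or.inr rfl)⟩
    have hfg : ¬ f ∣ g := by
      rintro ⟨g', rfl⟩
      apply hf.not_isUnit
      apply h3 f
      rw [hg]
      exact ⟨g', by ring⟩
    have hg' : (π : K) = f * g := congrArg (fun z : ptLoc B χ => (z : K)) hg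
    have hg₁' : Dx π = f * g₁ := congrArg (fun z : ptLoc B χ => (z : K)) hg₁
    have hg₂' : Dy π = f * g₂ := congrArg (fun z : ptLoc B χ => (z : K)) hg₂
    rw [hg', Derivation.leibniz, smul_eq_mul, smul_eq_mul] at hg₁' hg₂'
    apply reg_gen_smooth p h hf
    constructor
    · have h5 : f ∣ g * ⟨Dx f, h.Dx_mem _ f.2⟩ := by
        refine ⟨g₁ - ⟨Dx g, h.Dx_mem _ g.2⟩, Subtype.ext ?_⟩
        push_cast
        linear_combination hg₁'
      obtain ⟨u, hu⟩ := (hf.dvd_or_dvd h5).resolve_left hfg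
      exact ⟨u, u.2, congrArg (fun z : ptLoc B χ => (z : K)) hu⟩
    · have h5 : f ∣ g * ⟨Dy f, h.Dy_mem _ f.2⟩ := by
        refine ⟨g₂ - ⟨Dy g, h.Dy_mem _ g.2⟩, Subtype.ext ?_⟩
        push_cast
        linear_combination hg₂'
      obtain ⟨u, hu⟩ := (hf.dvd_or_dvd h5).resolve_left hfg
      exact ⟨u, u.2, congrArg (fun z : ptLoc B χ => (z : K)) hu⟩

end Pool.Agent.MP_b525bf_ag_S
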