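import Pool.Agent.Lib.MP_b525bf_ag_S.Aug

/-!
# S6b: the linear part of `(g - 1) / γ` is nilpotent
-/

set_option autoImplicit false

namespace Pool.Agent.MP_b525bf_ag_S

open Pool.Agent.MP_b525bf_ag_TS

/-! ### The abstract argument -/

section Abs

variable {k A : Type} [Field k] [CommRing A] [Algebra k A] {σ : A →ₐ[k] A} {m : Ideal A}
  {X Y Γ a b : A}

private theorem P_mul {z w : A} (hz : ∃ d ∈ m, σ z = z * (1 + Γ * d))
    (hw : ∃ d ∈ m, σ w = w * (1 + Γ * d)) : ∃ d ∈ m, σ (z * w) = z * w * (1 + Γ * d) := by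
  obtain ⟨d, hd, e⟩ := hz
  obtain ⟨d', hd', e'⟩ := hw
  refine ⟨d + d' + Γ * d * d', m.add_mem (m.add_mem hd hd') (m.mul_mem_left _ hd'), ?_⟩
  rw [map_mul, e, e']; ring

private theorem P_pow {z : A} (hz : ∃ d ∈ m, σ z = z * (1 + Γ * d)) (n : ℕ) :
    ∃ d ∈ m, σ (z ^ n) = z ^ n * (1 + Γ * d) := by
  induction n with
  | zero => exact ⟨0, m.zero_mem, by simp⟩
  | succ n ih => rw [pow_succ]; exact P_mul ih hz

private theorem N_sq (h1 : ∀ w, ∃ c ∈ m, σ w - w = Γ * c) {e : A} (he : e ∈ m ^ 2) :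
    ∃ e' ∈ m ^ 2, σ e - e = Γ * e' := by
  rw [pow_two] at he
  refine Submodule.mul_induction_on (C := fun e => ∃ e' ∈ m ^ 2, σ e - e = Γ * e') he ?_ ?_
  · intro z hz w hw
    obtain ⟨c, hc, e1⟩ := h1 z
    obtain ⟨c', hc', e2⟩ := h1 w
    refine ⟨c * w + z * c' + Γ * (c * c'), ?_, ?_⟩
    · rw [pow_two]
      exact Ideal.add_mem _ (Ideal.add_mem _ (Ideal.mul_mem_mul hc hw) (Ideal.mul_mem_mul hz hc'))
        (Ideal.mul_mem_left _ _ (Ideal.mul_mem_mul hc hc'))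
    · rw [sub_eq_iff_eq_add] at e1 e2
      rw [map_mul, e1, e2]; ring
  · rintro z w ⟨e1, h2, h3⟩ ⟨e2, h4, h5⟩
    exact ⟨e1 + e2, Ideal.add_mem _ h2 h4, by rw [map_add, mul_add, ← h3, ← h5]; ring⟩

private theorem N_bb (h1 : ∀ w, ∃ c ∈ m, σ w - w = Γ * c) (h3 : σ X = X * (1 + Γ * a)) {e : A}
    (he : e ∈ Ideal.span {X} ⊔ m ^ 2) : ∃ e' ∈ Ideal.span {X} ⊔ m ^ 2, σ e - e = Γ * e' := by
  rw [Submodule.mem_sup] at he
  obtain ⟨z, hz, w, hw, rfl⟩ := he
  rw [Ideal.mem_span_singleton'] at hz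
  obtain ⟨r, rfl⟩ := hz
  obtain ⟨e', he', e1⟩ := N_sq h1 hw
  obtain ⟨c, hc, e2⟩ := h1 r
  refine ⟨(c + a * r + Γ * a * c) * X + e', Ideal.add_mem _ (Ideal.mem_sup_left
    (Ideal.mul_mem_left _ _ (Ideal.mem_span_singleton_self X))) (Ideal.mem_sup_right he'), ?_⟩
  rw [sub_eq_iff_eq_add] at e1 e2
  rw [map_add, map_mul, e1, e2, h3]; ring

private theorem pow_N {L : Module.End k A} (hL : ∀ z, L z = σ z - z)
    (hYm : Y ∈ m) (h1 : ∀ w, ∃ c ∈ m, σ w - w = Γ * c)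
    (h2 : ∃ d ∈ m, σ Γ = Γ * (1 + Γ * d)) (h3 : σ X = X * (1 + Γ * a)) (h4 : σ Y - Y = Γ * b)
    (hXm : X ∈ m) {β : k}
    (hb : b - algebraMap k A β * Y ∈ Ideal.span {X} ⊔ m ^ 2) (i : ℕ) :
    ∃ w, (L ^ i) Y = Γ ^ i * w ∧ w - algebraMap k A (β ^ i) * Y ∈ Ideal.span {X} ⊔ m ^ 2 := by
  have hbm : Ideal.span {X} ⊔ m ^ 2 ≤ m := by
    rw [sup_le_iff, Ideal.span_le]
    exact ⟨by simpa using hXm, Ideal.pow_le_self two_ne_zero⟩
  induction i with
  | zero => exact ⟨Y, by simp, by simp⟩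
  | succ i ih =>
    obtain ⟨w, e1, hw⟩ := ih
    obtain ⟨d, hd, e2⟩ := P_pow h2 i
    obtain ⟨e', he', e3⟩ := N_bb h1 h3 hw
    obtain ⟨c, hc, e4⟩ := h1 w
    have hwm : w ∈ m := by
      have h5 := m.add_mem (hbm hw) (m.mul_mem_left (algebraMap k A (β ^ i)) hYm)
      rwa [sub_add_cancel] at h5
    have hσw : σ w ∈ m := by
      rw [sub_eq_iff_eq_add] at e4
      rw [e4]
      exact m.add_mem (m.mul_mem_left _ hc) hwm
    have e5 : σ w - w = Γ * (algebraMap k A (β ^ i) * b + e') := by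
      have e6 : σ (w - algebraMap k A (β ^ i) * Y) - (w - algebraMap k A (β ^ i) * Y) =
          (σ w - w) - algebraMap k A (β ^ i) * (σ Y - Y) := by
        rw [map_sub, map_mul, AlgHom.commutes]; ring
      rw [e6, h4] at e3
      linear_combination e3
    refine ⟨algebraMap k A (β ^ i) * b + e' + d * σ w, ?_, ?_⟩
    · rw [pow_succ', Module.End.mul_apply, hL, e1, map_mul, e2]
      linear_combination Γ ^ i * e5
    · have e7 : algebraMap k A (β ^ i) * b + e' + d * σ w - algebraMap k A (β ^ (i + 1)) * Y =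
          algebraMap k A (β ^ i) * (b - algebraMap k A β * Y) + e' + d * σ w := by
        rw [pow_succ, map_mul]; ring
      rw [e7]
      refine Ideal.add_mem _ (Ideal.add_mem _ (Ideal.mul_mem_left _ _ hb) he')
        (Ideal.mem_sup_right ?_)
      rw [pow_two]
      exact Ideal.mul_mem_mul hd hσw

private theorem beta_pow (p : ℕ) [Fact p.Prime] [CharP k p] [IsDomain A]
    (hσ : ∀ z, (σ ^ p) z = z) (hΓ : Γ ≠ 0)
    (hYm : Y ∈ m) (h1 : ∀ w, ∃ c ∈ m, σ w - w = Γ * c)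
    (h2 : ∃ d ∈ m, σ Γ = Γ * (1 + Γ * d)) (h3 : σ X = X * (1 + Γ * a)) (h4 : σ Y - Y = Γ * b)
    (hXm : X ∈ m) {β : k}
    (hb : b - algebraMap k A β * Y ∈ Ideal.span {X} ⊔ m ^ 2) :
    algebraMap k A (β ^ p) * Y ∈ Ideal.span {X} ⊔ m ^ 2 := by
  obtain ⟨w, e1, hw⟩ := pow_N (L := σ.toLinearMap - 1) (fun z => rfl) hYm h1 h2 h3 h4 hXm hb p
  have hch : CharP (Module.End k A) p :=
    charP_of_injective_algebraMap (algebraMap k (Module.End k A)).injective p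
  have e2 : (σ.toLinearMap - 1 : Module.End k A) ^ p = σ.toLinearMap ^ p - 1 := by
    rw [sub_pow_char_of_commute p (Commute.one_right _), one_pow]
  have e3 : ∀ n : ℕ, (σ.toLinearMap ^ n : Module.End k A) = (σ ^ n).toLinearMap := by
    intro n
    induction n with
    | zero => rfl
    | succ n ih => rw [pow_succ, pow_succ, ih]; rfl
  rw [e2, e3] at e1
  have e4 : ((σ ^ p).toLinearMap - 1 : Module.End k A) Y = (σ ^ p) Y - Y := rfl
  rw [e4, hσ, sub_self] at e1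
  have e5 : w = 0 := by
    rcases mul_eq_zero.1 e1.symm with h | h
    · exact absurd h (pow_ne_zero _ hΓ)
    · exact h
  rw [e5, zero_sub] at hw
  exact (Ideal.neg_mem_iff _).1 hw

end Abs

variable {k K G : Type} [Field k] [Field K] [Algebra k K] [Group G]
  {φ : G →* (K ≃ₐ[k] K)} {R : Subalgebra k K} {x y : K} {Dx Dy : Derivation k K K}

/-- The restriction of `g` to a fixed local ring. -/
private def res (φ : G →* (K ≃ₐ[k] K)) {R : Subalgebra k K} {g : G} (hg : tr φ g R = R) :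
    R →ₐ[k] R :=
  ((φ g : K →ₐ[k] K).comp R.val).codRestrict R fun z => fix_mem hg z.2

private theorem res_pow {g : G} (hg : tr φ g R = R) (n : ℕ) (z : R) :
    (((res φ hg) ^ n) z : K) = φ (g ^ n) z := by
  induction n generalizing z with
  | zero => simp
  | succ n ih =>
    rw [pow_succ, AlgHom.mul_apply, ih, pow_succ, map_mul, AlgEquiv.mul_apply]
    rfl

/-- Let `x = 0` be the only boundary curve at `R`, `g x - x = x γ a`, `g y - y = γ b` with `a`, `b`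
in the maximal ideal. Then the linear part of `b` is a multiple of `x`. -/
theorem sig_linear (p : ℕ) [Fact p.Prime] [CharP k p] (h : Reg R x y Dx Dy) {g : G}
    (hg : tr φ g R = R) (hgp : g ^ p = 1) {γ a b : K} (hγ : γ ≠ 0) (hMon : Mon R x y true false γ)
    (ha : φ g x - x = x * γ * a) (hb : φ g y - y = γ * b)
    (haR : ∃ u ∈ R, ∃ v ∈ R, a = x * u + y * v) (hbR : ∃ u ∈ R, ∃ v ∈ R, b = x * u + y * v) :
    ∃ (α : k) (q : R), q ∈ mId R x y ^ 2 ∧ b = algebraMap k K α * x + q := by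
  obtain ⟨r, n, hu, -, hn⟩ := hMon
  obtain rfl := hn rfl
  rw [zpow_zero, mul_one] at hu
  have hx0 := h.x_ne
  have hbR' : b ∈ R := by
    obtain ⟨u, hu, v, hv, rfl⟩ := hbR
    exact R.add_mem (R.mul_mem h.hx hu) (R.mul_mem h.hy hv)
  have haR' : a ∈ R := by
    obtain ⟨u, hu, v, hv, rfl⟩ := haR
    exact R.add_mem (R.mul_mem h.hx hu) (R.mul_mem h.hy hv)
  have hfin : ∀ b' ∈ R, ∀ q ∈ mId R x y ^ 2, b = x * b' + (q : K) →
      ∃ (α : k) (q : R), q ∈ mId R x y ^ 2 ∧ b = algebraMap k K α * x + q := by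
    intro b' hb' q hq e
    obtain ⟨c, u, hu, v, hv, e'⟩ := h.dec b' hb'
    refine ⟨c, ⟨x, h.hx⟩ * (⟨x, h.hx⟩ * ⟨u, hu⟩ + ⟨y, h.hy⟩ * ⟨v, hv⟩) + q, ?_, ?_⟩
    · refine Ideal.add_mem _ ?_ hq
      rw [pow_two]
      exact Ideal.mul_mem_mul (Loc2.x_mem h) (Ideal.add_mem _
        (Ideal.mul_mem_right _ _ (Loc2.x_mem h)) (Ideal.mul_mem_right _ _ (Loc2.y_mem h)))
    · push_cast
      rw [e, e']; ring
  rcases lt_or_ge r 0 with hr | hr
  · -- `γ` has a pole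
    obtain ⟨s, hs⟩ : ∃ s : ℕ, r = -((s : ℤ) + 1) := ⟨(-r - 1).toNat, by omega⟩
    have h1 : γ * b ∈ R := by
      rw [← hb]
      exact R.sub_mem (fix_mem hg h.hy) h.hy
    refine hfin (x ^ s * (γ / x ^ r)⁻¹ * (γ * b))
      (R.mul_mem (R.mul_mem (R.pow_mem h.hx s) hu.2.2) h1) 0 (Submodule.zero_mem _) ?_
    rw [hs, zpow_neg, ← Nat.cast_succ, zpow_natCast, pow_succ]
    push_cast
    field_simp
    ring
  · obtain ⟨s, rfl⟩ := Int.eq_ofNat_of_zero_le hr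
    rw [zpow_natCast] at hu
    set U : R := ⟨γ / x ^ s, hu.2.1⟩ with hU
    set X : R := ⟨x, h.hx⟩ with hX
    set Y : R := ⟨y, h.hy⟩ with hY
    set Γ : R := X ^ s * U with hΓ
    have hΓγ : (Γ : K) = γ := by
      rw [hΓ, hX, hU]
      push_cast
      field_simp
    set m : Ideal R := mId R x y with hm
    have haM : (⟨a, haR'⟩ : R) ∈ m := h.mem_mId'.2 haR
    have hbM : (⟨b, hbR'⟩ : R) ∈ m := h.mem_mId'.2 hbR
    have hXm : X ∈ m := Loc2.x_mem h
    have hYm : Y ∈ m := Loc2.y_mem h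
    have hval : ∀ z : R, ((res φ hg) z : K) = φ g z := fun z => rfl
    have h1 : ∀ w, ∃ c ∈ m, (res φ hg) w - w = Γ * c := by
      intro w
      obtain ⟨u, hu', v, hv', e⟩ := reg_aug h hg w.2
      refine ⟨X * ⟨a, haR'⟩ * ⟨u, hu'⟩ + ⟨b, hbR'⟩ * ⟨v, hv'⟩, Ideal.add_mem _
        (Ideal.mul_mem_right _ _ (Ideal.mul_mem_right _ _ hXm)) (Ideal.mul_mem_right _ _ hbM), ?_⟩
      apply Subtype.ext
      push_cast
      rw [hval, hΓγ, e, ha, hb]
      change _ = γ * (x * a * u + b * v)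
      ring
    have h3 : (res φ hg) X = X * (1 + Γ * ⟨a, haR'⟩) := by
      apply Subtype.ext
      push_cast
      rw [hval, hΓγ]
      change φ g x = x * (1 + γ * a)
      linear_combination ha
    have h4 : (res φ hg) Y - Y = Γ * ⟨b, hbR'⟩ := by
      apply Subtype.ext
      push_cast
      rw [hval, hΓγ]
      exact hb
    have h2U : ∃ d ∈ m, (res φ hg) U = U * (1 + Γ * d) := by
      obtain ⟨c, hc, e⟩ := h1 U
      refine ⟨⟨_, hu.2.2⟩ * c, Ideal.mul_mem_left _ _ hc, ?_⟩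
      have e1 : U * ⟨(γ / x ^ s)⁻¹, hu.2.2⟩ = 1 := Subtype.ext (mul_inv_cancel₀ hu.1)
      linear_combination e - Γ * c * e1
    have h2 : ∃ d ∈ m, (res φ hg) Γ = Γ * (1 + Γ * d) :=
      P_mul (P_pow ⟨_, haM, h3⟩ s) h2U
    -- the linear part
    obtain ⟨u₀, hu₀, v₀, hv₀, eb⟩ := hbR
    obtain ⟨β, u₁, hu₁, v₁, hv₁, ev⟩ := h.dec v₀ hv₀
    have hbb : (⟨b, hbR'⟩ : R) - algebraMap k R β * Y ∈ Ideal.span {X} ⊔ m ^ 2 := by
      have e1 : (⟨b, hbR'⟩ : R) - algebraMap k R β * Y =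
          ⟨u₀, hu₀⟩ * X + Y * (X * ⟨u₁, hu₁⟩ + Y * ⟨v₁, hv₁⟩) := by
        apply Subtype.ext
        push_cast
        change b - algebraMap k K β * y = u₀ * x + y * (x * u₁ + y * v₁)
        rw [eb, ev]; ring
      rw [e1]
      refine Ideal.add_mem _ (Ideal.mem_sup_left
        (Ideal.mul_mem_left _ _ (Ideal.mem_span_singleton_self X))) (Ideal.mem_sup_right ?_)
      rw [pow_two]
      exact Ideal.mul_mem_mul hYm (Ideal.add_mem _ (Ideal.mul_mem_right _ _ hXm)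
        (Ideal.mul_mem_right _ _ hYm))
    have hΓ0 : Γ ≠ 0 := by
      intro e
      apply hγ
      rw [← hΓγ, e]
      rfl
    have hσ : ∀ z, ((res φ hg) ^ p) z = z := by
      intro z
      apply Subtype.ext
      rw [res_pow, hgp, map_one, AlgEquiv.one_apply]
    have h5 := beta_pow p hσ hΓ0 hYm h1 h2 h3 h4 hXm hbb
    -- the coefficient vanishes
    have hD : ∀ z ∈ Ideal.span {X} ⊔ m ^ 2, (⟨Dy z, h.Dy_mem z z.2⟩ : R) ∈ m := by
      intro z hz
      rw [Submodule.mem_sup] at hz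
      obtain ⟨z₁, hz₁, z₂, hz₂, rfl⟩ := hz
      rw [Ideal.mem_span_singleton'] at hz₁
      obtain ⟨r, rfl⟩ := hz₁
      have e1 : (⟨Dy ((r * X + z₂ : R) : K), h.Dy_mem _ (r * X + z₂).2⟩ : R) =
          X * ⟨Dy r, h.Dy_mem r r.2⟩ + ⟨Dy z₂, h.Dy_mem z₂ z₂.2⟩ := by
        apply Subtype.ext
        push_cast
        rw [map_add, Derivation.leibniz]
        change (r : K) • Dy x + x • Dy r + Dy z₂ = x * Dy r + Dy z₂
        rw [h.yx, smul_zero, zero_add, smul_eq_mul]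
      rw [e1]
      exact Ideal.add_mem _ (Ideal.mul_mem_right _ _ hXm) (Loc2.D_mem h hz₂).2
    have h6 := hD _ h5
    have e6 : (⟨Dy ((algebraMap k R (β ^ p) * Y : R) : K), h.Dy_mem _
        (algebraMap k R (β ^ p) * Y).2⟩ : R) = algebraMap k R (β ^ p) := by
      apply Subtype.ext
      change Dy (algebraMap k K (β ^ p) * y) = algebraMap k K (β ^ p)
      rw [Derivation.leibniz, h.yy, Derivation.map_algebraMap, smul_zero, add_zero, smul_eq_mul,
        mul_one]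
    rw [e6] at h6
    have h7 := Loc2.const_mem h h6
    have hβ : β = 0 := pow_eq_zero_iff (Fact.out : p.Prime).ne_zero |>.1 h7
    rw [hβ, map_zero, zero_mul, sub_zero, Submodule.mem_sup] at hbb
    obtain ⟨z₁, hz₁, z₂, hz₂, e⟩ := hbb
    rw [Ideal.mem_span_singleton'] at hz₁
    obtain ⟨r, rfl⟩ := hz₁
    refine hfin r r.2 z₂ hz₂ ?_
    have e' := congrArg (fun z : R => (z : K)) e
    change (r : K) * x + z₂ = b at e'
    rw [← e']; ring

end Pool.Agent.MP_b525bf_ag_S
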