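import Pool.Agent.Lib.MP_b525bf_ag_S.Defs
import Pool.Agent.Lib.MP_b525bf_ag_TS.TorsB

/-!
# S14: the toric family of a model
-/

set_option autoImplicit false

namespace Pool.Agent.MP_b525bf_ag_S

open Pool.Agent.MP_b525bf_ag Pool.Agent.MP_b525bf_ag_W Pool.Agent.MP_b525bf_ag_P
  Pool.Agent.MP_b525bf_ag_TS

variable {k K G : Type} [Field k] [Field K] [Algebra k K] [Group G] {B : Subalgebra k K}
  {E : Type} [Fintype E] {J : E → Ideal B} {e : E → E → ℤ} {φ : G →* (K ≃ₐ[k] K)}

namespace TorMAux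

/-- The family of the elements whose translate is in the family `M`. -/
def transFam {ι : Type} [AddCommGroup ι] (M : Fam k K ι) (ρ : K ≃ₐ[k] K) : Fam k K ι where
  s d := (M.s d).comap ρ.toLinearMap
  one' := by
    change ρ 1 ∈ M.s 0
    rw [map_one]
    exact M.one'
  mul' := by
    intro d d' x y hx hy
    change ρ (x * y) ∈ M.s (d + d')
    rw [map_mul]
    exact M.mul' hx hy

theorem mem_transFam {ι : Type} [AddCommGroup ι] {M : Fam k K ι} {ρ : K ≃ₐ[k] K} {d : ι} {z : K} :
    z ∈ (transFam M ρ).s d ↔ ρ z ∈ M.s d := Iff.rfl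

end TorMAux

open TorMAux AddMonoidAlgebra TorsA
open scoped Classical

theorem mdl_stab (hφB : ∀ g, ∀ b ∈ B, φ g b ∈ B) (h : Mdl B φ J e) (g : G) (d : E → ℤ) (z : K)
    (hz : z ∈ (mrees B J e).s d) : φ g z ∈ (mrees B J e).s d := by
  refine mem_transFam.1 (mrees_le_of (C := transFam (mrees B J e) (φ g)) ?_ ?_ ?_ ?_ d hz)
  · intro b hb
    rw [mem_transFam]
    exact mrees_b (hφB g b hb)
  · intro i w hw
    rw [mem_transFam]
    obtain ⟨w', hw', e1⟩ := h.stab g i w hw
    rw [← e1]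
    exact mrees_w hw'
  · intro i
    rw [mem_transFam, map_one]
    exact mrees_one i
  · intro j
    rw [mem_transFam, map_one]
    exact mrees_e j

/-- The bounds at the points of the model. -/
theorem mdl_mrees_mem (h : Mdl B φ J e) {R : Subalgebra k K} (hR : Pt B J R) {g : E → K}
    (hg : GenAt B J R g) {d : E → ℤ} {z : K} (hz : z ∈ (mrees B J e).s d) :
    z / mon g d ∈ R := by
  change z / ∏ i, g i ^ d i ∈ R
  have hg0 : ∀ i, g i ≠ 0 := fun i => (hg.1 i).1
  have hgB : ∀ i, g i ∈ B := by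
    intro i
    obtain ⟨w, -, hw⟩ := (hg.1 i).2
    rw [← hw]
    exact w.2
  refine (mem_gFam (hg := hg0)).1 (mrees_le_of (C := gFam R g hg0) ?_ ?_ ?_ ?_ d hz)
  · intro b hb
    rw [mem_gFam]
    have h1 : ∏ i, g i ^ (0 : E → ℤ) i = 1 := by simp
    rw [h1, div_one]
    exact TorsA.Pt.le hR hb
  · intro i w hw
    rw [mem_gFam, prod_uvec]
    exact hg.2 i w hw
  · intro i
    rw [mem_gFam, prod_neg, prod_uvec, one_div, inv_inv]
    exact TorsA.Pt.le hR (hgB i)
  · intro j
    rw [mem_gFam, prod_neg, one_div, inv_inv]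
    obtain ⟨h0, x, y, Dx, Dy, s, t, b, V, hnc⟩ := h.pt R hR
    have h1 : xi h0 e j ∈ R := by
      rcases hbj : b j with _ | (_ | _)
      · exact (hnc.b0 j hbj).2.1
      · have h2 := (hnc.bx j hbj)
        have h3 := R.mul_mem h2.2.1 hnc.reg.hx
        have hx0 : x ≠ 0 := by
          rintro rfl
          exact h2.1 (by simp)
        rwa [div_mul_cancel₀ _ hx0] at h3
      · have h2 := (hnc.by' j hbj)
        have h3 := R.mul_mem h2.2.1 hnc.reg.hy
        have hy0 : y ≠ 0 := by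
          rintro rfl
          exact h2.1 (by simp)
        rwa [div_mul_cancel₀ _ hy0] at h3
    have h2 := GenAt.xi_unit hnc.gen hg e j
    have h3 := R.mul_mem h2.2.1 h1
    have hne : xi h0 e j ≠ 0 := by
      intro h4
      exact h2.1 (by rw [h4, div_zero])
    rw [div_mul_cancel₀ _ hne] at h3
    exact h3

/-- Semistability. -/
theorem mdl_exists_unit_gens [IsAlgClosed k] (hB : B.FG) (h : Mdl B φ J e)
    (q : Ideal (mrees B J e).alg) [q.IsPrime]
    (hq : Semi (mrees B J e) (fun _ => 1) q) :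
    ∃ g : E → K, TupIn B J g ∧ ∀ i, IsU (atP (mrees B J e) q) (uvec i) (g i) := by
  have hft : Algebra.FiniteType k B := (Subalgebra.fg_iff_finiteType B).1 hB
  have hN : IsNoetherianRing B := Algebra.FiniteType.isNoetherianRing k B
  obtain ⟨n, hn, z, hz, hzq⟩ := hq
  have hzU : IsU (atP (mrees B J e) q) (n • fun _ => 1) z := (isU_atP_iff _ q hz).2 hzq
  -- a valuation ring which dominates the piece of degree zero
  obtain ⟨W, hW1, hW2⟩ := Ideal.image_subset_nonunits_valuationSubring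
    (A := (zeroAlg (atP (mrees B J e) q)).toSubring) (nonU (mrees B J e) q)
    (nonU_ne_top (mrees B J e) q)
  have hW1' : ∀ x ∈ (atP (mrees B J e) q).s 0, x ∈ W := fun x hx => hW1 hx
  have hBW : ∀ b ∈ B, b ∈ W := fun b hb => hW1' b (le_atP _ _ _ (mrees_b hb))
  choose w hwJ hw0 hwW using fun i => exists_min hN W hBW (J i) (h.ne i)
  let g : E → K := fun i => w i
  have hg : TupIn B J g := fun i => ⟨hw0 i, w i, hwJ i, rfl⟩
  refine ⟨g, hg, ?_⟩
  -- the chart and the point
  have hCW : ∀ c ∈ chartF B J g, c ∈ W := by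
    intro c hc
    induction hc using Algebra.adjoin_induction with
    | mem x hx =>
      rcases hx with hx | ⟨i, w', hw', rfl⟩
      · exact hBW x hx
      · exact hwW i w' hw'
    | algebraMap r => exact hBW _ (B.algebraMap_mem r)
    | add x y _ _ hx hy => exact W.add_mem _ _ hx hy
    | mul x y _ _ hx hy => exact W.mul_mem _ _ hx hy
  let ρ : chartF B J g →+* W :=
    { toFun := fun c => ⟨c, hCW c c.2⟩
      map_one' := rfl
      map_mul' := fun _ _ => rfl
      map_zero' := rfl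
      map_add' := fun _ _ => rfl }
  have hP : (IsLocalRing.maximalIdeal W).comap ρ ≠ ⊤ :=
    Ideal.comap_ne_top _ (IsLocalRing.maximalIdeal.isMaximal W).ne_top
  obtain ⟨χ, hχ⟩ := exists_char (chartF_fg hB g) _ hP
  have hR : Pt B J (ptLoc (chartF B J g) χ) := ⟨g, hg, χ, rfl⟩
  have hgen : GenAt B J (ptLoc (chartF B J g) χ) g :=
    ⟨hg, fun i w' hw' => TorsA.le_ptLoc _ _ (Algebra.subset_adjoin (Or.inr ⟨i, w', hw', rfl⟩))⟩
  have hRW : ∀ x ∈ ptLoc (chartF B J g) χ, x ∈ W := by
    rintro x ⟨a, b, hb, hxb⟩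
    have hbu : IsUnit (ρ b) := by
      by_contra hcon
      apply hb
      apply hχ
      rw [Ideal.mem_comap, IsLocalRing.mem_maximalIdeal]
      exact hcon
    obtain ⟨v, hv⟩ := hbu
    have hbv : (b : K) * ((v⁻¹ : Wˣ) : W) = 1 := by
      have h1 : (v : W) * ((v⁻¹ : Wˣ) : W) = 1 := v.mul_inv
      rw [hv] at h1
      exact congrArg Subtype.val h1
    have h2 : x = (a : K) * ((v⁻¹ : Wˣ) : W) := by
      rw [← hxb, mul_assoc, hbv, mul_one]
    rw [h2]
    exact W.mul_mem _ _ (hCW a a.2) (Subtype.mem _)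
  have hzW : z / ∏ i, g i ^ (n • fun _ => (1 : ℤ) : E → ℤ) i ∈ W :=
    hRW _ (mdl_mrees_mem h hR hgen hz)
  have hpow : ∏ i, g i ^ (n • fun _ => (1 : ℤ) : E → ℤ) i = (∏ i, g i) ^ n := by
    rw [← Finset.prod_pow]
    refine Finset.prod_congr rfl fun i _ => ?_
    simp
  rw [hpow] at hzW
  have hgi : ∀ i, g i ∈ (mrees B J e).s (uvec i) := fun i => mrees_w (hwJ i)
  have hprod : ∀ s : Finset E, ∏ i ∈ s, g i ∈ (mrees B J e).s (∑ i ∈ s, uvec i) := by
    intro s
    induction s using Finset.induction_on with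
    | empty => simpa using (mrees B J e).one'
    | insert i s hi ih =>
      rw [Finset.prod_insert hi, Finset.sum_insert hi]
      exact (mrees B J e).mul' (hgi i) ih
  have hsum : ∑ i : E, (uvec i : E → ℤ) = fun _ => 1 := by
    funext j
    rw [Finset.sum_apply, Finset.sum_eq_single j]
    · simp [uvec]
    · intro i _ hi
      simp [uvec, hi.symm]
    · intro h1
      exact absurd (Finset.mem_univ j) h1
  have hG : (∏ i, g i) ∈ (mrees B J e).s (fun _ => 1) := by
    have := hprod Finset.univ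
    rwa [hsum] at this
  have hGn : (∏ i, g i) ^ n ∈ (atP (mrees B J e) q).s (n • fun _ => 1) :=
    le_atP _ _ _ ((mrees B J e).pow' hG n)
  have hG0 : (∏ i, g i) ≠ 0 := Finset.prod_ne_zero_iff.2 fun i _ => hw0 i
  -- the product is a unit
  have hy : (∏ i, g i) ^ n * z⁻¹ ∈ (atP (mrees B J e) q).s 0 := by
    have := (atP (mrees B J e) q).mul' hGn hzU.2.2
    rwa [add_neg_cancel] at this
  have hyU : IsU (atP (mrees B J e) q) 0 ((∏ i, g i) ^ n * z⁻¹) := by
    by_contra hcon
    have h1 : (∏ i, g i) ^ n * z⁻¹ ∈ W.nonunits := hW2 ⟨⟨_, hy⟩, hcon, rfl⟩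
    rw [ValuationSubring.mem_nonunits_iff_or] at h1
    rcases h1 with h1 | h1
    · exact (mul_ne_zero (pow_ne_zero n hG0) (inv_ne_zero hzU.1)) h1
    · apply h1
      rw [mul_inv, inv_inv, mul_comm, ← div_eq_mul_inv]
      exact hzW
  have hGU : IsU (atP (mrees B J e) q) (n • fun _ => 1) ((∏ i, g i) ^ n) := by
    have := hyU.mul hzU
    rw [zero_add, mul_assoc, inv_mul_cancel₀ hzU.1, mul_one] at this
    exact this
  obtain ⟨m, rfl⟩ : ∃ m, n = m + 1 := ⟨n - 1, by omega⟩
  have hG1 : IsU (atP (mrees B J e) q) (fun _ => 1) (∏ i, g i) := by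
    rw [pow_succ', succ_nsmul'] at hGU
    exact IsU.of_mul_left (le_atP _ _ _ hG) (le_atP _ _ _ ((mrees B J e).pow' hG m)) hGU
  intro i
  have h1 : (∏ i, g i) = g i * ∏ j ∈ Finset.univ.erase i, g j :=
    (Finset.mul_prod_erase _ _ (Finset.mem_univ i)).symm
  have h2 : (fun _ => 1 : E → ℤ) = uvec i + ∑ j ∈ Finset.univ.erase i, uvec j := by
    rw [← hsum]
    exact (Finset.add_sum_erase _ _ (Finset.mem_univ i)).symm
  rw [h1, h2] at hG1
  exact IsU.of_mul_left (le_atP _ _ _ (hgi i)) (le_atP _ _ _ (hprod _)) hG1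

/-- Specialisation to a closed point. -/
theorem mdl_exists_point [IsAlgClosed k] (hB : B.FG)
    (q : Ideal (mrees B J e).alg) [q.IsPrime] {g : E → K} (hg : TupIn B J g)
    (hq : ∀ i, IsU (atP (mrees B J e) q) (uvec i) (g i)) :
    ∃ χ : chartF B J g →ₐ[k] k, ∀ z ∈ ptLoc (chartF B J g) χ,
      z ∈ (atP (mrees B J e) q).s 0 := by
  have hC : chartF B J g ≤ zeroAlg (atP (mrees B J e) q) := by
    refine Algebra.adjoin_le ?_
    rintro x (hx | ⟨i, w', hw', rfl⟩)
    · exact le_atP _ _ _ (mrees_b hx)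
    · have h1 := (atP (mrees B J e) q).mul' (le_atP _ q _ (mrees_w hw')) (hq i).2.2
      rw [add_neg_cancel, ← div_eq_mul_inv] at h1
      exact h1
  obtain ⟨χ, hχ⟩ := exists_char (chartF_fg hB g)
    ((nonU (mrees B J e) q).comap (Subalgebra.inclusion hC).toRingHom)
    (Ideal.comap_ne_top _ (nonU_ne_top _ q))
  refine ⟨χ, ?_⟩
  rintro z ⟨a, b, hb, hzb⟩
  have hbU : IsU (atP (mrees B J e) q) 0 (b : K) := by
    by_contra hcon
    exact hb (hχ b hcon)
  have h2 : z = (a : K) * (b : K)⁻¹ := by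
    rw [← hzb, mul_assoc, mul_inv_cancel₀ hbU.1, mul_one]
  rw [h2]
  have h3 := (atP (mrees B J e) q).mul' (hC a.2) hbU.2.2
  rwa [neg_zero, add_zero] at h3

/-- The point below a semistable prime. -/
theorem mdl_exists_pt [IsAlgClosed k] (hB : B.FG) (h : Mdl B φ J e)
    (q : Ideal (mrees B J e).alg) [q.IsPrime] (hq : Semi (mrees B J e) (fun _ => 1) q) :
    ∃ (g : E → K) (χ : chartF B J g →ₐ[k] k), TupIn B J g ∧
      (∀ i, IsU (atP (mrees B J e) q) (uvec i) (g i)) ∧
      Pt B J (ptLoc (chartF B J g) χ) ∧ GenAt B J (ptLoc (chartF B J g) χ) g ∧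
      ∀ z ∈ ptLoc (chartF B J g) χ, z ∈ (atP (mrees B J e) q).s 0 := by
  obtain ⟨g, hg, hU⟩ := mdl_exists_unit_gens hB h q hq
  obtain ⟨χ, hχ⟩ := mdl_exists_point hB q hg hU
  exact ⟨g, χ, hg, hU, ⟨g, hg, χ, rfl⟩, ⟨hg, fun i w hw =>
    le_ptLoc' _ _ (Algebra.subset_adjoin (Or.inr ⟨i, w, hw, rfl⟩))⟩, hχ⟩

theorem mdl_int [IsAlgClosed k] (hB : B.FG) (h : Mdl B φ J e)
    (q : Ideal (mrees B J e).alg) [q.IsPrime] (hq : Semi (mrees B J e) (fun _ => 1) q) :
    IntA (mrees B J e) (fun _ => 1) q := by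
  obtain ⟨g, χ, hg, hU, -, -, -⟩ := mdl_exists_pt hB h q hq
  have hmem : ∀ i, uvec i ∈ (mrees B J e).degs q := by
    intro i
    obtain ⟨-, w, hw, hwg⟩ := hg i
    have h1 : g i ∈ (mrees B J e).s (uvec i) := by rw [← hwg]; exact mrees_uvec hw
    exact ⟨g i, h1, (isU_atP_iff _ q h1).1 (hU i)⟩
  intro d
  refine ⟨(∑ i, (d i).natAbs) + 1, Nat.succ_pos _, 1, one_pos, ?_⟩
  rw [one_nsmul, ← sum_uvec (((∑ i, (d i).natAbs) + 1) • (fun _ : E => (1 : ℤ)) + d)]
  refine sum_mem fun i _ => ?_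
  have h1 : (d i).natAbs ≤ ∑ i, (d i).natAbs :=
    Finset.single_le_sum (f := fun i => (d i).natAbs) (fun _ _ => Nat.zero_le _)
      (Finset.mem_univ i)
  have h2 : (((∑ i, (d i).natAbs) + 1) • (fun _ : E => (1 : ℤ)) + d) i =
      ((((∑ i, (d i).natAbs) + 1 : ℕ) : ℤ) + d i).toNat := by
    rw [Int.toNat_of_nonneg (by omega)]
    simp
  rw [h2, natCast_zsmul]
  exact nsmul_mem (hmem i) _

/-- The chart of the multi Rees algebra at a semistable prime. -/
theorem mdl_exists_chart [IsAlgClosed k] (hB : B.FG) (h : Mdl B φ J e)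
    (q : Ideal (mrees B J e).alg) [q.IsPrime] (hq : Semi (mrees B J e) (fun _ => 1) q) :
    ∃ (T : Set E) (C : Fam k K (E → ℤ)), Chart (mrees B J e) e q T C := by
  obtain ⟨g, χ, hg, hU, hPt, hgen, hR⟩ := mdl_exists_pt hB h q hq
  set R := ptLoc (chartF B J g) χ with hRdef
  have hg0 : ∀ i, g i ≠ 0 := fun i => (hg i).1
  obtain ⟨h', x, y, Dx, Dy, s, t, b, V, hp⟩ := h.pt R hPt
  have hxi : ∀ j, UnitIn R (xi g e j / xi h' e j) := fun j => hp.gen.xi_unit hgen e j
  have hxi0 : ∀ j, xi h' e j ≠ 0 := by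
    intro j h0
    have := (hxi j).1
    rw [h0, div_zero] at this
    exact this rfl
  have hx1 : ∀ j, b j = some false → UnitIn R (xi g e j / x) := by
    intro j hj
    have := (hxi j).mul (hp.bx j hj)
    rwa [div_mul_div_cancel₀ (hxi0 j)] at this
  have hy1 : ∀ j, b j = some true → UnitIn R (xi g e j / y) := by
    intro j hj
    have := (hxi j).mul (hp.by' j hj)
    rwa [div_mul_div_cancel₀ (hxi0 j)] at this
  have h01 : ∀ j, b j = none → UnitIn R (xi g e j) := by
    intro j hj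
    have := (hxi j).mul (hp.b0 j hj)
    rwa [div_mul_cancel₀ _ (hxi0 j)] at this
  -- the coordinates
  obtain ⟨u, hu, hu'⟩ : ∃ u, UnitIn R u ∧ ∀ j, b j = some false → xi g e j = x * u := by
    by_cases hh : ∃ j, b j = some false
    · obtain ⟨j, hj⟩ := hh
      refine ⟨xi g e j / x, hx1 j hj, fun j' hj' => ?_⟩
      have : j' = j := hp.inj j' j (by rw [hj']; simp) (by rw [hj', hj])
      rw [this, mul_div_cancel₀]
      exact hp.reg.x_ne
    · exact ⟨1, unitIn_one R, fun j hj => absurd ⟨j, hj⟩ hh⟩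
  obtain ⟨v, hv, hv'⟩ : ∃ v, UnitIn R v ∧ ∀ j, b j = some true → xi g e j = y * v := by
    by_cases hh : ∃ j, b j = some true
    · obtain ⟨j, hj⟩ := hh
      refine ⟨xi g e j / y, hy1 j hj, fun j' hj' => ?_⟩
      have : j' = j := hp.inj j' j (by rw [hj']; simp) (by rw [hj', hj])
      rw [this, mul_div_cancel₀]
      exact hp.reg.symm.x_ne
    · exact ⟨1, unitIn_one R, fun j hj => absurd ⟨j, hj⟩ hh⟩
  obtain ⟨Dx', Dy', hreg⟩ := hp.reg.scale hu hv
  obtain ⟨C₀, χ₀, hx0, hy0, hR0, -, -, het⟩ := hreg.et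
  have hC₀ : C₀.FG := by
    rw [Subalgebra.fg_iff_finiteType]
    let ρ : MvPolynomial (Fin 2) k →ₐ[k] C₀ :=
      MvPolynomial.aeval ![(⟨x * u, hx0⟩ : C₀), ⟨y * v, hy0⟩]
    let _ := ρ.toRingHom.toAlgebra
    have h1 : Algebra.Etale (MvPolynomial (Fin 2) k) C₀ := het
    have h2 : IsScalarTower k (MvPolynomial (Fin 2) k) C₀ :=
      IsScalarTower.of_algebraMap_eq fun r => (ρ.commutes r).symm
    have h3 : Algebra.FiniteType (MvPolynomial (Fin 2) k) C₀ := inferInstance
    exact Algebra.FiniteType.trans inferInstance h3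
  have hfs : (MvPolynomial.aeval ![(⟨x * u, hx0⟩ : C₀), ⟨y * v, hy0⟩] :
      MvPolynomial (Fin 2) k →ₐ[k] C₀).toRingHom.FormallySmooth :=
    ((RingHom.etale_iff_formallyUnramified_and_smooth _).1 het).2.formallySmooth
  -- the neighbourhood
  have hxiR : ∀ j, xi g e j ∈ R := by
    intro j
    rcases hb : b j with _ | _ | _
    · exact (h01 j hb).2.1
    · rw [hu' j hb]
      exact hreg.hx
    · rw [hv' j hb]
      exact hreg.hy
  obtain ⟨f, hf, hχf, hD⟩ := exists_awaySub χ₀
    (D := chartF B J g ⊔ Algebra.adjoin k (Set.range fun j => xi g e j))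
    (Subalgebra.FG.sup (chartF_fg hB g)
      (Subalgebra.fg_def.2 ⟨_, Set.finite_range (fun j => xi g e j), rfl⟩)) (by
      rw [← hR0]
      refine sup_le (le_ptLoc' _ _) (Algebra.adjoin_le ?_)
      rintro _ ⟨j, rfl⟩
      exact hxiR j)
  have hf0 : f ≠ 0 := by
    rintro rfl
    apply hχf
    have : (⟨0, hf⟩ : C₀) = 0 := rfl
    rw [this, map_zero]
  set C' := awaySub C₀ hf with hC'
  have hC'R : C' ≤ R := by rw [hR0]; exact awaySub_le_ptLoc hf hχf
  have hch : chartF B J g ≤ C' := le_sup_left.trans hD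
  have hxiC : ∀ j, xi g e j ∈ C' := fun j =>
    hD (le_sup_right (a := chartF B J g) (Algebra.subset_adjoin ⟨j, rfl⟩))
  have hsec : ∀ j, (1 : K) ∈ (twist C' g hg0).s (-(e j)) := by
    intro j
    rw [mem_twist, mon_neg, one_div, inv_inv]
    exact hxiC j
  -- the smoothness
  let τ : {j | b j ≠ none} → Fin 2 := fun j => if b j = some false then 0 else 1
  have hτ : Function.Injective τ := by
    intro j j' hjj
    refine Subtype.ext (hp.inj j j' j.2 ?_)
    rcases hb : b j with _ | _ | _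
    · exact absurd hb j.2
    · have h1 : τ j = 0 := if_pos hb
      rw [h1] at hjj
      by_contra h2
      have h3 : τ j' = 1 := if_neg fun h4 => h2 h4.symm
      rw [h3] at hjj
      exact absurd hjj (by decide)
    · have h1 : τ j = 1 := if_neg (by rw [hb]; simp)
      rw [h1] at hjj
      rcases hb' : b j' with _ | _ | _
      · exact absurd hb' j'.2
      · have h3 : τ j' = 0 := if_pos hb'
        rw [h3] at hjj
        exact absurd hjj (by decide)
      · rfl
  have hξfs : (MvPolynomial.aeval (fun j : {j | b j ≠ none} => (⟨xi g e j, hxiC j⟩ : C')) :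
      MvPolynomial {j | b j ≠ none} k →ₐ[k] C').toRingHom.FormallySmooth := by
    have h1 := ((formallySmooth_rename (k := k) τ hτ).comp hfs).comp
      (formallySmooth_awaySub hf hf0)
    convert h1 using 1
    refine MvPolynomial.ringHom_ext (fun c => ?_) fun j => ?_
    · simp
      rfl
    · have h2 : (MvPolynomial.aeval ![(⟨x * u, hx0⟩ : C₀), ⟨y * v, hy0⟩] :
          MvPolynomial (Fin 2) k →ₐ[k] C₀) (MvPolynomial.X (τ j)) = xi g e j := by
        rw [MvPolynomial.aeval_X]
        rcases hb : b j with _ | _ | _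
        · exact absurd hb j.2
        · have h1 : τ j = 0 := if_pos hb
          rw [h1, hu' j hb]
          rfl
        · have h1 : τ j = 1 := if_neg (by rw [hb]; simp)
          rw [h1, hv' j hb]
          rfl
      refine Subtype.ext ?_
      simp only [AlgHom.toRingHom_eq_coe, RingHom.coe_coe, RingHom.comp_apply,
        MvPolynomial.aeval_X, MvPolynomial.rename_X, Subalgebra.coe_inclusion]
      rw [MvPolynomial.aeval_X] at h2
      exact h2.symm
  have hge : ∀ d, (twist C' g hg0).s d ≤ (atP (mrees B J e) q).s d := by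
    intro d z hz
    have h1 := (atP (mrees B J e) q).mul' (hR _ (hC'R hz)) (isU_mon hU d).2.1
    rwa [div_mul_cancel₀ _ (mon_ne hg0 d), zero_add] at h1
  refine ⟨{j | b j ≠ none}, twist C' g hg0, ?_, ?_, hge, twist_fg hg0 (awaySub_fg hf hC₀ hf0),
    hsec, twist_smooth hg0 e _ hsec _ (fun _ => rfl) hξfs⟩
  · intro j hj
    have hj' : b j = none := by
      by_contra h1
      exact hj h1
    have h1 := (isU_unit_mul (N := atP (mrees B J e) q) hR (h01 j hj')).inv.mul (isU_mon hU (e j))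
    rw [neg_zero, zero_add] at h1
    have h2 : (xi g e j)⁻¹ * mon g (e j) = 1 := inv_mul_cancel₀ (h01 j hj').1
    rw [h2] at h1
    exact h1.2.1
  · have hle : Algebra.adjoin k (mgens B J e) ≤ (twist C' g hg0).alg := by
      refine Algebra.adjoin_le ?_
      rintro _ (((⟨b, hb, rfl⟩ | ⟨i, w, hw, rfl⟩) | ⟨i, rfl⟩) | ⟨j, rfl⟩)
      · refine Fam.single_mem_alg.2 ?_
        rw [mem_twist, mon_zero, div_one]
        exact hch (Algebra.subset_adjoin (Or.inl hb))
      · refine Fam.single_mem_alg.2 ?_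
        rw [mem_twist, mon_uvec]
        exact hch (Algebra.subset_adjoin (Or.inr ⟨i, w, hw, rfl⟩))
      · refine Fam.single_mem_alg.2 ?_
        rw [mem_twist, mon_neg, mon_uvec, one_div, inv_inv]
        obtain ⟨-, w, -, hwg⟩ := hg i
        rw [← hwg]
        exact hch (Algebra.subset_adjoin (Or.inl w.2))
      · exact Fam.single_mem_alg.2 (hsec j)
    intro d z hz
    exact Fam.single_mem_alg.1 (hle hz)

theorem mdl_tor [IsAlgClosed k] (hB : B.FG) (h : Mdl B φ J e) :
    Tor (mrees B J e) (fun _ => 1) e where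
  fg := mrees_fg hB
  sec := mrees_sec
  neg := fun n => mrees_nonpos fun i => by simp
  nontriv := by
    choose w hw hw0 using fun i => Submodule.exists_mem_ne_zero_of_ne_bot (h.ne i)
    refine ⟨1, one_pos, ∏ i, (w i : K), ?_, Finset.prod_ne_zero_iff.2 fun i _ => ?_⟩
    · have key : ∀ s : Finset E, ∏ i ∈ s, (w i : K) ∈ (mrees B J e).s (∑ i ∈ s, uvec i) := by
        intro s
        induction s using Finset.induction_on with
        | empty => rw [Finset.prod_empty, Finset.sum_empty]; exact (mrees B J e).one'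
        | insert i s hi ih =>
          rw [Finset.prod_insert hi, Finset.sum_insert hi]
          exact (mrees B J e).mul' (mrees_uvec (hw i)) ih
      have h1 : ∑ i : E, uvec i = 1 • (fun _ : E => (1 : ℤ)) := by
        have := sum_uvec (fun _ : E => (1 : ℤ))
        simpa using this
      rw [← h1]
      exact key _
    · exact fun h0 => hw0 i (Subtype.ext h0)
  gen := fun d => ⟨fun i => -|d i|, mrees_nonpos fun i => neg_nonpos.2 (abs_nonneg _),
    mrees_nonpos fun i => by
      have := le_abs_self (d i)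
      simp only [Pi.add_apply]
      omega⟩
  int := fun q _ hq => mdl_int hB h q hq
  chart := fun q _ hq => mdl_exists_chart hB h q hq

end Pool.Agent.MP_b525bf_ag_S
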